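import Mathlib

/-!
BNR: deterministic black-box noncommutative rank.  Common definitions.
Paper proof: /team-store/bnr_proof.md
-/

set_option autoImplicit false

namespace Pool.Agent.BNR

open Module Matrix

variable {K : Type*} [Field K] {n m : ℕ}

/-- the vectors `v` of `B` with `hᵀ M v = 0` for all `h ∈ A` -/
def ann (M : Matrix (Fin n) (Fin n) K) (A B : Submodule K (Fin n → K)) :
    Submodule K (Fin n → K) where
  carrier := {v | v ∈ B ∧ ∀ h ∈ A, h ⬝ᵥ (M *ᵥ v) = 0}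
  add_mem' := by
    rintro x y ⟨hx, hx'⟩ ⟨hy, hy'⟩
    refine ⟨B.add_mem hx hy, fun h hh => ?_⟩
    rw [mulVec_add, dotProduct_add, hx' h hh, hy' h hh, add_zero]
  zero_mem' := ⟨B.zero_mem, fun h _ => by simp⟩
  smul_mem' := by
    rintro c x ⟨hx, hx'⟩
    refine ⟨B.smul_mem c hx, fun h hh => ?_⟩
    rw [mulVec_smul, dotProduct_smul, hx' h hh, smul_zero]

/-- the rank of the bilinear form `(h, v) ↦ hᵀ M v` on `A × B` -/
noncomputable def rho (M : Matrix (Fin n) (Fin n) K) (A B : Submodule K (Fin n → K)) : ℤ :=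
  (finrank K B : ℤ) - finrank K (ann M A B)

/-- noncommutative rank of `∑ L e x_e` at least `r`: a zero block of size `dim A × dim B` (in some
bases) has `dim A + dim B ≤ 2 n - r` -/
def NcRk (L : Fin m → Matrix (Fin n) (Fin n) K) (r : ℕ) : Prop :=
  ∀ A B : Submodule K (Fin n → K), (∀ e, ∀ h ∈ A, ∀ v ∈ B, h ⬝ᵥ (L e *ᵥ v) = 0) →
    finrank K A + finrank K B + r ≤ 2 * n

/-- decreasing family of subspaces, everything for very negative index and `0` for very large
index -/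
def IsFlag (S : ℤ → Submodule K (Fin n → K)) : Prop :=
  Antitone S ∧ (∃ B : ℤ, ∀ b ≤ B, S b = ⊤) ∧ ∃ B : ℤ, ∀ b ≥ B, S b = ⊥

/-- bounded by `C` -/
def Bdd (C : ℕ) (S : ℤ → Submodule K (Fin n → K)) : Prop :=
  (∀ b ≤ -(C : ℤ), S b = ⊤) ∧ ∀ b ≥ (C : ℤ), S b = ⊥

/-- the potential function, computed in the window `[-C, C]` (it does not depend on `C` when `C` is
large) -/
noncomputable def gw (N : ℕ) (L : Fin m → Matrix (Fin n) (Fin n) K) (C : ℕ)
    (H V : ℤ → Submodule K (Fin n → K)) : ℤ :=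
  (∑ e, ∑ s ∈ Finset.range N, ∑ a ∈ Finset.Icc (-(C : ℤ)) C,
      rho (L e) (H a) (V ((s : ℤ) + 1 - a))) -
    N * ((∑ a ∈ Finset.Icc (-(C : ℤ)) C, (finrank K (H a) : ℤ)) +
      (∑ b ∈ Finset.Icc (-(C : ℤ)) C, (finrank K (V b) : ℤ)) - 2 * n * (C + 1))

/-- the vectors supported on the coordinates of weight at least `b` -/
def cf (w : Fin n → ℤ) (b : ℤ) : Submodule K (Fin n → K) where
  carrier := {v | ∀ j, v j ≠ 0 → b ≤ w j}
  add_mem' := by
    intro x y hx hy j hj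
    by_contra hb
    have h1 : x j = 0 := by by_contra h; exact hb (hx j h)
    have h2 : y j = 0 := by by_contra h; exact hb (hy j h)
    exact hj (by simp [h1, h2])
  zero_mem' := by intro j hj; simp at hj
  smul_mem' := by
    intro c x hx j hj
    exact hx j (fun h => hj (by simp [h]))

/-- Bruhat decomposition of a matrix with respect to weights of rows and columns -/
structure Pieces (A : Matrix (Fin n) (Fin n) K) (α β : Fin n → ℤ) where
  k : ℕ
  a : Fin k → Fin n → K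
  b : Fin k → Fin n → K
  i : Fin k → Fin n
  j : Fin k → Fin n
  sum : A = ∑ p, vecMulVec (a p) (b p)
  ha : ∀ p i', a p i' ≠ 0 → α i' ≤ α (i p)
  hb : ∀ p j', b p j' ≠ 0 → β j' ≤ β (j p)
  ai : ∀ p, a p (i p) ≠ 0
  bj : ∀ p, b p (j p) ≠ 0
  ai0 : ∀ p p', p < p' → a p' (i p) = 0
  bj0 : ∀ p p', p < p' → b p' (j p) = 0

/-- the elements of `W` killed by the functionals `b p`, `p` in a set -/
def kil {k : ℕ} (b : Fin k → Fin n → K) (s : Set (Fin k)) (W : Submodule K (Fin n → K)) :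
    Submodule K (Fin n → K) where
  carrier := {w | w ∈ W ∧ ∀ p ∈ s, b p ⬝ᵥ w = 0}
  add_mem' := by
    rintro x y ⟨hx, hx'⟩ ⟨hy, hy'⟩
    refine ⟨W.add_mem hx hy, fun p hp => ?_⟩
    rw [dotProduct_add, hx' p hp, hy' p hp, add_zero]
  zero_mem' := ⟨W.zero_mem, fun p _ => by simp⟩
  smul_mem' := by
    rintro c x ⟨hx, hx'⟩
    refine ⟨W.smul_mem c hx, fun p hp => ?_⟩
    rw [dotProduct_smul, hx' p hp, smul_zero]

/-- the explicit Hankel matrices `T_e(t)[a, b] = ∑ r < N, t ^ r * c ^ ((e * N + r) * (a + b))` -/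
def T (c t : K) (N e : ℕ) : Matrix (Fin N) (Fin N) K :=
  fun a b => ∑ r ∈ Finset.range N, t ^ r * c ^ ((e * N + r) * ((a : ℕ) + b))

/-- the value `∑ L e ⊗ Y e` of a linear matrix at a tuple of matrices -/
def ev {ι : Type*} (L : Fin m → Matrix (Fin n) (Fin n) K) (Y : Fin m → Matrix ι ι K) :
    Matrix (Fin n × ι) (Fin n × ι) K :=
  ∑ e, kroneckerMap (· * ·) (L e) (Y e)

end Pool.Agent.BNR
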