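import Mathlib
import Pool.Agent.BNR.Defs

/-!
BNR-Adp: adapted bases of a flag of subspaces.
-/

set_option autoImplicit false

namespace Pool.Agent.BNR

open Module Matrix

variable {K : Type*} [Field K] {n m : ℕ}

private theorem adp_nu (C : ℕ) (S : ℤ → Submodule K (Fin n → K)) (h : Antitone S)
    (hC : Bdd C S) : ∃ ν : (Fin n → K) → ℤ, ∀ v, v ≠ 0 → ν v ≤ C ∧ ∀ b, v ∈ S b ↔ b ≤ ν v := by
  have key : ∀ v : Fin n → K, ∃ z : ℤ, v ≠ 0 → z ≤ C ∧ ∀ b, v ∈ S b ↔ b ≤ z := by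
    intro v
    by_cases hv : v = 0
    · exact ⟨0, fun h => absurd hv h⟩
    · have hb : ∀ z : ℤ, v ∈ S z → z ≤ C := by
        intro z hz
        by_contra hcon
        push Not at hcon
        rw [hC.2 z hcon.le] at hz
        exact hv ((Submodule.mem_bot K).1 hz)
      obtain ⟨z, hz, hz'⟩ := Int.exists_greatest_of_bdd (P := fun z => v ∈ S z) ⟨C, hb⟩
        ⟨-(C : ℤ), by rw [hC.1 _ le_rfl]; exact Submodule.mem_top⟩
      exact ⟨z, fun _ => ⟨hb z hz, fun b => ⟨fun hb' => hz' b hb', fun hb' => h hb' hz⟩⟩⟩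
  choose ν hν using key
  exact ⟨ν, hν⟩

private theorem adp_col_ne {P : Matrix (Fin n) (Fin n) K} (hP : IsUnit P) (j : Fin n) :
    (fun i => P i j) ≠ 0 := by
  intro h0
  have h1 : P.det = 0 := Matrix.det_eq_zero_of_column_eq_zero j fun i => congrFun h0 i
  have h2 := (Matrix.isUnit_iff_isUnit_det P).1 hP
  rw [h1] at h2
  exact not_isUnit_zero h2

private theorem adp_upd {P : Matrix (Fin n) (Fin n) K} (hP : IsUnit P) (x : Fin n → K) (j : Fin n)
    (hx : x j ≠ 0) : IsUnit (P.updateCol j (P *ᵥ x)) := by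
  have h2 := (Matrix.isUnit_iff_isUnit_det P).1 hP
  have h3 : P *ᵥ Matrix.cramer P (P *ᵥ x) = P *ᵥ (P.det • x) := by
    rw [Matrix.mulVec_cramer, Matrix.mulVec_smul]
  have h5 : ∀ y, P⁻¹ *ᵥ (P *ᵥ y) = y := fun y => by
    rw [Matrix.mulVec_mulVec, Matrix.nonsing_inv_mul P h2, Matrix.one_mulVec]
  have h4 : Matrix.cramer P (P *ᵥ x) = P.det • x := by
    rw [← h5 (Matrix.cramer P (P *ᵥ x)), h3, h5]
  rw [Matrix.isUnit_iff_isUnit_det, ← Matrix.cramer_apply, h4, Pi.smul_apply, smul_eq_mul]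
  exact h2.mul hx.isUnit

private theorem adp_max (C : ℕ) (ν : (Fin n → K) → ℤ) (hν : ∀ v, v ≠ 0 → ν v ≤ C) :
    ∃ P : Matrix (Fin n) (Fin n) K, IsUnit P ∧ ∀ P' : Matrix (Fin n) (Fin n) K, IsUnit P' →
      ∑ j, ν (fun i => P' i j) ≤ ∑ j, ν (fun i => P i j) := by
  obtain ⟨z, ⟨P, hP, hz⟩, hz'⟩ := Int.exists_greatest_of_bdd
    (P := fun z => ∃ P : Matrix (Fin n) (Fin n) K, IsUnit P ∧ z = ∑ j, ν (fun i => P i j))
    ⟨n * C, by
      rintro z ⟨P, hP, rfl⟩
      calc ∑ j, ν (fun i => P i j) ≤ ∑ _j : Fin n, (C : ℤ) :=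
            Finset.sum_le_sum fun j _ => hν _ (adp_col_ne hP j)
        _ = n * C := by simp⟩
    ⟨_, 1, isUnit_one, rfl⟩
  refine ⟨P, hP, fun P' hP' => ?_⟩
  rw [← hz]
  exact hz' _ ⟨P', hP', rfl⟩

private theorem adp_mulVec (P : Matrix (Fin n) (Fin n) K) (x : Fin n → K) :
    P *ᵥ x = ∑ j, x j • (fun i => P i j) := by
  funext i
  rw [Finset.sum_apply, Matrix.mulVec, dotProduct]
  refine Finset.sum_congr rfl fun j _ => ?_
  rw [Pi.smul_apply, smul_eq_mul, mul_comm]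

theorem adapted (C : ℕ) (S : ℤ → Submodule K (Fin n → K)) (h : Antitone S) (hC : Bdd C S) :
    ∃ (P : Matrix (Fin n) (Fin n) K) (w : Fin n → ℤ), IsUnit P ∧
      ∀ b, S b = (cf w b).map P.mulVecLin := by
  obtain ⟨ν, hν⟩ := adp_nu C S h hC
  obtain ⟨P, hP, hmax⟩ := adp_max C ν fun v hv => (hν v hv).1
  refine ⟨P, fun j => ν (fun i => P i j), hP, fun b => ?_⟩
  have h2 := (Matrix.isUnit_iff_isUnit_det P).1 hP
  apply le_antisymm
  · intro v hv
    have hPx : P *ᵥ (P⁻¹ *ᵥ v) = v := by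
      rw [Matrix.mulVec_mulVec, Matrix.mul_nonsing_inv P h2, Matrix.one_mulVec]
    refine ⟨P⁻¹ *ᵥ v, ?_, hPx⟩
    set x := P⁻¹ *ᵥ v with hx
    intro j hj
    by_contra hcon
    push Not at hcon
    have hv0 : v ≠ 0 := by
      intro h0
      rw [h0, Matrix.mulVec_zero] at hx
      rw [hx] at hj
      exact hj rfl
    have hU := adp_upd hP x j hj
    rw [hPx] at hU
    have h3 := hmax _ hU
    have h4 : ∑ k, ν (fun i => P.updateCol j v i k) =
        ν v + ∑ k ∈ Finset.univ.erase j, ν (fun i => P i k) := by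
      rw [← Finset.add_sum_erase _ _ (Finset.mem_univ j)]
      congr 1
      · congr 1
        funext i
        rw [Matrix.updateCol_self]
      · refine Finset.sum_congr rfl fun k hk => ?_
        congr 1
        funext i
        rw [Matrix.updateCol_ne (Finset.ne_of_mem_erase hk)]
    rw [h4, ← Finset.add_sum_erase _ _ (Finset.mem_univ j)] at h3
    have h5 : b ≤ ν v := ((hν v hv0).2 b).1 hv
    linarith
  · rintro _ ⟨x, hx, rfl⟩
    rw [Matrix.mulVecLin_apply, adp_mulVec]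
    refine Submodule.sum_mem _ fun j _ => ?_
    by_cases hj : x j = 0
    · rw [hj, zero_smul]
      exact Submodule.zero_mem _
    · exact Submodule.smul_mem _ _ (((hν _ (adp_col_ne hP j)).2 b).2 (hx j hj))

end Pool.Agent.BNR
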