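import Mathlib
import Pool.Agent.BNR.Defs

/-!
BNR-Aug: a linear matrix of noncommutative rank at least `r` is a part of an nc-full one.

PLAN.  `q = n - r`.  `Fin (2 n - r) ≃ Fin n ⊕ Fin q`.  `L'` = in block form `[[L, U], [W, 0]]`, with one new
variable for each entry of `U` (`n × q`) and of `W` (`q × n`): for `e < m` `L' e = [[L e, 0], [0, 0]]`, and the
further `2 n q` matrices are the elementary matrices `E_(i, n + j)` and `E_(n + j, i)`, `i < n`, `j < q`.
`NcRk L' (2n - r)`: let `A'`, `B'` be annihilated by all `L' e`, i.e. (for `h = (h1, h2) ∈ A'`, `v = (v1, v2) ∈ B'`)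
`h1ᵀ L_e v1 = 0`, `h1 i * v2 j = 0`, `h2 j * v1 i = 0` for all `i`, `j`.  Cases:
(1) `h1 = 0` for all `h ∈ A'` or not; `v2 = 0` for all `v ∈ B'` if not (take `h` with `h1 i ≠ 0`).
(2) `h2 = 0` for all `h ∈ A'`, or else `v1 = 0` for all `v ∈ B'`.
 - `h1 = 0`, `h2 = 0`: `A' = 0`, `dim B' ≤ 2n - r`.   - `v2 = 0`, `v1 = 0`: `B' = 0`.
 - `h1 = 0` on `A'` and `v1 = 0` on `B'`: `dim A' + dim B' ≤ 2 q ≤ 2n - r` (`q ≤ n`).
 - `v2 = 0` on `B'` and `h2 = 0` on `A'`: `A'`, `B'` are (images of) subspaces of `Fin n → K`, `NcRk L r`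
   gives `dim A' + dim B' ≤ 2n - r`.
(all dimensions `≤ 2(2n-r) - (2n-r) = 2n - r`).
Rank: `ev L' Y` is, up to reindexing, `fromBlocks (ev L Y) (U(Y)) (W(Y)) 0`, so its rank is at most
`rank (ev L Y)` + (number of the other rows `q * card ι`) + (number of the other columns `q * card ι`).
-/

set_option autoImplicit false

namespace Pool.Agent.BNR

open Module Matrix

variable {K : Type*} [Field K] {n m : ℕ}

private theorem Aug_rank_add {a b : Type*} [Fintype a] [Fintype b] (A B : Matrix a b K) :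
    (A + B).rank ≤ A.rank + B.rank := by
  classical
  have h1 : LinearMap.range (A + B).mulVecLin ≤
      LinearMap.range A.mulVecLin ⊔ LinearMap.range B.mulVecLin := by
    rintro x ⟨y, rfl⟩
    rw [Matrix.mulVecLin_add, LinearMap.add_apply]
    exact Submodule.add_mem_sup ⟨y, rfl⟩ ⟨y, rfl⟩
  unfold Matrix.rank
  exact (Submodule.finrank_mono h1).trans (Submodule.finrank_add_le_finrank_add_finrank _ _)

private theorem Aug_rank11 {a b c d : Type*} [Fintype a] [Fintype b] [Fintype c] [Fintype d]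
    [DecidableEq a] [DecidableEq b] (A : Matrix a b K) :
    (fromBlocks A 0 0 0 : Matrix (a ⊕ c) (b ⊕ d) K).rank ≤ A.rank := by
  classical
  have h1 : (fromBlocks A 0 0 0 : Matrix (a ⊕ c) (b ⊕ d) K) =
      (fromRows (1 : Matrix a a K) (0 : Matrix c a K)) * (A * (fromCols (1 : Matrix b b K)
        (0 : Matrix b d K))) := by
    ext i j
    rcases i with i | i <;> rcases j with j | j <;> simp [Matrix.mul_fromCols, Matrix.fromRows_mul]
  rw [h1]
  exact (rank_mul_le_right _ _).trans (rank_mul_le_left _ _)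

private theorem Aug_rank12 {a b c d : Type*} [Fintype a] [Fintype b] [Fintype c] [Fintype d]
    [DecidableEq a] [DecidableEq d] (A : Matrix a d K) :
    (fromBlocks 0 A 0 0 : Matrix (a ⊕ c) (b ⊕ d) K).rank ≤ A.rank := by
  classical
  have h1 : (fromBlocks 0 A 0 0 : Matrix (a ⊕ c) (b ⊕ d) K) =
      (fromRows (1 : Matrix a a K) (0 : Matrix c a K)) * (A * (fromCols (0 : Matrix d b K)
        (1 : Matrix d d K))) := by
    ext i j
    rcases i with i | i <;> rcases j with j | j <;> simp [Matrix.mul_fromCols, Matrix.fromRows_mul]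
  rw [h1]
  exact (rank_mul_le_right _ _).trans (rank_mul_le_left _ _)

private theorem Aug_rank21 {a b c d : Type*} [Fintype a] [Fintype b] [Fintype c] [Fintype d]
    [DecidableEq c] [DecidableEq b] (A : Matrix c b K) :
    (fromBlocks 0 0 A 0 : Matrix (a ⊕ c) (b ⊕ d) K).rank ≤ A.rank := by
  classical
  have h1 : (fromBlocks 0 0 A 0 : Matrix (a ⊕ c) (b ⊕ d) K) =
      (fromRows (0 : Matrix a c K) (1 : Matrix c c K)) * (A * (fromCols (1 : Matrix b b K)
        (0 : Matrix b d K))) := by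
    ext i j
    rcases i with i | i <;> rcases j with j | j <;> simp [Matrix.mul_fromCols, Matrix.fromRows_mul]
  rw [h1]
  exact (rank_mul_le_right _ _).trans (rank_mul_le_left _ _)

private theorem Aug_rank_blocks {a b c d : Type*} [Fintype a] [Fintype b] [Fintype c] [Fintype d]
    [DecidableEq a] [DecidableEq b] [DecidableEq c] [DecidableEq d]
    (A : Matrix a b K) (B : Matrix a d K) (C : Matrix c b K) :
    (fromBlocks A B C 0 : Matrix (a ⊕ c) (b ⊕ d) K).rank ≤
      A.rank + Fintype.card d + Fintype.card c := by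
  have h1 : (fromBlocks A B C 0 : Matrix (a ⊕ c) (b ⊕ d) K) =
      (fromBlocks A 0 0 0 + fromBlocks 0 B 0 0) + fromBlocks 0 0 C 0 := by
    simp [Matrix.fromBlocks_add]
  rw [h1]
  refine (Aug_rank_add _ _).trans ?_
  have h2 := Aug_rank_add (fromBlocks A 0 0 0 : Matrix (a ⊕ c) (b ⊕ d) K) (fromBlocks 0 B 0 0)
  have h3 := Aug_rank11 (c := c) (d := d) A
  have h4 := (Aug_rank12 (c := c) (b := b) B).trans (rank_le_card_width B)
  have h5 := (Aug_rank21 (a := a) (d := d) C).trans (rank_le_card_height C)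
  omega

private theorem Aug_dot {N q : ℕ} (φ : Fin n ⊕ Fin q ≃ Fin N)
    (M : Matrix (Fin n ⊕ Fin q) (Fin n ⊕ Fin q) K) (h v : Fin N → K) :
    h ⬝ᵥ (M.submatrix φ.symm φ.symm *ᵥ v) = (h ∘ φ) ⬝ᵥ (M *ᵥ (v ∘ φ)) := by
  rw [submatrix_mulVec_equiv, Equiv.symm_symm, dotProduct_comp_equiv_symm]

private theorem Aug_dot11 {q : ℕ} (A : Matrix (Fin n) (Fin n) K) (h v : Fin n ⊕ Fin q → K) :
    h ⬝ᵥ ((fromBlocks A 0 0 0 : Matrix (Fin n ⊕ Fin q) (Fin n ⊕ Fin q) K) *ᵥ v) =
      (h ∘ Sum.inl) ⬝ᵥ (A *ᵥ (v ∘ Sum.inl)) := by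
  rw [fromBlocks_mulVec]
  simp [dotProduct, Fintype.sum_sum_type]

private theorem Aug_dot12 {q : ℕ} (i : Fin n) (j : Fin q) (h v : Fin n ⊕ Fin q → K) :
    h ⬝ᵥ ((fromBlocks 0 (Matrix.single i j 1) 0 0 :
      Matrix (Fin n ⊕ Fin q) (Fin n ⊕ Fin q) K) *ᵥ v) = h (Sum.inl i) * v (Sum.inr j) := by
  rw [fromBlocks_mulVec]
  simp [dotProduct, Fintype.sum_sum_type, Matrix.mulVec, Matrix.single, Finset.sum_ite,
    Matrix.of_apply, ite_and]

private theorem Aug_dot21 {q : ℕ} (i : Fin n) (j : Fin q) (h v : Fin n ⊕ Fin q → K) :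
    h ⬝ᵥ ((fromBlocks 0 0 (Matrix.single j i 1) 0 :
      Matrix (Fin n ⊕ Fin q) (Fin n ⊕ Fin q) K) *ᵥ v) = h (Sum.inr j) * v (Sum.inl i) := by
  rw [fromBlocks_mulVec]
  simp [dotProduct, Fintype.sum_sum_type, Matrix.mulVec, Matrix.single, Finset.sum_ite,
    Matrix.of_apply, ite_and]

private theorem Aug_nc (L : Fin m → Matrix (Fin n) (Fin n) K) (r q : ℕ) (hq : n = q + r)
    (hL : NcRk L r) {N : ℕ} (hN : N = 2 * n - r) (φ : Fin n ⊕ Fin q ≃ Fin N)
    (A B : Submodule K (Fin N → K))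
    (h11 : ∀ e, ∀ h ∈ A, ∀ v ∈ B, ((h ∘ φ) ∘ Sum.inl) ⬝ᵥ (L e *ᵥ ((v ∘ φ) ∘ Sum.inl)) = 0)
    (h12 : ∀ h ∈ A, ∀ v ∈ B, ∀ i j, h (φ (Sum.inl i)) * v (φ (Sum.inr j)) = 0)
    (h21 : ∀ h ∈ A, ∀ v ∈ B, ∀ i j, h (φ (Sum.inr j)) * v (φ (Sum.inl i)) = 0) :
    finrank K A + finrank K B + N ≤ 2 * N := by
  classical
  have hA : finrank K A ≤ N := by
    have := Submodule.finrank_le A
    simpa using this
  have hB : finrank K B ≤ N := by
    have := Submodule.finrank_le B
    simpa using this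
  -- the two projections
  let p1 : (Fin N → K) →ₗ[K] (Fin n → K) := LinearMap.funLeft K K (fun i => φ (Sum.inl i))
  let p2 : (Fin N → K) →ₗ[K] (Fin q → K) := LinearMap.funLeft K K (fun j => φ (Sum.inr j))
  have key : ∀ h : Fin N → K, p1 h = 0 → p2 h = 0 → h = 0 := by
    intro h a1 a2
    funext k
    obtain ⟨s, rfl⟩ := φ.surjective k
    rcases s with i | j
    · exact congrFun a1 i
    · exact congrFun a2 j
  have c1 : (∀ h ∈ A, p1 h = 0) ∨ (∀ v ∈ B, p2 v = 0) := by
    by_contra hc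
    push_neg at hc
    obtain ⟨⟨h, hh, hh0⟩, ⟨v, hv, hv0⟩⟩ := hc
    obtain ⟨i, hi⟩ := Function.ne_iff.1 hh0
    obtain ⟨j, hj⟩ := Function.ne_iff.1 hv0
    rcases mul_eq_zero.1 (h12 h hh v hv i j) with h0 | h0
    · exact hi h0
    · exact hj h0
  have c2 : (∀ h ∈ A, p2 h = 0) ∨ (∀ v ∈ B, p1 v = 0) := by
    by_contra hc
    push_neg at hc
    obtain ⟨⟨h, hh, hh0⟩, ⟨v, hv, hv0⟩⟩ := hc
    obtain ⟨j, hj⟩ := Function.ne_iff.1 hh0
    obtain ⟨i, hi⟩ := Function.ne_iff.1 hv0
    rcases mul_eq_zero.1 (h21 h hh v hv i j) with h0 | h0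
    · exact hj h0
    · exact hi h0
  have zero_dim : ∀ S : Submodule K (Fin N → K), (∀ h ∈ S, h = 0) → finrank K S = 0 := by
    intro S hS
    have : S = ⊥ := (Submodule.eq_bot_iff S).2 hS
    rw [this]
    exact finrank_bot K _
  have dim_map : ∀ {d : ℕ} (p : (Fin N → K) →ₗ[K] (Fin d → K)) (S : Submodule K (Fin N → K)),
      (∀ h ∈ S, p h = 0 → h = 0) → finrank K (S.map p) = finrank K S := by
    intro d p S hS
    rw [← LinearMap.range_domRestrict]
    apply LinearMap.finrank_range_of_inj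
    rw [← LinearMap.ker_eq_bot, LinearMap.ker_eq_bot']
    intro x hx
    have := hS x.1 x.2 hx
    exact Subtype.ext this
  rcases c1 with c1 | c1 <;> rcases c2 with c2 | c2
  · have := zero_dim A (fun h hh => key h (c1 h hh) (c2 h hh))
    omega
  · have e1 := dim_map p2 A (fun h hh h0 => key h (c1 h hh) h0)
    have e2 := dim_map p2 B (fun h hh h0 => key h (c2 h hh) h0)
    have f1 : finrank K (A.map p2) ≤ q := by
      have := Submodule.finrank_le (A.map p2)
      simpa using this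
    have f2 : finrank K (B.map p2) ≤ q := by
      have := Submodule.finrank_le (B.map p2)
      simpa using this
    omega
  · have e1 := dim_map p1 A (fun h hh h0 => key h h0 (c2 h hh))
    have e2 := dim_map p1 B (fun h hh h0 => key h h0 (c1 h hh))
    have e3 := hL (A.map p1) (B.map p1) (by
      rintro e _ ⟨h, hh, rfl⟩ _ ⟨v, hv, rfl⟩
      exact h11 e h hh v hv)
    omega
  · have := zero_dim B (fun h hh => key h (c2 h hh) (c1 h hh))
    omega

theorem aug (L : Fin m → Matrix (Fin n) (Fin n) K) (r : ℕ) (hr : r ≤ n) (hL : NcRk L r) :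
    ∃ L' : Fin (m + 2 * n * (n - r)) → Matrix (Fin (2 * n - r)) (Fin (2 * n - r)) K,
      NcRk L' (2 * n - r) ∧ ∀ (ι : Type) [Fintype ι] [DecidableEq ι] (Y : ℕ → Matrix ι ι K),
        (ev L' (fun e => Y e)).rank ≤
          (ev L (fun e => Y e)).rank + 2 * (n - r) * Fintype.card ι := by
  classical
  obtain ⟨q, hq⟩ : ∃ q, q = n - r := ⟨_, rfl⟩
  have hnq : n = q + r := by omega
  rw [← hq]
  have hcard : Fintype.card (Fin n ⊕ Fin q) = Fintype.card (Fin (2 * n - r)) := by
    simp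
    omega
  let φ : Fin n ⊕ Fin q ≃ Fin (2 * n - r) := Fintype.equivOfCardEq hcard
  have hcard2 : Fintype.card (Fin (2 * n * q)) = Fintype.card (Fin n × Fin q ⊕ Fin q × Fin n) := by
    simp
    ring
  let ψ : Fin (2 * n * q) ≃ (Fin n × Fin q ⊕ Fin q × Fin n) := Fintype.equivOfCardEq hcard2
  -- the new matrices
  let G : (Fin n × Fin q ⊕ Fin q × Fin n) → Matrix (Fin n ⊕ Fin q) (Fin n ⊕ Fin q) K := fun s =>
    match s with
    | Sum.inl p => fromBlocks 0 (Matrix.single p.1 p.2 1) 0 0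
    | Sum.inr p => fromBlocks 0 0 (Matrix.single p.1 p.2 1) 0
  let L' : Fin (m + 2 * n * q) → Matrix (Fin (2 * n - r)) (Fin (2 * n - r)) K :=
    Fin.append (fun e => (fromBlocks (L e) 0 0 0).submatrix φ.symm φ.symm)
      (fun k => (G (ψ k)).submatrix φ.symm φ.symm)
  have hl : ∀ e, L' (Fin.castAdd _ e) = (fromBlocks (L e) 0 0 0).submatrix φ.symm φ.symm :=
    fun e => Fin.append_left _ _ e
  have hr' : ∀ k, L' (Fin.natAdd _ k) = (G (ψ k)).submatrix φ.symm φ.symm :=
    fun k => Fin.append_right _ _ k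
  refine ⟨L', ?_, ?_⟩
  · intro A B hAB
    refine Aug_nc L r q hnq hL rfl φ A B ?_ ?_ ?_
    · intro e h hh v hv
      have := hAB (Fin.castAdd _ e) h hh v hv
      rw [hl, Aug_dot, Aug_dot11] at this
      exact this
    · intro h hh v hv i j
      have := hAB (Fin.natAdd _ (ψ.symm (Sum.inl (i, j)))) h hh v hv
      rw [hr', Equiv.apply_symm_apply, Aug_dot] at this
      have h2 := Aug_dot12 (K := K) i j (h ∘ φ) (v ∘ φ)
      exact h2.symm.trans this
    · intro h hh v hv i j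
      have := hAB (Fin.natAdd _ (ψ.symm (Sum.inr (j, i)))) h hh v hv
      rw [hr', Equiv.apply_symm_apply, Aug_dot] at this
      have h2 := Aug_dot21 (K := K) i j (h ∘ φ) (v ∘ φ)
      exact h2.symm.trans this
  · intro ι _ _ Y
    -- the equivalence of the index sets
    let ε : (Fin n × ι) ⊕ (Fin q × ι) ≃ Fin (2 * n - r) × ι :=
      (Equiv.sumProdDistrib (Fin n) (Fin q) ι).symm.trans (φ.prodCongr (Equiv.refl ι))
    have hε1 : ∀ x, ε (Sum.inl x) = (φ (Sum.inl x.1), x.2) := fun x => rfl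
    have hε2 : ∀ x, ε (Sum.inr x) = (φ (Sum.inr x.1), x.2) := fun x => rfl
    have hsum : ∀ x y, ev L' (fun e => Y e) x y =
        (∑ e : Fin m, L' (Fin.castAdd _ e) x.1 y.1 * Y e x.2 y.2) +
        ∑ k : Fin (2 * n * q), L' (Fin.natAdd _ k) x.1 y.1 * Y (m + k) x.2 y.2 := by
      intro x y
      unfold ev
      rw [Fin.sum_univ_add, Matrix.add_apply, Matrix.sum_apply, Matrix.sum_apply]
      rfl
    have hblk : (ev L' (fun e => Y e)).submatrix ε ε =
        fromBlocks (ev L (fun e => Y e))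
          (fun x y => ev L' (fun e => Y e) (ε (Sum.inl x)) (ε (Sum.inr y)))
          (fun x y => ev L' (fun e => Y e) (ε (Sum.inr x)) (ε (Sum.inl y))) 0 := by
      ext x y
      rcases x with x | x <;> rcases y with y | y
      · rw [submatrix_apply, hsum, fromBlocks_apply₁₁, hε1, hε1]
        have e0 : ∑ k : Fin (2 * n * q), L' (Fin.natAdd _ k) (φ (Sum.inl x.1)) (φ (Sum.inl y.1)) *
            Y (m + k) x.2 y.2 = 0 := by
          refine Finset.sum_eq_zero fun k _ => ?_
          rw [hr', submatrix_apply, Equiv.symm_apply_apply, Equiv.symm_apply_apply]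
          rcases hk : ψ k with p | p <;> simp [G]
        rw [e0, add_zero]
        unfold ev
        rw [Matrix.sum_apply]
        refine Finset.sum_congr rfl fun e _ => ?_
        rw [hl, submatrix_apply, Equiv.symm_apply_apply, Equiv.symm_apply_apply,
          fromBlocks_apply₁₁]
        rfl
      · rfl
      · rfl
      · rw [submatrix_apply, hsum, fromBlocks_apply₂₂, hε2, hε2]
        have e0 : ∑ k : Fin (2 * n * q), L' (Fin.natAdd _ k) (φ (Sum.inr x.1)) (φ (Sum.inr y.1)) *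
            Y (m + k) x.2 y.2 = 0 := by
          refine Finset.sum_eq_zero fun k _ => ?_
          rw [hr', submatrix_apply, Equiv.symm_apply_apply, Equiv.symm_apply_apply]
          rcases hk : ψ k with p | p <;> simp [G]
        rw [e0, add_zero]
        refine Finset.sum_eq_zero fun e _ => ?_
        rw [hl, submatrix_apply, Equiv.symm_apply_apply, Equiv.symm_apply_apply,
          fromBlocks_apply₂₂]
        simp
    rw [← rank_submatrix (ev L' (fun e => Y e)) ε ε, hblk]
    refine (Aug_rank_blocks _ _ _).trans ?_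
    simp only [Fintype.card_prod, Fintype.card_fin]
    apply le_of_eq
    ring

end Pool.Agent.BNR
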