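import Mathlib

/-!
BNR-Grid: a polynomial matrix attains a given rank on every large finite set (Mathlib only).
A minor of size `ρ = (M.map (eval t)).rank` which is not zero at `t` is a nonzero polynomial of
degree `≤ card ι * D < S.card`, so it is not zero at some `s ∈ S`.
-/

set_option autoImplicit false

namespace Pool.Agent.BNR

open Module Matrix Polynomial

variable {K : Type*} [Field K]

private theorem grid_rows {ι : Type*} [Fintype ι] {r : ℕ} (A : Matrix (Fin r) ι K)
    (h : LinearIndependent K A.row) : ∃ J : Fin r → ι, (A.submatrix id J).det ≠ 0 := by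
  classical
  have hspan : Submodule.span K (Set.range A.col) = ⊤ := by
    apply Submodule.eq_top_of_finrank_eq
    have h1 : A.rank = r := by
      have := LinearIndependent.rank_matrix h
      simpa using this
    rw [← Matrix.rank_eq_finrank_span_cols, h1]
    simp
  obtain ⟨κ, a, ha, hs, hi⟩ := exists_linearIndependent' K A.col
  have hfin : Finite κ := Finite.of_injective a ha
  have := Fintype.ofFinite κ
  have hcard : Fintype.card κ = r := by
    have h1 := finrank_span_eq_card hi
    rw [hs, hspan, finrank_top] at h1
    simpa using h1.symm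
  set e : Fin r ≃ κ := (Fintype.equivFinOfCardEq hcard).symm with he
  refine ⟨a ∘ e, ?_⟩
  have h2 : LinearIndependent K ((A.submatrix id (a ∘ e)).col) := by
    have h3 : (A.submatrix id (a ∘ e)).col = (A.col ∘ a) ∘ e := by
      funext j
      rfl
    rw [h3]
    exact hi.comp _ e.injective
  rw [Matrix.linearIndependent_cols_iff_isUnit] at h2
  exact ((Matrix.isUnit_iff_isUnit_det _).mp h2).ne_zero

/-- a matrix has a nonzero minor of the size of its rank -/
private theorem grid_minor {ι : Type*} [Fintype ι] (X : Matrix ι ι K) :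
    ∃ a b : Fin X.rank → ι, (X.submatrix a b).det ≠ 0 := by
  classical
  obtain ⟨κ, a, ha, hs, hi⟩ := exists_linearIndependent' K X.row
  have hfin : Finite κ := Finite.of_injective a ha
  have := Fintype.ofFinite κ
  have hcard : Fintype.card κ = X.rank := by
    have h1 := finrank_span_eq_card hi
    rw [hs] at h1
    rw [Matrix.rank_eq_finrank_span_row, h1]
  set e : Fin X.rank ≃ κ := (Fintype.equivFinOfCardEq hcard).symm with he
  have h2 : LinearIndependent K (X.submatrix (a ∘ e) id).row := by
    have h3 : (X.submatrix (a ∘ e) id).row = (X.row ∘ a) ∘ e := by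
      funext j
      rfl
    rw [h3]
    exact hi.comp _ e.injective
  obtain ⟨J, hJ⟩ := grid_rows _ h2
  exact ⟨_, J, hJ⟩

private theorem grid_le_rank {ι : Type*} [Fintype ι] {r : ℕ} {X : Matrix ι ι K}
    {a b : Fin r → ι} (h : (X.submatrix a b).det ≠ 0) : r ≤ X.rank := by
  have h1 : (X.submatrix a b).rank = r := by
    have h2 : IsUnit (X.submatrix a b) :=
      (Matrix.isUnit_iff_isUnit_det _).mpr (isUnit_iff_ne_zero.mpr h)
    have h3 := Matrix.rank_of_isUnit _ h2
    simpa using h3
  rw [← h1]
  exact Matrix.rank_submatrix_le X a b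

private theorem grid_degree {r D : ℕ} (M : Matrix (Fin r) (Fin r) K[X])
    (hM : ∀ i j, (M i j).natDegree ≤ D) : M.det.natDegree ≤ r * D := by
  rw [Matrix.det_apply]
  refine Polynomial.natDegree_sum_le_of_forall_le _ _ fun σ _ => ?_
  refine (Polynomial.natDegree_smul_le _ _).trans ?_
  refine (Polynomial.natDegree_prod_le _ _).trans ?_
  refine (Finset.sum_le_sum fun i _ => hM _ _).trans ?_
  rw [Finset.sum_const, Finset.card_univ, Fintype.card_fin, smul_eq_mul]

private theorem grid_det {ι : Type*} {r : ℕ} (M : Matrix ι ι K[X]) (a b : Fin r → ι) (s : K) :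
    ((M.map (eval s)).submatrix a b).det = (M.submatrix a b).det.eval s := by
  have h := RingHom.map_det (Polynomial.evalRingHom s) (M.submatrix a b)
  rw [Polynomial.coe_evalRingHom] at h
  rw [h]
  rfl

theorem grid {ι : Type*} [Fintype ι] [DecidableEq ι] (M : Matrix ι ι K[X]) (D : ℕ)
    (hM : ∀ i j, (M i j).natDegree ≤ D) (S : Finset K) (hS : Fintype.card ι * D < S.card) (t : K) :
    ∃ s ∈ S, (M.map (eval t)).rank ≤ (M.map (eval s)).rank := by
  obtain ⟨a, b, hab⟩ := grid_minor (M.map (eval t))
  rw [grid_det] at hab
  have hF : (M.submatrix a b).det ≠ 0 := by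
    intro h0
    rw [h0, Polynomial.eval_zero] at hab
    exact hab rfl
  have hdeg : (M.submatrix a b).det.natDegree < S.card := by
    refine lt_of_le_of_lt (grid_degree (M.submatrix a b) (D := D) fun i j => hM _ _) ?_
    refine lt_of_le_of_lt (Nat.mul_le_mul_right D ?_) hS
    exact (Matrix.rank_le_card_width _)
  obtain ⟨s, hs, hs0⟩ : ∃ s ∈ S, (M.submatrix a b).det.eval s ≠ 0 := by
    by_contra hcon
    push Not at hcon
    have h1 : S.val ⊆ (M.submatrix a b).det.roots := by
      intro s hs
      rw [Polynomial.mem_roots hF]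
      exact hcon s hs
    have h2 := Multiset.card_le_card ((Multiset.le_iff_subset S.nodup).2 h1)
    have h3 := Polynomial.card_roots' (M.submatrix a b).det
    have h4 : Multiset.card S.val = S.card := rfl
    omega
  refine ⟨s, hs, ?_⟩
  rw [← grid_det] at hs0
  exact grid_le_rank hs0

end Pool.Agent.BNR
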