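import Mathlib

/-!
BNR-OmA: ranks of block matrices and of specialisations (Mathlib only).

PLAN.
`rank_schur`: `fromBlocks (-diag δ) Bᵀ A E`
`= [1 0; -A diag(δ⁻¹) 1]`-type LDU: multiply on the left by the invertible
`fromBlocks 1 0 (A * diagonal δ⁻¹) 1` and on the right by `fromBlocks 1 (diagonal δ⁻¹ * B) 0 1` to get
`fromBlocks (-diagonal δ) 0 0 (E + A * diagonal δ⁻¹ * B)`; rank of a block diagonal matrix is the sum
(`Matrix.rank_mul_eq_left_of_isUnit_det`, `Matrix.rank_mul_eq_right_of_isUnit_det`).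
`rank_anti`: `fromBlocks (-diagonal δ0) B A 0` with `δ0 q ∈ {0, 1}` and, when `δ0 q = 1`, column `q` of `A` and
row `q` of `B` zero: rank `= #{q | δ0 q = 1} + rank A + rank B`; only `≥` is needed.
`rank_special`: a minor of `M(0)` of size `rank M(0)` is not zero; the same minor of `M` is a nonzero
polynomial; choose `t` which is not a zero of it and of `bad` (`K` infinite).
-/

set_option autoImplicit false

namespace Pool.Agent.BNR

open Module Matrix Polynomial

variable {K : Type*} [Field K]

private theorem OmA_pq {ι κ : Type*} [Fintype ι] [Fintype κ] [DecidableEq ι]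
    [DecidableEq κ] (N : Matrix ι κ K) :
    ∃ (P : Matrix (Fin N.rank) ι K) (R : Matrix κ (Fin N.rank) K), P * N * R = 1 := by
  classical
  let b : Basis (Fin N.rank) K (LinearMap.range N.mulVecLin) := finBasisOfFinrankEq _ _ rfl
  have hb : ∀ j, ∃ q : κ → K, N *ᵥ q = (b j : ι → K) := fun j => by
    obtain ⟨q, hq⟩ := (b j).2
    exact ⟨q, by simpa using hq⟩
  choose q hq using hb
  let R : Matrix κ (Fin N.rank) K := fun i j => q j i
  have hNR : ∀ j, (N * R).col j = (b j : ι → K) := fun j => by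
    rw [← hq j]
    ext i
    rfl
  have hli : LinearIndependent K (fun j => (b j : ι → K)) := by
    have := b.linearIndependent
    exact this.map' (Submodule.subtype _) (Submodule.ker_subtype _)
  have hinj : LinearMap.ker (N * R).mulVecLin = ⊥ := by
    rw [LinearMap.ker_eq_bot]
    have h2 : LinearIndependent K (N * R).col := by
      have : (N * R).col = fun j => (b j : ι → K) := funext hNR
      rw [this]; exact hli
    have h3 := Matrix.mulVec_injective_iff.2 h2
    exact h3
  obtain ⟨g, hg⟩ := (N * R).mulVecLin.exists_leftInverse_of_injective hinj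
  refine ⟨LinearMap.toMatrix' g, R, ?_⟩
  rw [Matrix.mul_assoc]
  have h1 : N * R = LinearMap.toMatrix' (N * R).mulVecLin :=
    (LinearMap.toMatrix'_toLin' (N * R)).symm
  rw [h1, ← LinearMap.toMatrix'_comp, hg]
  simp

private theorem OmA_ge {ι κ α : Type*} [Fintype ι] [Fintype κ] [Fintype α] [DecidableEq α]
    (N : Matrix ι κ K) (P : Matrix α ι K) (R : Matrix κ α K) (h : P * N * R = 1) :
    Fintype.card α ≤ N.rank := by
  calc Fintype.card α = (P * N * R).rank := by rw [h, rank_one]
    _ ≤ (P * N).rank := rank_mul_le_left _ _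
    _ ≤ N.rank := rank_mul_le_right _ _

private theorem OmA_add_le {ι κ : Type*} [Fintype ι] [Fintype κ]
    (A B : Matrix ι κ K) : (A + B).rank ≤ A.rank + B.rank := by
  unfold Matrix.rank
  rw [Matrix.mulVecLin_add]
  refine (Submodule.finrank_mono (LinearMap.range_add_le _ _)).trans ?_
  exact Submodule.finrank_add_le_finrank_add_finrank _ _

private theorem OmA_block {m₁ m₂ n₁ n₂ : Type*} [Fintype m₁] [Fintype m₂] [Fintype n₁] [Fintype n₂]
    [DecidableEq m₁] [DecidableEq m₂] [DecidableEq n₁] [DecidableEq n₂]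
    (A : Matrix m₁ n₁ K) (D : Matrix m₂ n₂ K) :
    (fromBlocks A 0 0 D).rank = A.rank + D.rank := by
  apply le_antisymm
  · have h1 : fromBlocks A 0 0 D = fromBlocks A 0 0 0 + fromBlocks 0 0 0 D := by
      rw [fromBlocks_add]; simp
    rw [h1]
    refine (OmA_add_le _ _).trans ?_
    have h2 : (fromBlocks A 0 0 (0 : Matrix m₂ n₂ K)).rank ≤ A.rank := by
      have : (fromBlocks A 0 0 (0 : Matrix m₂ n₂ K)) =
          fromRows (1 : Matrix m₁ m₁ K) (0 : Matrix m₂ m₁ K) * A *
            fromCols (1 : Matrix n₁ n₁ K) (0 : Matrix n₁ n₂ K) := by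
        ext i j
        rcases i with i | i <;> rcases j with j | j <;> simp [fromRows_mul, mul_fromCols]
      rw [this]
      exact (rank_mul_le_left _ _).trans (rank_mul_le_right _ _)
    have h3 : (fromBlocks (0 : Matrix m₁ n₁ K) 0 0 D).rank ≤ D.rank := by
      have : (fromBlocks (0 : Matrix m₁ n₁ K) 0 0 D) =
          fromRows (0 : Matrix m₁ m₂ K) (1 : Matrix m₂ m₂ K) * D *
            fromCols (0 : Matrix n₂ n₁ K) (1 : Matrix n₂ n₂ K) := by
        ext i j
        rcases i with i | i <;> rcases j with j | j <;> simp [fromRows_mul, mul_fromCols]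
      rw [this]
      exact (rank_mul_le_left _ _).trans (rank_mul_le_right _ _)
    omega
  · obtain ⟨P, R, h⟩ := OmA_pq A
    obtain ⟨P', R', h'⟩ := OmA_pq D
    have := OmA_ge (fromBlocks A 0 0 D) (fromBlocks P 0 0 P') (fromBlocks R 0 0 R') (by
      simp [fromBlocks_multiply, h, h'])
    simpa using this

theorem rank_schur {Q ι κ : Type*} [Fintype Q] [Fintype ι] [Fintype κ] [DecidableEq Q]
    [DecidableEq ι] [DecidableEq κ] (δ : Q → K) (hδ : ∀ q, δ q ≠ 0) (A : Matrix ι Q K)
    (B : Matrix Q κ K) (E : Matrix ι κ K) :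
    (fromBlocks (-diagonal δ) B A E).rank =
      Fintype.card Q + (E + A * diagonal (fun q => (δ q)⁻¹) * B).rank := by
  have hd : diagonal δ * diagonal (fun q => (δ q)⁻¹) = 1 := by
    rw [diagonal_mul_diagonal, ← diagonal_one]
    congr 1; ext q; exact mul_inv_cancel₀ (hδ q)
  have hd' : diagonal (fun q => (δ q)⁻¹) * diagonal δ = 1 := by
    rw [diagonal_mul_diagonal, ← diagonal_one]
    congr 1; ext q; exact inv_mul_cancel₀ (hδ q)
  set D := diagonal δ with hD
  set D' := diagonal (fun q => (δ q)⁻¹) with hD'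
  have h1 : (fromBlocks (1 : Matrix Q Q K) 0 (A * D') (1 : Matrix ι ι K)) *
      (fromBlocks (-D) B A E) * (fromBlocks (1 : Matrix Q Q K) (D' * B) 0 (1 : Matrix κ κ K)) =
      fromBlocks (-D) 0 0 (E + A * D' * B) := by
    rw [fromBlocks_multiply, fromBlocks_multiply]
    congr 1
    · simp
    · simp [← Matrix.mul_assoc, hd]
    · simp [Matrix.mul_assoc, hd']
    · simp [Matrix.mul_assoc, hd', add_comm]
  have hl : IsUnit (fromBlocks (1 : Matrix Q Q K) 0 (A * D') (1 : Matrix ι ι K)).det := by
    rw [det_fromBlocks_zero₁₂]; simp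
  have hr : IsUnit (fromBlocks (1 : Matrix Q Q K) (D' * B) 0 (1 : Matrix κ κ K)).det := by
    rw [det_fromBlocks_zero₂₁]; simp
  have h2 : (fromBlocks (-D) B A E).rank = (fromBlocks (-D) 0 0 (E + A * D' * B)).rank := by
    rw [← h1, rank_mul_eq_left_of_isUnit_det _ _ hr, rank_mul_eq_right_of_isUnit_det _ _ hl]
  rw [h2, OmA_block]
  congr 1
  have : -D = diagonal (fun q => - δ q) := by rw [hD, diagonal_neg]
  rw [rank_of_det_ne_zero]
  rw [this, det_diagonal]
  exact Finset.prod_ne_zero_iff.2 fun q _ => neg_ne_zero.2 (hδ q)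

private theorem OmA_anti {Q ι κ : Type*} [Fintype Q] [Fintype ι] [Fintype κ] [DecidableEq Q]
    [DecidableEq ι] [DecidableEq κ] (s : Finset Q) (A : Matrix ι Q K) (B : Matrix Q κ K)
    (S : Matrix s Q K) (hS : S = Matrix.of fun (a : s) (q : Q) => if (a : Q) = q then (1 : K) else 0)
    (D : Matrix Q Q K) (hD : D = diagonal (fun q => if q ∈ s then (1 : K) else 0))
    (D' : Matrix Q Q K) (hD' : D' = diagonal (fun q => if q ∈ s then (0 : K) else 1))
    (hA : ∀ q ∈ s, ∀ i, A i q = 0) (hB : ∀ q ∈ s, ∀ j, B q j = 0) :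
    s.card + A.rank + B.rank ≤ (fromBlocks (-D) B A 0).rank := by
  obtain ⟨PA, RA, hA1⟩ := OmA_pq A
  obtain ⟨PB, RB, hB1⟩ := OmA_pq B
  have hAD : A * D' = A := by
    ext i q
    rw [hD', mul_diagonal]
    by_cases h : q ∈ s
    · simp [h, hA q h]
    · simp [h]
  have hDB : D' * B = B := by
    ext q j
    rw [hD', diagonal_mul]
    by_cases h : q ∈ s
    · simp [h, hB q h]
    · simp [h]
  have hDD' : D * D' = 0 := by
    rw [hD, hD', diagonal_mul_diagonal]
    ext i j
    by_cases h : i = j
    · subst h; by_cases h2 : i ∈ s <;> simp [h2]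
    · simp [h]
  have hD'D : D' * D = 0 := by
    rw [hD, hD', diagonal_mul_diagonal]
    ext i j
    by_cases h : i = j
    · subst h; by_cases h2 : i ∈ s <;> simp [h2]
    · simp [h]
  have hSD : S * D = S := by
    ext a q
    rw [hD, mul_diagonal, hS]
    by_cases h : (a : Q) = q
    · subst h; simp [a.2]
    · simp [h]
  have hSB : S * B = 0 := by
    ext a j
    rw [mul_apply, hS, Finset.sum_eq_single (a : Q)]
    · simp [hB a a.2]
    · intro q _ hq; simp [Ne.symm hq]
    · simp
  have hAS : A * Sᵀ = 0 := by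
    ext i a
    rw [mul_apply, hS, Finset.sum_eq_single (a : Q)]
    · simp [hA a a.2]
    · intro q _ hq; simp [Ne.symm hq]
    · simp
  have hSS : S * Sᵀ = 1 := by
    ext a b
    rw [mul_apply, hS, Finset.sum_eq_single (a : Q)]
    · by_cases h : a = b
      · subst h; simp
      · have : ¬ (b : Q) = (a : Q) := fun h' => h (Subtype.ext h'.symm)
        simp [h, this]
    · intro q _ hq; simp [Ne.symm hq]
    · simp
  have hSD' : S * D' = 0 := by rw [← hSD, Matrix.mul_assoc, hDD', Matrix.mul_zero]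
  have key := OmA_ge (α := s ⊕ (Fin A.rank ⊕ Fin B.rank)) (fromBlocks (-D) B A 0)
    (fromBlocks (-S) 0 (fromRows 0 (PB * D')) (fromRows PA 0))
    (fromBlocks Sᵀ (fromCols (D' * RA) 0) 0 (fromCols 0 RB)) ?_
  · simp only [Fintype.card_sum, Fintype.card_coe, Fintype.card_fin] at key
    omega
  · have h1 : (fromBlocks (-S) 0 (fromRows (0 : Matrix (Fin A.rank) Q K) (PB * D'))
        (fromRows PA (0 : Matrix (Fin B.rank) ι K))) *
        (fromBlocks (-D) B A 0) =
        fromBlocks S 0 (fromRows (PA * A) 0) (fromRows 0 (PB * B)) := by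
      rw [fromBlocks_multiply]
      congr 1
      · simp [hSD]
      · simp [hSB]
      · rw [fromRows_mul, fromRows_mul]
        ext i j
        rcases i with i | i
        · simp
        · simp [Matrix.mul_assoc, hD'D]
      · rw [fromRows_mul, Matrix.mul_assoc, hDB]
        ext i j
        rcases i with i | i <;> simp
    rw [h1, fromBlocks_multiply]
    have h2 : fromRows (PA * A) (0 : Matrix (Fin B.rank) Q K) * Sᵀ = 0 := by
      rw [fromRows_mul, Matrix.mul_assoc, hAS]
      ext i j
      rcases i with i | i <;> simp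
    have h3 : S * fromCols (D' * RA) (0 : Matrix Q (Fin B.rank) K) = 0 := by
      rw [mul_fromCols, ← Matrix.mul_assoc, hSD']
      ext i j
      rcases j with j | j <;> simp
    rw [h2, h3, fromRows_mul_fromCols, fromRows_mul_fromCols, hSS]
    have h4 : PA * A * (D' * RA) = 1 := by
      rw [← Matrix.mul_assoc, Matrix.mul_assoc PA A D', hAD, hA1]
    simp [h4, hB1, fromBlocks_add]

theorem rank_anti {Q ι κ : Type*} [Fintype Q] [Fintype ι] [Fintype κ] [DecidableEq Q]
    [DecidableEq ι] [DecidableEq κ] (s : Finset Q) (A : Matrix ι Q K) (B : Matrix Q κ K)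
    (hA : ∀ q ∈ s, ∀ i, A i q = 0) (hB : ∀ q ∈ s, ∀ j, B q j = 0) :
    s.card + A.rank + B.rank ≤
      (fromBlocks (-diagonal (fun q => if q ∈ s then (1 : K) else 0)) B A 0).rank :=
  OmA_anti s A B _ rfl _ rfl _ rfl hA hB

theorem rank_special [Infinite K] {ι κ : Type*} [Fintype ι] [Fintype κ] [DecidableEq ι]
    [DecidableEq κ] (M : Matrix ι κ K[X]) (bad : K[X]) (hbad : bad ≠ 0) :
    ∃ t : K, bad.eval t ≠ 0 ∧ (M.map (eval 0)).rank ≤ (M.map (eval t)).rank := by
  obtain ⟨r, hr, P, R, h⟩ : ∃ r, r = (M.map (eval 0)).rank ∧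
      ∃ (P : Matrix (Fin r) ι K) (R : Matrix κ (Fin r) K), P * M.map (eval 0) * R = 1 :=
    ⟨_, rfl, OmA_pq (M.map (eval 0))⟩
  let N : Matrix (Fin r) (Fin r) K[X] := P.map C * M * R.map C
  have hN : ∀ t, N.map (eval t) = P * M.map (eval t) * R := fun t => by
    ext i j
    simp only [N, Matrix.map_apply, mul_apply, eval_finsetSum, eval_mul, eval_C]
  have hdet : N.det ≠ 0 := fun h0 => by
    have h1 : (N.map (eval 0)).det = eval 0 N.det := by
      have := RingHom.map_det (evalRingHom (0 : K)) N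
      simpa [RingHom.mapMatrix_apply] using this.symm
    rw [hN 0, h, h0] at h1
    simp at h1
  have hprod : bad * N.det ≠ 0 := mul_ne_zero hbad hdet
  obtain ⟨t, ht⟩ : ∃ t : K, eval t (bad * N.det) ≠ 0 := by
    by_contra hcon
    push Not at hcon
    exact hprod (Polynomial.funext (by simpa using hcon))
  rw [eval_mul] at ht
  refine ⟨t, left_ne_zero_of_mul ht, ?_⟩
  have h2 : (N.map (eval t)).det ≠ 0 := by
    have := RingHom.map_det (evalRingHom (t : K)) N
    have h3 : (N.map (eval t)).det = eval t N.det := by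
      simpa [RingHom.mapMatrix_apply] using this.symm
    rw [h3]; exact right_ne_zero_of_mul ht
  have h4 := rank_of_det_ne_zero h2
  rw [hN t] at h4
  rw [← hr]
  calc r = (P * M.map (eval t) * R).rank := by rw [h4]; simp
    _ ≤ (P * M.map (eval t)).rank := rank_mul_le_left _ _
    _ ≤ _ := rank_mul_le_right _ _

end Pool.Agent.BNR
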