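import Mathlib
import Pool.Agent.BNR.OmA

/-!
BNR-Om: the leading term lemma.

Let `P` be the set of the polar `q` (`r q + 1 ≤ x q + y q`). The polynomial matrix
`Ω = fromBlocks (-diagonal δ) B A E` (rows `Q ⊕ ι`, columns `Q ⊕ κ`) degenerates at `0` to an
antidiagonal block matrix with the blocks of the statement; at a point `τ ≠ 0` its rank is
`#Q + rank (∑ q, t ^ r q • vecMulVec (a q) (b q))`, `t = τ ^ 2`.
-/

set_option autoImplicit false

namespace Pool.Agent.BNR

open Module Matrix Polynomial

variable {K : Type*} [Field K]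

private theorem om_toNat {τ : K} {n : ℤ} (hn : 0 ≤ n) : τ ^ n.toNat = τ ^ n := by
  rw [← zpow_natCast, Int.toNat_of_nonneg hn]

private theorem om_zero {n : ℤ} (hn : 0 < n) : (0 : K) ^ n.toNat = 0 := by
  rw [zero_pow]
  omega

theorem om [Infinite K] {Q ι κ : Type*} [Fintype Q] [Fintype ι] [Fintype κ] [DecidableEq Q]
    [DecidableEq ι] [DecidableEq κ] (a : Q → ι → K) (b : Q → κ → K) (α : ι → ℤ) (β : κ → ℤ)
    (x y : Q → ℤ) (r : Q → ℕ) (ha : ∀ q i, a q i ≠ 0 → α i ≤ x q)
    (hb : ∀ q j, b q j ≠ 0 → β j ≤ y q) :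
    ∃ t : K,
      (Matrix.of fun q i => if (r q : ℤ) + 1 ≤ x q + y q ∧ α i = x q then a q i else 0 :
        Matrix Q ι K).rank +
      (Matrix.of fun q j => if (r q : ℤ) + 1 ≤ x q + y q ∧ β j = y q then b q j else 0 :
        Matrix Q κ K).rank ≤
      (∑ q, t ^ r q • vecMulVec (a q) (b q)).rank +
        (Finset.univ.filter fun q => (r q : ℤ) + 1 ≤ x q + y q).card := by
  set P : Finset Q := Finset.univ.filter fun q => (r q : ℤ) + 1 ≤ x q + y q with hP
  have hPm : ∀ q, q ∈ P ↔ (r q : ℤ) + 1 ≤ x q + y q := by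
    intro q
    rw [hP, Finset.mem_filter]
    exact ⟨fun h => h.2, fun h => ⟨Finset.mem_univ q, h⟩⟩
  set δ : Q → K[X] := fun q =>
    if q ∈ P then X ^ (2 * (x q + y q) - 2 * (r q : ℤ) - 1).toNat else 1 with hδ
  set A : Matrix ι Q K[X] := Matrix.of fun i q =>
    if q ∈ P then X ^ (2 * (x q - α i)).toNat * C (a q i) else 0 with hA
  set B : Matrix Q κ K[X] := Matrix.of fun q j =>
    if q ∈ P then X ^ (2 * (y q - β j)).toNat * C (b q j) else 0 with hB
  set E : Matrix ι κ K[X] := Matrix.of fun i j =>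
    ∑ q ∈ Pᶜ, X ^ (2 * (r q : ℤ) + 1 - 2 * α i - 2 * β j).toNat * C (a q i * b q j) with hE
  have hΩ : ∀ t : K, (fromBlocks (-diagonal δ) B A E).map (eval t) =
      fromBlocks (-diagonal fun q => (δ q).eval t) (B.map (eval t)) (A.map (eval t))
        (E.map (eval t)) := by
    intro t
    rw [fromBlocks_map]
    congr 1
    ext q q'
    show eval t (-(diagonal δ q q')) = -(diagonal (fun q => (δ q).eval t) q q')
    rw [eval_neg, diagonal_apply, diagonal_apply]
    split_ifs
    · rfl
    · rw [eval_zero]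
  -- the matrices at `0`
  have hA0 : A.map (eval 0) = (Matrix.of fun q i =>
      if (r q : ℤ) + 1 ≤ x q + y q ∧ α i = x q then a q i else 0 : Matrix Q ι K).transpose := by
    ext i q
    simp only [hA, map_apply, of_apply, transpose_apply]
    by_cases hq : q ∈ P
    · rw [if_pos hq, eval_mul, eval_pow, eval_X, eval_C]
      by_cases hi : α i = x q
      · rw [if_pos ⟨(hPm q).1 hq, hi⟩, hi, sub_self, mul_zero, Int.toNat_zero, pow_zero, one_mul]
      · rw [if_neg fun h => hi h.2]
        by_cases h0 : a q i = 0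
        · rw [h0, mul_zero]
        · have h1 := ha q i h0
          rw [om_zero (by omega), zero_mul]
    · rw [if_neg hq, if_neg fun h => hq ((hPm q).2 h.1), eval_zero]
  have hB0 : B.map (eval 0) = (Matrix.of fun q j =>
      if (r q : ℤ) + 1 ≤ x q + y q ∧ β j = y q then b q j else 0 : Matrix Q κ K) := by
    ext q j
    simp only [hB, map_apply, of_apply]
    by_cases hq : q ∈ P
    · rw [if_pos hq, eval_mul, eval_pow, eval_X, eval_C]
      by_cases hj : β j = y q
      · rw [if_pos ⟨(hPm q).1 hq, hj⟩, hj, sub_self, mul_zero, Int.toNat_zero, pow_zero, one_mul]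
      · rw [if_neg fun h => hj h.2]
        by_cases h0 : b q j = 0
        · rw [h0, mul_zero]
        · have h1 := hb q j h0
          rw [om_zero (by omega), zero_mul]
    · rw [if_neg hq, if_neg fun h => hq ((hPm q).2 h.1), eval_zero]
  have hE0 : E.map (eval 0) = 0 := by
    ext i j
    simp only [hE, map_apply, of_apply, Matrix.zero_apply]
    rw [eval_finsetSum]
    refine Finset.sum_eq_zero fun q hq => ?_
    rw [eval_mul, eval_pow, eval_X, eval_C]
    by_cases h0 : a q i * b q j = 0
    · rw [h0, mul_zero]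
    · have h1 := ha q i (left_ne_zero_of_mul h0)
      have h2 := hb q j (right_ne_zero_of_mul h0)
      have h3 : ¬ ((r q : ℤ) + 1 ≤ x q + y q) := fun h => (Finset.mem_compl.1 hq) ((hPm q).2 h)
      rw [om_zero (by omega), zero_mul]
  have hδ0 : (fun q => (δ q).eval 0) = fun q => if q ∈ Pᶜ then (1 : K) else 0 := by
    funext q
    simp only [hδ, Finset.mem_compl]
    by_cases hq : q ∈ P
    · have h1 := (hPm q).1 hq
      rw [if_pos hq, if_neg (not_not.2 hq), eval_pow, eval_X, om_zero (by omega)]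
    · rw [if_neg hq, if_pos hq, eval_one]
  have hrank0 : Pᶜ.card + (A.map (eval 0)).rank + (B.map (eval 0)).rank ≤
      ((fromBlocks (-diagonal δ) B A E).map (eval 0)).rank := by
    rw [hΩ 0, hE0, hδ0]
    refine rank_anti Pᶜ _ _ ?_ ?_
    · intro q hq i
      simp only [hA, map_apply, of_apply]
      rw [if_neg (Finset.mem_compl.1 hq), eval_zero]
    · intro q hq j
      simp only [hB, map_apply, of_apply]
      rw [if_neg (Finset.mem_compl.1 hq), eval_zero]
  -- specialisation
  obtain ⟨τ, hτ, hrank⟩ := rank_special (fromBlocks (-diagonal δ) B A E) X X_ne_zero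
  rw [eval_X] at hτ
  have hδτ : ∀ q, (δ q).eval τ ≠ 0 := by
    intro q
    simp only [hδ]
    split_ifs
    · rw [eval_pow, eval_X]
      exact pow_ne_zero _ hτ
    · rw [eval_one]
      exact one_ne_zero
  have hkey : E.map (eval τ) + A.map (eval τ) * diagonal (fun q => ((δ q).eval τ)⁻¹) *
      B.map (eval τ) = diagonal (fun i => τ ^ (1 - 2 * α i)) *
        (∑ q, (τ ^ 2) ^ r q • vecMulVec (a q) (b q)) * diagonal (fun j => τ ^ (-(2 * β j))) := by
    ext i j
    rw [Matrix.add_apply, mul_diagonal, diagonal_mul, Matrix.sum_apply, Matrix.mul_apply]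
    have e1 : ∀ q, (A.map (eval τ) * diagonal fun q => ((δ q).eval τ)⁻¹) i q *
        (B.map (eval τ)) q j = if q ∈ P then
          τ ^ (2 * (r q : ℤ) + 1 - 2 * α i - 2 * β j) * (a q i * b q j) else 0 := by
      intro q
      rw [mul_diagonal]
      simp only [hA, hB, hδ, map_apply, of_apply]
      by_cases hq : q ∈ P
      · have h1 := (hPm q).1 hq
        rw [if_pos hq, if_pos hq, if_pos hq, if_pos hq, eval_mul, eval_pow, eval_X, eval_C,
          eval_mul, eval_pow, eval_pow, eval_X, eval_C]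
        by_cases h0 : a q i * b q j = 0
        · rw [h0, mul_zero]
          rcases mul_eq_zero.1 h0 with h | h
          · rw [h]
            ring
          · rw [h]
            ring
        · have h2 := ha q i (left_ne_zero_of_mul h0)
          have h3 := hb q j (right_ne_zero_of_mul h0)
          rw [om_toNat (n := 2 * (x q - α i)) (by omega),
            om_toNat (n := 2 * (x q + y q) - 2 * (r q : ℤ) - 1) (by omega),
            om_toNat (n := 2 * (y q - β j)) (by omega), ← _root_.zpow_neg]
          have e2 : (2 * (r q : ℤ) + 1 - 2 * α i - 2 * β j) =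
              2 * (x q - α i) + -(2 * (x q + y q) - 2 * (r q : ℤ) - 1) + 2 * (y q - β j) := by
            ring
          rw [e2, zpow_add₀ hτ, zpow_add₀ hτ]
          ring
      · simp only [if_neg hq, eval_zero, zero_mul]
    have e3 : (E.map (eval τ)) i j = ∑ q, if q ∈ Pᶜ then
        τ ^ (2 * (r q : ℤ) + 1 - 2 * α i - 2 * β j) * (a q i * b q j) else 0 := by
      simp only [hE, map_apply, of_apply]
      rw [eval_finsetSum, Finset.sum_ite_mem, Finset.univ_inter]
      refine Finset.sum_congr rfl fun q hq => ?_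
      rw [eval_mul, eval_pow, eval_X, eval_C]
      by_cases h0 : a q i * b q j = 0
      · rw [h0, mul_zero, mul_zero]
      · have h1 := ha q i (left_ne_zero_of_mul h0)
        have h2 := hb q j (right_ne_zero_of_mul h0)
        have h3 : ¬ ((r q : ℤ) + 1 ≤ x q + y q) := fun h => (Finset.mem_compl.1 hq) ((hPm q).2 h)
        rw [om_toNat (by omega)]
    rw [e3, Finset.sum_congr rfl fun q _ => e1 q, ← Finset.sum_add_distrib, Finset.mul_sum,
      Finset.sum_mul]
    refine Finset.sum_congr rfl fun q _ => ?_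
    have e4 : (if q ∈ Pᶜ then τ ^ (2 * (r q : ℤ) + 1 - 2 * α i - 2 * β j) * (a q i * b q j)
        else 0) + (if q ∈ P then τ ^ (2 * (r q : ℤ) + 1 - 2 * α i - 2 * β j) * (a q i * b q j)
        else 0) = τ ^ (2 * (r q : ℤ) + 1 - 2 * α i - 2 * β j) * (a q i * b q j) := by
      by_cases hq : q ∈ P
      · rw [if_neg (fun h => (Finset.mem_compl.1 h) hq), if_pos hq, zero_add]
      · rw [if_pos (Finset.mem_compl.2 hq), if_neg hq, add_zero]
    rw [e4, Matrix.smul_apply, vecMulVec_apply, smul_eq_mul]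
    have e5 : (2 * (r q : ℤ) + 1 - 2 * α i - 2 * β j) =
        (1 - 2 * α i) + 2 * (r q : ℤ) + -(2 * β j) := by
      ring
    have e6 : (τ ^ 2) ^ r q = τ ^ (2 * (r q : ℤ)) := by
      rw [← pow_mul, ← zpow_natCast]
      push_cast
      rfl
    rw [e5, zpow_add₀ hτ, zpow_add₀ hτ, e6]
    ring
  have hrankτ : ((fromBlocks (-diagonal δ) B A E).map (eval τ)).rank =
      Fintype.card Q + (∑ q, (τ ^ 2) ^ r q • vecMulVec (a q) (b q)).rank := by
    rw [hΩ τ, rank_schur _ hδτ, hkey]
    congr 1
    rw [Matrix.rank_mul_eq_left_of_isUnit_det, Matrix.rank_mul_eq_right_of_isUnit_det]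
    · rw [det_diagonal]
      exact isUnit_iff_ne_zero.2 (Finset.prod_ne_zero_iff.2 fun i _ => zpow_ne_zero _ hτ)
    · rw [det_diagonal]
      exact isUnit_iff_ne_zero.2 (Finset.prod_ne_zero_iff.2 fun i _ => zpow_ne_zero _ hτ)
  refine ⟨τ ^ 2, ?_⟩
  rw [hrankτ] at hrank
  rw [hA0, hB0, rank_transpose] at hrank0
  have hcard : P.card + Pᶜ.card = Fintype.card Q := Finset.card_add_card_compl P
  omega

end Pool.Agent.BNR
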