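import Mathlib
import Pool.Agent.BNR.Defs

/-!
BNR: the hypothesis of the one-sided lemma, and the one-sided matrix.
-/

set_option autoImplicit false

namespace Pool.Agent.BNR

open Module Matrix

variable {K : Type*} [Field K] {n m : ℕ}

/-- For every `c` and every subspace `W` supported on the coordinates of weight `c`:
`N dim W ≤ ∑ e, ∑ s < N, (dim W - dim {w ∈ W | b e p · w = 0 for all p with y e p = c, s ≤ x e p + c})`. -/
def Cond (N : ℕ) (β : Fin n → ℤ) (k : Fin m → ℕ) (b : ∀ e, Fin (k e) → Fin n → K)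
    (x y : ∀ e, Fin (k e) → ℤ) : Prop :=
  ∀ (c : ℤ) (W : Submodule K (Fin n → K)), (∀ w ∈ W, ∀ j, w j ≠ 0 → β j = c) →
    (N : ℤ) * finrank K W ≤ ∑ e, ∑ s ∈ Finset.range N,
      ((finrank K W : ℤ) - finrank K (kil (b e) {p | y e p = c ∧ (s : ℤ) - c ≤ x e p} W))

/-- The one-sided matrix: the row `(e, p, r)` is the leading part of `b e p` tensored with the
powers of `c ^ (e N + r)`, if `r + 1 ≤ x + y` (polar), and zero otherwise. -/
def bar (c : K) (N : ℕ) (β : Fin n → ℤ) (k : Fin m → ℕ) (b : ∀ e, Fin (k e) → Fin n → K)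
    (x y : ∀ e, Fin (k e) → ℤ) :
    Matrix (Σ e : Fin m, Fin (k e) × Fin N) (Fin n × Fin N) K :=
  fun q v => if (q.2.2 : ℤ) + 1 ≤ x q.1 q.2.1 + y q.1 q.2.1 ∧ β v.1 = y q.1 q.2.1 then
    b q.1 q.2.1 v.1 * c ^ (((q.1 : ℕ) * N + q.2.2) * (v.2 : ℕ)) else 0

end Pool.Agent.BNR
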