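import Mathlib

/-!
BNR-FW: the folded Wronskian (Mathlib only).

PLAN.
`fw_ne_zero`: induction-free argument: the determinant of `((g k).comp (C (c^l) X))_{l k}` is
multiplied by a nonzero constant if `g` is replaced by another basis of its span.  Choose a basis
with distinct degrees `d_0 < d_1 < ...` (Gauss elimination on leading terms, e.g. a minimal
counterexample argument: among all bases of `span g` take one with the smallest sum of degrees; two
members of the same degree could be improved); then the coefficient of `X^(∑ d_k)` of the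
determinant is `∏ lc(g_k) * det (c^(l * d_k)) = ∏ lc * Vandermonde (c ^ d_k) ≠ 0`, because the
`c ^ d_k`, `d_k < D`, are distinct (Leibniz formula: the entry `(l, k)` has degree `≤ d_k` with
coefficient of `X^(d_k)` equal to `lc(g_k) * c^(l d_k)`).
Another way (induction on `d`): `Pool.Agent.NCS.QW` (`qw`, `qw_family`) treats a similar statement
(not needed).  Yet another way: if the determinant vanishes then a nonzero vector over `K(X)`
kills all rows ...; or use that `det` is alternating multilinear in `g` and expand in monomials: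
`det = ∑_{I} Plücker_I(g) * Vandermonde(c^i, i ∈ I) X^(∑ I)`: take `I` with `Plücker_I ≠ 0` and
`∑ I` maximal: the matroid of the coefficient matrix has a UNIQUE maximal basis for the strict
order, so the coefficient of `X^(∑ I)` is `Plücker_I * Vandermonde ≠ 0`.
`fw_natDegree`: Leibniz, each entry has degree `≤ D - 1`.
`pow_dvd_det`: choose a basis of `Fin d → K` whose first `s = finrank S` members lie in `S`;
multiply `M` on the right by the constant matrix of this basis (determinant is a nonzero constant):
the first `s` columns vanish at `z`, so they are divisible by `X - C z`, and the determinant by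
`(X - C z)^s`.
-/

set_option autoImplicit false

namespace Pool.Agent.BNR

open Module Matrix Polynomial

variable {K : Type*} [Field K]

/-- the folded Wronskian matrix -/
noncomputable def fw (c : K) {d : ℕ} (g : Fin d → K[X]) : Matrix (Fin d) (Fin d) K[X] :=
  Matrix.of fun l k => (g k).comp (C (c ^ (l : ℕ)) * X)

theorem fwx_coeff_prod {ι : Type*} (s : Finset ι) (f : ι → K[X]) (e : ι → ℕ)
    (h : ∀ i ∈ s, (f i).natDegree ≤ e i) :
    (∏ i ∈ s, f i).coeff (∑ i ∈ s, e i) = ∏ i ∈ s, (f i).coeff (e i) := by
  classical
  induction s using Finset.induction_on with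
  | empty => simp
  | insert a s ha ih =>
    rw [Finset.prod_insert ha, Finset.sum_insert ha, Finset.prod_insert ha,
      Polynomial.coeff_mul_add_eq_of_natDegree_le (h a (Finset.mem_insert_self a s))
        ((Polynomial.natDegree_prod_le s f).trans
          (Finset.sum_le_sum fun i hi => h i (Finset.mem_insert_of_mem hi))),
      ih fun i hi => h i (Finset.mem_insert_of_mem hi)]

theorem fwx_entry_coeff (c : K) (p : K[X]) (l m : ℕ) :
    (p.comp (C (c ^ l) * X)).coeff m = p.coeff m * (c ^ m) ^ l := by
  rw [Polynomial.comp_C_mul_X_coeff, ← pow_mul, ← pow_mul, mul_comm l m]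

theorem fwx_entry_natDegree (c : K) (p : K[X]) (l : ℕ) :
    (p.comp (C (c ^ l) * X)).natDegree ≤ p.natDegree := by
  rw [Polynomial.natDegree_le_iff_coeff_eq_zero]
  intro m hm
  rw [fwx_entry_coeff, Polynomial.coeff_eq_zero_of_natDegree_lt hm, zero_mul]

/-- The case of distinct degrees. -/
theorem fwx_distinct (c : K) (D : ℕ) (hc : ∀ i j, i < D → j < D → c ^ i = c ^ j → i = j) {d : ℕ}
    (g : Fin d → K[X]) (hg : ∀ k, g k ≠ 0) (hD : ∀ k, (g k).natDegree < D)
    (hinj : ∀ i j, (g i).natDegree = (g j).natDegree → i = j) :
    (fw c g).det ≠ 0 := by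
  intro h0
  have h1 := congrArg (fun p : K[X] => p.coeff (∑ k, (g k).natDegree)) h0
  simp only [Polynomial.coeff_zero] at h1
  rw [Matrix.det_apply, Polynomial.finsetSum_coeff] at h1
  have h2 : ∀ σ : Equiv.Perm (Fin d),
      (Equiv.Perm.sign σ • ∏ i, fw c g (σ i) i).coeff (∑ k, (g k).natDegree) =
        (∏ k, (g k).leadingCoeff) * (Equiv.Perm.sign σ •
          ∏ i, (Matrix.vandermonde fun k => c ^ (g k).natDegree).transpose (σ i) i) := by
    intro σ
    have h3 : (∏ i, fw c g (σ i) i).coeff (∑ k, (g k).natDegree) =
        (∏ k, (g k).leadingCoeff) *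
          ∏ i, (Matrix.vandermonde fun k => c ^ (g k).natDegree).transpose (σ i) i := by
      rw [fwx_coeff_prod Finset.univ (fun i => fw c g (σ i) i) (fun k => (g k).natDegree)
        (fun i _ => fwx_entry_natDegree c (g i) _), ← Finset.prod_mul_distrib]
      refine Finset.prod_congr rfl fun i _ => ?_
      rw [fw, Matrix.of_apply, fwx_entry_coeff, Matrix.transpose_apply, Matrix.vandermonde_apply]
      rfl
    rcases Int.units_eq_one_or (Equiv.Perm.sign σ) with h4 | h4
    · rw [h4, one_smul, one_smul, h3]
    · rw [h4, Units.neg_smul, Units.neg_smul, one_smul, one_smul, Polynomial.coeff_neg, h3,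
        mul_neg]
  rw [Finset.sum_congr rfl fun σ _ => h2 σ, ← Finset.mul_sum, ← Matrix.det_apply,
    Matrix.det_transpose] at h1
  rcases mul_eq_zero.1 h1 with h3 | h3
  · obtain ⟨k, -, hk⟩ := Finset.prod_eq_zero_iff.1 h3
    exact hg k (Polynomial.leadingCoeff_eq_zero.1 hk)
  · refine (Matrix.det_vandermonde_ne_zero_iff.2 ?_) h3
    intro i j hij
    exact hinj i j (hc _ _ (hD i) (hD j) hij)

theorem fwx_update (c : K) {d : ℕ} (g : Fin d → K[X]) (i j : Fin d) (hij : j ≠ i) (a : K) :
    (fw c (Function.update g j (g j + a • g i))).det = (fw c g).det := by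
  have h1 : fw c (Function.update g j (g j + a • g i)) =
      (fw c g).updateCol j fun k => fw c g k j + (C a) • fw c g k i := by
    ext1 l k
    by_cases hk : k = j
    · subst hk
      rw [Matrix.updateCol_self]
      change (Function.update g k (g k + a • g i) k).comp (C (c ^ (l : ℕ)) * X) =
        (g k).comp (C (c ^ (l : ℕ)) * X) + C a * (g i).comp (C (c ^ (l : ℕ)) * X)
      rw [Function.update_self, Polynomial.add_comp, Polynomial.smul_comp,
        Polynomial.smul_eq_C_mul]
    · rw [Matrix.updateCol_ne hk]
      change (Function.update g j (g j + a • g i) k).comp (C (c ^ (l : ℕ)) * X) =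
        (g k).comp (C (c ^ (l : ℕ)) * X)
      rw [Function.update_of_ne hk]
  rw [h1, Matrix.det_updateCol_add_smul_self _ hij]

theorem fwx_indep {d : ℕ} (g : Fin d → K[X]) (hg : LinearIndependent K g) (i j : Fin d)
    (hij : j ≠ i) (a : K) : LinearIndependent K (Function.update g j (g j + a • g i)) := by
  rw [Fintype.linearIndependent_iff] at hg ⊢
  intro b hb
  have h1 : ∑ k, (b k + if k = i then a * b j else 0) • g k = 0 := by
    have h2 : ∀ k, (b k + if k = i then a * b j else 0) • g k =
        b k • Function.update g j (g j + a • g i) k +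
          ((if k = i then (a * b j) • g i else 0) - (if k = j then (b j * a) • g i else 0)) := by
      intro k
      by_cases hk : k = j
      · subst hk
        rw [if_neg hij, if_neg hij, if_pos rfl, Function.update_self, smul_add, smul_smul,
          add_zero, zero_sub]
        abel
      · rw [Function.update_of_ne hk, if_neg hk, sub_zero]
        by_cases hk2 : k = i
        · subst hk2
          rw [if_pos rfl, if_pos rfl, add_smul]
        · rw [if_neg hk2, if_neg hk2, add_zero, add_zero]
    rw [Finset.sum_congr rfl fun k _ => h2 k, Finset.sum_add_distrib, hb, zero_add,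
      Finset.sum_sub_distrib, Finset.sum_ite_eq' Finset.univ i, Finset.sum_ite_eq' Finset.univ j,
      if_pos (Finset.mem_univ _), if_pos (Finset.mem_univ _), mul_comm, sub_self]
  have h3 := hg _ h1
  have h4 : b j = 0 := by
    have h5 := h3 j
    rwa [if_neg hij, add_zero] at h5
  intro k
  have h5 := h3 k
  by_cases hk : k = i
  · rw [if_pos hk, h4, mul_zero, add_zero] at h5
    exact h5
  · rwa [if_neg hk, add_zero] at h5

theorem fwx_degree_lt (p q : K[X]) (hp : p ≠ 0) (hpq : p.natDegree = q.natDegree)
    (hne : q + (-(q.leadingCoeff / p.leadingCoeff)) • p ≠ 0) :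
    (q + (-(q.leadingCoeff / p.leadingCoeff)) • p).natDegree < q.natDegree := by
  set r := q + (-(q.leadingCoeff / p.leadingCoeff)) • p with hr
  have hp' : p.leadingCoeff ≠ 0 := Polynomial.leadingCoeff_ne_zero.2 hp
  have h1 : r.natDegree ≤ q.natDegree := by
    refine (Polynomial.natDegree_add_le _ _).trans (max_le le_rfl ?_)
    rw [← hpq]
    exact Polynomial.natDegree_smul_le _ _
  refine lt_of_le_of_ne h1 fun h2 => ?_
  have h3 : r.coeff q.natDegree = 0 := by
    rw [hr, Polynomial.coeff_add, Polynomial.coeff_smul, smul_eq_mul]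
    have h4 : p.coeff q.natDegree = p.leadingCoeff := by rw [← hpq]; rfl
    have h5 : q.coeff q.natDegree = q.leadingCoeff := rfl
    rw [h4, h5, neg_mul, div_mul_cancel₀ _ hp', add_neg_cancel]
  rw [← h2] at h3
  exact hne (Polynomial.leadingCoeff_eq_zero.1 h3)

theorem fwx_main (c : K) (D : ℕ) (hc : ∀ i j, i < D → j < D → c ^ i = c ^ j → i = j) {d : ℕ}
    (N : ℕ) : ∀ (g : Fin d → K[X]), LinearIndependent K g → (∀ k, (g k).natDegree < D) →
    ∑ k, (g k).natDegree = N → (fw c g).det ≠ 0 := by
  induction N using Nat.strong_induction_on with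
  | _ N ih =>
    intro g hg hD hN
    by_cases hinj : ∀ i j, (g i).natDegree = (g j).natDegree → i = j
    · exact fwx_distinct c D hc g (fun k => hg.ne_zero k) hD hinj
    · push Not at hinj
      obtain ⟨i, j, h1, h2⟩ := hinj
      have h3 := fwx_indep g hg i j (Ne.symm h2) (-((g j).leadingCoeff / (g i).leadingCoeff))
      have h4 : (g j + (-((g j).leadingCoeff / (g i).leadingCoeff)) • g i).natDegree <
          (g j).natDegree := by
        refine fwx_degree_lt (g i) (g j) (hg.ne_zero i) h1 ?_
        have h5 := h3.ne_zero j
        rwa [Function.update_self] at h5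
      rw [← fwx_update c g i j (Ne.symm h2) (-((g j).leadingCoeff / (g i).leadingCoeff))]
      refine ih _ ?_ _ h3 ?_ rfl
      · rw [← hN]
        refine Finset.sum_lt_sum (fun k _ => ?_) ⟨j, Finset.mem_univ _, ?_⟩
        · by_cases hk : k = j
          · subst hk
            rw [Function.update_self]
            exact h4.le
          · rw [Function.update_of_ne hk]
        · rw [Function.update_self]
          exact h4
      · intro k
        by_cases hk : k = j
        · subst hk
          rw [Function.update_self]
          exact h4.trans (hD k)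
        · rw [Function.update_of_ne hk]
          exact hD k

theorem fw_ne_zero (c : K) (D : ℕ) (hc : ∀ i j, i < D → j < D → c ^ i = c ^ j → i = j) {d : ℕ}
    (g : Fin d → K[X]) (hg : LinearIndependent K g) (hD : ∀ k, (g k).natDegree < D) :
    (fw c g).det ≠ 0 :=
  fwx_main c D hc _ g hg hD rfl

theorem fw_natDegree (c : K) (D : ℕ) {d : ℕ} (g : Fin d → K[X])
    (hD : ∀ k, (g k).natDegree < D) : (fw c g).det.natDegree ≤ d * (D - 1) := by
  rw [Matrix.det_apply]
  refine Polynomial.natDegree_sum_le_of_forall_le _ _ fun σ _ => ?_
  have h1 : (∏ i, fw c g (σ i) i).natDegree ≤ d * (D - 1) := by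
    refine (Polynomial.natDegree_prod_le _ _).trans ?_
    calc ∑ i, (fw c g (σ i) i).natDegree ≤ ∑ _i : Fin d, (D - 1) :=
          Finset.sum_le_sum fun i _ =>
            (fwx_entry_natDegree c (g i) _).trans (Nat.le_sub_one_of_lt (hD i))
      _ = d * (D - 1) := by rw [Finset.sum_const, Finset.card_univ, Fintype.card_fin, smul_eq_mul]
  rcases Int.units_eq_one_or (Equiv.Perm.sign σ) with h4 | h4
  · rw [h4, one_smul]
    exact h1
  · rw [h4, Units.neg_smul, one_smul, Polynomial.natDegree_neg]
    exact h1

end Pool.Agent.BNR
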