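import Mathlib

/-!
BNR-Mult: multiplicity of a zero of the determinant of a polynomial matrix (Mathlib only).
-/

set_option autoImplicit false

namespace Pool.Agent.BNR

open Module Matrix Polynomial

variable {K : Type*} [Field K]

theorem pow_dvd_det {d : ℕ} (M : Matrix (Fin d) (Fin d) K[X]) (z : K)
    (S : Submodule K (Fin d → K)) (hS : ∀ v ∈ S, (M.map (eval z)) *ᵥ v = 0) :
    (X - C z) ^ (finrank K S) ∣ M.det := by
  classical
  obtain ⟨T, hT⟩ := S.exists_isCompl
  let B := ((finBasis K S).prod (finBasis K T)).map (Submodule.prodEquivOfIsCompl S T hT)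
  have hB : ∀ i, B (Sum.inl i) ∈ S := by
    intro i
    show (Submodule.prodEquivOfIsCompl S T hT) (((finBasis K S).prod (finBasis K T)) (Sum.inl i)) ∈ S
    rw [Submodule.coe_prodEquivOfIsCompl', Basis.prod_apply_inl_fst, Basis.prod_apply_inl_snd,
      Submodule.coe_zero, add_zero]
    exact (finBasis K S i).2
  let e := B.indexEquiv (Pi.basisFun K (Fin d))
  let B' := B.reindex e
  have hB' : ∀ i, B' (e (Sum.inl i)) ∈ S := by
    intro i
    show (B.reindex e) (e (Sum.inl i)) ∈ S
    rw [Basis.reindex_apply, Equiv.symm_apply_apply]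
    exact hB i
  let G : Matrix (Fin d) (Fin d) K := (Pi.basisFun K (Fin d)).toMatrix B'
  have hG : IsUnit G.det := (Pi.basisFun K (Fin d)).isUnit_det B'
  have hGa : ∀ i j, G i j = B' j i := by
    intro i j
    show (Pi.basisFun K (Fin d)).toMatrix B' i j = _
    rw [Basis.toMatrix_apply, Pi.basisFun_repr]
  -- the columns in `S`
  have hcol : ∀ i k, (X - C z) ∣ (M * G.map (C : K →+* K[X])) i (e (Sum.inl k)) := by
    intro i k
    rw [dvd_iff_isRoot, IsRoot.def, Matrix.mul_apply, eval_finsetSum]
    have h1 := congrFun (hS _ (hB' k)) i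
    rw [Matrix.mulVec, dotProduct] at h1
    rw [← Pi.zero_apply (M := fun _ : Fin d => K) i, ← h1]
    refine Finset.sum_congr rfl fun j _ => ?_
    rw [Matrix.map_apply, eval_mul, eval_C, Matrix.map_apply, hGa]
  have hdet : (X - C z) ^ (finrank K S) ∣ (M * G.map (C : K →+* K[X])).det := by
    rw [Matrix.det_apply]
    refine Finset.dvd_sum fun σ _ => ?_
    have h2 : (X - C z) ^ (finrank K S) ∣
        ∏ i, (M * G.map (C : K →+* K[X])) (σ i) i := by
      let J : Finset (Fin d) := Finset.univ.image fun k : Fin (finrank K S) => e (Sum.inl k)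
      have hJ : J.card = finrank K S := by
        rw [Finset.card_image_of_injective, Finset.card_univ, Fintype.card_fin]
        exact e.injective.comp Sum.inl_injective
      have h3 : (X - C z) ^ (finrank K S) = ∏ _i ∈ J, (X - C z : K[X]) := by
        rw [Finset.prod_const, hJ]
      rw [h3]
      refine (Finset.prod_dvd_prod_of_dvd _ _ fun i hi => ?_).trans
        (Finset.prod_dvd_prod_of_subset J Finset.univ _ (Finset.subset_univ J))
      obtain ⟨k, _, rfl⟩ := Finset.mem_image.1 hi
      exact hcol _ k
    rcases Int.units_eq_one_or (Equiv.Perm.sign σ) with h | h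
    · rw [h, one_smul]
      exact h2
    · rw [h, Units.neg_smul, one_smul]
      exact (dvd_neg).2 h2
  rw [Matrix.det_mul] at hdet
  have hu : IsUnit (G.map (C : K →+* K[X])).det := by
    have h4 : (G.map (C : K →+* K[X])).det = C G.det := (RingHom.map_det C G).symm
    rw [h4]
    exact hG.map C
  exact (hu.dvd_mul_right).1 hdet

end Pool.Agent.BNR
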