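import Mathlib
import Pool.Agent.BNR.FW
import Pool.Agent.BNR.Mult

/-!
BNR-SD: subspace designs from folded Wronskians.

PLAN.  If `m = 0` or `N ≤ d` the sum is empty.  Otherwise (`D ≤ N ≤ m N`) `F = (fw c g).det ≠ 0` has
degree `≤ d (D - 1)`.  For `e < m`, `d ≤ s < N` let `z = c ^ (e N + s - d)`.  For `v ∈ lam c N g e s`:
row `l < d` of `(fw c g).map (eval z) *ᵥ v` is `(∑ v_k g_k)(c^l z) = (∑ v_k g_k)(c ^ (e N + (s - d + l)))
= 0` because `s - d + l < s`.  So `(X - C z) ^ finrank (lam c N g e s) ∣ F` (`pow_dvd_det`).  The points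
`z` for distinct `(e, s)` are distinct (`hc`; `e N + s - d < m N`, and `e`, `s - d < N` are determined by
`e N + (s - d)`), so `∑ finrank ≤ natDegree F` (root multiplicities: `Polynomial.le_rootMultiplicity_iff`,
`Polynomial.count_roots`, `Polynomial.card_roots'`, or: the product of the pairwise coprime powers
divides `F`, `Finset.prod_dvd_of_coprime`).
-/

set_option autoImplicit false

namespace Pool.Agent.BNR

open Module Matrix Polynomial

variable {K : Type*} [Field K]

/-- the combinations of the `g k` that vanish at the points `c ^ (e N + l)`, `l < s` -/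
def lam (c : K) (N : ℕ) {d : ℕ} (g : Fin d → K[X]) (e s : ℕ) : Submodule K (Fin d → K) where
  carrier := {v | ∀ l < s, (∑ k, C (v k) * g k).eval (c ^ (e * N + l)) = 0}
  add_mem' := by
    intro x y hx hy l hl
    have h1 : ∑ k, C ((x + y) k) * g k = ∑ k, C (x k) * g k + ∑ k, C (y k) * g k := by
      rw [← Finset.sum_add_distrib]
      exact Finset.sum_congr rfl fun k _ => by rw [Pi.add_apply, C_add, add_mul]
    rw [h1, eval_add, hx l hl, hy l hl, add_zero]
  zero_mem' := by intro l _; simp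
  smul_mem' := by
    intro a x hx l hl
    have h1 : ∑ k, C ((a • x) k) * g k = C a * ∑ k, C (x k) * g k := by
      rw [Finset.mul_sum]
      exact Finset.sum_congr rfl fun k _ => by rw [Pi.smul_apply, smul_eq_mul, C_mul, mul_assoc]
    rw [h1, eval_mul, hx l hl, mul_zero]

private theorem sd_lt {m N e e' s s' d : ℕ} (hs : s < N) (hds : d ≤ s) (hs' : s' < N)
    (hds' : d ≤ s') (h : e * N + (s - d) = e' * N + (s' - d)) : e = e' ∧ s = s' := by
  have h1 : e = e' := by
    rcases lt_trichotomy e e' with h1 | h1 | h1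
    · exfalso
      have h2 : (e + 1) * N ≤ e' * N := Nat.mul_le_mul_right N h1
      rw [Nat.add_mul, Nat.one_mul] at h2
      omega
    · exact h1
    · exfalso
      have h2 : (e' + 1) * N ≤ e * N := Nat.mul_le_mul_right N h1
      rw [Nat.add_mul, Nat.one_mul] at h2
      omega
  subst h1
  exact ⟨rfl, by omega⟩

theorem sd (c : K) (m N : ℕ) (hc : ∀ i j, i < m * N → j < m * N → c ^ i = c ^ j → i = j)
    {d : ℕ} (D : ℕ) (g : Fin d → K[X]) (hg : LinearIndependent K g)
    (hD : ∀ k, (g k).natDegree < D) (hDN : D ≤ N) :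
    ∑ e : Fin m, ∑ s ∈ Finset.Ico d N, finrank K (lam c N g e s) ≤ d * (D - 1) := by
  rcases Nat.eq_zero_or_pos m with hm | hm
  · subst hm
    simp
  have hNm : N ≤ m * N := Nat.le_mul_of_pos_left N hm
  have hF : (fw c g).det ≠ 0 := fw_ne_zero c D
    (fun i j hi hj h => hc i j (by omega) (by omega) h) g hg hD
  have hdeg : (fw c g).det.natDegree ≤ d * (D - 1) := fw_natDegree c D g hD
  set P : Finset (Fin m × ℕ) := Finset.univ ×ˢ Finset.Ico d N with hP
  have hmem : ∀ p ∈ P, d ≤ p.2 ∧ p.2 < N := by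
    intro p hp
    rw [hP, Finset.mem_product] at hp
    exact Finset.mem_Ico.1 hp.2
  have hlt : ∀ p ∈ P, (p.1 : ℕ) * N + (p.2 - d) < m * N := by
    intro p hp
    have h1 := hmem p hp
    have h2 : ((p.1 : ℕ) + 1) * N ≤ m * N := Nat.mul_le_mul_right N p.1.2
    rw [Nat.add_mul, Nat.one_mul] at h2
    omega
  have hdvd : ∏ p ∈ P, (X - C (c ^ ((p.1 : ℕ) * N + (p.2 - d)))) ^
      (finrank K (lam c N g p.1 p.2)) ∣ (fw c g).det := by
    refine Finset.prod_dvd_of_coprime ?_ ?_
    · intro p hp q hq hpq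
      have hne : c ^ ((p.1 : ℕ) * N + (p.2 - d)) ≠ c ^ ((q.1 : ℕ) * N + (q.2 - d)) := by
        intro h
        have h1 := hc _ _ (hlt p hp) (hlt q hq) h
        have h2 := sd_lt (m := m) (hmem p hp).2 (hmem p hp).1 (hmem q hq).2 (hmem q hq).1 h1
        exact hpq (Prod.ext (Fin.ext h2.1) h2.2)
      exact IsCoprime.pow (isCoprime_X_sub_C_of_isUnit_sub (sub_ne_zero.2 hne).isUnit)
    · intro p hp
      refine pow_dvd_det _ _ _ ?_
      intro v hv
      have hp' := hmem p hp
      funext l
      have h1 : (l : ℕ) < d := l.2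
      have h2 := hv (p.2 - d + l) (by omega)
      rw [eval_finsetSum] at h2
      rw [Matrix.mulVec, dotProduct]
      rw [Pi.zero_apply, ← h2]
      refine Finset.sum_congr rfl fun k _ => ?_
      rw [Matrix.map_apply, fw, Matrix.of_apply, eval_comp, eval_mul, eval_mul, eval_C, eval_C,
        eval_X, ← pow_add, mul_comm (v k)]
      congr 3
      omega
  have hle := natDegree_le_of_dvd hdvd hF
  rw [natDegree_prod _ _ (fun p _ => pow_ne_zero _ (X_sub_C_ne_zero _))] at hle
  have h3 : ∀ p ∈ P, ((X - C (c ^ ((p.1 : ℕ) * N + (p.2 - d)))) ^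
      (finrank K (lam c N g p.1 p.2))).natDegree = finrank K (lam c N g p.1 p.2) := by
    intro p _
    rw [natDegree_pow, natDegree_X_sub_C, mul_one]
  rw [Finset.sum_congr rfl h3, hP, Finset.sum_product] at hle
  exact hle.trans hdeg

end Pool.Agent.BNR
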