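import Mathlib
import Pool.Agent.BNR.Cond
import Pool.Agent.BNR.SD

/-!
BNR-One: the one-sided lemma.

PLAN.  Suppose `(bar ...).rank + m n^2 < n N`.  Then the kernel of `bar` (a subspace of
`Fin n × Fin N → K`) has dimension `> m n * n` (`Matrix.rank` + finrank of the kernel), so
(`mn < N` here) there is `F ≠ 0` in the kernel with `F (j, a) = 0` for all `j` and all
`a ≥ N - m n` (`m n * n` linear conditions).
Some `j0` has `F (j0, ·) ≠ 0`; put `c0 = β j0` and `f (j, a) = F (j, a)` if `β j = c0`, else `0`.  `f` is in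
the kernel too (a row `(e, p, r)` of `bar` only involves the `j` with `β j = y e p`, so
it gives `0` if `y e p ≠ c0`, and the same value as for `F` otherwise).
`W` = the span of the vectors `f (·, a)`, `a < N`, in `Fin n → K`; it is supported on `β j = c0`;
`d = finrank W ≥ 1`, `d ≤ n`.  Basis `w` of `W` (`Module.finBasis`), `f (·, a) = ∑ k, γ a k • w k`,
`g k = ∑ a, C (γ a k) X^a`, of degree `< D = N - m n` (`D ≥ 1` because `f ≠ 0`); the `g k` are linearly
independent (a relation `∑ μ k g k = 0` would mean that the functional with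
`w k ↦ μ k` kills all `f (·, a)`, so `W`).
For `e`, `s ≤ N - 1`: let `Z = kil (b e) {p | y e p = c0 ∧ s - c0 ≤ x e p} W`.
`finrank W - finrank Z ≤ finrank (lam c N g e s)`: the functionals `w ↦ b e p ⬝ᵥ w` (these `p`) on `W` span a
space of dimension `finrank W - finrank Z`; in the coordinates `v k = b e p ⬝ᵥ w k` they
lie in `lam c N g e s`: `∑ k, v k g k = ∑ a, (b e p ⬝ᵥ f (·, a)) X^a` vanishes at `c^(e N + l)`, `l < s`,
since `l + 1 ≤ s ≤ x e p + c0` and the row `(e, p, l)` of `bar` kills `f`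
(for instance: `S` = span of these `v`'s in `Fin d → K`; `Z` corresponds to the orthogonal
complement of `S`, `finrank S + finrank (S^⊥) = d`.)
`Cond` gives `N d ≤ ∑ e, ∑ s < N, finrank (lam c N g e s) ≤ ∑ e, (d * d + ∑ s ∈ Ico d N, finrank (lam ..))
≤ m d d + d (D - 1)` (`sd`; for `s < d` the finrank is `≤ d`).  With `D = N - m n`, `1 ≤ d ≤ n`:
`N ≤ m d + D - 1 ≤ m n + N - m n - 1 = N - 1`, a contradiction.
-/

set_option autoImplicit false

namespace Pool.Agent.BNR

open Module Matrix Polynomial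

variable {K : Type*} [Field K] {n m : ℕ}

private theorem one_exists {R : Type*} {N : ℕ} (M : Matrix R (Fin n × Fin N) K) (q : ℕ)
    (hq : q < N) (h : M.rank + n * q < n * N) : ∃ F : Fin n × Fin N → K, F ≠ 0 ∧ M *ᵥ F = 0 ∧
      ∀ (j : Fin n) (a : Fin N), N - q ≤ (a : ℕ) → F (j, a) = 0 := by
  let φ : (Fin n × Fin N → K) →ₗ[K] (Fin n × Fin q → K) :=
    LinearMap.funLeft K K (fun v => (v.1, ⟨N - q + (v.2 : ℕ), by have := v.2.2; omega⟩))
  have h1 := LinearMap.finrank_range_add_finrank_ker M.mulVecLin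
  have h2 : M.rank = finrank K (LinearMap.range M.mulVecLin) := rfl
  rw [← h2, Module.finrank_fintype_fun_eq_card, Fintype.card_prod, Fintype.card_fin,
    Fintype.card_fin] at h1
  have h3 : finrank K (Fin n × Fin q → K) < finrank K (LinearMap.ker M.mulVecLin) := by
    rw [Module.finrank_fintype_fun_eq_card, Fintype.card_prod, Fintype.card_fin, Fintype.card_fin]
    omega
  have h4 := LinearMap.ker_ne_bot_of_finrank_lt
    (f := φ ∘ₗ (LinearMap.ker M.mulVecLin).subtype) h3
  obtain ⟨F, hF, hF0⟩ := Submodule.exists_mem_ne_zero_of_ne_bot h4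
  refine ⟨F.1, fun h => hF0 (Subtype.ext h), ?_, ?_⟩
  · have := F.2
    rwa [LinearMap.mem_ker, Matrix.mulVecLin_apply] at this
  · intro j a ha
    have h5 : φ F.1 = 0 := hF
    have h6 := congrFun h5 (j, ⟨(a : ℕ) - (N - q), by have := a.2; omega⟩)
    have h7 : φ F.1 (j, ⟨(a : ℕ) - (N - q), by have := a.2; omega⟩) = F.1 (j, a) := by
      show F.1 (j, ⟨N - q + ((a : ℕ) - (N - q)), _⟩) = F.1 (j, a)
      refine congrArg F.1 (Prod.ext rfl (Fin.ext ?_))
      show N - q + ((a : ℕ) - (N - q)) = a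
      omega
    rw [h7] at h6
    exact h6

/-- the dimension drop is at most the dimension of a space containing the functionals -/
private theorem one_drop {d kk : ℕ} (W : Submodule K (Fin n → K)) (w : Basis (Fin d) K W)
    (bb : Fin kk → Fin n → K) (P : Set (Fin kk)) (Lam : Submodule K (Fin d → K))
    (hL : ∀ p ∈ P, (fun i => bb p ⬝ᵥ (w i : Fin n → K)) ∈ Lam) :
    (finrank K W : ℤ) - finrank K (kil bb P W) ≤ finrank K Lam := by
  classical
  have hd : finrank K W = d := by
    rw [Module.finrank_eq_card_basis w, Fintype.card_fin]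
  let A : Matrix (Fin kk) (Fin d) K := fun p i => if p ∈ P then bb p ⬝ᵥ (w i : Fin n → K) else 0
  have h1 : A.rank ≤ finrank K Lam := by
    rw [Matrix.rank_eq_finrank_span_row]
    apply Submodule.finrank_mono
    rw [Submodule.span_le]
    rintro v ⟨p, rfl⟩
    by_cases hp : p ∈ P
    · have : A p = fun i => bb p ⬝ᵥ (w i : Fin n → K) := by
        funext i
        exact if_pos hp
      show A p ∈ Lam
      rw [this]
      exact hL p hp
    · have : A p = 0 := by
        funext i
        exact if_neg hp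
      show A p ∈ Lam
      rw [this]
      exact Lam.zero_mem
  have h2 := LinearMap.finrank_range_add_finrank_ker A.mulVecLin
  have h3 : A.rank = finrank K (LinearMap.range A.mulVecLin) := rfl
  rw [← h3, Module.finrank_fintype_fun_eq_card, Fintype.card_fin] at h2
  let L : (Fin d → K) →ₗ[K] (Fin n → K) := W.subtype ∘ₗ w.equivFun.symm.toLinearMap
  have hLi : Function.Injective L := by
    intro u v huv
    have h : (w.equivFun.symm u) = (w.equivFun.symm v) := Subtype.ext huv
    exact w.equivFun.symm.injective h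
  have hLv : ∀ u, L u = ∑ i, u i • (w i : Fin n → K) := by
    intro u
    show ((w.equivFun.symm u : W) : Fin n → K) = _
    rw [Basis.equivFun_symm_apply, Submodule.coe_sum]
    rfl
  have h4 : finrank K (LinearMap.ker A.mulVecLin) ≤ finrank K (kil bb P W) := by
    have e1 := LinearEquiv.finrank_eq
      (Submodule.equivMapOfInjective L hLi (LinearMap.ker A.mulVecLin))
    rw [e1]
    apply Submodule.finrank_mono
    rintro v ⟨u, hu, rfl⟩
    refine ⟨(w.equivFun.symm u).2, fun p hp => ?_⟩
    have h5 : A *ᵥ u = 0 := by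
      have := hu
      rwa [SetLike.mem_coe, LinearMap.mem_ker, Matrix.mulVecLin_apply] at this
    have h6 : (A *ᵥ u) p = 0 := congrFun h5 p
    have h7 : (A *ᵥ u) p = ∑ i, (bb p ⬝ᵥ (w i : Fin n → K)) * u i := by
      show ∑ i, A p i * u i = _
      refine Finset.sum_congr rfl fun i _ => ?_
      have : A p i = bb p ⬝ᵥ (w i : Fin n → K) := if_pos hp
      rw [this]
    rw [h7] at h6
    rw [hLv, dotProduct_sum, ← h6]
    refine Finset.sum_congr rfl fun i _ => ?_
    rw [dotProduct_smul, smul_eq_mul, mul_comm]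
  rw [hd]
  omega

private theorem one_ker (c : K) (N : ℕ) (β : Fin n → ℤ) (k : Fin m → ℕ)
    (b : ∀ e, Fin (k e) → Fin n → K) (x y : ∀ e, Fin (k e) → ℤ) (F : Fin n × Fin N → K)
    (hF : bar c N β k b x y *ᵥ F = 0) (c0 : ℤ) (e : Fin m) (p : Fin (k e)) (r : Fin N)
    (hy : y e p = c0) (hr : (r : ℤ) + 1 ≤ x e p + y e p) :
    ∑ a : Fin N, (b e p ⬝ᵥ fun j => if β j = c0 then F (j, a) else 0) *
      c ^ (((e : ℕ) * N + r) * (a : ℕ)) = 0 := by
  have h1 : (bar c N β k b x y *ᵥ F) ⟨e, p, r⟩ = 0 := congrFun hF ⟨e, p, r⟩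
  have h2 : (bar c N β k b x y *ᵥ F) ⟨e, p, r⟩ = ∑ v : Fin n × Fin N,
      (if ((r : ℕ) : ℤ) + 1 ≤ x e p + y e p ∧ β v.1 = y e p then
        b e p v.1 * c ^ (((e : ℕ) * N + r) * (v.2 : ℕ)) else 0) * F v := rfl
  rw [h2, Fintype.sum_prod_type, Finset.sum_comm] at h1
  refine Eq.trans ?_ h1
  refine Finset.sum_congr rfl fun a _ => ?_
  unfold dotProduct
  rw [Finset.sum_mul]
  refine Finset.sum_congr rfl fun j _ => ?_
  show b e p j * (if β j = c0 then F (j, a) else 0) * c ^ (((e : ℕ) * N + r) * (a : ℕ)) =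
    (if ((r : ℕ) : ℤ) + 1 ≤ x e p + y e p ∧ β j = y e p then
        b e p j * c ^ (((e : ℕ) * N + r) * (a : ℕ)) else 0) * F (j, a)
  by_cases hj : β j = c0
  · rw [if_pos hj, if_pos ⟨hr, hj.trans hy.symm⟩]
    ring
  · rw [if_neg hj, if_neg (fun h => hj (h.2.trans hy))]
    ring

theorem one_sided (c : K) (N : ℕ)
    (hc : ∀ i j, i < m * N → j < m * N → c ^ i = c ^ j → i = j)
    (β : Fin n → ℤ) (k : Fin m → ℕ) (b : ∀ e, Fin (k e) → Fin n → K)
    (x y : ∀ e, Fin (k e) → ℤ) (h : Cond N β k b x y) :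
    n * N ≤ (bar c N β k b x y).rank + m * n ^ 2 := by
  classical
  by_contra hcon
  push Not at hcon
  have hn : 0 < n := by
    rcases Nat.eq_zero_or_pos n with h0 | h0
    · have h1 : n * N = 0 := by rw [h0, zero_mul]
      omega
    · exact h0
  have hmn : m * n < N := by
    have h1 : n * (m * n) < n * N := by
      calc n * (m * n) = m * n ^ 2 := by ring
        _ ≤ (bar c N β k b x y).rank + m * n ^ 2 := Nat.le_add_left _ _
        _ < n * N := hcon
    exact lt_of_mul_lt_mul_left h1 (Nat.zero_le n)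
  obtain ⟨F, hF0, hFk, hFa⟩ := one_exists (bar c N β k b x y) (m * n) hmn (by
    have : n * (m * n) = m * n ^ 2 := by ring
    omega)
  obtain ⟨⟨j0, a0⟩, hja⟩ := Function.ne_iff.1 hF0
  obtain ⟨c0, hc0⟩ : ∃ c0 : ℤ, c0 = β j0 := ⟨_, rfl⟩
  let f : Fin N → Fin n → K := fun a j => if β j = c0 then F (j, a) else 0
  let W : Submodule K (Fin n → K) := Submodule.span K (Set.range f)
  have hWs : ∀ w ∈ W, ∀ j, w j ≠ 0 → β j = c0 := by
    intro w hw
    induction hw using Submodule.span_induction with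
    | mem v hv =>
      obtain ⟨a, rfl⟩ := hv
      intro j hj
      by_contra hne
      exact hj (if_neg hne)
    | zero => intro j hj; exact absurd rfl hj
    | add u v _ _ hu hv =>
      intro j hj
      by_contra hne
      have h1 : u j = 0 := by by_contra h; exact hne (hu j h)
      have h2 : v j = 0 := by by_contra h; exact hne (hv j h)
      exact hj (by simp [h1, h2])
    | smul t u _ hu =>
      intro j hj
      exact hu j (fun h => hj (by simp [h]))
  have hfW : ∀ a, f a ∈ W := fun a => Submodule.subset_span ⟨a, rfl⟩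
  obtain ⟨d, hd⟩ : ∃ d : ℕ, d = finrank K W := ⟨_, rfl⟩
  have hd1 : 1 ≤ d := by
    rw [hd, Nat.one_le_iff_ne_zero]
    intro h0
    have hW0 : W = ⊥ := Submodule.finrank_eq_zero.1 h0
    have h1 := hfW a0
    rw [hW0, Submodule.mem_bot] at h1
    have h2 := congrFun h1 j0
    have h3 : f a0 j0 = F (j0, a0) := if_pos hc0.symm
    rw [h3] at h2
    exact hja h2
  have hdn : d ≤ n := by
    rw [hd]
    refine (Submodule.finrank_le W).trans ?_
    rw [Module.finrank_fintype_fun_eq_card, Fintype.card_fin]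
  obtain ⟨w⟩ : Nonempty (Basis (Fin d) K W) := by
    rw [hd]
    exact ⟨Module.finBasis K W⟩
  let γ : Fin N → Fin d → K := fun a i => w.repr ⟨f a, hfW a⟩ i
  have hγ : ∀ a, f a = ∑ i, γ a i • (w i : Fin n → K) := by
    intro a
    have h1 := w.sum_repr ⟨f a, hfW a⟩
    have h2 := congrArg (fun v : W => (v : Fin n → K)) h1
    simp only [Submodule.coe_sum] at h2
    exact h2.symm
  obtain ⟨D, hD⟩ : ∃ D : ℕ, D = N - m * n := ⟨_, rfl⟩
  have hγ0 : ∀ a : Fin N, D ≤ (a : ℕ) → ∀ i, γ a i = 0 := by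
    intro a ha i
    have h1 : f a = 0 := by
      funext j
      show (if β j = c0 then F (j, a) else 0) = 0
      by_cases hj : β j = c0
      · rw [if_pos hj]
        exact hFa j a (by omega)
      · rw [if_neg hj]
    have h2 : (⟨f a, hfW a⟩ : W) = 0 := Subtype.ext h1
    show w.repr ⟨f a, hfW a⟩ i = 0
    rw [h2, map_zero]
    rfl
  let g : Fin d → K[X] := fun i => ∑ a : Fin N, C (γ a i) * X ^ (a : ℕ)
  have hgc : ∀ i (a : Fin N), (g i).coeff a = γ a i := by
    intro i a
    show (∑ a : Fin N, C (γ a i) * X ^ (a : ℕ)).coeff a = γ a i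
    rw [Polynomial.finsetSum_coeff, Finset.sum_eq_single a]
    · rw [Polynomial.coeff_C_mul_X_pow, if_pos rfl]
    · intro a' _ hne
      rw [Polynomial.coeff_C_mul_X_pow, if_neg]
      intro h
      exact hne (Fin.ext h).symm
    · intro h
      exact absurd (Finset.mem_univ a) h
  have hgD : ∀ i, (g i).natDegree < D := by
    intro i
    have h1 : (g i).natDegree ≤ D - 1 := by
      show (∑ a : Fin N, C (γ a i) * X ^ (a : ℕ)).natDegree ≤ D - 1
      refine Polynomial.natDegree_sum_le_of_forall_le _ _ fun a _ => ?_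
      by_cases ha : D ≤ (a : ℕ)
      · rw [hγ0 a ha i]
        simp
      · refine (Polynomial.natDegree_C_mul_X_pow_le _ _).trans (by omega)
    omega
  have hgl : LinearIndependent K g := by
    rw [Fintype.linearIndependent_iff]
    intro μ hμ
    let ψ : W →ₗ[K] K := w.constr K μ
    have h1 : ∀ a, ψ ⟨f a, hfW a⟩ = 0 := by
      intro a
      have e1 : ψ ⟨f a, hfW a⟩ = ∑ i, γ a i * μ i := by
        show w.constr K μ ⟨f a, hfW a⟩ = _
        rw [Basis.constr_apply_fintype]
        rfl
      have e2 := congrArg (fun q : K[X] => q.coeff (a : ℕ)) hμ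
      simp only [Polynomial.finsetSum_coeff, Polynomial.coeff_smul, hgc, smul_eq_mul,
        Polynomial.coeff_zero] at e2
      rw [e1, ← e2]
      exact Finset.sum_congr rfl fun i _ => mul_comm _ _
    have h2 : W ≤ (LinearMap.ker ψ).map W.subtype := by
      show Submodule.span K (Set.range f) ≤ _
      rw [Submodule.span_le]
      rintro v ⟨a, rfl⟩
      exact ⟨⟨f a, hfW a⟩, h1 a, rfl⟩
    intro i
    obtain ⟨u, hu, hui⟩ := h2 (w i).2
    have h3 : u = w i := Subtype.ext hui
    rw [h3] at hu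
    have h4 : ψ (w i) = μ i := by
      show w.constr K μ (w i) = μ i
      rw [Basis.constr_basis]
    rw [← h4]
    exact hu
  -- the functionals lie in `lam`
  have hlam : ∀ (e : Fin m) (s : ℕ), s < N →
      ∀ p ∈ {p : Fin (k e) | y e p = c0 ∧ (s : ℤ) - c0 ≤ x e p},
        (fun i => b e p ⬝ᵥ (w i : Fin n → K)) ∈ lam c N g e s := by
    rintro e s hs p ⟨hp1, hp2⟩ l hl
    have h1 := one_ker c N β k b x y F hFk c0 e p ⟨l, by omega⟩ hp1 (by
      rw [hp1]
      show (l : ℤ) + 1 ≤ x e p + c0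
      omega)
    have h2 : (∑ i, C (b e p ⬝ᵥ (w i : Fin n → K)) * g i).eval (c ^ ((e : ℕ) * N + l)) =
        ∑ i, (b e p ⬝ᵥ (w i : Fin n → K)) *
          ∑ a : Fin N, γ a i * (c ^ ((e : ℕ) * N + l)) ^ (a : ℕ) := by
      rw [Polynomial.eval_finsetSum]
      refine Finset.sum_congr rfl fun i _ => ?_
      rw [Polynomial.eval_mul, Polynomial.eval_C]
      congr 1
      show (∑ a : Fin N, C (γ a i) * X ^ (a : ℕ)).eval _ = _
      rw [Polynomial.eval_finsetSum]
      refine Finset.sum_congr rfl fun a _ => ?_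
      rw [Polynomial.eval_mul, Polynomial.eval_C, Polynomial.eval_pow, Polynomial.eval_X]
    show (∑ i, C (b e p ⬝ᵥ (w i : Fin n → K)) * g i).eval (c ^ ((e : ℕ) * N + l)) = 0
    rw [h2, ← h1]
    simp only [Finset.mul_sum]
    rw [Finset.sum_comm]
    refine Finset.sum_congr rfl fun a _ => ?_
    have h3 : (fun j => if β j = c0 then F (j, a) else 0) = f a := rfl
    rw [h3, hγ a, dotProduct_sum, Finset.sum_mul]
    refine Finset.sum_congr rfl fun i _ => ?_
    rw [dotProduct_smul, smul_eq_mul, pow_mul]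
    ring
  -- the counting
  have h1 := h c0 W hWs
  have h2 : ∀ e : Fin m, ∀ s ∈ Finset.range N,
      ((finrank K W : ℤ) - finrank K (kil (b e) {p | y e p = c0 ∧ (s : ℤ) - c0 ≤ x e p} W)) ≤
      (finrank K (lam c N g e s) : ℤ) := fun e s hs =>
    one_drop W w (b e) _ (lam c N g e s) (hlam e s (Finset.mem_range.1 hs))
  have h3 : (N : ℤ) * finrank K W ≤ ((∑ e : Fin m, ∑ s ∈ Finset.range N,
      finrank K (lam c N g e s) : ℕ) : ℤ) := by
    refine h1.trans ?_
    push_cast
    exact Finset.sum_le_sum fun e _ => Finset.sum_le_sum fun s hs => h2 e s hs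
  have h4 : N * d ≤ ∑ e : Fin m, ∑ s ∈ Finset.range N, finrank K (lam c N g e s) := by
    rw [← hd] at h3
    exact_mod_cast h3
  have h5 : ∀ e : Fin m, ∑ s ∈ Finset.range N, finrank K (lam c N g e s) ≤
      d * d + ∑ s ∈ Finset.Ico d N, finrank K (lam c N g e s) := by
    intro e
    have h6 : Finset.range N ⊆ Finset.range d ∪ Finset.Ico d N := by
      intro s hs
      rw [Finset.mem_range] at hs
      rw [Finset.mem_union, Finset.mem_range, Finset.mem_Ico]
      omega
    refine (Finset.sum_le_sum_of_subset h6).trans ?_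
    refine (Nat.le_add_right _ _).trans ((Finset.sum_union_inter).le.trans ?_)
    refine Nat.add_le_add_right ?_ _
    refine (Finset.sum_le_card_nsmul _ _ d fun s _ => ?_).trans ?_
    · refine (Submodule.finrank_le _).trans ?_
      rw [Module.finrank_fintype_fun_eq_card, Fintype.card_fin]
    · rw [Finset.card_range, smul_eq_mul]
  have h6 := sd c m N hc D g hgl hgD (by omega)
  have h7 : N * d ≤ m * (d * d) + d * (D - 1) := by
    refine h4.trans ((Finset.sum_le_sum fun e _ => h5 e).trans ?_)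
    rw [Finset.sum_add_distrib, Finset.sum_const, Finset.card_univ, Fintype.card_fin, smul_eq_mul]
    exact Nat.add_le_add_left h6 _
  have h8 : d * N ≤ d * (m * d + (D - 1)) := by
    calc d * N = N * d := mul_comm _ _
      _ ≤ m * (d * d) + d * (D - 1) := h7
      _ = d * (m * d + (D - 1)) := by ring
  have h9 : N ≤ m * d + (D - 1) := le_of_mul_le_mul_left h8 hd1
  have h10 : m * d ≤ m * n := Nat.mul_le_mul_left m hdn
  omega

end Pool.Agent.BNR
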