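import Mathlib
import Pool.Agent.BNR.Defs

/-!
BNR-RhoA: the rank `rho` of a bilinear form on a pair of subspaces: basic facts.

PLAN.
`rho_nonneg`: `ann M A B ≤ B`, so `finrank (ann M A B) ≤ finrank B`.
`rho_bot_right`: `ann M A ⊥ = ⊥`.  `rho_bot_left`: `ann M ⊥ B = B`.
`rho_swap`: the rank of a bilinear form equals the rank of the transposed form.  One way: let
`f : B →ₗ[K] Module.Dual K A`, `f v h = hᵀ M v`; `ann M A B` is (the image in `Fin n → K` of)
`ker f`, so `rho M A B = finrank (range f)`; `f.flip`-type argument: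
`LinearMap.finrank_range_dualMap_eq_finrank_range` and the evaluation equivalence, or via
`Matrix.rank_transpose` with bases of `A` and `B`.
`rho_map`: `A.map P.mulVecLin`: `(P h)ᵀ M (Q v) = hᵀ (Pᵀ M Q) v`, and `P`, `Q` are invertible
(injective), so `ann M (A.map P) (B.map Q) = (ann (Pᵀ M Q) A B).map Q` and finranks are preserved
(`LinearMap.finrank_map_eq'`, `LinearEquiv.finrank_map_eq` or `Submodule.equivMapOfInjective`).
-/

set_option autoImplicit false

namespace Pool.Agent.BNR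

open Module Matrix

variable {K : Type*} [Field K] {n m : ℕ}

theorem ann_le (M : Matrix (Fin n) (Fin n) K) (A B : Submodule K (Fin n → K)) :
    ann M A B ≤ B := fun _ h => h.1

theorem rho_nonneg (M : Matrix (Fin n) (Fin n) K) (A B : Submodule K (Fin n → K)) :
    0 ≤ rho M A B := by
  have h := Submodule.finrank_mono (ann_le M A B)
  unfold rho
  omega

theorem rho_bot_right (M : Matrix (Fin n) (Fin n) K) (A : Submodule K (Fin n → K)) :
    rho M A ⊥ = 0 := by
  have h : ann M A ⊥ = ⊥ := le_bot_iff.1 (ann_le M A ⊥)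
  unfold rho
  rw [h]
  omega

theorem rho_bot_left (M : Matrix (Fin n) (Fin n) K) (B : Submodule K (Fin n → K)) :
    rho M ⊥ B = 0 := by
  have h : ann M ⊥ B = B := by
    refine le_antisymm (ann_le M ⊥ B) fun v hv => ⟨hv, fun h hh => ?_⟩
    rw [(Submodule.mem_bot K).1 hh, zero_dotProduct]
  unfold rho
  rw [h]
  omega

/-- the bilinear form as a linear map -/
private def rhoA_f (M : Matrix (Fin n) (Fin n) K) (A B : Submodule K (Fin n → K)) :
    B →ₗ[K] Module.Dual K A :=
  LinearMap.mk₂ K (fun v h => (h : Fin n → K) ⬝ᵥ (M *ᵥ (v : Fin n → K)))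
    (fun v v' h => by
      rw [Submodule.coe_add, mulVec_add, dotProduct_add])
    (fun c v h => by
      rw [Submodule.coe_smul, mulVec_smul, dotProduct_smul])
    (fun v h h' => by
      rw [Submodule.coe_add, add_dotProduct])
    (fun c v h => by
      rw [Submodule.coe_smul, smul_dotProduct])

private theorem rhoA_range (M : Matrix (Fin n) (Fin n) K) (A B : Submodule K (Fin n → K)) :
    rho M A B = finrank K (LinearMap.range (rhoA_f M A B)) := by
  have h1 := LinearMap.finrank_range_add_finrank_ker (rhoA_f M A B)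
  have e : (LinearMap.ker (rhoA_f M A B)).map B.subtype = ann M A B := by
    ext v
    constructor
    · rintro ⟨w, hw, rfl⟩
      refine ⟨w.2, fun h hh => ?_⟩
      have h2 : rhoA_f M A B w = 0 := hw
      exact LinearMap.congr_fun h2 ⟨h, hh⟩
    · rintro ⟨hv, hv2⟩
      refine ⟨⟨v, hv⟩, ?_, rfl⟩
      show rhoA_f M A B ⟨v, hv⟩ = 0
      ext h
      exact hv2 h.1 h.2
  have h3 : finrank K (ann M A B) = finrank K (LinearMap.ker (rhoA_f M A B)) := by
    rw [← e]
    exact (Submodule.equivMapOfInjective _ B.injective_subtype _).finrank_eq.symm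
  unfold rho
  rw [h3]
  omega

theorem rho_swap (M : Matrix (Fin n) (Fin n) K) (A B : Submodule K (Fin n → K)) :
    rho M A B = rho Mᵀ B A := by
  have h1 := rhoA_range M A B
  have h2 := rhoA_range Mᵀ B A
  rw [h1, h2]
  have e : (rhoA_f Mᵀ B A) = (rhoA_f M A B).dualMap ∘ₗ (Module.evalEquiv K A).toLinearMap := by
    ext h v
    show (v : Fin n → K) ⬝ᵥ (Mᵀ *ᵥ (h : Fin n → K)) = (h : Fin n → K) ⬝ᵥ (M *ᵥ (v : Fin n → K))
    rw [mulVec_transpose, dotProduct_comm, dotProduct_mulVec]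
  rw [e, LinearMap.range_comp, LinearEquiv.range, Submodule.map_top,
    LinearMap.finrank_range_dualMap_eq_finrank_range]

theorem rho_map (M P Q : Matrix (Fin n) (Fin n) K) (hP : IsUnit P) (hQ : IsUnit Q)
    (A B : Submodule K (Fin n → K)) :
    rho M (A.map P.mulVecLin) (B.map Q.mulVecLin) = rho (Pᵀ * M * Q) A B := by
  have hPi : Function.Injective P.mulVecLin := by
    obtain ⟨P', hP'⟩ := hP
    intro x y hxy
    have h1 : P *ᵥ x = P *ᵥ y := hxy
    have h2 := congrArg (fun z => (↑P'⁻¹ : Matrix (Fin n) (Fin n) K) *ᵥ z) h1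
    simp only [mulVec_mulVec] at h2
    rw [← hP', Units.inv_mul, one_mulVec, one_mulVec] at h2
    exact h2
  have hQi : Function.Injective Q.mulVecLin := by
    obtain ⟨Q', hQ'⟩ := hQ
    intro x y hxy
    have h1 : Q *ᵥ x = Q *ᵥ y := hxy
    have h2 := congrArg (fun z => (↑Q'⁻¹ : Matrix (Fin n) (Fin n) K) *ᵥ z) h1
    simp only [mulVec_mulVec] at h2
    rw [← hQ', Units.inv_mul, one_mulVec, one_mulVec] at h2
    exact h2
  have key : ∀ h v : Fin n → K, (P *ᵥ h) ⬝ᵥ (M *ᵥ (Q *ᵥ v)) = h ⬝ᵥ ((Pᵀ * M * Q) *ᵥ v) := by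
    intro h v
    rw [← mulVec_mulVec, ← mulVec_mulVec, dotProduct_mulVec h Pᵀ, vecMul_transpose]
  have e : ann M (A.map P.mulVecLin) (B.map Q.mulVecLin) =
      (ann (Pᵀ * M * Q) A B).map Q.mulVecLin := by
    ext w
    constructor
    · rintro ⟨⟨v, hv, rfl⟩, hw⟩
      refine ⟨v, ⟨hv, fun h hh => ?_⟩, rfl⟩
      rw [← key]
      exact hw (P *ᵥ h) ⟨h, hh, rfl⟩
    · rintro ⟨v, ⟨hv, hv2⟩, rfl⟩
      refine ⟨⟨v, hv, rfl⟩, ?_⟩
      rintro _ ⟨h, hh, rfl⟩
      show (P *ᵥ h) ⬝ᵥ (M *ᵥ (Q *ᵥ v)) = 0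
      rw [key]
      exact hv2 h hh
  unfold rho
  rw [e, ← (Submodule.equivMapOfInjective _ hQi B).finrank_eq,
    ← (Submodule.equivMapOfInjective _ hQi (ann (Pᵀ * M * Q) A B)).finrank_eq]

end Pool.Agent.BNR
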