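import Mathlib
import Pool.Agent.BNR.RhoA

/-!
BNR-MinA: the window form `gw` of the potential function does not depend on the window, and it is
symmetric under exchanging the two flags and transposing the matrices.
-/

set_option autoImplicit false

namespace Pool.Agent.BNR

open Module Matrix

variable {K : Type*} [Field K] {n m : ℕ}

private theorem minA_Icc_succ (C : ℕ) (f : ℤ → ℤ) :
    ∑ a ∈ Finset.Icc (-((C + 1 : ℕ) : ℤ)) ((C + 1 : ℕ) : ℤ), f a =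
      ∑ a ∈ Finset.Icc (-(C : ℤ)) C, f a + f ((C : ℤ) + 1) + f (-((C : ℤ) + 1)) := by
  have h : Finset.Icc (-((C + 1 : ℕ) : ℤ)) ((C + 1 : ℕ) : ℤ) =
      insert (-((C : ℤ) + 1)) (insert ((C : ℤ) + 1) (Finset.Icc (-(C : ℤ)) C)) := by
    ext a
    simp only [Finset.mem_Icc, Finset.mem_insert]
    push_cast
    omega
  rw [h, Finset.sum_insert, Finset.sum_insert]
  · ring
  · simp
  · simp only [Finset.mem_insert, Finset.mem_Icc]
    omega

private theorem minA_Bdd_succ (C : ℕ) (S : ℤ → Submodule K (Fin n → K)) (h : Bdd C S) :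
    Bdd (C + 1) S := by
  refine ⟨fun b hb => h.1 b ?_, fun b hb => h.2 b ?_⟩
  · push_cast at hb
    omega
  · push_cast at hb
    omega

private theorem minA_fr (C : ℕ) (S : ℤ → Submodule K (Fin n → K)) (h : Bdd C S) :
    ∑ a ∈ Finset.Icc (-((C + 1 : ℕ) : ℤ)) ((C + 1 : ℕ) : ℤ), (finrank K (S a) : ℤ) =
      ∑ a ∈ Finset.Icc (-(C : ℤ)) C, (finrank K (S a) : ℤ) + n := by
  rw [minA_Icc_succ, h.2 ((C : ℤ) + 1) (by omega), h.1 (-((C : ℤ) + 1)) (by omega)]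
  simp

private theorem minA_step (N : ℕ) (L : Fin m → Matrix (Fin n) (Fin n) K) (C : ℕ)
    (H V : ℤ → Submodule K (Fin n → K)) (hH : Bdd C H) (hV : Bdd C V) :
    gw N L (C + 1) H V = gw N L C H V := by
  have h1 : ∀ e : Fin m, ∀ s : ℕ,
      ∑ a ∈ Finset.Icc (-((C + 1 : ℕ) : ℤ)) ((C + 1 : ℕ) : ℤ),
        rho (L e) (H a) (V ((s : ℤ) + 1 - a)) =
      ∑ a ∈ Finset.Icc (-(C : ℤ)) C, rho (L e) (H a) (V ((s : ℤ) + 1 - a)) := by
    intro e s
    rw [minA_Icc_succ (C := C) (f := fun a => rho (L e) (H a) (V ((s : ℤ) + 1 - a)))]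
    rw [hH.2 ((C : ℤ) + 1) (by omega), rho_bot_left,
      hV.2 ((s : ℤ) + 1 - -((C : ℤ) + 1)) (by omega), rho_bot_right]
    ring
  unfold gw
  simp only [h1]
  rw [minA_fr C H hH, minA_fr C V hV]
  push_cast
  ring

theorem gw_eq (N : ℕ) (L : Fin m → Matrix (Fin n) (Fin n) K) (C C' : ℕ) (h : C ≤ C')
    (H V : ℤ → Submodule K (Fin n → K)) (hH : Bdd C H) (hV : Bdd C V) :
    gw N L C' H V = gw N L C H V := by
  have key : ∀ k : ℕ, Bdd (C + k) H ∧ Bdd (C + k) V ∧ gw N L (C + k) H V = gw N L C H V := by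
    intro k
    induction k with
    | zero => exact ⟨hH, hV, rfl⟩
    | succ k ih =>
      obtain ⟨h1, h2, h3⟩ := ih
      exact ⟨minA_Bdd_succ _ _ h1, minA_Bdd_succ _ _ h2,
        (minA_step N L (C + k) H V h1 h2).trans h3⟩
  obtain ⟨k, rfl⟩ := Nat.exists_eq_add_of_le h
  exact (key k).2.2

private theorem minA_cut (C s : ℕ) (f : ℤ → ℤ → ℤ) (h : ∀ a b : ℤ, (C : ℤ) ≤ b → f a b = 0) :
    ∑ a ∈ Finset.Icc (-(C : ℤ)) C, f a ((s : ℤ) + 1 - a) =
      ∑ a ∈ Finset.Icc ((s : ℤ) + 1 - C) C, f a ((s : ℤ) + 1 - a) := by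
  symm
  apply Finset.sum_subset
  · intro a ha
    rw [Finset.mem_Icc] at ha ⊢
    omega
  · intro a ha ha'
    rw [Finset.mem_Icc] at ha ha'
    apply h
    omega

private theorem minA_refl (C s : ℕ) (f : ℤ → ℤ → ℤ) (h : ∀ a b : ℤ, (C : ℤ) ≤ b → f a b = 0)
    (h' : ∀ a b : ℤ, (C : ℤ) ≤ a → f a b = 0) :
    ∑ a ∈ Finset.Icc (-(C : ℤ)) C, f a ((s : ℤ) + 1 - a) =
      ∑ b ∈ Finset.Icc (-(C : ℤ)) C, f ((s : ℤ) + 1 - b) b := by
  rw [minA_cut C s f h, minA_cut C s (fun b a => f a b) (fun a b hb => h' b a hb)]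
  refine Finset.sum_nbij' (fun a => (s : ℤ) + 1 - a) (fun a => (s : ℤ) + 1 - a) ?_ ?_ ?_ ?_ ?_
  · intro a ha
    rw [Finset.mem_Icc] at ha ⊢
    omega
  · intro a ha
    rw [Finset.mem_Icc] at ha ⊢
    omega
  · intro a _
    ring
  · intro a _
    ring
  · intro a _
    have h1 : (s : ℤ) + 1 - ((s : ℤ) + 1 - a) = a := by ring
    simp only [h1]

theorem gw_swap (N : ℕ) (L : Fin m → Matrix (Fin n) (Fin n) K) (C : ℕ)
    (H V : ℤ → Submodule K (Fin n → K)) (hH : Bdd C H) (hV : Bdd C V) :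
    gw N L C H V = gw N (fun e => (L e)ᵀ) C V H := by
  have h1 : ∀ e : Fin m, ∀ s : ℕ,
      ∑ a ∈ Finset.Icc (-(C : ℤ)) C, rho (L e) (H a) (V ((s : ℤ) + 1 - a)) =
      ∑ a ∈ Finset.Icc (-(C : ℤ)) C, rho (L e)ᵀ (V a) (H ((s : ℤ) + 1 - a)) := by
    intro e s
    have h2 := minA_refl C s (fun a b => rho (L e) (H a) (V b))
      (fun a b hb => by rw [hV.2 b hb, rho_bot_right])
      (fun a b ha => by rw [hH.2 a ha, rho_bot_left])
    refine h2.trans (Finset.sum_congr rfl fun b _ => ?_)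
    exact rho_swap _ _ _
  unfold gw
  simp only [h1]
  ring

end Pool.Agent.BNR
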