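import Mathlib
import Pool.Agent.BNR.Defs

/-!
BNR-RhoB: lower bound for the sum of the ranks for an nc-full linear matrix.
-/

set_option autoImplicit false

namespace Pool.Agent.BNR

open Module Matrix

variable {K : Type*} [Field K] {n m : ℕ}

private theorem rhoB_aux (L : Fin m → Matrix (Fin n) (Fin n) K)
    (A B : Submodule K (Fin n → K)) (s : Finset (Fin m)) :
    (finrank K B : ℤ) ≤ finrank K (B ⊓ s.inf (fun e => ann (L e) A B) : Submodule K (Fin n → K)) +
      ∑ e ∈ s, rho (L e) A B := by
  classical
  induction s using Finset.induction_on with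
  | empty => rw [Finset.sum_empty, add_zero, Finset.inf_empty, inf_top_eq]
  | insert e s he ih =>
    rw [Finset.sum_insert he, Finset.inf_insert]
    set I : Submodule K (Fin n → K) := B ⊓ s.inf (fun e => ann (L e) A B) with hI
    have h1 : (B ⊓ (ann (L e) A B ⊓ s.inf (fun e => ann (L e) A B)) : Submodule K (Fin n → K)) =
        ann (L e) A B ⊓ I := by
      rw [hI, inf_left_comm]
    rw [h1]
    have h2 := Submodule.finrank_sup_add_finrank_inf_eq (ann (L e) A B) I
    have h3 : finrank K (ann (L e) A B ⊔ I : Submodule K (Fin n → K)) ≤ finrank K B := by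
      apply Submodule.finrank_mono
      refine sup_le (fun _ h => h.1) ?_
      rw [hI]
      exact inf_le_left
    unfold rho
    have h4 : (∑ e ∈ s, rho (L e) A B) =
        ∑ e ∈ s, ((finrank K B : ℤ) - finrank K (ann (L e) A B)) := rfl
    rw [← h4]
    omega

theorem sum_rho_ge (L : Fin m → Matrix (Fin n) (Fin n) K) (hL : NcRk L n)
    (A B : Submodule K (Fin n → K)) :
    (finrank K A : ℤ) + finrank K B - n ≤ ∑ e, rho (L e) A B := by
  have h1 := rhoB_aux L A B Finset.univ
  have h2 := hL A (B ⊓ Finset.univ.inf (fun e => ann (L e) A B)) (by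
    intro e h hh v hv
    have h3 : v ∈ ann (L e) A B := by
      have h4 : (Finset.univ.inf (fun e => ann (L e) A B)) ≤ ann (L e) A B :=
        Finset.inf_le (Finset.mem_univ e)
      exact h4 hv.2
    exact h3.2 h hh)
  omega

end Pool.Agent.BNR
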