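import Mathlib
import Pool.Agent.BNR.MinA
import Pool.Agent.BNR.RhoB

/-!
BNR-MinB: the potential function is bounded below for an nc-full linear matrix.
-/

set_option autoImplicit false

namespace Pool.Agent.BNR

open Module Matrix

variable {K : Type*} [Field K] {n m : ℕ}

/-- the sum over a reflected and shifted window -/
private theorem minb_shift (f : ℤ → ℤ) (k : ℤ) (C C' s : ℕ) (hs : C + s ≤ C')
    (h1 : ∀ b ≤ -(C : ℤ), f b = k) (h2 : ∀ b ≥ (C : ℤ), f b = 0) :
    ∑ a ∈ Finset.Icc (-(C' : ℤ)) C', f ((s : ℤ) + 1 - a) =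
      ∑ b ∈ Finset.Icc (-(C' : ℤ)) C', f b - (s + 1) * k := by
  have h3 : ∑ a ∈ Finset.Icc (-(C' : ℤ)) C', f ((s : ℤ) + 1 - a) =
      ∑ b ∈ Finset.Icc ((s : ℤ) + 1 - C') (s + 1 + C'), f b := by
    refine Finset.sum_nbij' (fun a => (s : ℤ) + 1 - a) (fun b => (s : ℤ) + 1 - b) ?_ ?_ ?_ ?_ ?_
    · intro a ha
      simp only [Finset.mem_Icc] at ha ⊢
      omega
    · intro a ha
      simp only [Finset.mem_Icc] at ha ⊢
      omega
    · intro a _
      ring
    · intro a _
      ring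
    · intro a _
      rfl
  have h4 : ∑ b ∈ Finset.Icc (-(C' : ℤ)) (s + 1 + C'), f b =
      ∑ b ∈ Finset.Icc (-(C' : ℤ)) (s - C'), f b +
        ∑ b ∈ Finset.Icc ((s : ℤ) + 1 - C') (s + 1 + C'), f b := by
    rw [← Finset.sum_union]
    · refine Finset.sum_congr ?_ fun _ _ => rfl
      ext x
      simp only [Finset.mem_union, Finset.mem_Icc]
      omega
    · rw [Finset.disjoint_left]
      intro x hx hx'
      simp only [Finset.mem_Icc] at hx hx'
      omega
  have h5 : ∑ b ∈ Finset.Icc (-(C' : ℤ)) (s + 1 + C'), f b =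
      ∑ b ∈ Finset.Icc (-(C' : ℤ)) C', f b +
        ∑ b ∈ Finset.Icc ((C' : ℤ) + 1) (s + 1 + C'), f b := by
    rw [← Finset.sum_union]
    · refine Finset.sum_congr ?_ fun _ _ => rfl
      ext x
      simp only [Finset.mem_union, Finset.mem_Icc]
      omega
    · rw [Finset.disjoint_left]
      intro x hx hx'
      simp only [Finset.mem_Icc] at hx hx'
      omega
  have h6 : ∑ b ∈ Finset.Icc (-(C' : ℤ)) (s - C'), f b = (s + 1) * k := by
    rw [Finset.sum_congr rfl (g := fun _ => k)]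
    · rw [Finset.sum_const, Int.card_Icc, nsmul_eq_mul]
      have h7 : ((s : ℤ) - C' + 1 - -(C' : ℤ)).toNat = s + 1 := by omega
      rw [h7]
      push_cast
      ring
    · intro b hb
      simp only [Finset.mem_Icc] at hb
      exact h1 b (by omega)
  have h7 : ∑ b ∈ Finset.Icc ((C' : ℤ) + 1) (s + 1 + C'), f b = 0 := by
    refine Finset.sum_eq_zero fun b hb => ?_
    simp only [Finset.mem_Icc] at hb
    exact h2 b (by omega)
  rw [h3]
  linarith

theorem gw_ge (N : ℕ) (L : Fin m → Matrix (Fin n) (Fin n) K) (hL : NcRk L n) (C : ℕ)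
    (H V : ℤ → Submodule K (Fin n → K)) (hH : Bdd C H) (hV : Bdd C V) :
    -((n : ℤ) * N * N) ≤ gw N L C H V := by
  rw [← gw_eq N L C (C + N + 1) (by omega) H V hH hV]
  set C' := C + N + 1 with hC'
  unfold gw
  set SH := ∑ a ∈ Finset.Icc (-(C' : ℤ)) C', (finrank K (H a) : ℤ) with hSH
  set SV := ∑ b ∈ Finset.Icc (-(C' : ℤ)) C', (finrank K (V b) : ℤ) with hSV
  have h1 : ∑ e, ∑ s ∈ Finset.range N, ∑ a ∈ Finset.Icc (-(C' : ℤ)) C',
      rho (L e) (H a) (V ((s : ℤ) + 1 - a)) =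
      ∑ s ∈ Finset.range N, ∑ a ∈ Finset.Icc (-(C' : ℤ)) C', ∑ e,
        rho (L e) (H a) (V ((s : ℤ) + 1 - a)) := by
    rw [Finset.sum_comm]
    refine Finset.sum_congr rfl fun s _ => ?_
    rw [Finset.sum_comm]
  have h2 : ∀ s ∈ Finset.range N,
      SH + SV - 2 * n * (C' + 1) - n * N ≤
        ∑ a ∈ Finset.Icc (-(C' : ℤ)) C', ∑ e, rho (L e) (H a) (V ((s : ℤ) + 1 - a)) := by
    intro s hs
    have hs' : s < N := Finset.mem_range.1 hs
    have h3 : ∑ a ∈ Finset.Icc (-(C' : ℤ)) C', (finrank K (V ((s : ℤ) + 1 - a)) : ℤ) =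
        SV - (s + 1) * n :=
      minb_shift (fun b => (finrank K (V b) : ℤ)) n C C' s (by omega)
        (fun b hb => by
          show (finrank K (V b) : ℤ) = n
          rw [hV.1 b hb, finrank_top, Module.finrank_fin_fun])
        (fun b hb => by
          show (finrank K (V b) : ℤ) = 0
          rw [hV.2 b hb, finrank_bot, Nat.cast_zero])
    have h4 : ∑ a ∈ Finset.Icc (-(C' : ℤ)) C',
        ((finrank K (H a) : ℤ) + finrank K (V ((s : ℤ) + 1 - a)) - n) ≤
        ∑ a ∈ Finset.Icc (-(C' : ℤ)) C', ∑ e, rho (L e) (H a) (V ((s : ℤ) + 1 - a)) :=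
      Finset.sum_le_sum fun a _ => sum_rho_ge L hL _ _
    refine le_trans ?_ h4
    rw [Finset.sum_sub_distrib, Finset.sum_add_distrib, h3, Finset.sum_const, Int.card_Icc,
      nsmul_eq_mul]
    have h5 : (((C' : ℤ) + 1 - -(C' : ℤ)).toNat : ℤ) = 2 * C' + 1 := by omega
    rw [h5]
    have h6 : (s : ℤ) * n ≤ n * N := by
      rw [mul_comm]
      exact mul_le_mul_of_nonneg_left (by omega) (by omega)
    linarith
  have h7 := Finset.card_nsmul_le_sum (Finset.range N) _ _ h2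
  rw [Finset.card_range, nsmul_eq_mul] at h7
  rw [h1]
  linarith

end Pool.Agent.BNR
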