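import Mathlib
import Pool.Agent.BNR.MinB

/-!
BNR-MinC: a minimiser of the potential function exists, and it satisfies the local inequalities.

PLAN.
`exists_min`: the set of natural numbers `(gw N L C H V + n N N).toNat` over all `(C, H, V)` with
`Antitone`, `Bdd C` is not empty (`H = V = ` the flag which is `⊤` for `b ≤ 0` and `⊥` for `b > 0`,
`C = 1`) and bounded below by `0` (`gw_ge`); take a minimum (`Nat.find`, `WellFounded.min`).
`opt_of_min`: (i) compare with `V' = Function.update V (c+1) W`: antitone because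
`V (c+2) ≤ V (c+1) ≤ W ≤ V c`; bounded by a larger window `C' = max C (|c| + 2)` (if `c + 1` is
outside of the old window).  By `gw_eq` `gw N L C H V = gw N L C' H V`.  In
`gw N L C' H V' - gw N L C' H V` only the terms with `s + 1 - a = c + 1`, i.e. `a = s - c`, change
(one for each `e` and `s`, it lies in the window if `C' ≥ |c| + N + 2`), and in the sum of
dimensions only `b = c + 1`.
(ii) compare with `V' = Function.update V c (V (c+1))`; here `a = s + 1 - c`.
-/

set_option autoImplicit false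

namespace Pool.Agent.BNR

open Module Matrix

variable {K : Type*} [Field K] {n m : ℕ}

/-- `(H, V)`, bounded by `C`, minimises the potential function -/
def IsMin (N : ℕ) (L : Fin m → Matrix (Fin n) (Fin n) K) (C : ℕ)
    (H V : ℤ → Submodule K (Fin n → K)) : Prop :=
  Antitone H ∧ Antitone V ∧ Bdd C H ∧ Bdd C V ∧ ∀ (C' : ℕ) (H' V' : ℤ → Submodule K (Fin n → K)),
    Antitone H' → Antitone V' → Bdd C' H' → Bdd C' V' → gw N L C H V ≤ gw N L C' H' V'

/-- the local inequalities on the right side -/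
structure Opt (N : ℕ) (L : Fin m → Matrix (Fin n) (Fin n) K)
    (H V : ℤ → Submodule K (Fin n → K)) : Prop where
  i : ∀ (c : ℤ) (W : Submodule K (Fin n → K)), V (c + 1) ≤ W → W ≤ V c →
    (N : ℤ) * ((finrank K W : ℤ) - finrank K (V (c + 1))) ≤ ∑ e, ∑ s ∈ Finset.range N,
      (rho (L e) (H ((s : ℤ) - c)) W - rho (L e) (H ((s : ℤ) - c)) (V (c + 1)))
  ii : ∀ c : ℤ, ∑ e, ∑ r ∈ Finset.range N,
      (rho (L e) (H ((r : ℤ) + 1 - c)) (V c) - rho (L e) (H ((r : ℤ) + 1 - c)) (V (c + 1))) ≤
    (N : ℤ) * ((finrank K (V c) : ℤ) - finrank K (V (c + 1)))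

theorem exists_min (N : ℕ) (L : Fin m → Matrix (Fin n) (Fin n) K) (hL : NcRk L n) :
    ∃ (C : ℕ) (H V : ℤ → Submodule K (Fin n → K)), IsMin N L C H V := by
  classical
  let P : ℕ → Prop := fun k => ∃ (C : ℕ) (H V : ℤ → Submodule K (Fin n → K)), Antitone H ∧
    Antitone V ∧ Bdd C H ∧ Bdd C V ∧ (gw N L C H V + n * N * N).toNat = k
  have hne : ∃ k, P k := by
    let F : ℤ → Submodule K (Fin n → K) := fun b => if b ≤ 0 then ⊤ else ⊥
    have hF : Antitone F := by
      intro a b hab
      show (if b ≤ 0 then (⊤ : Submodule K (Fin n → K)) else ⊥) ≤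
        (if a ≤ 0 then (⊤ : Submodule K (Fin n → K)) else ⊥)
      by_cases ha : a ≤ 0
      · rw [if_pos ha]
        exact le_top
      · rw [if_neg ha, if_neg (by omega)]
    have hF1 : Bdd 1 F := by
      refine ⟨fun b hb => ?_, fun b hb => ?_⟩
      · exact if_pos (by push_cast at hb; omega)
      · exact if_neg (by push_cast at hb; omega)
    exact ⟨_, 1, F, F, hF, hF, hF1, hF1, rfl⟩
  obtain ⟨C, H, V, h1, h2, h3, h4, h5⟩ := Nat.find_spec hne
  refine ⟨C, H, V, h1, h2, h3, h4, fun C' H' V' a1 a2 a3 a4 => ?_⟩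
  have h6 : Nat.find hne ≤ (gw N L C' H' V' + n * N * N).toNat :=
    Nat.find_min' hne ⟨C', H', V', a1, a2, a3, a4, rfl⟩
  have h7 := gw_ge N L hL C H V h3 h4
  have h8 := gw_ge N L hL C' H' V' a3 a4
  rw [← h5] at h6
  omega

private theorem minc_change {f g : ℤ → ℤ} {S : Finset ℤ} {a0 : ℤ} (h0 : a0 ∈ S)
    (h : ∀ a ∈ S, a ≠ a0 → f a = g a) : ∑ a ∈ S, f a = ∑ a ∈ S, g a + (f a0 - g a0) := by
  rw [← Finset.add_sum_erase S f h0, ← Finset.add_sum_erase S g h0,
    Finset.sum_congr rfl fun a ha => h a (Finset.mem_of_mem_erase ha) (Finset.ne_of_mem_erase ha)]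
  ring

private theorem minc_update (N : ℕ) (L : Fin m → Matrix (Fin n) (Fin n) K) (C : ℕ)
    (H V : ℤ → Submodule K (Fin n → K)) (c : ℤ) (W : Submodule K (Fin n → K))
    (hC : c.natAbs + N + 2 ≤ C) : gw N L C H (Function.update V c W) = gw N L C H V +
      (∑ e, ∑ s ∈ Finset.range N, (rho (L e) (H ((s : ℤ) + 1 - c)) W -
        rho (L e) (H ((s : ℤ) + 1 - c)) (V c))) -
      N * ((finrank K W : ℤ) - finrank K (V c)) := by
  have h1 : ∀ e : Fin m, ∀ s ∈ Finset.range N, ∑ a ∈ Finset.Icc (-(C : ℤ)) C,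
      rho (L e) (H a) (Function.update V c W ((s : ℤ) + 1 - a)) =
      ∑ a ∈ Finset.Icc (-(C : ℤ)) C, rho (L e) (H a) (V ((s : ℤ) + 1 - a)) +
        (rho (L e) (H ((s : ℤ) + 1 - c)) W - rho (L e) (H ((s : ℤ) + 1 - c)) (V c)) := by
    intro e s hs
    have hs' := Finset.mem_range.1 hs
    have h2 := minc_change
      (f := fun a => rho (L e) (H a) (Function.update V c W ((s : ℤ) + 1 - a)))
      (g := fun a => rho (L e) (H a) (V ((s : ℤ) + 1 - a)))
      (S := Finset.Icc (-(C : ℤ)) C) (a0 := (s : ℤ) + 1 - c)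
      (Finset.mem_Icc.2 ⟨by omega, by omega⟩) (fun a _ ha => by
        show rho (L e) (H a) (Function.update V c W ((s : ℤ) + 1 - a)) =
          rho (L e) (H a) (V ((s : ℤ) + 1 - a))
        rw [Function.update_of_ne (by omega)])
    rw [h2]
    show _ + (rho (L e) (H ((s : ℤ) + 1 - c))
        (Function.update V c W ((s : ℤ) + 1 - ((s : ℤ) + 1 - c))) -
      rho (L e) (H ((s : ℤ) + 1 - c)) (V ((s : ℤ) + 1 - ((s : ℤ) + 1 - c)))) = _
    rw [sub_sub_cancel, Function.update_self]
  have h4 : ∑ b ∈ Finset.Icc (-(C : ℤ)) C, (finrank K (Function.update V c W b) : ℤ) =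
      ∑ b ∈ Finset.Icc (-(C : ℤ)) C, (finrank K (V b) : ℤ) +
        ((finrank K W : ℤ) - finrank K (V c)) := by
    have h2 := minc_change
      (f := fun b => (finrank K (Function.update V c W b) : ℤ))
      (g := fun b => (finrank K (V b) : ℤ))
      (S := Finset.Icc (-(C : ℤ)) C) (a0 := c)
      (Finset.mem_Icc.2 ⟨by omega, by omega⟩) (fun b _ hb => by
        show (finrank K (Function.update V c W b) : ℤ) = (finrank K (V b) : ℤ)
        rw [Function.update_of_ne hb])
    rw [h2]
    show _ + ((finrank K (Function.update V c W c) : ℤ) - _) = _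
    rw [Function.update_self]
  unfold gw
  rw [Finset.sum_congr rfl fun e _ => Finset.sum_congr rfl fun s hs => h1 e s hs, h4]
  simp only [Finset.sum_add_distrib]
  ring

private theorem minc_antitone {V : ℤ → Submodule K (Fin n → K)} (h : Antitone V) {c : ℤ}
    {W : Submodule K (Fin n → K)} (h1 : V (c + 1) ≤ W) (h2 : W ≤ V (c - 1)) :
    Antitone (Function.update V c W) := by
  intro a b hab
  by_cases ha : a = c
  · subst ha
    by_cases hb : b = a
    · subst hb
      exact le_rfl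
    · rw [Function.update_self, Function.update_of_ne hb]
      exact (h (by omega : a + 1 ≤ b)).trans h1
  · by_cases hb : b = c
    · subst hb
      rw [Function.update_self, Function.update_of_ne ha]
      exact h2.trans (h (by omega : a ≤ b - 1))
    · rw [Function.update_of_ne ha, Function.update_of_ne hb]
      exact h hab

private theorem minc_le {N : ℕ} {L : Fin m → Matrix (Fin n) (Fin n) K} {C : ℕ}
    {H V : ℤ → Submodule K (Fin n → K)} (h : IsMin N L C H V) (c : ℤ)
    (W : Submodule K (Fin n → K)) (h1 : V (c + 1) ≤ W) (h2 : W ≤ V (c - 1)) :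
    (N : ℤ) * ((finrank K W : ℤ) - finrank K (V c)) ≤ ∑ e, ∑ s ∈ Finset.range N,
      (rho (L e) (H ((s : ℤ) + 1 - c)) W - rho (L e) (H ((s : ℤ) + 1 - c)) (V c)) := by
  obtain ⟨a1, a2, a3, a4, a5⟩ := h
  have hV' : Bdd (C + (c.natAbs + N + 2)) (Function.update V c W) := by
    refine ⟨fun b hb => ?_, fun b hb => ?_⟩
    · rw [Function.update_of_ne (by omega)]
      exact a4.1 b (by omega)
    · rw [Function.update_of_ne (by omega)]
      exact a4.2 b (by omega)
  have hH' : Bdd (C + (c.natAbs + N + 2)) H := by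
    refine ⟨fun b hb => ?_, fun b hb => ?_⟩
    · exact a3.1 b (by omega)
    · exact a3.2 b (by omega)
  have h5 := a5 _ H _ a1 (minc_antitone a2 h1 h2) hH' hV'
  rw [minc_update N L _ H V c W (Nat.le_add_left _ _),
    gw_eq N L C _ (Nat.le_add_right _ _) H V a3 a4] at h5
  linarith

theorem opt_of_min (N : ℕ) (L : Fin m → Matrix (Fin n) (Fin n) K) (C : ℕ)
    (H V : ℤ → Submodule K (Fin n → K)) (h : IsMin N L C H V) : Opt N L H V := by
  have hV : Antitone V := h.2.1
  refine ⟨fun c W h1 h2 => ?_, fun c => ?_⟩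
  · have h3 := minc_le h (c + 1) W ((hV (by omega : c + 1 ≤ c + 1 + 1)).trans h1)
      (by rwa [add_sub_cancel_right])
    refine h3.trans (le_of_eq (Finset.sum_congr rfl fun e _ => Finset.sum_congr rfl fun s _ => ?_))
    rw [show (s : ℤ) + 1 - (c + 1) = s - c by ring]
  · have h3 := minc_le h c (V (c + 1)) le_rfl (hV (by omega : c - 1 ≤ c + 1))
    have h4 : ∑ e, ∑ r ∈ Finset.range N,
        (rho (L e) (H ((r : ℤ) + 1 - c)) (V c) - rho (L e) (H ((r : ℤ) + 1 - c)) (V (c + 1))) =
        -∑ e, ∑ r ∈ Finset.range N,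
        (rho (L e) (H ((r : ℤ) + 1 - c)) (V (c + 1)) - rho (L e) (H ((r : ℤ) + 1 - c)) (V c)) := by
      rw [← Finset.sum_neg_distrib]
      refine Finset.sum_congr rfl fun e _ => ?_
      rw [← Finset.sum_neg_distrib]
      exact Finset.sum_congr rfl fun r _ => (neg_sub _ _).symm
    rw [h4]
    linarith

/-- the minimiser is also one for the transposed matrices -/
theorem IsMin.swap {N : ℕ} {L : Fin m → Matrix (Fin n) (Fin n) K} {C : ℕ}
    {H V : ℤ → Submodule K (Fin n → K)} (h : IsMin N L C H V) :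
    IsMin N (fun e => (L e)ᵀ) C V H := by
  obtain ⟨h1, h2, h3, h4, h5⟩ := h
  refine ⟨h2, h1, h4, h3, fun C' V' H' a1 a2 a3 a4 => ?_⟩
  rw [← gw_swap N L C H V h3 h4]
  have h6 := h5 C' H' V' a2 a1 a4 a3
  rwa [gw_swap N L C' H' V' a4 a3] at h6

end Pool.Agent.BNR
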