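import Mathlib
import Pool.Agent.BNR.Defs

/-!
BNR-Pcs: Bruhat decomposition of a matrix with respect to weights.

PLAN.  Induction on the number of nonzero columns (strong induction on
`(Finset.univ.filter fun j => ∃ i, A i j ≠ 0).card`, generalising `A`).  It is convenient to prove
the stronger statement that moreover `a p i' ≠ 0` only if row `i'` of `A` is not zero, and
`b p j' ≠ 0` only if column `j'` of `A` is not zero (needed for `ai0`, `bj0`).
If `A = 0`: `k = 0`.  Otherwise let `j0` have maximal `β` among the nonzero columns, `i0` maximal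
`α` among the rows `i` with `A i j0 ≠ 0`; `a 0 = A · j0`, `b 0 = (A i0 j0)⁻¹ • A i0 ·`,
`A' = A - vecMulVec (a 0) (b 0)`.  Column `j0` and row `i0` of `A'` vanish, zero rows and columns of
`A` stay zero, so `A'` has fewer nonzero columns; take its pieces (`Fin.cons`).
`ai0`, `bj0` for `p = 0`: `a p'` is supported on the nonzero rows of `A'`, and row `i0` is zero.
(`ha` for `p = 0`: `a 0 i' = A i' j0 ≠ 0` so `α i' ≤ α i0`; `hb`: `A i0 j' ≠ 0`, column `j'` is
nonzero, so `β j' ≤ β j0`.)
-/

set_option autoImplicit false

namespace Pool.Agent.BNR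

open Module Matrix

variable {K : Type*} [Field K] {n m : ℕ}

open Classical in
private theorem pcs_aux (α β : Fin n → ℤ) : ∀ (N : ℕ) (A : Matrix (Fin n) (Fin n) K),
    (Finset.univ.filter fun j => ∃ i, A i j ≠ 0).card ≤ N →
    ∃ D : Pieces A α β, (∀ p i', D.a p i' ≠ 0 → ∃ j, A i' j ≠ 0) ∧
      (∀ p j', D.b p j' ≠ 0 → ∃ i, A i j' ≠ 0) := by
  classical
  intro N
  induction N with
  | zero =>
    intro A hA
    have hA0 : A = 0 := by
      ext i j
      by_contra h
      have hmem : j ∈ (Finset.univ.filter fun j => ∃ i, A i j ≠ 0) := by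
        simp only [Finset.mem_filter, Finset.mem_univ, true_and]
        exact ⟨i, h⟩
      have := Finset.card_pos.2 ⟨j, hmem⟩
      omega
    refine ⟨⟨0, Fin.elim0, Fin.elim0, Fin.elim0, Fin.elim0, ?_, ?_, ?_, ?_, ?_, ?_, ?_⟩, ?_, ?_⟩
    · simp [hA0]
    all_goals intro p; exact p.elim0
  | succ N ih =>
    intro A hA
    by_cases h0 : (Finset.univ.filter fun j => ∃ i, A i j ≠ 0) = ∅
    · exact ih A (by rw [h0]; simp)
    · obtain ⟨j0, hj0, hj0max⟩ := Finset.exists_max_image _ β (Finset.nonempty_iff_ne_empty.2 h0)
      simp only [Finset.mem_filter, Finset.mem_univ, true_and] at hj0 hj0max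
      have hne : (Finset.univ.filter fun i => A i j0 ≠ 0).Nonempty := by
        obtain ⟨i, hi⟩ := hj0
        exact ⟨i, by simpa using hi⟩
      obtain ⟨i0, hi0, hi0max⟩ := Finset.exists_max_image _ α hne
      simp only [Finset.mem_filter, Finset.mem_univ, true_and] at hi0 hi0max
      -- the new matrix
      set a0 : Fin n → K := fun i => A i j0 with ha0
      set b0 : Fin n → K := fun j => (A i0 j0)⁻¹ * A i0 j with hb0
      set A' : Matrix (Fin n) (Fin n) K := A - vecMulVec a0 b0 with hA'
      have hval : ∀ i j, A' i j = A i j - A i j0 * ((A i0 j0)⁻¹ * A i0 j) := by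
        intro i j
        simp [hA', vecMulVec_apply, ha0, hb0]
      have hcol : ∀ i, A' i j0 = 0 := by
        intro i
        rw [hval, inv_mul_cancel₀ hi0]
        simp
      have hrow : ∀ j, A' i0 j = 0 := by
        intro j
        rw [hval, ← mul_assoc, mul_inv_cancel₀ hi0]
        simp
      have hzc : ∀ j, (∃ i, A' i j ≠ 0) → ∃ i, A i j ≠ 0 := by
        rintro j ⟨i, hi⟩
        by_contra hcon
        push Not at hcon
        apply hi
        rw [hval, hcon i, hcon i0]
        simp
      have hzr : ∀ i, (∃ j, A' i j ≠ 0) → ∃ j, A i j ≠ 0 := by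
        rintro i ⟨j, hi⟩
        by_contra hcon
        push Not at hcon
        apply hi
        rw [hval, hcon j, hcon j0]
        simp
      have hcard : (Finset.univ.filter fun j => ∃ i, A' i j ≠ 0).card ≤ N := by
        have hss : (Finset.univ.filter fun j => ∃ i, A' i j ≠ 0) ⊂
            (Finset.univ.filter fun j => ∃ i, A i j ≠ 0) := by
          rw [Finset.ssubset_iff_of_subset]
          · refine ⟨j0, by simpa using hj0, ?_⟩
            simp [hcol]
          · intro j hj
            simp only [Finset.mem_filter, Finset.mem_univ, true_and] at hj ⊢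
            exact hzc j hj
        have := Finset.card_lt_card hss
        omega
      obtain ⟨D, hDa, hDb⟩ := ih A' hcard
      have hDarow : ∀ p, D.a p i0 = 0 := by
        intro p
        by_contra h
        obtain ⟨j, hj⟩ := hDa p i0 h
        exact hj (hrow j)
      have hDbcol : ∀ p, D.b p j0 = 0 := by
        intro p
        by_contra h
        obtain ⟨i, hi⟩ := hDb p j0 h
        exact hi (hcol i)
      refine ⟨⟨D.k + 1, Fin.cons a0 D.a, Fin.cons b0 D.b, Fin.cons i0 D.i, Fin.cons j0 D.j,
        ?_, ?_, ?_, ?_, ?_, ?_, ?_⟩, ?_, ?_⟩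
      · rw [Fin.sum_univ_succ]
        simp only [Fin.cons_zero, Fin.cons_succ]
        rw [← D.sum, hA']
        abel
      · intro p i'
        refine Fin.cases ?_ (fun p => ?_) p
        · simp only [Fin.cons_zero]
          intro h
          exact hi0max i' h
        · simp only [Fin.cons_succ]
          exact D.ha p i'
      · intro p j'
        refine Fin.cases ?_ (fun p => ?_) p
        · simp only [Fin.cons_zero]
          intro h
          exact hj0max j' ⟨i0, fun hh => h (by simp [hb0, hh])⟩
        · simp only [Fin.cons_succ]
          exact D.hb p j'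
      · intro p
        refine Fin.cases ?_ (fun p => ?_) p
        · simp only [Fin.cons_zero]
          exact hi0
        · simp only [Fin.cons_succ]
          exact D.ai p
      · intro p
        refine Fin.cases ?_ (fun p => ?_) p
        · simp only [Fin.cons_zero, hb0]
          rw [inv_mul_cancel₀ hi0]
          exact one_ne_zero
        · simp only [Fin.cons_succ]
          exact D.bj p
      · intro p p'
        refine Fin.cases ?_ (fun p' => ?_) p'
        · intro h
          exact absurd h (Fin.not_lt_zero _)
        · refine Fin.cases ?_ (fun p => ?_) p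
          · intro _
            simp only [Fin.cons_zero, Fin.cons_succ]
            exact hDarow p'
          · intro h
            simp only [Fin.cons_succ]
            exact D.ai0 p p' (Fin.succ_lt_succ_iff.1 h)
      · intro p p'
        refine Fin.cases ?_ (fun p' => ?_) p'
        · intro h
          exact absurd h (Fin.not_lt_zero _)
        · refine Fin.cases ?_ (fun p => ?_) p
          · intro _
            simp only [Fin.cons_zero, Fin.cons_succ]
            exact hDbcol p'
          · intro h
            simp only [Fin.cons_succ]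
            exact D.bj0 p p' (Fin.succ_lt_succ_iff.1 h)
      · intro p i'
        refine Fin.cases ?_ (fun p => ?_) p
        · simp only [Fin.cons_zero]
          intro h
          exact ⟨j0, h⟩
        · simp only [Fin.cons_succ]
          intro h
          exact hzr i' (hDa p i' h)
      · intro p j'
        refine Fin.cases ?_ (fun p => ?_) p
        · simp only [Fin.cons_zero]
          intro h
          exact ⟨i0, fun hh => h (by simp [hb0, hh])⟩
        · simp only [Fin.cons_succ]
          intro h
          exact hzc j' (hDb p j' h)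

theorem exists_pieces (A : Matrix (Fin n) (Fin n) K) (α β : Fin n → ℤ) :
    Nonempty (Pieces A α β) := by
  obtain ⟨D, -, -⟩ := pcs_aux α β _ A le_rfl
  exact ⟨D⟩

/-- transposition -/
def Pieces.swap {A : Matrix (Fin n) (Fin n) K} {α β : Fin n → ℤ} (D : Pieces A α β) :
    Pieces Aᵀ β α where
  k := D.k
  a := D.b
  b := D.a
  i := D.j
  j := D.i
  sum := by
    conv_lhs => rw [D.sum]
    rw [transpose_sum]
    exact Finset.sum_congr rfl fun p _ => by rw [transpose_vecMulVec]
  ha := D.hb
  hb := D.ha
  ai := D.bj
  bj := D.ai
  ai0 := D.bj0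
  bj0 := D.ai0

end Pool.Agent.BNR
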