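import Mathlib
import Pool.Agent.BNR.Defs

/-!
BNR-Rc: the ranks `rho` in adapted coordinates, in terms of the pieces.

PLAN.  Fix `D : Pieces A α β`, integers `u`, `c`.  For `h ∈ cf α u`: `D.a p ⬝ᵥ h = 0` if
`α (D.i p) < u` (supports are disjoint, `D.ha`).  The functionals `h ↦ D.a p ⬝ᵥ h`,
`u ≤ α (D.i p)`, on `cf α u` are linearly independent (test on the unit vectors `Pi.single (D.i p) 1`
which lie in `cf α u`: the matrix `D.a p' (D.i p)` is triangular, `D.ai`, `D.ai0`).  Hence for every
subspace `W`: `ann A (cf α u) W = {v ∈ W | ∀ p, u ≤ α (D.i p) → D.b p ⬝ᵥ v = 0}`  (`ann_cf`).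
In the same way the functionals `D.b p`, `c ≤ β (D.j p)` are linearly independent on `cf β c`, and
`D.b p` with `β (D.j p) < c` vanishes on `cf β c`.
`rho_cf`: so `ann A (cf α u) (cf β c)` has codimension
`#{p | u ≤ α (D.i p) ∧ c ≤ β (D.j p)}` in `cf β c`.
`rho_le`: let `W` be supported on the coordinates of weight exactly `c`, `V1 = cf β (c+1)`.
`finrank (V1 ⊔ W) = finrank V1 + finrank W` (disjoint supports).  The projection
`ann A (cf α u) (V1 ⊔ W) → W` has kernel `ann A (cf α u) V1` and its image contains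
`kil D.b {p | β (D.j p) = c ∧ u ≤ α (D.i p)} W`: given `w` there, find `v ∈ V1` with
`D.b p ⬝ᵥ v = - D.b p ⬝ᵥ w` for the `p` with `c + 1 ≤ β (D.j p)`, `u ≤ α (D.i p)` (possible by
linear independence of these functionals on `V1`); the `p` with `β (D.j p) = c` kill `v`
(support) and `w`, the `p` with `β (D.j p) < c` kill `v` and `w`.
-/

set_option autoImplicit false

namespace Pool.Agent.BNR

open Module Matrix

variable {K : Type*} [Field K] {n m : ℕ}

/-! ### auxiliary lemmas -/

private theorem rc_mulVec {A : Matrix (Fin n) (Fin n) K} {α β : Fin n → ℤ} (D : Pieces A α β)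
    (h v : Fin n → K) : h ⬝ᵥ (A *ᵥ v) = ∑ p, (D.a p ⬝ᵥ h) * (D.b p ⬝ᵥ v) := by
  have h1 : A *ᵥ v = ∑ p, (D.b p ⬝ᵥ v) • D.a p := by
    conv_lhs => rw [D.sum]
    rw [Matrix.sum_mulVec]
    refine Finset.sum_congr rfl fun p _ => ?_
    funext i
    rw [Matrix.mulVec, dotProduct, Pi.smul_apply, smul_eq_mul, dotProduct, Finset.sum_mul]
    refine Finset.sum_congr rfl fun j _ => ?_
    rw [vecMulVec_apply]
    ring
  rw [h1, dotProduct_sum]
  refine Finset.sum_congr rfl fun p _ => ?_
  rw [dotProduct_smul, smul_eq_mul, dotProduct_comm h]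
  ring

/-- disjoint supports -/
private theorem rc_disj {w : Fin n → ℤ} {x : ℤ} {f v : Fin n → K} (hf : ∀ j, f j ≠ 0 → w j ≤ x)
    (hv : ∀ j, v j ≠ 0 → x < w j) : f ⬝ᵥ v = 0 := by
  rw [dotProduct]
  refine Finset.sum_eq_zero fun j _ => ?_
  by_cases h1 : f j = 0
  · rw [h1, zero_mul]
  · by_cases h2 : v j = 0
    · rw [h2, mul_zero]
    · have := hf j h1
      have := hv j h2
      omega

private theorem rc_single {w : Fin n → ℤ} {b : ℤ} {j : Fin n} (h : b ≤ w j) :
    (Pi.single j (1 : K) : Fin n → K) ∈ cf w b := by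
  intro j' hj'
  by_cases h1 : j' = j
  · rw [h1]
    exact h
  · exact absurd (Pi.single_eq_of_ne h1 _) hj'

theorem ann_cf {A : Matrix (Fin n) (Fin n) K} {α β : Fin n → ℤ} (D : Pieces A α β) (u : ℤ)
    (W : Submodule K (Fin n → K)) :
    ann A (cf α u) W = kil D.b {p | u ≤ α (D.i p)} W := by
  ext v
  constructor
  · rintro ⟨hv, hv'⟩
    refine ⟨hv, ?_⟩
    have key : ∀ N : ℕ, ∀ p : Fin D.k, (p : ℕ) < N → u ≤ α (D.i p) → D.b p ⬝ᵥ v = 0 := by
      intro N
      induction N with
      | zero => intro p hp; omega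
      | succ N ih =>
        intro p hp hu
        have h1 := hv' _ (rc_single (K := K) hu)
        rw [rc_mulVec D, Finset.sum_eq_single p] at h1
        · rw [dotProduct_single, mul_one] at h1
          exact (mul_eq_zero.1 h1).resolve_left (D.ai p)
        · intro p' _ hne
          rw [dotProduct_single, mul_one]
          rcases lt_or_gt_of_ne hne with h2 | h2
          · by_cases h3 : u ≤ α (D.i p')
            · rw [ih p' (by have : (p' : ℕ) < p := h2; omega) h3, mul_zero]
            · have h4 : D.a p' (D.i p) = 0 := by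
                by_contra h5
                have := D.ha p' _ h5
                omega
              rw [h4, zero_mul]
          · rw [D.ai0 p p' h2, zero_mul]
        · intro h
          exact absurd (Finset.mem_univ p) h
    intro p hp
    exact key (p + 1) p (Nat.lt_succ_self _) hp
  · rintro ⟨hv, hv'⟩
    refine ⟨hv, fun h hh => ?_⟩
    rw [rc_mulVec D]
    refine Finset.sum_eq_zero fun p _ => ?_
    by_cases hp : u ≤ α (D.i p)
    · rw [hv' p hp, mul_zero]
    · rw [rc_disj (D.ha p) (fun j hj => lt_of_lt_of_le (not_le.1 hp) (hh j hj)), zero_mul]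

/-- the functionals `b p`, `c ≤ β (j p)`, take arbitrary values on `cf β c` -/
private theorem rc_surj {A : Matrix (Fin n) (Fin n) K} {α β : Fin n → ℤ} (D : Pieces A α β) (c : ℤ)
    (y : Fin D.k → K) : ∃ v ∈ cf (K := K) β c, ∀ p, c ≤ β (D.j p) → D.b p ⬝ᵥ v = y p := by
  classical
  obtain ⟨M, hM⟩ : ∃ M : Matrix {p // c ≤ β (D.j p)} {p // c ≤ β (D.j p)} K,
      M = Matrix.of fun p' p => D.b p'.1 (D.j p.1) := ⟨_, rfl⟩
  have hdet : M.det ≠ 0 := by
    rw [Matrix.det_of_upperTriangular (M := M)]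
    · rw [hM]
      exact Finset.prod_ne_zero_iff.2 fun p _ => D.bj p.1
    · intro p' p hpp
      rw [hM]
      exact D.bj0 p.1 p'.1 hpp
  have hinv : M * M⁻¹ = 1 := Matrix.mul_nonsing_inv M (isUnit_iff_ne_zero.2 hdet)
  obtain ⟨x, hx⟩ : ∃ x : {p // c ≤ β (D.j p)} → K, M *ᵥ x = fun p => y p.1 :=
    ⟨M⁻¹ *ᵥ (fun p => y p.1), by rw [Matrix.mulVec_mulVec, hinv, Matrix.one_mulVec]⟩
  refine ⟨∑ p, x p • Pi.single (D.j p.1) 1, Submodule.sum_mem _ fun p _ =>
    Submodule.smul_mem _ _ (rc_single p.2), fun p hp => ?_⟩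
  have h1 := congrFun hx ⟨p, hp⟩
  rw [Matrix.mulVec, dotProduct] at h1
  rw [dotProduct_sum, ← h1]
  refine Finset.sum_congr rfl fun q _ => ?_
  rw [dotProduct_smul, dotProduct_single, mul_one, smul_eq_mul, hM, Matrix.of_apply, mul_comm]

/-- the functionals on a subspace -/
private def rcF {k : ℕ} (b : Fin k → Fin n → K) (s : Finset (Fin k)) :
    (Fin n → K) →ₗ[K] (s → K) where
  toFun v := fun p => b p ⬝ᵥ v
  map_add' x y := by
    funext p
    rw [dotProduct_add]
    rfl
  map_smul' r x := by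
    funext p
    rw [dotProduct_smul]
    rfl

private theorem rc_kil_finrank {k : ℕ} (b : Fin k → Fin n → K) (s : Finset (Fin k))
    (W : Submodule K (Fin n → K))
    (h : ∀ y : Fin k → K, ∃ v ∈ W, ∀ p ∈ s, b p ⬝ᵥ v = y p) :
    finrank K (kil b (s : Set (Fin k)) W) + s.card = finrank K W := by
  have h1 := LinearMap.finrank_range_add_finrank_ker ((rcF b s).domRestrict W)
  have h2 : LinearMap.range ((rcF b s).domRestrict W) = ⊤ := by
    rw [LinearMap.range_eq_top]
    intro y
    obtain ⟨v, hv, hv'⟩ := h (fun p => if hp : p ∈ s then y ⟨p, hp⟩ else 0)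
    refine ⟨⟨v, hv⟩, ?_⟩
    funext p
    have h3 := hv' p.1 p.2
    rw [dif_pos p.2] at h3
    exact h3
  have h4 : (LinearMap.ker ((rcF b s).domRestrict W)).map W.subtype =
      kil b (s : Set (Fin k)) W := by
    ext v
    constructor
    · rintro ⟨x, hx, rfl⟩
      refine ⟨x.2, fun p hp => ?_⟩
      exact congrFun (LinearMap.mem_ker.1 hx) ⟨p, hp⟩
    · rintro ⟨hv, hv'⟩
      refine ⟨⟨v, hv⟩, ?_, rfl⟩
      refine LinearMap.mem_ker.2 ?_
      funext p
      exact hv' p.1 p.2
  have h5 : finrank K (kil b (s : Set (Fin k)) W) =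
      finrank K (LinearMap.ker ((rcF b s).domRestrict W)) := by
    rw [← h4]
    exact Submodule.finrank_map_subtype_eq _ _
  rw [h2, finrank_top, Module.finrank_fintype_fun_eq_card, Fintype.card_coe] at h1
  rw [h5]
  omega

theorem rho_cf {A : Matrix (Fin n) (Fin n) K} {α β : Fin n → ℤ} (D : Pieces A α β) (u c : ℤ) :
    rho A (cf α u) (cf β c) =
      ((Finset.univ.filter fun p => u ≤ α (D.i p) ∧ c ≤ β (D.j p)).card : ℤ) := by
  have h1 : kil D.b {p | u ≤ α (D.i p)} (cf (K := K) β c) =
      kil D.b ((Finset.univ.filter fun p => u ≤ α (D.i p) ∧ c ≤ β (D.j p) : Finset (Fin D.k)) :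
        Set (Fin D.k)) (cf β c) := by
    ext v
    constructor
    · rintro ⟨hv, hv'⟩
      refine ⟨hv, fun p hp => hv' p ?_⟩
      exact (Finset.mem_filter.1 (Finset.mem_coe.1 hp)).2.1
    · rintro ⟨hv, hv'⟩
      refine ⟨hv, fun p hp => ?_⟩
      by_cases hc : c ≤ β (D.j p)
      · exact hv' p (Finset.mem_coe.2 (Finset.mem_filter.2 ⟨Finset.mem_univ _, hp, hc⟩))
      · exact rc_disj (D.hb p) (fun j hj => lt_of_lt_of_le (not_le.1 hc) (hv j hj))
  have h2 := rc_kil_finrank D.b
    (Finset.univ.filter fun p => u ≤ α (D.i p) ∧ c ≤ β (D.j p)) (cf β c) (fun y => by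
      obtain ⟨v, hv, hv'⟩ := rc_surj D c y
      exact ⟨v, hv, fun p hp => hv' p (Finset.mem_filter.1 hp).2.2⟩)
  rw [rho, ann_cf D, h1, ← h2]
  push_cast
  ring

/-- (basis: the unit vectors `Pi.single j 1`, `b ≤ w j`) -/
theorem finrank_cf (w : Fin n → ℤ) (b : ℤ) :
    finrank K (cf (K := K) w b) = (Finset.univ.filter fun j => b ≤ w j).card := by
  have e : cf (K := K) w b ≃ₗ[K] ({j // b ≤ w j} → K) :=
    { toFun := fun v j => v.1 j.1
      map_add' := fun _ _ => rfl
      map_smul' := fun _ _ => rfl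
      invFun := fun f => ⟨fun j => if h : b ≤ w j then f ⟨j, h⟩ else 0, fun j hj => by
        by_contra h
        exact hj (dif_neg h)⟩
      left_inv := fun v => by
        apply Subtype.ext
        funext j
        by_cases h : b ≤ w j
        · exact dif_pos h
        · have h1 : v.1 j = 0 := by
            by_contra h2
            exact h (v.2 j h2)
          rw [h1]
          exact dif_neg h
      right_inv := fun f => by
        funext j
        exact dif_pos j.2 }
  rw [e.finrank_eq, Module.finrank_fintype_fun_eq_card, Fintype.card_subtype]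

theorem finrank_sup {β : Fin n → ℤ} (c : ℤ) (W : Submodule K (Fin n → K))
    (hW : ∀ w ∈ W, ∀ j, w j ≠ 0 → β j = c) :
    finrank K (cf β (c + 1) ⊔ W : Submodule K (Fin n → K)) =
      finrank K (cf (K := K) β (c + 1)) + finrank K W := by
  have h1 := Submodule.finrank_sup_add_finrank_inf_eq (cf (K := K) β (c + 1)) W
  have h2 : cf (K := K) β (c + 1) ⊓ W = ⊥ := by
    rw [eq_bot_iff]
    rintro v ⟨hv, hv'⟩
    rw [Submodule.mem_bot]
    funext j
    by_contra h3
    have h4 := hv j h3
    have h5 := hW v hv' j h3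
    omega
  rw [h2, finrank_bot, add_zero] at h1
  exact h1

/-- the coordinates of weight `c` -/
private def rcG (β : Fin n → ℤ) (c : ℤ) : (Fin n → K) →ₗ[K] (Fin n → K) where
  toFun v := fun j => if β j = c then v j else 0
  map_add' x y := by
    funext j
    by_cases h : β j = c
    · simp [h]
    · simp [h]
  map_smul' r x := by
    funext j
    by_cases h : β j = c
    · simp [h]
    · simp [h]

theorem rho_le {A : Matrix (Fin n) (Fin n) K} {α β : Fin n → ℤ} (D : Pieces A α β) (u c : ℤ)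
    (W : Submodule K (Fin n → K)) (hW : ∀ w ∈ W, ∀ j, w j ≠ 0 → β j = c) :
    rho A (cf α u) (cf β (c + 1) ⊔ W) - rho A (cf α u) (cf β (c + 1)) ≤
      (finrank K W : ℤ) - finrank K (kil D.b {p | β (D.j p) = c ∧ u ≤ α (D.i p)} W) := by
  have hker : ∀ v ∈ cf (K := K) β (c + 1), rcG β c v = 0 := by
    intro v hv
    funext j
    change (if β j = c then v j else 0) = 0
    split_ifs with h
    · by_contra h1
      have := hv j h1
      omega
    · rfl
  have hid : ∀ w ∈ W, rcG β c w = w := by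
    intro w hw
    funext j
    change (if β j = c then w j else 0) = w j
    split_ifs with h
    · rfl
    · by_contra h1
      exact h (hW w hw j (fun h2 => h1 h2.symm))
  obtain ⟨X, hX⟩ : ∃ X : Submodule K (Fin n → K),
      X = kil D.b {p | u ≤ α (D.i p)} (cf β (c + 1) ⊔ W) := ⟨_, rfl⟩
  have h1 := LinearMap.finrank_range_add_finrank_ker ((rcG (K := K) β c).domRestrict X)
  have h2 : finrank K (kil D.b {p | u ≤ α (D.i p)} (cf β (c + 1))) ≤
      finrank K (LinearMap.ker ((rcG (K := K) β c).domRestrict X)) := by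
    rw [← Submodule.finrank_map_subtype_eq X]
    apply Submodule.finrank_mono
    rintro v ⟨hv, hv'⟩
    refine ⟨⟨v, ?_⟩, ?_, rfl⟩
    · rw [hX]
      exact ⟨Submodule.mem_sup_left hv, hv'⟩
    · exact LinearMap.mem_ker.2 (hker v hv)
  have h3 : finrank K (kil D.b {p | β (D.j p) = c ∧ u ≤ α (D.i p)} W) ≤
      finrank K (LinearMap.range ((rcG (K := K) β c).domRestrict X)) := by
    apply Submodule.finrank_mono
    rintro w ⟨hw, hw'⟩
    obtain ⟨v, hv, hv'⟩ := rc_surj D (c + 1) (fun p => -(D.b p ⬝ᵥ w))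
    refine ⟨⟨v + w, ?_⟩, ?_⟩
    · rw [hX]
      refine ⟨Submodule.add_mem_sup hv hw, fun p hp => ?_⟩
      rw [dotProduct_add]
      rcases lt_trichotomy (β (D.j p)) c with h4 | h4 | h4
      · rw [rc_disj (D.hb p) (fun j hj => by have := hv j hj; omega),
          rc_disj (D.hb p) (fun j hj => by have := hW w hw j hj; omega), add_zero]
      · rw [rc_disj (D.hb p) (fun j hj => by have := hv j hj; omega), hw' p ⟨h4, hp⟩, add_zero]
      · rw [hv' p (by omega), neg_add_cancel]
    · change rcG β c (v + w) = w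
      rw [map_add, hker v hv, hid w hw, zero_add]
  have h5 := finrank_sup (β := β) c W hW
  rw [rho, rho, ann_cf D, ann_cf D, ← hX, h5]
  push_cast
  omega

end Pool.Agent.BNR
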