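import Mathlib
import Pool.Agent.BNR.MinC
import Pool.Agent.BNR.Adp
import Pool.Agent.BNR.Pcs
import Pool.Agent.BNR.Rc
import Pool.Agent.BNR.Cond

/-!
BNR-Pot: the potential theorem (assembly).
-/

set_option autoImplicit false

namespace Pool.Agent.BNR

open Module Matrix

variable {K : Type*} [Field K] {n m : ℕ}

theorem cf_anti (w : Fin n → ℤ) {b b' : ℤ} (h : b ≤ b') : cf (K := K) w b' ≤ cf w b :=
  fun _ hv j hj => h.trans (hv j hj)

theorem finrank_map_of_isUnit (Q : Matrix (Fin n) (Fin n) K) (hQ : IsUnit Q)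
    (W : Submodule K (Fin n → K)) : finrank K (W.map Q.mulVecLin) = finrank K W := by
  have hinj : Function.Injective Q.mulVecLin := by
    intro u v huv
    have h1 : Q *ᵥ u = Q *ᵥ v := huv
    exact (Matrix.mulVec_injective_iff_isUnit.2 hQ) h1
  exact (Submodule.equivMapOfInjective _ hinj W).finrank_eq.symm

/-- condition on one side -/
theorem cond_of_opt (N : ℕ) (L : Fin m → Matrix (Fin n) (Fin n) K)
    (H V : ℤ → Submodule K (Fin n → K)) (h : Opt N L H V) (P Q : Matrix (Fin n) (Fin n) K)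
    (hP : IsUnit P) (hQ : IsUnit Q) (α β : Fin n → ℤ)
    (hH : ∀ a, H a = (cf α a).map P.mulVecLin) (hV : ∀ b, V b = (cf β b).map Q.mulVecLin)
    (D : ∀ e, Pieces (Pᵀ * L e * Q) α β) :
    Cond N β (fun e => (D e).k) (fun e => (D e).b) (fun e p => α ((D e).i p))
      (fun e p => β ((D e).j p)) := by
  intro c W hW
  have hWc : W ≤ cf β c := fun w hw j hj => (hW w hw j hj).ge
  have key := h.i c ((cf β (c + 1) ⊔ W).map Q.mulVecLin)
    (by rw [hV]; exact Submodule.map_mono le_sup_left)
    (by rw [hV]; exact Submodule.map_mono (sup_le (cf_anti β (by omega)) hWc))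
  rw [hV, finrank_map_of_isUnit Q hQ, finrank_map_of_isUnit Q hQ, finrank_sup c W hW] at key
  have h1 : (N : ℤ) * finrank K W = (N : ℤ) * (((finrank K (cf (K := K) β (c + 1)) +
      finrank K W : ℕ) : ℤ) - finrank K (cf (K := K) β (c + 1))) := by
    push_cast
    ring
  rw [h1]
  refine key.trans (Finset.sum_le_sum fun e _ => Finset.sum_le_sum fun s _ => ?_)
  rw [hH, rho_map (L e) P Q hP hQ, rho_map (L e) P Q hP hQ]
  refine (rho_le (D e) ((s : ℤ) - c) c W hW).trans (le_of_eq ?_)
  rfl

/-- number of polar pieces -/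
theorem card_of_opt (N : ℕ) (L : Fin m → Matrix (Fin n) (Fin n) K)
    (H V : ℤ → Submodule K (Fin n → K)) (h : Opt N L H V) (P Q : Matrix (Fin n) (Fin n) K)
    (hP : IsUnit P) (hQ : IsUnit Q) (α β : Fin n → ℤ)
    (hH : ∀ a, H a = (cf α a).map P.mulVecLin) (hV : ∀ b, V b = (cf β b).map Q.mulVecLin)
    (D : ∀ e, Pieces (Pᵀ * L e * Q) α β) (c : ℤ) :
    (∑ e, ∑ r ∈ Finset.range N, (Finset.univ.filter fun p : Fin (D e).k =>
      β ((D e).j p) = c ∧ (r : ℤ) + 1 - c ≤ α ((D e).i p)).card : ℕ) ≤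
    N * (Finset.univ.filter fun j => β j = c).card := by
  have key := h.ii c
  have h2 : (finrank K (cf (K := K) β c) : ℤ) - finrank K (cf (K := K) β (c + 1)) =
      (Finset.univ.filter fun j => β j = c).card := by
    rw [finrank_cf, finrank_cf]
    have h5 : (Finset.univ.filter fun j => c ≤ β j).card =
        (Finset.univ.filter fun j => β j = c).card +
        (Finset.univ.filter fun j => c + 1 ≤ β j).card := by
      rw [← Finset.card_union_of_disjoint]
      · congr 1
        ext p
        simp only [Finset.mem_filter, Finset.mem_univ, true_and, Finset.mem_union]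
        omega
      · rw [Finset.disjoint_left]
        intro p h4 h5
        simp only [Finset.mem_filter, Finset.mem_univ, true_and] at h4 h5
        omega
    rw [h5]
    push_cast
    ring
  rw [hV, hV, finrank_map_of_isUnit Q hQ, finrank_map_of_isUnit Q hQ, h2] at key
  zify
  refine le_trans (le_of_eq ?_) key
  refine Finset.sum_congr rfl fun e _ => Finset.sum_congr rfl fun r _ => ?_
  rw [hH, rho_map (L e) P Q hP hQ, rho_map (L e) P Q hP hQ, rho_cf (D e), rho_cf (D e)]
  have h3 : (Finset.univ.filter fun p : Fin (D e).k =>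
      (r : ℤ) + 1 - c ≤ α ((D e).i p) ∧ c ≤ β ((D e).j p)).card =
      (Finset.univ.filter fun p : Fin (D e).k =>
        β ((D e).j p) = c ∧ (r : ℤ) + 1 - c ≤ α ((D e).i p)).card +
      (Finset.univ.filter fun p : Fin (D e).k =>
        (r : ℤ) + 1 - c ≤ α ((D e).i p) ∧ c + 1 ≤ β ((D e).j p)).card := by
    rw [← Finset.card_union_of_disjoint]
    · congr 1
      ext p
      simp only [Finset.mem_filter, Finset.mem_univ, true_and, Finset.mem_union]
      omega
    · rw [Finset.disjoint_left]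
      intro p h4 h5
      simp only [Finset.mem_filter, Finset.mem_univ, true_and] at h4 h5
      omega
  rw [h3]
  push_cast
  ring

/-- The potential theorem. -/
theorem potentials (N : ℕ) (L : Fin m → Matrix (Fin n) (Fin n) K) (hL : NcRk L n) :
    ∃ (P Q : Matrix (Fin n) (Fin n) K) (α β : Fin n → ℤ) (k : Fin m → ℕ)
      (a b : ∀ e, Fin (k e) → Fin n → K) (x y : ∀ e, Fin (k e) → ℤ),
      IsUnit P ∧ IsUnit Q ∧ (∀ e, Pᵀ * L e * Q = ∑ p, vecMulVec (a e p) (b e p)) ∧
      (∀ e p i, a e p i ≠ 0 → α i ≤ x e p) ∧ (∀ e p j, b e p j ≠ 0 → β j ≤ y e p) ∧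
      Cond N β k b x y ∧ Cond N α k a y x ∧
      ∑ e, ∑ r ∈ Finset.range N,
        (Finset.univ.filter fun p : Fin (k e) => (r : ℤ) + 1 ≤ x e p + y e p).card ≤ N * n := by
  obtain ⟨C, H, V, h⟩ := exists_min N L hL
  have h1 := opt_of_min N L C H V h
  have h2 := opt_of_min N _ C V H h.swap
  obtain ⟨a1, a2, a3, a4, -⟩ := h
  obtain ⟨P, α, hP, hH⟩ := adapted C H a1 a3
  obtain ⟨Q, β, hQ, hV⟩ := adapted C V a2 a4
  have D : ∀ e, Pieces (Pᵀ * L e * Q) α β := fun e => (exists_pieces _ α β).some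
  have hT : ∀ e, Qᵀ * (L e)ᵀ * P = (Pᵀ * L e * Q)ᵀ := by
    intro e
    rw [transpose_mul, transpose_mul, transpose_transpose, Matrix.mul_assoc]
  refine ⟨P, Q, α, β, fun e => (D e).k, fun e => (D e).a, fun e => (D e).b,
    fun e p => α ((D e).i p), fun e p => β ((D e).j p), hP, hQ, fun e => (D e).sum,
    fun e => (D e).ha, fun e => (D e).hb, cond_of_opt N L H V h1 P Q hP hQ α β hH hV D, ?_, ?_⟩
  · let D' : ∀ e, Pieces (Qᵀ * (L e)ᵀ * P) β α := fun e =>
      { k := (D e).k, a := (D e).b, b := (D e).a, i := (D e).j, j := (D e).i,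
        sum := by rw [hT]; exact (D e).swap.sum
        ha := (D e).hb, hb := (D e).ha, ai := (D e).bj, bj := (D e).ai, ai0 := (D e).bj0,
        bj0 := (D e).ai0 }
    exact cond_of_opt N (fun e => (L e)ᵀ) V H h2 Q P hQ hP β α hV hH D'
  · -- sum over the values of `c`
    have h3 : ∀ e (r : ℕ), (Finset.univ.filter fun p : Fin (D e).k =>
        (r : ℤ) + 1 ≤ α ((D e).i p) + β ((D e).j p)).card =
        ∑ c ∈ Finset.univ.image β, (Finset.univ.filter fun p : Fin (D e).k =>
          β ((D e).j p) = c ∧ (r : ℤ) + 1 - c ≤ α ((D e).i p)).card := by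
      intro e r
      rw [Finset.card_eq_sum_card_fiberwise (f := fun p => β ((D e).j p))
        (t := Finset.univ.image β) (fun p _ => by simp)]
      refine Finset.sum_congr rfl fun c _ => ?_
      rw [Finset.filter_filter]
      congr 1
      ext p
      simp only [Finset.mem_filter, Finset.mem_univ, true_and]
      constructor
      · rintro ⟨h4, h5⟩
        exact ⟨h5, by omega⟩
      · rintro ⟨h4, h5⟩
        exact ⟨by omega, h4⟩
    have h4 : ∑ e, ∑ r ∈ Finset.range N, (Finset.univ.filter fun p : Fin (D e).k =>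
        (r : ℤ) + 1 ≤ α ((D e).i p) + β ((D e).j p)).card =
        ∑ c ∈ Finset.univ.image β, ∑ e, ∑ r ∈ Finset.range N,
          (Finset.univ.filter fun p : Fin (D e).k =>
          β ((D e).j p) = c ∧ (r : ℤ) + 1 - c ≤ α ((D e).i p)).card := by
      simp_rw [h3]
      rw [Finset.sum_comm (s := Finset.univ.image β)]
      refine Finset.sum_congr rfl fun e _ => ?_
      rw [Finset.sum_comm]
    show ∑ e, ∑ r ∈ Finset.range N, (Finset.univ.filter fun p : Fin (D e).k =>
        (r : ℤ) + 1 ≤ α ((D e).i p) + β ((D e).j p)).card ≤ N * n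
    rw [h4]
    refine (Finset.sum_le_sum fun c _ =>
      card_of_opt N L H V h1 P Q hP hQ α β hH hV D c).trans ?_
    rw [← Finset.mul_sum]
    refine Nat.mul_le_mul_left _ (le_of_eq ?_)
    rw [← Finset.card_eq_sum_card_fiberwise (f := β) (fun p _ => by simp)]
    simp

end Pool.Agent.BNR
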