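import Mathlib
import Pool.Agent.BNR.Pot
import Pool.Agent.BNR.One
import Pool.Agent.BNR.Om

/-!
BNR-Main: the rank bound for nc-full linear matrices (assembly).
-/

set_option autoImplicit false

namespace Pool.Agent.BNR

open Module Matrix Polynomial

variable {K : Type*} [Field K] {n m : ℕ}

theorem ev_base (L : Fin m → Matrix (Fin n) (Fin n) K) (P Q : Matrix (Fin n) (Fin n) K)
    {ι : Type*} [Fintype ι] [DecidableEq ι] (Y : Fin m → Matrix ι ι K) :
    (ev (fun e => Pᵀ * L e * Q) Y).rank ≤ (ev L Y).rank := by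
  have h1 : ev (fun e => Pᵀ * L e * Q) Y =
      kroneckerMap (· * ·) Pᵀ (1 : Matrix ι ι K) * ev L Y * kroneckerMap (· * ·) Q 1 := by
    rw [ev, ev, Matrix.mul_sum, Matrix.sum_mul]
    refine Finset.sum_congr rfl fun e _ => ?_
    have h2 := Matrix.mul_kronecker_mul Pᵀ (L e) (1 : Matrix ι ι K) (Y e)
    have h3 := Matrix.mul_kronecker_mul (Pᵀ * L e) Q (1 * Y e) (1 : Matrix ι ι K)
    rw [h2] at h3
    rw [Matrix.one_mul, Matrix.mul_one] at h3
    exact h3
  rw [h1]
  exact (Matrix.rank_mul_le_left _ _).trans (Matrix.rank_mul_le_right _ _)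

theorem main_full [Infinite K] (c : K) (N : ℕ)
    (hc : ∀ i j, i < m * N → j < m * N → c ^ i = c ^ j → i = j)
    (L : Fin m → Matrix (Fin n) (Fin n) K) (hL : NcRk L n) :
    ∃ t : K, n * N ≤ (ev L (fun e => T c t N e)).rank + 2 * (m * n ^ 2) := by
  obtain ⟨P, Q, α, β, k, a, b, x, y, hP, hQ, hsum, ha, hb, hB, hA, hcard⟩ := potentials N L hL
  have oB := one_sided c N hc β k b x y hB
  have oA := one_sided c N hc α k a y x hA
  set a' : (Σ e : Fin m, Fin (k e) × Fin N) → Fin n × Fin N → K :=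
    fun q v => a q.1 q.2.1 v.1 * c ^ (((q.1 : ℕ) * N + q.2.2) * (v.2 : ℕ)) with ha'
  set b' : (Σ e : Fin m, Fin (k e) × Fin N) → Fin n × Fin N → K :=
    fun q v => b q.1 q.2.1 v.1 * c ^ (((q.1 : ℕ) * N + q.2.2) * (v.2 : ℕ)) with hb'
  obtain ⟨t, ht⟩ := om a' b' (fun v => α v.1) (fun v => β v.1) (fun q => x q.1 q.2.1)
    (fun q => y q.1 q.2.1) (fun q => (q.2.2 : ℕ))
    (fun q v hv => ha _ _ _ (left_ne_zero_of_mul hv))
    (fun q v hv => hb _ _ _ (left_ne_zero_of_mul hv))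
  have e1 : (Matrix.of fun q i => if ((q.2.2 : ℕ) : ℤ) + 1 ≤ x q.1 q.2.1 + y q.1 q.2.1 ∧
      α i.1 = x q.1 q.2.1 then a' q i else 0 :
        Matrix (Σ e : Fin m, Fin (k e) × Fin N) (Fin n × Fin N) K) = bar c N α k a y x := by
    ext q v
    simp only [Matrix.of_apply, bar, ha', add_comm (x q.1 q.2.1)]
  have e2 : (Matrix.of fun q i => if ((q.2.2 : ℕ) : ℤ) + 1 ≤ x q.1 q.2.1 + y q.1 q.2.1 ∧
      β i.1 = y q.1 q.2.1 then b' q i else 0 :
        Matrix (Σ e : Fin m, Fin (k e) × Fin N) (Fin n × Fin N) K) = bar c N β k b x y := by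
    ext q v
    simp only [Matrix.of_apply, bar, hb']
  rw [e1, e2] at ht
  have e3 : ∑ q, t ^ ((q.2.2 : ℕ)) • vecMulVec (a' q) (b' q) =
      ev (fun e => Pᵀ * L e * Q) (fun e => T c t N e) := by
    ext v w
    rw [Matrix.sum_apply, ev, Matrix.sum_apply, Fintype.sum_sigma]
    refine Finset.sum_congr rfl fun e _ => ?_
    rw [kroneckerMap_apply, hsum e, Matrix.sum_apply, Finset.sum_mul, Fintype.sum_prod_type]
    refine Finset.sum_congr rfl fun p _ => ?_
    rw [T, Finset.sum_range, Finset.mul_sum]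
    refine Finset.sum_congr rfl fun r _ => ?_
    simp only [Matrix.smul_apply, vecMulVec_apply, ha', hb', smul_eq_mul, mul_add, pow_add]
    ring
  rw [e3] at ht
  have e4 : (Finset.univ.filter fun q : Σ e : Fin m, Fin (k e) × Fin N =>
      ((q.2.2 : ℕ) : ℤ) + 1 ≤ x q.1 q.2.1 + y q.1 q.2.1).card ≤ N * n := by
    refine le_trans (le_of_eq ?_) hcard
    rw [Finset.card_filter, Fintype.sum_sigma]
    refine Finset.sum_congr rfl fun e _ => ?_
    rw [Fintype.sum_prod_type, Finset.sum_comm, Finset.sum_range]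
    refine Finset.sum_congr rfl fun r _ => ?_
    rw [Finset.card_filter]
  have e5 := ev_base L P Q (fun e => T c t N e)
  refine ⟨t, ?_⟩
  have e6 : N * n = n * N := mul_comm _ _
  omega

end Pool.Agent.BNR
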