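import Mathlib
import Pool.Agent.BNR.Main
import Pool.Agent.BNR.Grid

/-!
BNR-Thm1: the rank bound for nc-full linear matrices at a parameter of a given finite set
(assembly).
-/

set_option autoImplicit false

namespace Pool.Agent.BNR

open Module Matrix Polynomial

variable {K : Type*} [Field K] {n m : ℕ}

/-- the polynomial matrix with value `ev L (T c t N)` at `t` -/
noncomputable def evX (c : K) (N : ℕ) (L : Fin m → Matrix (Fin n) (Fin n) K) :
    Matrix (Fin n × Fin N) (Fin n × Fin N) K[X] :=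
  fun v w => ∑ e, ∑ r ∈ Finset.range N,
    C (L e v.1 w.1 * c ^ (((e : ℕ) * N + r) * ((v.2 : ℕ) + w.2))) * X ^ r

theorem evX_eval (c t : K) (N : ℕ) (L : Fin m → Matrix (Fin n) (Fin n) K) :
    (evX c N L).map (eval t) = ev L (fun e => T c t N e) := by
  ext v w
  rw [Matrix.map_apply, evX, ev, Matrix.sum_apply, eval_finsetSum]
  refine Finset.sum_congr rfl fun e _ => ?_
  rw [kroneckerMap_apply, T, eval_finsetSum, Finset.mul_sum]
  refine Finset.sum_congr rfl fun r _ => ?_
  rw [eval_mul, eval_C, eval_pow, eval_X]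
  ring

theorem evX_deg (c : K) (N : ℕ) (L : Fin m → Matrix (Fin n) (Fin n) K) (v w) :
    (evX c N L v w).natDegree ≤ N - 1 := by
  refine natDegree_sum_le_of_forall_le _ _ fun e _ =>
    natDegree_sum_le_of_forall_le _ _ fun r hr => ?_
  refine (natDegree_C_mul_X_pow_le _ _).trans ?_
  have := Finset.mem_range.1 hr
  omega

/-- Theorem 1 over a given finite set of parameters `t`. -/
theorem one [Infinite K] (c : K) (N : ℕ)
    (hc : ∀ i j, i < m * N → j < m * N → c ^ i = c ^ j → i = j)
    (L : Fin m → Matrix (Fin n) (Fin n) K) (hL : NcRk L n) (S : Finset K)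
    (hS : n * N * N < S.card) :
    ∃ t ∈ S, n * N ≤ (ev L (fun e => T c t N e)).rank + 2 * (m * n ^ 2) := by
  obtain ⟨t, ht⟩ := main_full c N hc L hL
  obtain ⟨s, hs, h1⟩ := grid (evX c N L) (N - 1) (evX_deg c N L) S (by
      rw [Fintype.card_prod, Fintype.card_fin, Fintype.card_fin]
      exact (Nat.mul_le_mul_left _ (Nat.sub_le _ _)).trans_lt hS) t
  rw [evX_eval, evX_eval] at h1
  exact ⟨s, hs, ht.trans (Nat.add_le_add_right h1 _)⟩

end Pool.Agent.BNR
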