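import Mathlib
import Pool.Agent.BNR.Defs

/-!
BNR-Up: a zero block bounds the rank at all tuples of matrices.

Suppose `A`, `B` with `hᵀ L_e v = 0` for all `e`, `h ∈ A`, `v ∈ B`.  Then `ev L Y` maps the space `B ⊗ K^ι`
of dimension `finrank B * d` into the kernel of `P ⊗ 1`, the rows of `P` a basis of `A`, of dimension
`(n - finrank A) * d`; so the rank (dimension of the range) is at most
`(n - finrank A) d + (n - finrank B) d`.
-/

set_option autoImplicit false

namespace Pool.Agent.BNR

open Module Matrix

variable {K : Type*} [Field K] {n m : ℕ}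

/-- rank of a map with a block -/
private theorem up_block {W W' : Type*} [AddCommGroup W] [Module K W] [FiniteDimensional K W]
    [AddCommGroup W'] [Module K W'] [FiniteDimensional K W']
    (f : W →ₗ[K] W) (U : Submodule K W) (g : W →ₗ[K] W') (hg : Function.Surjective g)
    (h : ∀ w ∈ U, g (f w) = 0) :
    finrank K (LinearMap.range f) + finrank K U + finrank K W' ≤ 2 * finrank K W := by
  have h1 := LinearMap.finrank_range_add_finrank_ker f
  have h2 := LinearMap.finrank_range_add_finrank_ker g
  rw [LinearMap.range_eq_top.2 hg, finrank_top] at h2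
  have h3 := LinearMap.finrank_range_add_finrank_ker (f.domRestrict U)
  have h4 : finrank K (LinearMap.ker (f.domRestrict U)) ≤ finrank K (LinearMap.ker f) := by
    have e : (LinearMap.ker (f.domRestrict U)).map U.subtype ≤ LinearMap.ker f := by
      rintro x ⟨y, hy, rfl⟩
      exact hy
    have e' := LinearEquiv.finrank_eq (Submodule.equivMapOfInjective U.subtype U.injective_subtype
      (LinearMap.ker (f.domRestrict U)))
    rw [e']
    exact Submodule.finrank_mono e
  have h5 : finrank K (LinearMap.range (f.domRestrict U)) ≤ finrank K (LinearMap.ker g) := by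
    refine Submodule.finrank_mono ?_
    rintro x ⟨y, rfl⟩
    exact h y.1 y.2
  omega

theorem up (L : Fin m → Matrix (Fin n) (Fin n) K) (r : ℕ) {ι : Type*} [Fintype ι] [DecidableEq ι]
    (Y : Fin m → Matrix ι ι K) (h : r * Fintype.card ι < (ev L Y).rank) : NcRk L (r + 1) := by
  intro A B hAB
  set a := finrank K A with ha
  set b := finrank K B with hb
  -- the space `B ⊗ K^ι`
  let gB : (ι → B) →ₗ[K] (Fin n × ι → K) :=
    { toFun := fun x p => (x p.2 : Fin n → K) p.1
      map_add' := by
        intro x y
        ext p
        simp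
      map_smul' := by
        intro c x
        ext p
        simp }
  have gBi : Function.Injective gB := by
    intro x y hxy
    ext i j
    exact congrFun hxy (j, i)
  have hU : finrank K (LinearMap.range gB) = Fintype.card ι * b := by
    rw [LinearMap.finrank_range_of_inj gBi, finrank_pi_fintype, Finset.sum_const, Finset.card_univ,
      smul_eq_mul]
  -- the matrix with rows a basis of `A`
  let bA := finBasis K A
  let P : Matrix (Fin (finrank K A)) (Fin n) K := fun k j => (bA k : Fin n → K) j
  have hPi : LinearIndependent K P.row := by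
    have h1 : LinearIndependent K (fun k => (bA k : Fin n → K)) :=
      bA.linearIndependent.map' A.subtype (Submodule.ker_subtype A)
    exact h1
  have hPs : Function.Surjective P.mulVec := by
    have h1 : P.rank = finrank K A := by
      rw [hPi.rank_matrix, Fintype.card_fin]
    have h2 : LinearMap.range P.mulVecLin = ⊤ := by
      refine Submodule.eq_top_of_finrank_eq ?_
      rw [finrank_pi, Fintype.card_fin]
      exact h1
    exact LinearMap.range_eq_top.1 h2
  let g : (Fin n × ι → K) →ₗ[K] (Fin (finrank K A) × ι → K) :=
    { toFun := fun w p => ∑ j, P p.1 j * w (j, p.2)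
      map_add' := by
        intro x y
        ext p
        simp [mul_add, Finset.sum_add_distrib]
      map_smul' := by
        intro c x
        ext p
        simp only [Pi.smul_apply, smul_eq_mul, RingHom.id_apply, Finset.mul_sum]
        exact Finset.sum_congr rfl fun j _ => by ring }
  have hg : Function.Surjective g := by
    intro y
    choose w hw using fun i : ι => hPs (fun k => y (k, i))
    refine ⟨fun p => w p.2 p.1, ?_⟩
    ext ⟨k, i⟩
    exact congrFun (hw i) k
  have key := up_block (ev L Y).mulVecLin (LinearMap.range gB) g hg (by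
    rintro w ⟨x, rfl⟩
    ext ⟨k, i⟩
    have e1 : ∀ e, ∀ i', ∑ j, P k j * ∑ j', L e j j' * (x i' : Fin n → K) j' = 0 := by
      intro e i'
      exact hAB e (bA k) (bA k).2 (x i') (x i').2
    change ∑ j, P k j * ((ev L Y) *ᵥ gB x) (j, i) = 0
    have e2 : ∀ j, ((ev L Y) *ᵥ gB x) (j, i) =
        ∑ e, ∑ i', Y e i i' * ∑ j', L e j j' * (x i' : Fin n → K) j' := by
      intro j
      calc ((ev L Y) *ᵥ gB x) (j, i)
          = ∑ q : Fin n × ι, (∑ e, L e j q.1 * Y e i q.2) * (x q.2 : Fin n → K) q.1 := by
            simp only [ev, mulVec, dotProduct, Matrix.sum_apply, kroneckerMap_apply]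
            rfl
        _ = ∑ j', ∑ i', ∑ e, L e j j' * Y e i i' * (x i' : Fin n → K) j' := by
            rw [Fintype.sum_prod_type]
            simp only [Finset.sum_mul]
        _ = ∑ i', ∑ j', ∑ e, L e j j' * Y e i i' * (x i' : Fin n → K) j' := Finset.sum_comm
        _ = ∑ i', ∑ e, ∑ j', L e j j' * Y e i i' * (x i' : Fin n → K) j' :=
            Finset.sum_congr rfl fun i' _ => Finset.sum_comm
        _ = ∑ e, ∑ i', ∑ j', L e j j' * Y e i i' * (x i' : Fin n → K) j' := Finset.sum_comm
        _ = ∑ e, ∑ i', Y e i i' * ∑ j', L e j j' * (x i' : Fin n → K) j' := by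
            refine Finset.sum_congr rfl fun e _ => Finset.sum_congr rfl fun i' _ => ?_
            rw [Finset.mul_sum]
            exact Finset.sum_congr rfl fun j' _ => by ring
    calc ∑ j, P k j * ((ev L Y) *ᵥ gB x) (j, i)
        = ∑ j, ∑ e, ∑ i', P k j * (Y e i i' * ∑ j', L e j j' * (x i' : Fin n → K) j') := by
          refine Finset.sum_congr rfl fun j _ => ?_
          rw [e2 j, Finset.mul_sum]
          exact Finset.sum_congr rfl fun e _ => Finset.mul_sum _ _ _
      _ = ∑ e, ∑ j, ∑ i', P k j * (Y e i i' * ∑ j', L e j j' * (x i' : Fin n → K) j') :=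
          Finset.sum_comm
      _ = ∑ e, ∑ i', ∑ j, P k j * (Y e i i' * ∑ j', L e j j' * (x i' : Fin n → K) j') :=
          Finset.sum_congr rfl fun e _ => Finset.sum_comm
      _ = ∑ e, ∑ i', Y e i i' * ∑ j, P k j * ∑ j', L e j j' * (x i' : Fin n → K) j' := by
          refine Finset.sum_congr rfl fun e _ => Finset.sum_congr rfl fun i' _ => ?_
          rw [Finset.mul_sum]
          exact Finset.sum_congr rfl fun j _ => by ring
      _ = 0 := Finset.sum_eq_zero fun e _ => Finset.sum_eq_zero fun i' _ => by
          rw [e1 e i', mul_zero])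
  have hW : finrank K (Fin n × ι → K) = n * Fintype.card ι := by
    rw [finrank_pi, Fintype.card_prod, Fintype.card_fin]
  have hW' : finrank K (Fin (finrank K A) × ι → K) = a * Fintype.card ι := by
    rw [finrank_pi, Fintype.card_prod, Fintype.card_fin]
  rw [hU, hW, hW'] at key
  have h1 : (r + (a + b)) * Fintype.card ι < 2 * n * Fintype.card ι := by
    have h2 : (ev L Y).rank = finrank K (LinearMap.range (ev L Y).mulVecLin) := rfl
    rw [h2] at h
    have e1 : (r + (a + b)) * Fintype.card ι =
        r * Fintype.card ι + Fintype.card ι * b + a * Fintype.card ι := by ring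
    have e2 : 2 * n * Fintype.card ι = 2 * (n * Fintype.card ι) := by ring
    omega
  have h3 := lt_of_mul_lt_mul_right h1 (Nat.zero_le _)
  omega

end Pool.Agent.BNR
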