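import Mathlib
import Pool.Agent.BNR.Thm1
import Pool.Agent.BNR.Aug
import Pool.Agent.BNR.Up

/-!
BNR-Fin: all ranks, characteristic zero (assembly).
-/

set_option autoImplicit false

namespace Pool.Agent.BNR

open Module Matrix Polynomial

variable {K : Type*} [Field K] {n m : ℕ}

theorem pow_two_inj [CharZero K] (M : ℕ) : ∀ i j, i < M → j < M → (2 : K) ^ i = 2 ^ j → i = j := by
  intro i j _ _ h
  have h1 : ((2 ^ i : ℕ) : K) = ((2 ^ j : ℕ) : K) := by push_cast; exact h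
  exact Nat.pow_right_injective le_rfl (Nat.cast_injective h1)

theorem NcRk.le {L : Fin m → Matrix (Fin n) (Fin n) K} {r : ℕ} (h : NcRk L r) : r ≤ n := by
  have h1 := h ⊤ ⊥ (fun e u _ v hv => by
    rw [(Submodule.mem_bot K).1 hv, mulVec_zero, dotProduct_zero])
  rw [finrank_top, finrank_bot, finrank_fin_fun] at h1
  omega

/-- all ranks, any infinite field -/
theorem main_all [Infinite K] (c : K) (r N : ℕ) (hN : 8 * n ^ 2 * (m + 2 * n ^ 2) < N)
    (hc : ∀ i j, i < (m + 2 * n ^ 2) * N → j < (m + 2 * n ^ 2) * N → c ^ i = c ^ j → i = j)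
    (L : Fin m → Matrix (Fin n) (Fin n) K) (hL : NcRk L (r + 1)) :
    ∃ t : K, r * N < (ev L (fun e => T c t N e)).rank := by
  obtain ⟨L', h1, h2⟩ := aug L (r + 1) hL.le hL
  have h0 := hL.le
  have h5 : 2 * n * (n - (r + 1)) ≤ 2 * n ^ 2 := by
    have : n - (r + 1) ≤ n := Nat.sub_le _ _
    nlinarith
  obtain ⟨t, ht⟩ := main_full c N (fun i j hi hj => hc i j
    (hi.trans_le (Nat.mul_le_mul_right _ (by omega)))
    (hj.trans_le (Nat.mul_le_mul_right _ (by omega)))) L' h1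
  refine ⟨t, ?_⟩
  have h3 := h2 (Fin N) (fun e => T c t N e)
  rw [Fintype.card_fin] at h3
  have h4 : 2 * ((m + 2 * n * (n - (r + 1))) * (2 * n - (r + 1)) ^ 2) ≤
      8 * n ^ 2 * (m + 2 * n ^ 2) := by
    have h6 : (2 * n - (r + 1)) ^ 2 ≤ (2 * n) ^ 2 := Nat.pow_le_pow_left (Nat.sub_le _ _) 2
    calc 2 * ((m + 2 * n * (n - (r + 1))) * (2 * n - (r + 1)) ^ 2) ≤
        2 * ((m + 2 * n ^ 2) * (2 * n) ^ 2) := by
          refine Nat.mul_le_mul_left _ (Nat.mul_le_mul (by omega) h6)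
      _ = 8 * n ^ 2 * (m + 2 * n ^ 2) := by ring
  have h7 : (2 * n - (r + 1)) * N = 2 * (n - (r + 1)) * N + r * N + N := by
    have : 2 * n - (r + 1) = 2 * (n - (r + 1)) + r + 1 := by omega
    rw [this]
    ring
  omega

/-- all ranks, characteristic zero: `c = 2` and `t` a natural number at most `n * N * N` -/
theorem main_zero [CharZero K] (r N : ℕ) (hN : 8 * n ^ 2 * (m + 2 * n ^ 2) < N)
    (L : Fin m → Matrix (Fin n) (Fin n) K) (hL : NcRk L (r + 1)) :
    ∃ t : ℕ, t ≤ n * N * N ∧ r * N < (ev L (fun e => T (2 : K) (t : K) N e)).rank := by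
  obtain ⟨t, ht⟩ := main_all (2 : K) r N hN (pow_two_inj _) L hL
  obtain ⟨s, hs, h1⟩ := grid (evX (2 : K) N L) (N - 1) (evX_deg 2 N L)
    ((Finset.range (n * N * N + 1)).map ⟨fun i : ℕ => (i : K), Nat.cast_injective⟩) (by
      rw [Finset.card_map, Finset.card_range, Fintype.card_prod, Fintype.card_fin,
        Fintype.card_fin]
      have : n * N * (N - 1) ≤ n * N * N := Nat.mul_le_mul_left _ (Nat.sub_le _ _)
      omega) t
  rw [Finset.mem_map] at hs
  obtain ⟨i, hi, rfl⟩ := hs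
  refine ⟨i, ?_, ?_⟩
  · have := Finset.mem_range.1 hi
    omega
  · rw [evX_eval, evX_eval] at h1
    exact ht.trans_le h1

end Pool.Agent.BNR
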