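import Mathlib
import Pool.Agent.NCS.Pen3

/-!
BNR: the twist of a tuple of matrices makes the rank of every pencil a multiple of the size.
-/

set_option autoImplicit false

namespace Pool.Agent.BNR

open Pool.Agent.NCP Pool.Agent.NCR Pool.Agent.NCS Polynomial

universe u

variable {K : Type u} [Field K] {n : ℕ}

section twist

variable {N : ℕ} [NeZero N] {ι : Type} [Fintype ι] [DecidableEq ι]

/-- The twist of an invertible pencil, arbitrary base point. -/
theorem twist_unit' (ζ : K) (β : Fin n → Matrix (Fin N) (Fin N) K) (A0 : Matrix ι ι K)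
    (B : Fin n → Matrix ι ι K) (τ0 μ0 : K)
    (h : IsUnit (penG A0 B fun i => tw ζ τ0 μ0 (β i))) : ∃ F : K[X][X], F ≠ 0 ∧
      ∀ τ μ : K, pt τ μ F ≠ 0 → IsUnit (penG A0 B fun i => tw ζ τ μ (β i)) := by
  refine ⟨(PC A0 B (gX ζ β)).det, ?_, ?_⟩
  · intro h1
    rw [← gX_pt] at h
    have h2 := (isUnit_penG_iff A0 B (pt τ0 μ0) (gX ζ β)).1 h
    rw [h1, map_zero] at h2
    exact h2 rfl
  · intro τ μ h1
    have h2 := (isUnit_penG_iff A0 B (pt τ μ) (gX ζ β)).2 h1
    rwa [gX_pt] at h2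

/-- The twist of a represented value, arbitrary base point. -/
theorem twist_pen' [CharZero K] (ζ : K) (hζ : IsPrimitiveRoot ζ N)
    (β : Fin n → Matrix (Fin N) (Fin N) K) (A0 : Matrix ι ι K) (B : Fin n → Matrix ι ι K)
    (u v : ι → K) (τ0 μ0 : K) (x : Matrix (Fin N) (Fin N) K)
    (h : Rep A0 B u v (fun i => tw ζ τ0 μ0 (β i)) x) (hx : x ≠ 0) :
    ∃ F : K[X][X], F ≠ 0 ∧ ∀ τ μ : K, pt τ μ F ≠ 0 →
      ∃ x' : Matrix (Fin N) (Fin N) K, Rep A0 B u v (fun i => tw ζ τ μ (β i)) x' ∧ IsUnit x' := by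
  have hu := unit_of_rep A0 B u v _ x h
  have hnum : num A0 B u v (gX ζ β) ≠ 0 := by
    intro h1
    have h2 := num_map (pt τ0 μ0) A0 B u v (gX ζ β)
    rw [gX_pt, h1, num_rep A0 B u v _ _ h] at h2
    have h3 : ((0 : Matrix (Fin N) (Fin N) K[X][X]).map (pt τ0 μ0)) = 0 := by
      ext p q
      rw [Matrix.map_apply, Matrix.zero_apply, Matrix.zero_apply, map_zero]
    rw [h3] at h2
    rcases smul_eq_zero.1 h2.symm with h4 | h4
    · rw [← isUnit_comp, Matrix.isUnit_iff_isUnit_det] at hu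
      exact hu.ne_zero h4
    · exact hx h4
  have hdet : (num A0 B u v (gX ζ β)).det ≠ 0 := by
    refine sym_det ζ hζ _ ?_ ?_ hnum
    · intro k j p q
      have h1 := congrFun (congrFun (num_map (s1 ζ) A0 B u v (gX ζ β)) p) q
      have h2 : (fun i => (gX ζ β i).map (s1 ζ)) =
          fun i => (gX ζ β i).submatrix (· + 1) (· + 1) := by
        funext i
        ext1 p q
        rw [Matrix.map_apply, Matrix.submatrix_apply]
        exact s1_gtw ζ hζ (β i) p q
      rw [h2, num_shift, Matrix.map_apply] at h1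
      rw [← h1, s1_coeff]
    · intro k j p q hc
      have h1 := congrFun (congrFun (num_map (s2 ζ) A0 B u v (gX ζ β)) p) q
      have h2 : (fun i => (gX ζ β i).map (s2 ζ)) = fun i => Matrix.of fun (p q : Fin N) =>
          algebraMap K K[X][X] (ζ ^ (p : ℕ)) * algebraMap K K[X][X] (ζ⁻¹ ^ (q : ℕ)) *
            gX ζ β i p q := by
        funext i
        ext1 p q
        rw [Matrix.map_apply, Matrix.of_apply, ← map_mul, ← pow_sub ζ hζ]
        exact s2_gtw ζ (β i) p q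
      rw [h2, num_clock A0 B u v (gX ζ β) (fun p : Fin N => algebraMap K K[X][X] (ζ ^ (p : ℕ)))
        (fun q : Fin N => algebraMap K K[X][X] (ζ⁻¹ ^ (q : ℕ))), Matrix.map_apply, ← map_mul,
        ← pow_sub ζ hζ] at h1
      · have h3 := congrArg (fun f : K[X][X] => (f.coeff k).coeff j) h1
        simp only [s2_coeff] at h3
        have h4 : algebraMap K K[X][X] (ζ ^ ((p - q : Fin N) : ℕ)) =
            C (C (ζ ^ ((p - q : Fin N) : ℕ))) := rfl
        rw [h4, Polynomial.coeff_C_mul, Polynomial.coeff_C_mul, Polynomial.coeff_C_mul] at h3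
        exact mul_right_cancel₀ hc h3
      · intro p
        rw [← map_mul, ← mul_pow, mul_inv_cancel₀ (hζ.ne_zero (NeZero.pos N).ne'), one_pow, map_one]
  obtain ⟨F, hF0, hF⟩ := twist_unit' ζ β A0 B τ0 μ0 hu
  refine ⟨F * (num A0 B u v (gX ζ β)).det, mul_ne_zero hF0 hdet, fun τ μ h1 => ?_⟩
  rw [map_mul, mul_ne_zero_iff] at h1
  obtain ⟨x', hx'⟩ := rep_of_unit A0 B u v _ (hF τ μ h1.1)
  refine ⟨x', hx', ?_⟩
  have h2 : pt τ μ (num A0 B u v (gX ζ β)).det = ((num A0 B u v (gX ζ β)).map (pt τ μ)).det :=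
    (pt τ μ : K[X][X] →+* K).map_det _
  rw [h2, num_map, gX_pt, num_rep A0 B u v _ _ hx', Matrix.det_smul] at h1
  rw [Matrix.isUnit_iff_isUnit_det, isUnit_iff_ne_zero]
  exact (mul_ne_zero_iff.1 h1.2).2

end twist

section rank

variable {N : ℕ} [NeZero N] {s : ℕ}

/-- The rank at the generic twist is at least the rank at the tuple. -/
theorem twist_rank_ge [CharZero K] (ζ : K) (hζ : IsPrimitiveRoot ζ N)
    (β : Fin n → Matrix (Fin N) (Fin N) K) (A0 : Matrix (Fin s) (Fin s) K)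
    (A : Fin n → Matrix (Fin s) (Fin s) K) (m : ℕ) (h : m ≤ rkAt A0 A β) :
    ∃ D : K[X][X], D ≠ 0 ∧ ∀ τ μ : K, pt τ μ D ≠ 0 → m ≤ rkAt A0 A fun i => tw ζ τ μ (β i) := by
  obtain ⟨P, Q, hPQ⟩ := exists_PQ (Matrix.comp (Fin s) (Fin s) (Fin N) (Fin N) K (penG A0 A β)) h
  set H : Matrix (Fin m) (Fin m) K[X][X] :=
    P.map (algebraMap K K[X][X]) * PC A0 A (gX ζ β) * Q.map (algebraMap K K[X][X]) with hH
  have hev : ∀ τ μ : K, ((pt τ μ : K[X][X] →ₐ[K] K) : K[X][X] →+* K).mapMatrix H =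
      P * Matrix.comp (Fin s) (Fin s) (Fin N) (Fin N) K
        (penG A0 A fun i => tw ζ τ μ (β i)) * Q := by
    intro τ μ
    rw [hH, RingHom.mapMatrix_apply, Matrix.map_mul, Matrix.map_mul]
    have e1 : ∀ {a b : Type} (W : Matrix a b K), (W.map (algebraMap K K[X][X])).map
        ((pt τ μ : K[X][X] →ₐ[K] K) : K[X][X] →+* K) = W := by
      intro a b W
      ext x y
      rw [Matrix.map_apply, Matrix.map_apply]
      exact (pt τ μ).commutes _
    rw [e1, e1]
    have e2 : (PC A0 A (gX ζ β)).map ((pt τ μ : K[X][X] →ₐ[K] K) : K[X][X] →+* K) =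
        PC A0 A fun i => tw ζ τ μ (β i) := by
      rw [← gX_pt]
      exact PC_map A0 A (pt τ μ) (gX ζ β)
    rw [e2]
    rfl
  refine ⟨H.det, ?_, fun τ μ h1 => ?_⟩
  · intro h1
    have h2 := ((pt (1 : K) 1 : K[X][X] →ₐ[K] K) : K[X][X] →+* K).map_det H
    rw [hev] at h2
    have h3 : (fun i => tw ζ (1 : K) 1 (β i)) = β := funext fun i => tw_one ζ hζ (β i)
    rw [h3, hPQ, Matrix.det_one, h1, map_zero] at h2
    exact zero_ne_one h2
  · have h2 := ((pt τ μ : K[X][X] →ₐ[K] K) : K[X][X] →+* K).map_det H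
    rw [hev] at h2
    have h3 : IsUnit (P * Matrix.comp (Fin s) (Fin s) (Fin N) (Fin N) K
        (penG A0 A fun i => tw ζ τ μ (β i)) * Q) := by
      rw [Matrix.isUnit_iff_isUnit_det, isUnit_iff_ne_zero, ← h2]
      exact h1
    have h4 := rank_sandwich _ _ _ h3
    rwa [Fintype.card_fin] at h4

/-- **Exact rank.** Invertible compressions at the twists of a tuple at which the rank is large. -/
theorem twist_comp [CharZero K] (ζ : K) (hζ : IsPrimitiveRoot ζ N)
    (β : Fin n → Matrix (Fin N) (Fin N) K) (A0 : Matrix (Fin s) (Fin s) K)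
    (A : Fin n → Matrix (Fin s) (Fin s) K) (r : ℕ) (h : r * N < rkAt A0 A β) (j : ℕ)
    (hj : j ≤ r + 1) :
    ∃ (ι : Type) (_ : Fintype ι) (_ : DecidableEq ι) (P : Matrix ι (Fin s) K)
      (Q : Matrix (Fin s) ι K) (τ μ : K), Fintype.card ι = j ∧
      IsUnit (penG (P * A0 * Q) (fun i => P * A i * Q) fun i => tw ζ τ μ (β i)) := by
  classical
  induction j with
  | zero =>
    refine ⟨Fin 0, inferInstance, inferInstance, 0, 0, 1, 1, by simp, ?_⟩
    exact isUnit_of_subsingleton _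
  | succ j ih =>
    obtain ⟨ι, i1, i2, P, Q, τ0, μ0, h1, h2⟩ := ih (by omega)
    obtain ⟨F1, f1, f1'⟩ := twist_unit' ζ β _ _ τ0 μ0 h2
    obtain ⟨D, d1, d1'⟩ := twist_rank_ge ζ hζ β A0 A _ le_rfl
    obtain ⟨τ1, μ1, ht⟩ := exists_pt (F1 * D) (mul_ne_zero f1 d1)
    rw [map_mul, mul_ne_zero_iff] at ht
    have u1 := f1' τ1 μ1 ht.1
    have r1 := d1' τ1 μ1 ht.2
    set Z : Fin n → Matrix (Fin N) (Fin N) K := fun i => tw ζ τ1 μ1 (β i) with hZ
    have u1' := u1
    rw [penG_sandwich0] at u1'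
    obtain ⟨⟨L1, G1, g1, g2⟩, hL1 : L1 = _⟩ := u1'
    subst hL1
    have hlt : Fintype.card ι * N < rkAt A0 A Z := by
      have h3 : j * N ≤ r * N := Nat.mul_le_mul_right N (by omega)
      rw [h1]
      omega
    have hne : ∃ a b, (penG A0 A Z - penG A0 A Z *
        Q.map (algebraMap K (Matrix (Fin N) (Fin N) K)) * G1 *
        P.map (algebraMap K (Matrix (Fin N) (Fin N) K)) * penG A0 A Z :
          Matrix (Fin s) (Fin s) (Matrix (Fin N) (Fin N) K)) a b ≠ 0 := by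
      by_contra hcon
      push Not at hcon
      have e1 : penG A0 A Z - penG A0 A Z *
          Q.map (algebraMap K (Matrix (Fin N) (Fin N) K)) * G1 *
          P.map (algebraMap K (Matrix (Fin N) (Fin N) K)) * penG A0 A Z = 0 := by
        ext1 a b
        exact hcon a b
      rw [sub_eq_zero] at e1
      refine absurd (rkAt_le A0 A Z (penG A0 A Z *
        Q.map (algebraMap K (Matrix (Fin N) (Fin N) K)))
        (G1 * P.map (algebraMap K (Matrix (Fin N) (Fin N) K)) * penG A0 A Z) ?_) (not_le.2 hlt)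
      refine e1.trans ?_
      simp only [Matrix.mul_assoc]
    obtain ⟨a, b, hab⟩ := hne
    obtain ⟨F2, f2, f2'⟩ := twist_pen' ζ hζ β _ _ _ _ τ1 μ1 _ (sig_rep A0 A P Q a b Z G1 g1 g2) hab
    obtain ⟨τ, μ, ht2⟩ := exists_pt (F1 * F2) (mul_ne_zero f1 f2)
    rw [map_mul, mul_ne_zero_iff] at ht2
    have u2 := f1' τ μ ht2.1
    obtain ⟨x', hx', ux'⟩ := f2' τ μ ht2.2
    refine ⟨ι ⊕ Unit, inferInstance, inferInstance, P3 P a, Q3 Q b, τ, μ, ?_, ?_⟩
    · rw [Fintype.card_sum, h1, Fintype.card_unit]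
    · rw [penG_sandwich0]
      rw [penG_sandwich0] at u2
      obtain ⟨⟨L3, G3, k1, k2⟩, hL3 : L3 = _⟩ := u2
      subst hL3
      refine unit_border _ P Q a b G3 k1 k2 ?_
      have h6 := rep_unique _ _ _ _ _ _ _ hx' (sig_rep A0 A P Q a b _ G3 k1 k2)
      rw [← h6]
      exact ux'

/-- The rank at some twist. -/
theorem twist_rank [CharZero K] (ζ : K) (hζ : IsPrimitiveRoot ζ N)
    (β : Fin n → Matrix (Fin N) (Fin N) K) (A0 : Matrix (Fin s) (Fin s) K)
    (A : Fin n → Matrix (Fin s) (Fin s) K) (r : ℕ) (h : r * N < rkAt A0 A β) :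
    ∃ τ μ : K, (r + 1) * N ≤ rkAt A0 A fun i => tw ζ τ μ (β i) := by
  obtain ⟨ι, i1, i2, P, Q, τ, μ, h1, h2⟩ := twist_comp ζ hζ β A0 A r h (r + 1) le_rfl
  refine ⟨τ, μ, ?_⟩
  rw [penG_sandwich0] at h2
  have h3 := rkAt_of_unit _ _ _ _ _ h2
  rwa [h1] at h3

end rank

end Pool.Agent.BNR
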