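import Mathlib
import Pool.Agent.BNR.Fin
import Pool.Agent.BNR.TwA

/-!
BNR-All: all ranks with matrices of size `N > 2 m n^2`, in characteristic zero.
-/

set_option autoImplicit false

namespace Pool.Agent.BNR

open Module Matrix Polynomial Pool.Agent.NCP Pool.Agent.NCR Pool.Agent.NCS

universe u

theorem rank_map_field {K K' : Type*} [Field K] [Field K'] (φ : K →+* K') {ι : Type} [Fintype ι]
    [DecidableEq ι] (M : Matrix ι ι K) : (M.map φ).rank = M.rank := by
  classical
  obtain ⟨L, L', D, h⟩ := Matrix.Pivot.exists_list_transvec_mul_diagonal_mul_list_transvec M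
  set P := (L.map Matrix.TransvectionStruct.toMatrix).prod with hP
  set Q := (L'.map Matrix.TransvectionStruct.toMatrix).prod with hQ
  have hPd : P.det = 1 := Matrix.TransvectionStruct.det_toMatrix_prod L
  have hQd : Q.det = 1 := Matrix.TransvectionStruct.det_toMatrix_prod L'
  have h1 : M.rank = Fintype.card {i // D i ≠ 0} := by
    rw [h, Matrix.rank_mul_eq_left_of_isUnit_det, Matrix.rank_mul_eq_right_of_isUnit_det,
      Matrix.rank_diagonal]
    · rw [hPd]; exact isUnit_one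
    · rw [hQd]; exact isUnit_one
  have hPd' : (P.map φ).det = 1 := by
    have := (RingHom.map_det φ P).symm
    rw [hPd, map_one] at this
    exact this
  have hQd' : (Q.map φ).det = 1 := by
    have := (RingHom.map_det φ Q).symm
    rw [hQd, map_one] at this
    exact this
  have h2 : M.map φ = P.map φ * Matrix.diagonal (fun i => φ (D i)) * Q.map φ := by
    rw [h, Matrix.map_mul, Matrix.map_mul, Matrix.diagonal_map (map_zero φ)]
  rw [h2, Matrix.rank_mul_eq_left_of_isUnit_det, Matrix.rank_mul_eq_right_of_isUnit_det,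
      Matrix.rank_diagonal, h1]
  · refine Fintype.card_congr (Equiv.subtypeEquivRight fun i => ?_)
    exact not_congr (map_eq_zero_iff φ φ.injective)
  · rw [hPd']; exact isUnit_one
  · rw [hQd']; exact isUnit_one

variable {K : Type u} [Field K] {n m : ℕ}

theorem ev_rect {k : ℕ} (L : Fin m → Matrix (Fin n) (Fin n) K) (P : Matrix (Fin k) (Fin n) K)
    (Q : Matrix (Fin n) (Fin k) K) {ι : Type*} [Fintype ι] [DecidableEq ι]
    (Y : Fin m → Matrix ι ι K) : (ev (fun e => P * L e * Q) Y).rank ≤ (ev L Y).rank := by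
  obtain ⟨P', hP'⟩ : ∃ P' : Matrix (Fin k × ι) (Fin n × ι) K,
    P' = kroneckerMap (· * ·) P (1 : Matrix ι ι K) := ⟨_, rfl⟩
  obtain ⟨Q', hQ'⟩ : ∃ Q' : Matrix (Fin n × ι) (Fin k × ι) K,
    Q' = kroneckerMap (· * ·) Q (1 : Matrix ι ι K) := ⟨_, rfl⟩
  have h1 : ev (fun e => P * L e * Q) Y = P' * ev L Y * Q' := by
    rw [ev, ev, Matrix.mul_sum, Matrix.sum_mul]
    refine Finset.sum_congr rfl fun e _ => ?_
    have h2 := Matrix.mul_kronecker_mul P (L e) (1 : Matrix ι ι K) (Y e)
    have h3 := Matrix.mul_kronecker_mul (P * L e) Q (1 * Y e) (1 : Matrix ι ι K)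
    rw [h2] at h3
    rw [Matrix.one_mul, Matrix.mul_one] at h3
    rw [hP', hQ']
    exact h3
  rw [h1]
  exact (Matrix.rank_mul_le_left _ _).trans (Matrix.rank_mul_le_right _ _)

theorem ev_map {K' : Type*} [Field K'] (φ : K →+* K') (L : Fin m → Matrix (Fin n) (Fin n) K)
    (t : K) (N : ℕ) : (ev L (fun e => T (2 : K) t N e)).map φ =
      ev (fun e => (L e).map φ) (fun e => T (2 : K') (φ t) N e) := by
  ext v w
  simp only [Matrix.map_apply, ev, Matrix.sum_apply, map_sum, kroneckerMap_apply, T, map_mul,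
    map_pow, map_ofNat]

theorem rkAt_zero {N : ℕ} (L : Fin m → Matrix (Fin n) (Fin n) K) (Y : Fin m → Matrix (Fin N) (Fin N) K) :
    rkAt 0 L Y = (ev L Y).rank := by
  rw [rkAt]
  congr 1
  ext ⟨a, x⟩ ⟨b, y⟩
  rw [Matrix.comp_apply, penG, Matrix.of_apply, Matrix.zero_apply, map_zero, zero_add,
    Matrix.sum_apply, ev, Matrix.sum_apply]
  rfl

/-- the size of the auxiliary blow-up -/
def auxN (n m : ℕ) : ℕ := 8 * n ^ 2 * (m + 2 * n ^ 2) + 1

instance (n m : ℕ) : NeZero (auxN n m) := ⟨Nat.succ_ne_zero _⟩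

/-- If the noncommutative rank is at least `r`, then over an extension field with enough roots of
unity there is an nc-full compression of size `r`. -/
theorem exists_comp [CharZero K] {F : Type u} [Field F] [CharZero F] [Algebra K F] (ζ : F)
    (hζ : IsPrimitiveRoot ζ (auxN n m))
    (L : Fin m → Matrix (Fin n) (Fin n) K) (r : ℕ) (hL : NcRk L (r + 1)) :
    ∃ (P : Matrix (Fin (r + 1)) (Fin n) F) (Q : Matrix (Fin n) (Fin (r + 1)) F),
      NcRk (fun e => P * (L e).map (algebraMap K F) * Q) (r + 1) := by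
  obtain ⟨t, -, ht⟩ := main_zero r (auxN n m) (Nat.lt_succ_self _) L hL
  rw [← rank_map_field (algebraMap K F), ev_map, ← rkAt_zero] at ht
  obtain ⟨ι, i1, i2, P, Q, τ, μ, h1, h2⟩ := twist_comp ζ hζ _ 0 _ r ht (r + 1) le_rfl
  let e : Fin (r + 1) ≃ ι := (Fintype.equivFinOfCardEq h1).symm
  refine ⟨P.submatrix e id, Q.submatrix id e, ?_⟩
  set Z : Fin m → Matrix (Fin (auxN n m)) (Fin (auxN n m)) F :=
    fun i => tw ζ τ μ (T (2 : F) (algebraMap K F t) (auxN n m) i) with hZ
  have h3 : IsUnit (penG (0 : Matrix (Fin (r + 1)) (Fin (r + 1)) F)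
      (fun i => P.submatrix e id * (L i).map (algebraMap K F) * Q.submatrix id e) Z) := by
    have h4 := (isUnit_submatrix e _).2 h2
    convert h4 using 1
    ext1 a b
    simp only [penG, Matrix.of_apply, Matrix.submatrix_apply, Matrix.mul_zero, Matrix.zero_mul,
      Matrix.zero_apply]
    congr 1
  refine up _ r Z ?_
  rw [← rkAt_zero, rkAt, Matrix.rank_of_isUnit _ ((isUnit_comp _).2 h3), Fintype.card_prod,
    Fintype.card_fin, Fintype.card_fin, Nat.succ_mul]
  have := Nat.pos_of_ne_zero (NeZero.ne (auxN n m))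
  omega

theorem all_ranks_aux [CharZero K] {F : Type u} [Field F] [CharZero F] [Algebra K F] (ζ : F)
    (hζ : IsPrimitiveRoot ζ (auxN n m)) (N : ℕ) (L : Fin m → Matrix (Fin n) (Fin n) K) (r : ℕ)
    (hL : NcRk L (r + 1)) :
    ∃ t : ℕ, t ≤ n * N * N ∧
      (r + 1) * N ≤ (ev L (fun e => T (2 : K) (t : K) N e)).rank + 2 * (m * n ^ 2) := by
  obtain ⟨P, Q, h⟩ := exists_comp (F := F) ζ hζ L r hL
  have hr : r + 1 ≤ n := hL.le
  obtain ⟨t, ht, h1⟩ := one (2 : F) N (pow_two_inj _) _ h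
    ((Finset.range (n * N * N + 1)).map ⟨fun i : ℕ => (i : F), Nat.cast_injective⟩) (by
      rw [Finset.card_map, Finset.card_range]
      exact Nat.lt_succ_of_le (Nat.mul_le_mul_right _ (Nat.mul_le_mul_right _ hr)))
  rw [Finset.mem_map] at ht
  obtain ⟨i, hi, rfl⟩ := ht
  refine ⟨i, Nat.le_of_lt_succ (Finset.mem_range.1 hi), ?_⟩
  have h2 := ev_rect (fun e => (L e).map (algebraMap K F)) P Q
    (fun e : Fin m => T (2 : F) ((i : ℕ) : F) N e)
  have h3 : 2 * (m * (r + 1) ^ 2) ≤ 2 * (m * n ^ 2) :=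
    Nat.mul_le_mul_left _ (Nat.mul_le_mul_left _ (Nat.pow_le_pow_left hr 2))
  have h4 : (ev L (fun e => T (2 : K) (i : K) N e)).rank =
      (ev (fun e => (L e).map (algebraMap K F)) (fun e : Fin m => T (2 : F) (i : F) N e)).rank := by
    rw [← rank_map_field (algebraMap K F), ev_map, map_natCast]
  rw [h4]
  exact h1.trans (Nat.add_le_add h2 h3)

/-- All ranks, characteristic zero, `N > 2 m n ^ 2`. -/
theorem all_ranks [CharZero K] (N : ℕ) (L : Fin m → Matrix (Fin n) (Fin n) K) (r : ℕ)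
    (hL : NcRk L (r + 1)) :
    ∃ t : ℕ, t ≤ n * N * N ∧
      (r + 1) * N ≤ (ev L (fun e => T (2 : K) (t : K) N e)).rank + 2 * (m * n ^ 2) := by
  have hF : CharZero (AlgebraicClosure K) :=
    charZero_of_injective_algebraMap (algebraMap K (AlgebraicClosure K)).injective
  have hN : NeZero ((auxN n m : ℕ) : AlgebraicClosure K) := ⟨Nat.cast_ne_zero.2 (NeZero.ne _)⟩
  obtain ⟨ζ, hζ⟩ := HasEnoughRootsOfUnity.exists_primitiveRoot (AlgebraicClosure K) (auxN n m)
  exact all_ranks_aux ζ hζ N L r hL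

end Pool.Agent.BNR
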