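import Mathlib
import Pool.Agent.BNR.Thm1
import Pool.Agent.BNR.Up

/-!
BNR-Bip: bipartite perfect matching.
-/

set_option autoImplicit false

namespace Pool.Agent.BNR

open Module Matrix Polynomial

variable {K : Type*} [Field K] {n : ℕ}

/-- the linear matrix of a bipartite graph: one variable for each pair `(i, j)` -/
def adj (K : Type*) [Field K] {n : ℕ} (G : Fin n → Fin n → Prop) [DecidableRel G] :
    Fin (n * n) → Matrix (Fin n) (Fin n) K :=
  fun e => if G (finProdFinEquiv.symm e).1 (finProdFinEquiv.symm e).2 then
    Matrix.single (finProdFinEquiv.symm e).1 (finProdFinEquiv.symm e).2 1 else 0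

theorem adj_apply (G : Fin n → Fin n → Prop) [DecidableRel G] (i j : Fin n) (h v : Fin n → K) :
    h ⬝ᵥ (adj K G (finProdFinEquiv (i, j)) *ᵥ v) = if G i j then h i * v j else 0 := by
  rw [adj, Equiv.symm_apply_apply]
  split_ifs with hG
  · rw [Matrix.single_mulVec, one_mul]
    exact dotProduct_single _ _ _
  · simp

/-- a perfect matching gives an nc-full linear matrix -/
theorem ncRk_of_matching (G : Fin n → Fin n → Prop) [DecidableRel G] (σ : Equiv.Perm (Fin n))
    (hσ : ∀ i, G i (σ i)) : NcRk (adj K G) n := by
  classical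
  intro A B hAB
  set I : Finset (Fin n) := Finset.univ.filter fun i => ∀ h ∈ A, h i = 0 with hI
  have h1 : ∀ i ∉ I, ∀ v ∈ B, v (σ i) = 0 := by
    intro i hi v hv
    rw [hI, Finset.mem_filter] at hi
    push Not at hi
    obtain ⟨h, hh, hne⟩ := hi (Finset.mem_univ _)
    have h2 := hAB (finProdFinEquiv (i, σ i)) h hh v hv
    rw [adj_apply, if_pos (hσ i)] at h2
    exact (mul_eq_zero.1 h2).resolve_left hne
  have h2 : ∀ (s : Finset (Fin n)) (W : Submodule K (Fin n → K)), (∀ w ∈ W, ∀ i ∈ s, w i = 0) →
      finrank K W + s.card ≤ n := by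
    intro s W hW
    have h3 : finrank K W ≤ finrank K ((sᶜ : Finset (Fin n)) → K) := by
      let f : W →ₗ[K] ((sᶜ : Finset (Fin n)) → K) :=
        (LinearMap.funLeft K K (Subtype.val : (sᶜ : Finset (Fin n)) → Fin n)).comp W.subtype
      refine LinearMap.finrank_le_finrank_of_injective (f := f) ?_
      rw [← LinearMap.ker_eq_bot, LinearMap.ker_eq_bot']
      intro w hw
      ext i
      by_cases hi : i ∈ s
      · exact hW w w.2 i hi
      · have := congrFun hw ⟨i, by simpa using hi⟩
        exact this
    rw [Module.finrank_fintype_fun_eq_card, Fintype.card_coe, Finset.card_compl,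
      Fintype.card_fin] at h3
    have := Finset.card_le_univ s
    rw [Fintype.card_fin] at this
    omega
  have hA := h2 I A (fun w hw i hi => by
    rw [hI, Finset.mem_filter] at hi
    exact hi.2 w hw)
  have hB := h2 (Iᶜ.map σ.toEmbedding) B (fun w hw j hj => by
    rw [Finset.mem_map] at hj
    obtain ⟨i, hi, rfl⟩ := hj
    exact h1 i (by simpa using hi) w hw)
  rw [Finset.card_map, Finset.card_compl, Fintype.card_fin] at hB
  have := Finset.card_le_univ I
  rw [Fintype.card_fin] at this
  omega

/-- no perfect matching: the linear matrix is not nc-full (Hall's theorem) -/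
theorem matching_of_ncRk (G : Fin n → Fin n → Prop) [DecidableRel G] (h : NcRk (adj K G) n) :
    ∃ σ : Equiv.Perm (Fin n), ∀ i, G i (σ i) := by
  classical
  have h1 : ∀ s : Finset (Fin n), s.card ≤ (s.biUnion fun i => Finset.univ.filter (G i)).card := by
    intro s
    set t := s.biUnion fun i => Finset.univ.filter (G i) with ht
    let co : Finset (Fin n) → Submodule K (Fin n → K) := fun u =>
      Submodule.span K (Set.range fun i : u => (Pi.single (i : Fin n) (1 : K) : Fin n → K))
    have hco : ∀ u, finrank K (co u) = u.card := by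
      intro u
      have hli : LinearIndependent K
          (fun i : u => (Pi.single (i : Fin n) (1 : K) : Fin n → K)) := by
        have h3 := (Pi.basisFun K (Fin n)).linearIndependent.comp (fun i : u => (i : Fin n))
          Subtype.val_injective
        simpa [Function.comp_def, Pi.basisFun_apply] using h3
      rw [finrank_span_eq_card hli, Fintype.card_coe]
    have hsup : ∀ u, ∀ w ∈ co u, ∀ i ∉ u, w i = 0 := by
      intro u w hw i hi
      induction hw using Submodule.span_induction with
      | mem x hx =>
        obtain ⟨j, rfl⟩ := hx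
        have : i ≠ j := fun h => hi (h ▸ j.2)
        exact Pi.single_eq_of_ne this 1
      | zero => rfl
      | add x y _ _ hx hy => rw [Pi.add_apply, hx, hy, add_zero]
      | smul a x _ hx => rw [Pi.smul_apply, hx, smul_zero]
    have h2 := h (co s) (co tᶜ) (by
      intro e a ha b hb
      obtain ⟨⟨i, j⟩, rfl⟩ := finProdFinEquiv.surjective e
      rw [adj_apply]
      split_ifs with hG
      · by_cases hi : i ∈ s
        · have hj : j ∉ tᶜ := by
            rw [Finset.mem_compl, not_not, ht, Finset.mem_biUnion]
            exact ⟨i, hi, by simpa using hG⟩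
          rw [hsup _ b hb j hj, mul_zero]
        · rw [hsup _ a ha i hi, zero_mul]
      · rfl)
    rw [hco, hco, Finset.card_compl, Fintype.card_fin] at h2
    have := Finset.card_le_univ t
    rw [Fintype.card_fin] at this
    omega
  obtain ⟨f, hf, hf2⟩ := (Finset.all_card_le_biUnion_card_iff_exists_injective
    (fun i => Finset.univ.filter (G i))).1 h1
  refine ⟨Equiv.ofBijective f ((Finite.injective_iff_bijective).1 hf), fun i => ?_⟩
  have := hf2 i
  simpa using this

/-- Bipartite perfect matching: `G` has a perfect matching if and only if for some `t ≤ n N^2` the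
rank of the explicit integer matrix is larger than `(n - 1) N`. -/
theorem bip [CharZero K] (hn : 0 < n) (N : ℕ) (hN : 2 * n ^ 4 < N) (G : Fin n → Fin n → Prop)
    [DecidableRel G] :
    (∃ σ : Equiv.Perm (Fin n), ∀ i, G i (σ i)) ↔
      ∃ t : ℕ, t ≤ n * N * N ∧
        (n - 1) * N < (ev (adj K G) (fun e => T (2 : K) (t : K) N e)).rank := by
  constructor
  · rintro ⟨σ, hσ⟩
    obtain ⟨t, ht, h1⟩ := one (2 : K) N (fun i j _ _ h => by
      have h1 : ((2 ^ i : ℕ) : K) = ((2 ^ j : ℕ) : K) := by push_cast; exact h
      exact Nat.pow_right_injective le_rfl (Nat.cast_injective h1)) (adj K G)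
      (ncRk_of_matching G σ hσ)
      ((Finset.range (n * N * N + 1)).map ⟨fun i : ℕ => (i : K), Nat.cast_injective⟩) (by
        rw [Finset.card_map, Finset.card_range]
        omega)
    rw [Finset.mem_map] at ht
    obtain ⟨i, hi, rfl⟩ := ht
    refine ⟨i, by have := Finset.mem_range.1 hi; omega, ?_⟩
    have h2 : 2 * (n * n * n ^ 2) = 2 * n ^ 4 := by ring
    have h3 : n * N = (n - 1) * N + N := by
      obtain ⟨k, rfl⟩ : ∃ k, n = k + 1 := ⟨n - 1, by omega⟩
      rw [Nat.add_sub_cancel]
      ring
    change n * N ≤ (ev (adj K G) (fun e => T (2 : K) ((i : ℕ) : K) N e)).rank + _ at h1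
    omega
  · rintro ⟨t, -, ht⟩
    refine matching_of_ncRk (K := K) G ?_
    have h1 := up (adj K G) (n - 1) (fun e => T (2 : K) (t : K) N e) (by
      rw [Fintype.card_fin]
      exact ht)
    rwa [Nat.sub_add_cancel hn] at h1

end Pool.Agent.BNR
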