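import Mathlib
import Pool.Agent.NCR.Ext

/-!
BNR: one pencil for all inversion gates of a rational formula.
-/

set_option autoImplicit false

namespace Pool.Agent.BNR

open Pool.Agent.NCP Pool.Agent.NCR

universe u

variable {K : Type u} [Field K] {n : ℕ}

theorem isUnit_fromBlocks {ι κ R : Type*} [Fintype ι] [DecidableEq ι] [Fintype κ] [DecidableEq κ]
    [Ring R] (P : Matrix ι ι R) (Q : Matrix κ κ R) :
    IsUnit (Matrix.fromBlocks P 0 0 Q) ↔ IsUnit P ∧ IsUnit Q := by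
  constructor
  · rintro ⟨⟨M, W, h1, h2⟩, hM : M = _⟩
    subst hM
    rw [← Matrix.fromBlocks_toBlocks W, Matrix.fromBlocks_multiply, ← Matrix.fromBlocks_one,
      Matrix.fromBlocks_inj] at h1 h2
    obtain ⟨a1, -, -, a4⟩ := h1
    obtain ⟨b1, -, -, b4⟩ := h2
    rw [Matrix.zero_mul, add_zero] at a1
    rw [Matrix.zero_mul, zero_add] at a4
    rw [Matrix.mul_zero, add_zero] at b1
    rw [Matrix.mul_zero, zero_add] at b4
    exact ⟨⟨⟨_, _, a1, b1⟩, rfl⟩, ⟨⟨_, _, a4, b4⟩, rfl⟩⟩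
  · rintro ⟨⟨⟨P', V, h1, h2⟩, hP : P' = _⟩, ⟨⟨Q', W, h3, h4⟩, hQ : Q' = _⟩⟩
    subst hP hQ
    refine ⟨⟨Matrix.fromBlocks P' 0 0 Q', Matrix.fromBlocks V 0 0 W, ?_, ?_⟩, rfl⟩
    · rw [Matrix.fromBlocks_multiply, ← Matrix.fromBlocks_one, h1, h3]
      simp
    · rw [Matrix.fromBlocks_multiply, ← Matrix.fromBlocks_one, h2, h4]
      simp

theorem penG_sum {ι κ : Type} {R : Type*} [Ring R] [Algebra K R] (A0 : Matrix ι ι K)
    (A : Fin n → Matrix ι ι K) (B0 : Matrix κ κ K) (B : Fin n → Matrix κ κ K) (Y : Fin n → R) :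
    penG (Matrix.fromBlocks A0 0 0 B0) (fun i => Matrix.fromBlocks (A i) 0 0 (B i)) Y =
      Matrix.fromBlocks (penG A0 A Y) 0 0 (penG B0 B Y) := by
  ext x y
  rcases x with x | x <;> rcases y with y | y <;> simp [penG]

/-- **One pencil for a formula**: it is invertible exactly at the points at which the formula is
defined. -/
theorem exists_pen (φ : RExp K n) : ∃ (ι : Type) (_ : Fintype ι) (_ : DecidableEq ι)
    (A0 : Matrix ι ι K) (A : Fin n → Matrix ι ι K), Fintype.card ι ≤ 2 * φ.size ^ 2 ∧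
      ∀ (R : Type u) [Ring R] [Algebra K R] (Y : Fin n → R),
        IsUnit (penG A0 A Y) ↔ φ.Defined Y := by
  induction φ with
  | const c =>
    refine ⟨Fin 0, inferInstance, inferInstance, 0, 0, by simp, fun R _ _ Y => ?_⟩
    exact ⟨fun _ => trivial, fun _ => isUnit_of_subsingleton _⟩
  | var i =>
    refine ⟨Fin 0, inferInstance, inferInstance, 0, 0, by simp, fun R _ _ Y => ?_⟩
    exact ⟨fun _ => trivial, fun _ => isUnit_of_subsingleton _⟩
  | add a b iha ihb =>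
    obtain ⟨ι, i1, i2, A0, A, hc, hA⟩ := iha
    obtain ⟨κ, j1, j2, B0, B, hd, hB⟩ := ihb
    refine ⟨ι ⊕ κ, inferInstance, inferInstance, Matrix.fromBlocks A0 0 0 B0,
      fun i => Matrix.fromBlocks (A i) 0 0 (B i), ?_, fun R _ _ Y => ?_⟩
    · rw [Fintype.card_sum, RExp.size]
      have e1 : 2 * (a.size + b.size + 1) ^ 2 = 2 * a.size ^ 2 + 2 * b.size ^ 2 +
          (4 * a.size * b.size + 4 * a.size + 4 * b.size + 2) := by ring
      omega
    · rw [penG_sum, isUnit_fromBlocks, hA, hB, RExp.Defined]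
  | mul a b iha ihb =>
    obtain ⟨ι, i1, i2, A0, A, hc, hA⟩ := iha
    obtain ⟨κ, j1, j2, B0, B, hd, hB⟩ := ihb
    refine ⟨ι ⊕ κ, inferInstance, inferInstance, Matrix.fromBlocks A0 0 0 B0,
      fun i => Matrix.fromBlocks (A i) 0 0 (B i), ?_, fun R _ _ Y => ?_⟩
    · rw [Fintype.card_sum, RExp.size]
      have e1 : 2 * (a.size + b.size + 1) ^ 2 = 2 * a.size ^ 2 + 2 * b.size ^ 2 +
          (4 * a.size * b.size + 4 * a.size + 4 * b.size + 2) := by ring
      omega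
    · rw [penG_sum, isUnit_fromBlocks, hA, hB, RExp.Defined]
  | inv a iha =>
    obtain ⟨ι, i1, i2, A0, A, hc, hA⟩ := iha
    obtain ⟨κ, j1, j2, B0, B, hd, hB⟩ := linearise_inv a
    refine ⟨ι ⊕ κ, inferInstance, inferInstance, Matrix.fromBlocks A0 0 0 B0,
      fun i => Matrix.fromBlocks (A i) 0 0 (B i), ?_, fun R _ _ Y => ?_⟩
    · rw [RExp.size] at hd
      rw [Fintype.card_sum, RExp.size]
      nlinarith
    · rw [penG_sum, isUnit_fromBlocks, hA, RExp.Defined]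
      constructor
      · rintro ⟨h1, h2⟩
        exact ⟨h1, (hB R Y h1).1 h2⟩
      · rintro ⟨h1, h2⟩
        exact ⟨h1, (hB R Y h1).2 h2⟩

end Pool.Agent.BNR
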