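import Mathlib
import Pool.Agent.BNR.FormA

/-!
BNR: a formula that is defined and not zero somewhere is invertible somewhere.
-/

set_option autoImplicit false

namespace Pool.Agent.BNR

open Pool.Agent.NCP Pool.Agent.NCR

universe u

variable {K : Type u} [Field K] {n : ℕ}

theorem inv_somewhere [CharZero K] (φ : RExp K n) (N : ℕ) (Y : Fin n → Matrix (Fin N) (Fin N) K)
    (h : φ.Defined Y) (h0 : φ.eval Y ≠ 0) :
    0 < N ∧ ∃ Z : Fin n → Matrix (Fin N) (Fin N) (AlgebraicClosure K), (RExp.inv φ).Defined Z := by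
  have hN : 0 < N := by
    rcases Nat.eq_zero_or_pos N with h1 | h1
    · subst h1
      exact absurd (Subsingleton.elim _ _) h0
    · exact h1
  refine ⟨hN, ?_⟩
  have : NeZero N := ⟨hN.ne'⟩
  have hc : CharZero (AlgebraicClosure K) :=
    charZero_of_injective_algebraMap (algebraMap K (AlgebraicClosure K)).injective
  obtain ⟨ζ, hζ⟩ := HasEnoughRootsOfUnity.exists_primitiveRoot (AlgebraicClosure K) N
  let f : Matrix (Fin N) (Fin N) K →ₐ[K] Matrix (Fin N) (Fin N) (AlgebraicClosure K) :=
    (Algebra.ofId K (AlgebraicClosure K)).mapMatrix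
  have hf : Function.Injective f := Matrix.map_injective (algebraMap K (AlgebraicClosure K)).injective
  obtain ⟨h1, h2⟩ := mp_hom (L := AlgebraicClosure K) f Y φ h
  obtain ⟨τ, μ, h3⟩ := twist ζ hζ (fun i => f (Y i)) [mp (AlgebraicClosure K) φ] (by
    intro ψ hψ
    rw [List.mem_singleton] at hψ
    subst hψ
    refine ⟨h1, ?_⟩
    rw [h2]
    intro h4
    exact h0 (hf (h4.trans (map_zero f).symm)))
  have h4 := h3 _ (List.mem_singleton_self _)
  exact ⟨fun i => tw ζ τ μ (f (Y i)),
    ((mp_defined (L := AlgebraicClosure K) (fun i => tw ζ τ μ (f (Y i))) (RExp.inv φ)).2).1 h4⟩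

end Pool.Agent.BNR
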