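import Mathlib
import Pool.Agent.BNR.Defs
import Pool.Agent.BNR.FormB
import Pool.Agent.NCS.Pen3

/-!
BNR: a linear matrix that is invertible at some tuple over an extension field has full
noncommutative rank.
-/

set_option autoImplicit false

namespace Pool.Agent.BNR

open Module Matrix Pool.Agent.NCP Pool.Agent.NCR Pool.Agent.NCS

universe u

variable {K : Type u} [Field K] {n s : ℕ}

/-- A square matrix of full rank is invertible. -/
theorem isUnit_of_rank {I : Type*} [Fintype I] [DecidableEq I] (M : Matrix I I K)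
    (h : Fintype.card I ≤ M.rank) : IsUnit M := by
  have h1 : LinearMap.range M.mulVecLin = ⊤ := by
    refine Submodule.eq_top_of_finrank_eq (le_antisymm (Submodule.finrank_le _) ?_)
    rw [Module.finrank_fintype_fun_eq_card]
    exact h
  exact Matrix.mulVec_surjective_iff_isUnit.1 (LinearMap.range_eq_top.1 h1)

/-- A basis of a subspace as the columns of a matrix with a left inverse. -/
theorem exists_cols (B : Submodule K (Fin s → K)) : ∃ (V : Matrix (Fin s) (Fin (finrank K B)) K)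
    (W : Matrix (Fin (finrank K B)) (Fin s) K), W * V = 1 ∧ ∀ j, V.col j ∈ B := by
  let b := finBasis K B
  let f : (Fin (finrank K B) → K) →ₗ[K] (Fin s → K) := B.subtype ∘ₗ b.equivFun.symm.toLinearMap
  have hf : LinearMap.ker f = ⊥ := by
    rw [LinearMap.ker_eq_bot]
    exact (B.injective_subtype).comp b.equivFun.symm.injective
  obtain ⟨g, hg⟩ := f.exists_leftInverse_of_injective hf
  refine ⟨LinearMap.toMatrix' f, LinearMap.toMatrix' g, ?_, fun j => ?_⟩
  · rw [← LinearMap.toMatrix'_comp, hg, LinearMap.toMatrix'_id]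
  · have h1 : (LinearMap.toMatrix' f).col j = f (Pi.single j 1) := by
      ext i
      rw [Matrix.col_apply, LinearMap.toMatrix'_apply]
    rw [h1]
    exact (b.equivFun.symm (Pi.single j 1)).2

/-- A linear matrix invertible at a tuple of matrices of positive size over an extension field has
no large block of zeros. -/
theorem ncrk_of_unit {F : Type*} [Field F] [Algebra K F] {N : ℕ} (hN : 0 < N)
    (A0 : Matrix (Fin s) (Fin s) K) (A : Fin n → Matrix (Fin s) (Fin s) K)
    (Z : Fin n → Matrix (Fin N) (Fin N) F) (h : IsUnit (penG A0 A Z)) :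
    NcRk (Fin.cons A0 A : Fin (n + 1) → Matrix (Fin s) (Fin s) K) s := by
  intro A' B' hAB
  obtain ⟨VA, WA, hA1, hA2⟩ := exists_cols A'
  obtain ⟨VB, WB, hB1, hB2⟩ := exists_cols B'
  have hz : ∀ e : Fin (n + 1), VAᵀ * (Fin.cons A0 A : Fin (n + 1) → Matrix (Fin s) (Fin s) K) e *
      VB = 0 := by
    intro e
    ext x y
    rw [Matrix.mul_assoc, Matrix.mul_apply, Matrix.zero_apply]
    have h1 := hAB e _ (hA2 x) _ (hB2 y)
    rw [dotProduct] at h1
    rw [← h1]
    refine Finset.sum_congr rfl fun i _ => ?_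
    rw [Matrix.transpose_apply, Matrix.col_apply]
    congr 1
  have hz0 := hz 0
  rw [Fin.cons_zero] at hz0
  have hz1 : ∀ i, VAᵀ * A i * VB = 0 := fun i => by
    have h2 := hz i.succ
    rwa [Fin.cons_succ] at h2
  set ι := algebraMap K (Matrix (Fin N) (Fin N) F) with hι
  -- the projections
  have e1 := penG_sandwich0 A0 A (WAᵀ * VAᵀ) (VB * WB) Z
  have e2 : penG (WAᵀ * VAᵀ * A0 * (VB * WB)) (fun i => WAᵀ * VAᵀ * A i * (VB * WB)) Z = 0 := by
    have e3 : WAᵀ * VAᵀ * A0 * (VB * WB) = 0 := by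
      calc WAᵀ * VAᵀ * A0 * (VB * WB) = WAᵀ * (VAᵀ * A0 * VB) * WB := by
            simp only [Matrix.mul_assoc]
        _ = 0 := by rw [hz0, Matrix.mul_zero, Matrix.zero_mul]
    have e4 : ∀ i, WAᵀ * VAᵀ * A i * (VB * WB) = 0 := fun i => by
      calc WAᵀ * VAᵀ * A i * (VB * WB) = WAᵀ * (VAᵀ * A i * VB) * WB := by
            simp only [Matrix.mul_assoc]
        _ = 0 := by rw [hz1, Matrix.mul_zero, Matrix.zero_mul]
    ext1 x y
    simp [penG, e3, e4]
  rw [e2] at e1
  have tA : VAᵀ * WAᵀ = 1 := by rw [← Matrix.transpose_mul, hA1, Matrix.transpose_one]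
  have mA : (VAᵀ).map ι * (WAᵀ).map ι = 1 := by
    rw [← Matrix.map_mul, tA, Matrix.map_one _ (map_zero _) (map_one _)]
  have mB : WB.map ι * VB.map ι = 1 := by
    rw [← Matrix.map_mul, hB1, Matrix.map_one _ (map_zero _) (map_one _)]
  have e5 : (VAᵀ).map ι * penG A0 A Z * VB.map ι = 0 := by
    have e6 : (VAᵀ).map ι * (WAᵀ * VAᵀ).map ι = (VAᵀ).map ι := by
      rw [Matrix.map_mul, ← Matrix.mul_assoc, mA, Matrix.one_mul]
    have e7 : (VB * WB).map ι * VB.map ι = VB.map ι := by
      rw [Matrix.map_mul, Matrix.mul_assoc, mB, Matrix.mul_one]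
    calc (VAᵀ).map ι * penG A0 A Z * VB.map ι =
        (VAᵀ).map ι * ((WAᵀ * VAᵀ).map ι * penG A0 A Z * (VB * WB).map ι) * VB.map ι := by
          nth_rewrite 1 [← e6, ← e7]
          simp only [Matrix.mul_assoc]
      _ = 0 := by rw [← e1, Matrix.mul_zero, Matrix.zero_mul]
  obtain ⟨⟨L, G, g1, g2⟩, hL : L = _⟩ := h
  subst hL
  set M := Matrix.fromRows ((VAᵀ).map ι * penG A0 A Z) (WB.map ι)
  set M' := Matrix.fromCols (G * (WAᵀ).map ι) (VB.map ι)
  have e8 : M * M' = Matrix.fromBlocks 1 0 (WB.map ι * (G * (WAᵀ).map ι)) 1 := by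
    rw [Matrix.fromRows_mul_fromCols, e5, mB]
    congr 1
    rw [Matrix.mul_assoc, ← Matrix.mul_assoc (penG A0 A Z), g1, Matrix.one_mul, mA]
  have e9 : IsUnit (M * M') := by
    rw [e8]
    refine ⟨⟨Matrix.fromBlocks 1 0 (WB.map ι * (G * (WAᵀ).map ι)) 1,
      Matrix.fromBlocks 1 0 (-(WB.map ι * (G * (WAᵀ).map ι))) 1, ?_, ?_⟩, rfl⟩
    · rw [Matrix.fromBlocks_multiply, ← Matrix.fromBlocks_one]
      simp
    · rw [Matrix.fromBlocks_multiply, ← Matrix.fromBlocks_one]
      simp
  rw [← isUnit_comp, comp_mul_rect, ← Matrix.mul_one (Matrix.comp _ _ _ _ F M)] at e9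
  have e10 := rank_sandwich (1 : Matrix (Fin s × Fin N) (Fin s × Fin N) F) _ _ e9
  rw [Matrix.rank_one, Fintype.card_prod, Fintype.card_prod, Fintype.card_sum, Fintype.card_fin,
    Fintype.card_fin, Fintype.card_fin, Fintype.card_fin] at e10
  have e11 := Nat.le_of_mul_le_mul_right e10 hN
  omega

end Pool.Agent.BNR
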