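import Mathlib
import Pool.Agent.BNR.TwA
import Pool.Agent.NCS.Pen4

/-!
BNR: small natural numbers as parameters of the twist.
-/

set_option autoImplicit false

namespace Pool.Agent.BNR

open Pool.Agent.NCP Pool.Agent.NCR Pool.Agent.NCS Polynomial

universe u

variable {K : Type u} [Field K] {n N s : ℕ} [NeZero N]

/-- One parameter of a family of tuples of polynomial matrices. -/
theorem replace_par [CharZero K] (F : Fin n → Matrix (Fin N) (Fin N) K[X]) (d : ℕ)
    (hF : ∀ i p q, (F i p q).natDegree ≤ d) (A0 : Matrix (Fin s) (Fin s) K)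
    (A : Fin n → Matrix (Fin s) (Fin s) K) (R : ℕ) (x : K)
    (h : R ≤ rkAt A0 A fun i => (F i).map (Polynomial.aeval x)) :
    ∃ a : ℕ, a ≤ s * N * d ∧ R ≤ rkAt A0 A fun i => (F i).map (Polynomial.aeval (a : K)) := by
  have hPC : ∀ t : K, (PC A0 A F).map (Polynomial.eval t) =
      Matrix.comp (Fin s) (Fin s) (Fin N) (Fin N) K
        (penG A0 A fun i => (F i).map (Polynomial.aeval t)) := fun t =>
    PC_map _ _ (Polynomial.aeval t) F
  have hev : ∀ t : K, ((PC A0 A F).map (Polynomial.eval t)).rank =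
      rkAt A0 A fun i => (F i).map (Polynomial.aeval t) := by
    intro t
    rw [hPC]
    rfl
  have e0 : R ≤ s * N := le_trans h (rkAt_le_mul _ _ _)
  obtain ⟨G, g1, g2, g3⟩ := rank_family (PC A0 A F) d (natDegree_PC _ _ _ _ hF) x R (by
      rw [hev]
      exact h)
  have g4 : G.natDegree ≤ s * N * d := g2.trans (Nat.mul_le_mul_right d e0)
  obtain ⟨c, hc, hc'⟩ : ∃ c : ℕ, c ≤ s * N * d ∧ G.eval (c : K) ≠ 0 := by
    by_contra hcon
    push Not at hcon
    apply g1
    refine Polynomial.eq_zero_of_natDegree_lt_card_of_eval_eq_zero (ι := Fin (s * N * d + 1)) G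
      (f := fun x => ((x : ℕ) : K)) ?_ ?_ ?_
    · intro a b hab
      exact Fin.ext (Nat.cast_injective hab)
    · intro c
      exact hcon (c : ℕ) (Nat.lt_succ_iff.1 c.2)
    · rw [Fintype.card_fin]
      exact Nat.lt_succ_of_le g4
  refine ⟨c, hc, ?_⟩
  rw [← hev]
  exact g3 _ hc'

/-- **Exact rank at small parameters.** -/
theorem twist_grid [CharZero K] (ζ : K) (hζ : IsPrimitiveRoot ζ N)
    (β : Fin n → Matrix (Fin N) (Fin N) K) (A0 : Matrix (Fin s) (Fin s) K)
    (A : Fin n → Matrix (Fin s) (Fin s) K) (r : ℕ) (h : r * N < rkAt A0 A β) :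
    ∃ a b : ℕ, a ≤ s * N * N ∧ b ≤ s * N * N ∧
      (r + 1) * N ≤ rkAt A0 A fun i => tw ζ (a : K) (b : K) (β i) := by
  obtain ⟨τ, μ, h1⟩ := twist_rank ζ hζ β A0 A r h
  have hC : ∀ (x : K) (B : Matrix (Fin N) (Fin N) K),
      (B.map (algebraMap K K[X])).map (Polynomial.aeval x) = B := by
    intro x B
    ext p q
    rw [Matrix.map_apply, Matrix.map_apply]
    exact (Polynomial.aeval x).commutes _
  have hd : ∀ (B : Matrix (Fin N) (Fin N) K) (p q : Fin N),
      ((B.map (algebraMap K K[X])) p q).natDegree ≤ 0 := by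
    intro B p q
    rw [Matrix.map_apply, natDegree_algebraMap]
  have e1 : ∀ x : K, (fun i => (tw ζ (X : K[X]) (C μ) ((β i).map (algebraMap K K[X]))).map
      (Polynomial.aeval x)) = fun i => tw ζ x μ (β i) := by
    intro x
    funext i
    rw [tw_map, hC, Polynomial.aeval_X, Polynomial.aeval_C]
    rfl
  obtain ⟨a, ha, h2⟩ := replace_par
    (fun i => tw ζ (X : K[X]) (C μ) ((β i).map (algebraMap K K[X]))) N
    (fun i p q => by
      have h3 := natDegree_tw ζ (X : K[X]) (C μ) 1 0 0 Polynomial.natDegree_X_le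
        (Polynomial.natDegree_C μ).le _ (hd (β i)) p q
      simpa using h3) A0 A ((r + 1) * N) τ (by
      rw [e1]
      exact h1)
  rw [e1] at h2
  have e2 : ∀ x : K, (fun i => (tw ζ (C (a : K)) (X : K[X]) ((β i).map (algebraMap K K[X]))).map
      (Polynomial.aeval x)) = fun i => tw ζ (a : K) x (β i) := by
    intro x
    funext i
    rw [tw_map, hC, Polynomial.aeval_X, Polynomial.aeval_C]
    rfl
  obtain ⟨b, hb, h4⟩ := replace_par
    (fun i => tw ζ (C (a : K)) (X : K[X]) ((β i).map (algebraMap K K[X]))) N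
    (fun i p q => by
      have h3 := natDegree_tw ζ (C (a : K)) (X : K[X]) 0 1 0
        (Polynomial.natDegree_C _).le Polynomial.natDegree_X_le _ (hd (β i)) p q
      simpa using h3) A0 A ((r + 1) * N) μ (by
      rw [e2]
      exact h2)
  rw [e2] at h4
  exact ⟨a, b, ha, hb, h4⟩

end Pool.Agent.BNR
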