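import Mathlib
import Pool.Agent.BNR.Defs
import Pool.Agent.BNR.TwB

/-!
BNR: the explicit tuples for linear matrices with a constant term.
-/

set_option autoImplicit false

namespace Pool.Agent.BNR

open Matrix Pool.Agent.NCP Pool.Agent.NCR Pool.Agent.NCS

universe u

variable {K : Type u} [Field K] {n s : ℕ}

theorem T_zero_eq (c t : K) (N : ℕ) :
    T c t N 0 = (Matrix.vandermonde fun r : Fin N => c ^ (r : ℕ))ᵀ *
      Matrix.diagonal (fun r : Fin N => t ^ (r : ℕ)) *
      Matrix.vandermonde fun r : Fin N => c ^ (r : ℕ) := by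
  ext a b
  rw [T, Matrix.mul_apply, Finset.sum_range]
  refine Finset.sum_congr rfl fun r _ => ?_
  rw [Matrix.mul_diagonal, Matrix.transpose_apply, Matrix.vandermonde_apply,
    Matrix.vandermonde_apply, zero_mul, zero_add, mul_add, pow_add, pow_mul, pow_mul]
  ring

/-- The matrix of the constant term is invertible. -/
theorem T_zero_unit (c t : K) (N : ℕ) (ht : t ≠ 0)
    (hc : ∀ i j, i < N → j < N → c ^ i = c ^ j → i = j) : IsUnit (T c t N 0).det := by
  have h1 : (Matrix.vandermonde fun r : Fin N => c ^ (r : ℕ)).det ≠ 0 := by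
    rw [Matrix.det_vandermonde_ne_zero_iff]
    intro i j hij
    exact Fin.ext (hc i j i.2 j.2 hij)
  rw [T_zero_eq, Matrix.det_mul, Matrix.det_mul, Matrix.det_transpose, Matrix.det_diagonal,
    isUnit_iff_ne_zero]
  exact mul_ne_zero (mul_ne_zero h1 (Finset.prod_ne_zero_iff.2 fun r _ => pow_ne_zero _ ht)) h1

/-- The explicit tuple for linear matrices with a constant term: `X_i = T_0⁻¹ T_(i+1)`. -/
noncomputable def X0 (K : Type u) [Field K] (N t : ℕ) (i : Fin n) : Matrix (Fin N) (Fin N) K :=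
  (T (2 : K) (t : K) N 0)⁻¹ * T (2 : K) (t : K) N ((i : ℕ) + 1)

theorem rkAt_X0 [CharZero K] (N t : ℕ) (ht : 0 < t) (A0 : Matrix (Fin s) (Fin s) K)
    (A : Fin n → Matrix (Fin s) (Fin s) K) :
    rkAt A0 A (X0 K N t) =
      (ev (Fin.cons A0 A : Fin (n + 1) → Matrix (Fin s) (Fin s) K)
        fun e => T (2 : K) (t : K) N e).rank := by
  have hu : IsUnit (T (2 : K) (t : K) N 0).det := by
    refine T_zero_unit _ _ _ (Nat.cast_ne_zero.2 ht.ne') fun i j _ _ h => ?_
    have h1 : ((2 ^ i : ℕ) : K) = ((2 ^ j : ℕ) : K) := by push_cast; exact h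
    exact Nat.pow_right_injective le_rfl (Nat.cast_injective h1)
  set T0 := T (2 : K) (t : K) N 0 with hT0
  have h1 : ev (Fin.cons A0 A : Fin (n + 1) → Matrix (Fin s) (Fin s) K)
      (fun e => T (2 : K) (t : K) N e) =
      kroneckerMap (· * ·) (1 : Matrix (Fin s) (Fin s) K) T0 *
        Matrix.comp (Fin s) (Fin s) (Fin N) (Fin N) K (penG A0 A (X0 K N t)) := by
    have e1 : Matrix.comp (Fin s) (Fin s) (Fin N) (Fin N) K (penG A0 A (X0 K N t)) =
        kroneckerMap (· * ·) A0 (1 : Matrix (Fin N) (Fin N) K) +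
          ∑ i, kroneckerMap (· * ·) (A i) (T0⁻¹ * T (2 : K) (t : K) N ((i : ℕ) + 1)) := by
      ext ⟨a, x⟩ ⟨b, y⟩
      rw [Matrix.comp_apply, penG, Matrix.of_apply, Matrix.add_apply, Matrix.add_apply,
        Matrix.sum_apply, Matrix.sum_apply, kroneckerMap_apply, Matrix.algebraMap_matrix_apply,
        Matrix.one_apply]
      congr 1
      split_ifs
      · rw [mul_one]
        rfl
      · rw [mul_zero]
    rw [e1, Matrix.mul_add, Matrix.mul_sum, ev, Fin.sum_univ_succ, Fin.cons_zero, Fin.val_zero]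
    have e2 : ∀ (P : Matrix (Fin s) (Fin s) K) (Q : Matrix (Fin N) (Fin N) K),
        kroneckerMap (· * ·) (1 : Matrix (Fin s) (Fin s) K) T0 * kroneckerMap (· * ·) P Q =
          kroneckerMap (· * ·) P (T0 * Q) := by
      intro P Q
      have := Matrix.mul_kronecker_mul (1 : Matrix (Fin s) (Fin s) K) P T0 Q
      rw [Matrix.one_mul] at this
      exact this.symm
    rw [e2, Matrix.mul_one]
    congr 1
    refine Finset.sum_congr rfl fun i _ => ?_
    rw [e2, ← Matrix.mul_assoc, Matrix.mul_nonsing_inv _ hu, Matrix.one_mul, Fin.cons_succ,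
      Fin.val_succ]
  rw [h1, Matrix.rank_mul_eq_right_of_isUnit_det]
  · rfl
  · have h2 : IsUnit (kroneckerMap (· * ·) (1 : Matrix (Fin s) (Fin s) K) T0).det := by
      have h3 := Matrix.det_kronecker (1 : Matrix (Fin s) (Fin s) K) T0
      have h4 : (kroneckerMap (· * ·) (1 : Matrix (Fin s) (Fin s) K) T0).det =
          (1 : Matrix (Fin s) (Fin s) K).det ^ Fintype.card (Fin N) *
            T0.det ^ Fintype.card (Fin s) := h3
      rw [h4, Matrix.det_one, one_pow, one_mul]
      exact hu.pow _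
    exact h2

end Pool.Agent.BNR
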