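import Mathlib
import Pool.Agent.BNR.Thm1
import Pool.Agent.BNR.FormC
import Pool.Agent.BNR.TwC

/-!
BNR: rational formulas of any inversion height: an explicit finite set of matrix tuples.
-/

set_option autoImplicit false

namespace Pool.Agent.BNR

open Matrix Pool.Agent.NCP Pool.Agent.NCR Pool.Agent.NCS

universe u

variable {K : Type u} [Field K] {n s : ℕ}

/-- The explicit tuples: the twists of the tuples `X0` by two parameters. -/
noncomputable def XT (K : Type u) [Field K] {n : ℕ} (N : ℕ) [NeZero N] (ζ : K) (t a b : ℕ)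
    (i : Fin n) : Matrix (Fin N) (Fin N) K :=
  tw ζ (a : K) (b : K) (X0 K N t i)

theorem fromThm1 [CharZero K] {N : ℕ} (A0 : Matrix (Fin s) (Fin s) K)
    (A : Fin n → Matrix (Fin s) (Fin s) K) (hs : 0 < s) (hN : 2 * ((n + 1) * s ^ 2) < N)
    (h : NcRk (Fin.cons A0 A : Fin (n + 1) → Matrix (Fin s) (Fin s) K) s) :
    ∃ t : ℕ, 1 ≤ t ∧ t ≤ s * N * N + 1 ∧ (s - 1) * N < rkAt A0 A (X0 K N t) := by
  have hc : ∀ i j, i < (n + 1) * N → j < (n + 1) * N → (2 : K) ^ i = 2 ^ j → i = j := by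
    intro i j _ _ h
    have h1 : ((2 ^ i : ℕ) : K) = ((2 ^ j : ℕ) : K) := by push_cast; exact h
    exact Nat.pow_right_injective le_rfl (Nat.cast_injective h1)
  obtain ⟨x, hx, h1⟩ := one (2 : K) N hc _ h
    ((Finset.Icc 1 (s * N * N + 1)).map ⟨fun i : ℕ => (i : K), Nat.cast_injective⟩) (by
      rw [Finset.card_map, Nat.card_Icc]
      omega)
  rw [Finset.mem_map] at hx
  obtain ⟨t, ht, rfl⟩ := hx
  rw [Finset.mem_Icc] at ht
  refine ⟨t, ht.1, ht.2, ?_⟩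
  rw [rkAt_X0 N t (by omega)]
  have h2 : s * N = (s - 1) * N + N := by
    obtain ⟨k, rfl⟩ : ∃ k, s = k + 1 := ⟨s - 1, by omega⟩
    rw [Nat.add_sub_cancel, Nat.succ_mul]
  change s * N ≤ (ev (Fin.cons A0 A : Fin (n + 1) → Matrix (Fin s) (Fin s) K)
    fun e => T (2 : K) (t : K) N e).rank + 2 * ((n + 1) * s ^ 2) at h1
  omega

/-- **Exact rank for full pencils**: a pencil invertible at some tuple of square matrices over an
extension field is invertible at one of the explicit tuples. -/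
theorem unit_hit [CharZero K] {N : ℕ} [NeZero N] (ζ : K) (hζ : IsPrimitiveRoot ζ N)
    (A0 : Matrix (Fin s) (Fin s) K) (A : Fin n → Matrix (Fin s) (Fin s) K)
    (hN : 2 * ((n + 1) * s ^ 2) < N) {F : Type*} [Field F] [Algebra K F] {N' : ℕ} (hN' : 0 < N')
    (Z : Fin n → Matrix (Fin N') (Fin N') F) (h : IsUnit (penG A0 A Z)) :
    ∃ t a b : ℕ, 1 ≤ t ∧ t ≤ s * N * N + 1 ∧ a ≤ s * N * N ∧ b ≤ s * N * N ∧
      IsUnit (penG A0 A (XT K N ζ t a b)) := by
  rcases Nat.eq_zero_or_pos s with hs | hs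
  · subst hs
    exact ⟨1, 0, 0, le_rfl, by omega, Nat.zero_le _, Nat.zero_le _, isUnit_of_subsingleton _⟩
  · obtain ⟨t, h1, h2, h3⟩ := fromThm1 (N := N) A0 A hs hN (ncrk_of_unit hN' A0 A Z h)
    obtain ⟨a, b, h4, h5, h6⟩ := twist_grid ζ hζ (X0 K N t) A0 A (s - 1) h3
    refine ⟨t, a, b, h1, h2, h4, h5, ?_⟩
    rw [← isUnit_comp]
    refine isUnit_of_rank _ ?_
    rw [Fintype.card_prod, Fintype.card_fin, Fintype.card_fin]
    have h7 : s - 1 + 1 = s := by omega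
    rw [h7] at h6
    exact h6

theorem form_size (n s S N : ℕ) (hS : S ≤ 2 * (s + 1) ^ 2)
    (hN : 8 * (n + 1) * (s + 1) ^ 4 < N) : 2 * ((n + 1) * S ^ 2) < N := by
  refine lt_of_le_of_lt ?_ hN
  calc 2 * ((n + 1) * S ^ 2) ≤ 2 * ((n + 1) * (2 * (s + 1) ^ 2) ^ 2) :=
        Nat.mul_le_mul_left 2 (Nat.mul_le_mul_left _ (Nat.pow_le_pow_left hS 2))
    _ = 8 * (n + 1) * (s + 1) ^ 4 := by ring

/-- **Formulas of any inversion height** (constants and explicit tuples over the same field). -/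
theorem form_hit [CharZero K] {N : ℕ} [NeZero N] (ζ : K) (hζ : IsPrimitiveRoot ζ N)
    (hN : 8 * (n + 1) * (s + 1) ^ 4 < N) (φ : RExp K n) (hs : φ.size ≤ s) (N' : ℕ)
    (Y : Fin n → Matrix (Fin N') (Fin N') K) (h1 : φ.Defined Y) (h2 : φ.eval Y ≠ 0) :
    ∃ t a b : ℕ, 1 ≤ t ∧ t ≤ 2 * (s + 1) ^ 2 * N * N + 1 ∧ a ≤ 2 * (s + 1) ^ 2 * N * N ∧
      b ≤ 2 * (s + 1) ^ 2 * N * N ∧ (RExp.inv φ).Defined (XT K N ζ t a b) := by
  obtain ⟨hN', Z, hZ⟩ := inv_somewhere φ N' Y h1 h2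
  obtain ⟨ι, i1, i2, A0, A, hc, hA⟩ := exists_pen (RExp.inv φ)
  let e := Fintype.equivFin ι
  have hsub : ∀ (R : Type u) [Ring R] [Algebra K R] (Y : Fin n → R),
      IsUnit (penG (A0.submatrix e.symm e.symm) (fun i => (A i).submatrix e.symm e.symm) Y) ↔
        (RExp.inv φ).Defined Y := by
    intro R _ _ Y
    rw [← hA R Y]
    have h3 : penG (A0.submatrix e.symm e.symm) (fun i => (A i).submatrix e.symm e.symm) Y =
        (penG A0 A Y).submatrix e.symm e.symm := by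
      ext1 x y
      rfl
    rw [h3]
    exact isUnit_submatrix e.symm _
  have hS : Fintype.card ι ≤ 2 * (s + 1) ^ 2 := by
    refine hc.trans (Nat.mul_le_mul_left 2 (Nat.pow_le_pow_left ?_ 2))
    rw [RExp.size]
    omega
  obtain ⟨t, a, b, h3, h4, h5, h6, h7⟩ := unit_hit (N := N) ζ hζ _ _
    (form_size n s _ N hS hN) hN' Z ((hsub _ Z).2 hZ)
  have h8 : Fintype.card ι * N * N ≤ 2 * (s + 1) ^ 2 * N * N :=
    Nat.mul_le_mul_right N (Nat.mul_le_mul_right N hS)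
  exact ⟨t, a, b, h3, h4.trans (Nat.add_le_add_right h8 1), h5.trans h8, h6.trans h8,
    (hsub _ _).1 h7⟩

/-- **Black-box rational identity testing.** Formulas over `K`, tuples over `L ⊇ K`. -/
theorem form_final {L : Type u} [Field L] [Algebra K L] [CharZero K] {N : ℕ} [NeZero N] (ζ : L)
    (hζ : IsPrimitiveRoot ζ N) (hN : 8 * (n + 1) * (s + 1) ^ 4 < N) (φ : RExp K n)
    (hs : φ.size ≤ s) (N' : ℕ) (Y : Fin n → Matrix (Fin N') (Fin N') K) (h1 : φ.Defined Y)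
    (h2 : φ.eval Y ≠ 0) :
    ∃ t a b : ℕ, 1 ≤ t ∧ t ≤ 2 * (s + 1) ^ 2 * N * N + 1 ∧ a ≤ 2 * (s + 1) ^ 2 * N * N ∧
      b ≤ 2 * (s + 1) ^ 2 * N * N ∧ φ.Defined (XT L N ζ t a b) ∧
      IsUnit (φ.eval (XT L N ζ t a b)) := by
  have : CharZero L := charZero_of_injective_algebraMap (algebraMap K L).injective
  let f : Matrix (Fin N') (Fin N') K →ₐ[K] Matrix (Fin N') (Fin N') L :=
    (Algebra.ofId K L).mapMatrix
  have hf : Function.Injective f := Matrix.map_injective (algebraMap K L).injective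
  obtain ⟨h3, h4⟩ := mp_hom (L := L) f Y φ h1
  obtain ⟨t, a, b, h5, h6, h7, h8, h9, h10⟩ := form_hit ζ hζ hN (mp L φ)
    (by rw [size_mp]; exact hs) N' _ h3 (by
      rw [h4]
      intro h5
      exact h2 (hf (h5.trans (map_zero f).symm)))
  obtain ⟨h11, h12⟩ := mp_defined (L := L) (XT L N ζ t a b) φ
  rw [h11] at h10
  exact ⟨t, a, b, h5, h6, h7, h8, h12.1 h9, h10⟩

end Pool.Agent.BNR
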