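import Mathlib
import Pool.Agent.BNR.Defs
import Pool.Agent.BNR.Up
import Pool.Agent.BNR.Grid

/-!
BNR-Half: for every tuple the largest rank of a combination over `K` (infinite) is at least half of the noncommutative
rank (Flanders, Fortin-Reutenauer). So the explicit blow-up rank divided by `N` is a factor two approximation of
the commutative rank of an ARBITRARY matrix of linear forms.

Proof: `M = ∑ x_e L_e` of maximal rank `ρ`; then `hᵀ L_e v = 0` for `hᵀ M = 0`, `M v = 0` (otherwise
`M + L_e v wᵀ`, `wᵀ v = 1`, has rank `> ρ`, and it is the value at `t = 0` of the polynomial matrix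
`M + t L_e + (1 - t) L_e v wᵀ = (M + t L_e) (1 + (1/t - 1) v wᵀ)`): a zero block of size `(n - ρ) × (n - ρ)`.
-/

set_option autoImplicit false

namespace Pool.Agent.BNR

open Module Matrix Polynomial

variable {K : Type*} [Field K] {n m : ℕ}

private theorem hf_vmv (a b v : Fin n → K) : vecMulVec a b *ᵥ v = (b ⬝ᵥ v) • a := by
  ext i
  simp only [mulVec, vecMulVec_apply, dotProduct, Pi.smul_apply, smul_eq_mul]
  rw [Finset.sum_mul]
  refine Finset.sum_congr rfl fun j _ => ?_
  ring

/-- the rank increases -/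
private theorem hf_inc (M : Matrix (Fin n) (Fin n) K) (a b u : Fin n → K) (hu : M *ᵥ u = 0)
    (hbu : b ⬝ᵥ u ≠ 0) (h2 : ∀ g, M *ᵥ g ≠ a) : M.rank < (M + vecMulVec a b).rank := by
  have ha : a ∈ LinearMap.range (M + vecMulVec a b).mulVecLin := by
    refine ⟨(b ⬝ᵥ u)⁻¹ • u, ?_⟩
    rw [mulVecLin_apply, add_mulVec, hf_vmv, mulVec_smul, hu, smul_zero, zero_add, dotProduct_smul,
      smul_eq_mul, inv_mul_cancel₀ hbu, one_smul]
  have hle : LinearMap.range M.mulVecLin ≤ LinearMap.range (M + vecMulVec a b).mulVecLin := by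
    rintro _ ⟨v, rfl⟩
    have h3 : (M + vecMulVec a b).mulVecLin v - (b ⬝ᵥ v) • a ∈
        LinearMap.range (M + vecMulVec a b).mulVecLin :=
      Submodule.sub_mem _ ⟨v, rfl⟩ (Submodule.smul_mem _ _ ha)
    rwa [mulVecLin_apply, add_mulVec, hf_vmv, add_sub_cancel_right] at h3
  have hlt : LinearMap.range M.mulVecLin < LinearMap.range (M + vecMulVec a b).mulVecLin := by
    refine lt_of_le_of_ne hle fun h => ?_
    rw [← h] at ha
    obtain ⟨g, hg⟩ := ha
    exact h2 g hg
  exact Submodule.finrank_lt_finrank_of_lt hlt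

/-- if `hᵀ L v ≠ 0` then some `M + s L`, `s ≠ 0`, has larger rank -/
private theorem hf_step [Infinite K] (M L : Matrix (Fin n) (Fin n) K) (h v : Fin n → K)
    (hM : ∀ g, h ⬝ᵥ (M *ᵥ g) = 0) (hv : M *ᵥ v = 0) (hh : h ⬝ᵥ (L *ᵥ v) ≠ 0) :
    ∃ s : K, M.rank < (M + s • L).rank := by
  classical
  have hv0 : v ≠ 0 := by
    rintro rfl
    apply hh
    rw [mulVec_zero, dotProduct_zero]
  obtain ⟨j, hj⟩ : ∃ j, v j ≠ 0 := by
    by_contra hcon
    push Not at hcon
    exact hv0 (funext hcon)
  set w : Fin n → K := Pi.single j (v j)⁻¹ with hw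
  have hwv : w ⬝ᵥ v = 1 := by
    rw [hw, single_dotProduct, inv_mul_cancel₀ hj]
  set a : Fin n → K := L *ᵥ v with ha
  have h1 : M.rank < (M + vecMulVec a w).rank := by
    apply hf_inc M a w v hv (by rw [hwv]; exact one_ne_zero)
    intro g hg
    apply hh
    rw [← hg]
    exact hM g
  set Q : Matrix (Fin n) (Fin n) K[X] := fun i j =>
    C (M i j) + X * C (L i j) + (1 - X) * C (a i * w j) with hQ
  have hdeg : ∀ i j, (Q i j).natDegree ≤ 1 := by
    intro i j
    simp only [hQ]
    compute_degree
  obtain ⟨S0, hS0⟩ := Infinite.exists_subset_card_eq K (n + 2)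
  have hcard : Fintype.card (Fin n) * 1 < (S0.erase 0).card := by
    rw [Fintype.card_fin]
    have := Finset.pred_card_le_card_erase (s := S0) (a := (0 : K))
    omega
  obtain ⟨s, hs, hrk⟩ := grid Q 1 hdeg (S0.erase 0) hcard 0
  have hs0 : s ≠ 0 := Finset.ne_of_mem_erase hs
  have e0 : Q.map (eval 0) = M + vecMulVec a w := by
    ext i j
    simp [hQ, vecMulVec_apply]
  have es : Q.map (eval s) = (M + s • L) * (1 + (s⁻¹ - 1) • vecMulVec v w) := by
    have e2 : (M + s • L) * vecMulVec v w = s • vecMulVec a w := by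
      rw [Matrix.mul_vecMulVec, add_mulVec, hv, zero_add, smul_mulVec, ← ha, smul_vecMulVec]
    rw [mul_add, mul_one, mul_smul_comm, e2, smul_smul]
    ext i j
    simp only [hQ, map_apply, eval_add, eval_mul, eval_sub, eval_one, eval_X, eval_C, Matrix.add_apply, Matrix.smul_apply,
      smul_eq_mul, vecMulVec_apply]
    field_simp
  refine ⟨s, ?_⟩
  rw [e0, es] at hrk
  exact lt_of_lt_of_le h1 (hrk.trans (rank_mul_le_left _ _))

/-- the left kernel has the same dimension -/
private theorem hf_left (M : Matrix (Fin n) (Fin n) K) :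
    n ≤ finrank K (LinearMap.ker Mᵀ.mulVecLin) + M.rank := by
  have h1 := LinearMap.finrank_range_add_finrank_ker Mᵀ.mulVecLin
  rw [finrank_fin_fun] at h1
  have h2 : Mᵀ.rank = M.rank := rank_transpose M
  have h3 : Mᵀ.rank = finrank K (LinearMap.range Mᵀ.mulVecLin) := rfl
  omega

/-- THE COMMUTATIVE RANK IS AT LEAST HALF OF THE NONCOMMUTATIVE RANK -/
theorem half [Infinite K] (L : Fin m → Matrix (Fin n) (Fin n) K) (r : ℕ) (hr : NcRk L r) :
    ∃ x : Fin m → K, r ≤ 2 * (∑ e, x e • L e).rank := by
  classical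
  by_contra hno
  push Not at hno
  have key : ∀ d : ℕ, ∃ x : Fin m → K, d ≤ (∑ e, x e • L e).rank := by
    intro d
    induction d with
    | zero => exact ⟨0, Nat.zero_le _⟩
    | succ d ih =>
      obtain ⟨x, hx⟩ := ih
      set M := ∑ e, x e • L e with hM
      by_cases hall : ∀ e, ∀ h ∈ LinearMap.ker Mᵀ.mulVecLin, ∀ v ∈ LinearMap.ker M.mulVecLin,
          h ⬝ᵥ (L e *ᵥ v) = 0
      · exfalso
        have h1 := hr _ _ hall
        have h2 := hf_left M
        have h3 := LinearMap.finrank_range_add_finrank_ker M.mulVecLin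
        rw [finrank_fin_fun] at h3
        have h4 : M.rank = finrank K (LinearMap.range M.mulVecLin) := rfl
        have h5 : 2 * M.rank < r := hno x
        omega
      · push Not at hall
        obtain ⟨e, h, hh, v, hv, hne⟩ := hall
        have hh' : ∀ g, h ⬝ᵥ (M *ᵥ g) = 0 := by
          intro g
          have h6 : Mᵀ *ᵥ h = 0 := hh
          rw [mulVec_transpose] at h6
          rw [dotProduct_mulVec, h6, zero_dotProduct]
        obtain ⟨s, hs⟩ := hf_step M (L e) h v hh' hv hne
        refine ⟨x + Pi.single e s, ?_⟩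
        have h7 : (∑ f, (x + Pi.single e s : Fin m → K) f • L f) = M + s • L e := by
          simp only [Pi.add_apply, add_smul, Finset.sum_add_distrib]
          rw [← hM]
          congr 1
          rw [Finset.sum_eq_single e]
          · rw [Pi.single_eq_same]
          · intro f _ hf
            rw [Pi.single_eq_of_ne hf, zero_smul]
          · intro h
            exact absurd (Finset.mem_univ e) h
        rw [h7]
        omega
  obtain ⟨x, hx⟩ := key (n + 1)
  have := rank_le_height (∑ e, x e • L e)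
  omega

end Pool.Agent.BNR
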