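import Mathlib
import Pool.Agent.BNR.TwA

/-!
BNR: invertible compressions of a linear matrix by matrices of zeros and ones.
-/

set_option autoImplicit false

namespace Pool.Agent.BNR

open Pool.Agent.NCP Pool.Agent.NCR Pool.Agent.NCS Polynomial

universe u

variable {K : Type u} [Field K] {n : ℕ}

section rank

variable {N : ℕ} [NeZero N] {s : ℕ}

/-- **Exact rank.** Invertible compressions at the twists of a tuple at which the rank is large. -/
theorem twist_comp01 [CharZero K] (ζ : K) (hζ : IsPrimitiveRoot ζ N)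
    (β : Fin n → Matrix (Fin N) (Fin N) K) (A0 : Matrix (Fin s) (Fin s) K)
    (A : Fin n → Matrix (Fin s) (Fin s) K) (r : ℕ) (h : r * N < rkAt A0 A β) (j : ℕ)
    (hj : j ≤ r + 1) :
    ∃ (ι : Type) (_ : Fintype ι) (_ : DecidableEq ι) (P : Matrix ι (Fin s) K)
      (Q : Matrix (Fin s) ι K) (τ μ : K), Fintype.card ι = j ∧
      (∀ x y, P x y = 0 ∨ P x y = 1) ∧ (∀ x y, Q x y = 0 ∨ Q x y = 1) ∧
      IsUnit (penG (P * A0 * Q) (fun i => P * A i * Q) fun i => tw ζ τ μ (β i)) := by
  classical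
  induction j with
  | zero =>
    refine ⟨Fin 0, inferInstance, inferInstance, 0, 0, 1, 1, by simp, fun x => x.elim0,
      fun x y => y.elim0, ?_⟩
    exact isUnit_of_subsingleton _
  | succ j ih =>
    obtain ⟨ι, i1, i2, P, Q, τ0, μ0, h1, hP01, hQ01, h2⟩ := ih (by omega)
    obtain ⟨F1, f1, f1'⟩ := twist_unit' ζ β _ _ τ0 μ0 h2
    obtain ⟨D, d1, d1'⟩ := twist_rank_ge ζ hζ β A0 A _ le_rfl
    obtain ⟨τ1, μ1, ht⟩ := exists_pt (F1 * D) (mul_ne_zero f1 d1)
    rw [map_mul, mul_ne_zero_iff] at ht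
    have u1 := f1' τ1 μ1 ht.1
    have r1 := d1' τ1 μ1 ht.2
    set Z : Fin n → Matrix (Fin N) (Fin N) K := fun i => tw ζ τ1 μ1 (β i) with hZ
    have u1' := u1
    rw [penG_sandwich0] at u1'
    obtain ⟨⟨L1, G1, g1, g2⟩, hL1 : L1 = _⟩ := u1'
    subst hL1
    have hlt : Fintype.card ι * N < rkAt A0 A Z := by
      have h3 : j * N ≤ r * N := Nat.mul_le_mul_right N (by omega)
      rw [h1]
      omega
    have hne : ∃ a b, (penG A0 A Z - penG A0 A Z *
        Q.map (algebraMap K (Matrix (Fin N) (Fin N) K)) * G1 *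
        P.map (algebraMap K (Matrix (Fin N) (Fin N) K)) * penG A0 A Z :
          Matrix (Fin s) (Fin s) (Matrix (Fin N) (Fin N) K)) a b ≠ 0 := by
      by_contra hcon
      push Not at hcon
      have e1 : penG A0 A Z - penG A0 A Z *
          Q.map (algebraMap K (Matrix (Fin N) (Fin N) K)) * G1 *
          P.map (algebraMap K (Matrix (Fin N) (Fin N) K)) * penG A0 A Z = 0 := by
        ext1 a b
        exact hcon a b
      rw [sub_eq_zero] at e1
      refine absurd (rkAt_le A0 A Z (penG A0 A Z *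
        Q.map (algebraMap K (Matrix (Fin N) (Fin N) K)))
        (G1 * P.map (algebraMap K (Matrix (Fin N) (Fin N) K)) * penG A0 A Z) ?_) (not_le.2 hlt)
      refine e1.trans ?_
      simp only [Matrix.mul_assoc]
    obtain ⟨a, b, hab⟩ := hne
    obtain ⟨F2, f2, f2'⟩ := twist_pen' ζ hζ β _ _ _ _ τ1 μ1 _ (sig_rep A0 A P Q a b Z G1 g1 g2) hab
    obtain ⟨τ, μ, ht2⟩ := exists_pt (F1 * F2) (mul_ne_zero f1 f2)
    rw [map_mul, mul_ne_zero_iff] at ht2
    have u2 := f1' τ μ ht2.1
    obtain ⟨x', hx', ux'⟩ := f2' τ μ ht2.2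
    refine ⟨ι ⊕ Unit, inferInstance, inferInstance, P3 P a, Q3 Q b, τ, μ, ?_, ?_, ?_, ?_⟩
    · rw [Fintype.card_sum, h1, Fintype.card_unit]
    · intro x y
      rcases x with x | x
      · exact hP01 x y
      · change (ra K a) x y = 0 ∨ (ra K a) x y = 1
        rw [ra, Matrix.of_apply]
        split_ifs
        · exact Or.inr rfl
        · exact Or.inl rfl
    · intro x y
      rcases y with y | y
      · exact hQ01 x y
      · change (ca K b) x y = 0 ∨ (ca K b) x y = 1
        rw [ca, Matrix.of_apply]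
        split_ifs
        · exact Or.inr rfl
        · exact Or.inl rfl
    · rw [penG_sandwich0]
      rw [penG_sandwich0] at u2
      obtain ⟨⟨L3, G3, k1, k2⟩, hL3 : L3 = _⟩ := u2
      subst hL3
      refine unit_border _ P Q a b G3 k1 k2 ?_
      have h6 := rep_unique _ _ _ _ _ _ _ hx' (sig_rep A0 A P Q a b _ G3 k1 k2)
      rw [← h6]
      exact ux'

end rank

end Pool.Agent.BNR
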