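import Mathlib
import Pool.Agent.BNR.MatA
import Pool.Agent.BNR.FormA
import Pool.Agent.BNR.FormC
import Pool.Agent.NCS.Pen4

/-!
BNR: from a tuple over an extension field to linear matrices of full noncommutative rank over the
field of constants.
-/

set_option autoImplicit false

namespace Pool.Agent.BNR

open Matrix Pool.Agent.NCP Pool.Agent.NCR Pool.Agent.NCS

universe u

variable {K : Type u} [Field K] {n s : ℕ}

theorem rkAt_tower {F E : Type u} [Field F] [Field E] [Algebra K F] [Algebra K E] [Algebra F E]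
    [IsScalarTower K F E] {N : ℕ} (A0 : Matrix (Fin s) (Fin s) K)
    (A : Fin n → Matrix (Fin s) (Fin s) K) (Y : Fin n → Matrix (Fin N) (Fin N) F) :
    rkAt A0 A Y ≤ rkAt A0 A fun i => (Y i).map (algebraMap F E) := by
  have h1 := rkAt_ext (L := E) (A0.map (algebraMap K F)) (fun i => (A i).map (algebraMap K F)) Y
  rw [rkAt_mp] at h1
  refine h1.trans (le_of_eq ?_)
  rw [rkAt, rkAt, penG_mp]

/-- A matrix of zeros and ones comes from the smaller field. -/
theorem map_of_01 {E : Type*} [Field E] [Algebra K E] {I J : Type*} (P : Matrix I J E)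
    (h : ∀ x y, P x y = 0 ∨ P x y = 1) : ∃ P0 : Matrix I J K, P = P0.map (algebraMap K E) := by
  classical
  refine ⟨Matrix.of fun x y => if P x y = 1 then 1 else 0, ?_⟩
  ext x y
  rw [Matrix.map_apply, Matrix.of_apply]
  rcases h x y with h1 | h1
  · rw [h1, if_neg zero_ne_one, map_zero]
  · rw [h1, if_pos rfl, map_one]

/-- A compression over `K` and a second linear matrix, both invertible at one tuple. -/
theorem common_comp [CharZero K] {F : Type u} [Field F] [Algebra K F] {N : ℕ} (hN : 0 < N)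
    (A0 : Matrix (Fin s) (Fin s) K) (A : Fin n → Matrix (Fin s) (Fin s) K)
    {κ : Type} [Fintype κ] [DecidableEq κ] (D0 : Matrix κ κ K) (D : Fin n → Matrix κ κ K)
    (Y : Fin n → Matrix (Fin N) (Fin N) F) (r : ℕ) (h : r * N < rkAt A0 A Y)
    (hD : IsUnit (penG D0 D Y)) :
    ∃ (ι : Type) (_ : Fintype ι) (_ : DecidableEq ι) (P : Matrix ι (Fin s) K)
      (Q : Matrix (Fin s) ι K) (Z : Fin n → Matrix (Fin N) (Fin N) (AlgebraicClosure F)),
      Fintype.card ι = r + 1 ∧ IsUnit (penG (P * A0 * Q) (fun i => P * A i * Q) Z) ∧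
        IsUnit (penG D0 D Z) := by
  have cF : CharZero F := charZero_of_injective_algebraMap (algebraMap K F).injective
  have cE : CharZero (AlgebraicClosure F) :=
    charZero_of_injective_algebraMap (algebraMap F (AlgebraicClosure F)).injective
  have : NeZero N := ⟨hN.ne'⟩
  obtain ⟨ζ, hζ⟩ := HasEnoughRootsOfUnity.exists_primitiveRoot (AlgebraicClosure F) N
  set f := algebraMap K (AlgebraicClosure F) with hf
  set β : Fin n → Matrix (Fin N) (Fin N) (AlgebraicClosure F) :=
    fun i => (Y i).map (algebraMap F (AlgebraicClosure F)) with hβ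
  have h1 : r * N < rkAt (A0.map f) (fun i => (A i).map f) β := by
    rw [rkAt_mp]
    exact h.trans_le (rkAt_tower A0 A Y)
  obtain ⟨ι, i1, i2, P, Q, τ0, μ0, hc, hP, hQ, hu⟩ :=
    twist_comp01 ζ hζ β (A0.map f) (fun i => (A i).map f) r h1 (r + 1) le_rfl
  obtain ⟨P0, rfl⟩ := map_of_01 (K := K) P hP
  obtain ⟨Q0, rfl⟩ := map_of_01 (K := K) Q hQ
  obtain ⟨F2, f2, f2'⟩ := twist_unit' ζ β _ _ τ0 μ0 hu
  have hD1 : IsUnit (penG (D0.map f) (fun i => (D i).map f) β) := by
    rw [penG_mp]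
    exact unit_map ((IsScalarTower.toAlgHom K F (AlgebraicClosure F)).mapMatrix (m := Fin N))
      D0 D Y hD
  have h3 : (fun i => tw ζ (1 : AlgebraicClosure F) 1 (β i)) = β :=
    funext fun i => tw_one ζ hζ (β i)
  obtain ⟨F1, f1, f1'⟩ := twist_unit' ζ β (D0.map f) (fun i => (D i).map f) 1 1 (by
    rw [h3]
    exact hD1)
  obtain ⟨τ, μ, ht⟩ := exists_pt (F1 * F2) (mul_ne_zero f1 f2)
  rw [map_mul, mul_ne_zero_iff] at ht
  have u1 := f1' τ μ ht.1
  have u2 := f2' τ μ ht.2
  refine ⟨ι, i1, i2, P0, Q0, fun i => tw ζ τ μ (β i), hc, ?_, ?_⟩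
  · have e1 : ∀ M : Matrix (Fin s) (Fin s) K,
        P0.map f * M.map f * Q0.map f = (P0 * M * Q0).map f := fun M => by
      rw [Matrix.map_mul, Matrix.map_mul]
    simp only [← hf] at u2
    simp only [e1] at u2
    rwa [penG_mp] at u2
  · rwa [penG_mp] at u1

theorem common_comp' [CharZero K] {F : Type u} [Field F] [Algebra K F] {N : ℕ} (hN : 0 < N)
    (A0 : Matrix (Fin s) (Fin s) K) (A : Fin n → Matrix (Fin s) (Fin s) K)
    {κ : Type} [Fintype κ] [DecidableEq κ] (D0 : Matrix κ κ K) (D : Fin n → Matrix κ κ K)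
    (Y : Fin n → Matrix (Fin N) (Fin N) F) (r : ℕ) (h : r * N < rkAt A0 A Y + N)
    (hD : IsUnit (penG D0 D Y)) :
    ∃ (ι : Type) (_ : Fintype ι) (_ : DecidableEq ι) (P : Matrix ι (Fin s) K)
      (Q : Matrix (Fin s) ι K) (Z : Fin n → Matrix (Fin N) (Fin N) (AlgebraicClosure F)),
      Fintype.card ι = r ∧ IsUnit (penG (P * A0 * Q) (fun i => P * A i * Q) Z) ∧
        IsUnit (penG D0 D Z) := by
  cases r with
  | zero =>
    exact ⟨Fin 0, inferInstance, inferInstance, 0, 0,
      fun i => (Y i).map (algebraMap F (AlgebraicClosure F)), Fintype.card_fin 0,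
      isUnit_of_subsingleton _,
      unit_map ((IsScalarTower.toAlgHom K F (AlgebraicClosure F)).mapMatrix (m := Fin N))
      D0 D Y hD⟩
  | succ r =>
    refine common_comp hN A0 A D0 D Y r ?_ hD
    rw [Nat.succ_mul] at h
    omega

/-- **From a tuple over an extension field to the field of constants.** -/
theorem ncrk_common [CharZero K] {F : Type u} [Field F] [Algebra K F] {N : ℕ} (hN : 0 < N)
    (A0 : Matrix (Fin s) (Fin s) K) (A : Fin n → Matrix (Fin s) (Fin s) K)
    {κ : Type} [Fintype κ] [DecidableEq κ] (D0 : Matrix κ κ K) (D : Fin n → Matrix κ κ K)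
    (Y : Fin n → Matrix (Fin N) (Fin N) F) (r : ℕ) (h : r * N < rkAt A0 A Y + N)
    (hD : IsUnit (penG D0 D Y)) :
    ∃ (ι : Type) (_ : Fintype ι) (_ : DecidableEq ι) (P : Matrix ι (Fin s) K)
      (Q : Matrix (Fin s) ι K) (S : ℕ) (e : Fin S ≃ ι ⊕ κ),
      Fintype.card ι = r ∧ S = r + Fintype.card κ ∧
      NcRk (Fin.cons ((Matrix.fromBlocks (P * A0 * Q) 0 0 D0).submatrix e e)
        (fun i => (Matrix.fromBlocks (P * A i * Q) 0 0 (D i)).submatrix e e) :
          Fin (n + 1) → Matrix (Fin S) (Fin S) K) S := by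
  obtain ⟨ι, i1, i2, P, Q, Z, hc, h1, h2⟩ := common_comp' hN A0 A D0 D Y r h hD
  refine ⟨ι, i1, i2, P, Q, Fintype.card (ι ⊕ κ), (Fintype.equivFin (ι ⊕ κ)).symm, hc, ?_, ?_⟩
  · rw [Fintype.card_sum, hc]
  · refine ncrk_of_unit hN _ _ Z ?_
    have h3 : ∀ e : Fin (Fintype.card (ι ⊕ κ)) ≃ ι ⊕ κ,
        penG ((Matrix.fromBlocks (P * A0 * Q) 0 0 D0).submatrix e e)
        (fun i => (Matrix.fromBlocks (P * A i * Q) 0 0 (D i)).submatrix e e) Z =
        (penG (Matrix.fromBlocks (P * A0 * Q) 0 0 D0)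
          (fun i => Matrix.fromBlocks (P * A i * Q) 0 0 (D i)) Z).submatrix e e := by
      intro e
      ext1 x y
      rfl
    rw [h3, isUnit_submatrix, penG_sum, isUnit_fromBlocks]
    exact ⟨h1, h2⟩

end Pool.Agent.BNR
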