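import Mathlib
import Pool.Agent.BNR.FormD
import Pool.Agent.NCS.Pen4

/-!
BNR: linear matrices over `K` of full noncommutative rank, explicit tuples over an extension field.
-/

set_option autoImplicit false

namespace Pool.Agent.BNR

open Matrix Pool.Agent.NCP Pool.Agent.NCR Pool.Agent.NCS

universe u

variable {K : Type u} [Field K] {n : ℕ} {L : Type u} [Field L] [Algebra K L]

theorem T_map (N t e : ℕ) :
    (T (2 : K) (t : K) N e).map (algebraMap K L) = T (2 : L) (t : L) N e := by
  ext a b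
  rw [Matrix.map_apply, T, T, map_sum]
  refine Finset.sum_congr rfl fun r _ => ?_
  rw [map_mul, map_pow, map_pow, map_natCast, map_ofNat]

theorem X0_map [CharZero K] (N t : ℕ) (ht : 0 < t) (i : Fin n) :
    (X0 K N t i).map (algebraMap K L) = X0 L N t i := by
  have hu : IsUnit (T (2 : K) (t : K) N 0).det := by
    refine T_zero_unit _ _ _ (Nat.cast_ne_zero.2 ht.ne') fun i j _ _ h => ?_
    have h1 : ((2 ^ i : ℕ) : K) = ((2 ^ j : ℕ) : K) := by push_cast; exact h
    exact Nat.pow_right_injective le_rfl (Nat.cast_injective h1)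
  have h1 : (T (2 : L) (t : L) N 0)⁻¹ = ((T (2 : K) (t : K) N 0)⁻¹).map (algebraMap K L) := by
    refine Matrix.inv_eq_right_inv ?_
    rw [← T_map (K := K), ← Matrix.map_mul, Matrix.mul_nonsing_inv _ hu,
      Matrix.map_one _ (map_zero _) (map_one _)]
  rw [X0, X0, h1, Matrix.map_mul, T_map]

/-- **Full linear matrices over `K` are invertible at explicit tuples over `L`.** -/
theorem hitL [CharZero K] {N : ℕ} [NeZero N] (ζ : L) (hζ : IsPrimitiveRoot ζ N) {S : ℕ}
    (hN : 2 * ((n + 1) * S ^ 2) < N) (G0 : Matrix (Fin S) (Fin S) K)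
    (G : Fin n → Matrix (Fin S) (Fin S) K)
    (h : NcRk (Fin.cons G0 G : Fin (n + 1) → Matrix (Fin S) (Fin S) K) S) :
    ∃ t a b : ℕ, 1 ≤ t ∧ t ≤ S * N * N + 1 ∧ a ≤ S * N * N ∧ b ≤ S * N * N ∧
      IsUnit (penG G0 G (XT L N ζ t a b)) := by
  have cL : CharZero L := charZero_of_injective_algebraMap (algebraMap K L).injective
  rcases Nat.eq_zero_or_pos S with hs | hs
  · subst hs
    exact ⟨1, 0, 0, le_rfl, by omega, Nat.zero_le _, Nat.zero_le _, isUnit_of_subsingleton _⟩
  · obtain ⟨t, h1, h2, h3⟩ := fromThm1 (N := N) G0 G hs hN h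
    have h4 := h3.trans_le (rkAt_ext (L := L) G0 G (X0 K N t))
    have h5 : (fun i : Fin n => (X0 K N t i).map (algebraMap K L)) = X0 L N t :=
      funext fun i => X0_map N t (by omega) i
    rw [h5, ← rkAt_mp] at h4
    obtain ⟨a, b, h6, h7, h8⟩ := twist_grid ζ hζ (X0 L N t) (G0.map (algebraMap K L))
      (fun i => (G i).map (algebraMap K L)) (S - 1) h4
    refine ⟨t, a, b, h1, h2, h6, h7, ?_⟩
    rw [rkAt_mp] at h8
    rw [← isUnit_comp]
    refine isUnit_of_rank _ ?_
    rw [Fintype.card_prod, Fintype.card_fin, Fintype.card_fin]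
    have h9 : S - 1 + 1 = S := by omega
    rw [h9] at h8
    exact h8

end Pool.Agent.BNR
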