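import Mathlib
import Pool.Agent.NCP.Form
import Pool.Agent.NCS.Rank
import Pool.Agent.BNR.FormA
import Pool.Agent.BNR.OmA

/-!
BNR: linearisation of matrices of rational formulas.
-/

set_option autoImplicit false

namespace Pool.Agent.BNR

open Matrix Pool.Agent.NCP Pool.Agent.NCR Pool.Agent.NCS

universe u

variable {K : Type u} [Field K] {n : ℕ}

/-- One linear matrix for a list of formulas: invertible exactly where all are defined. -/
theorem list_pen (l : List (RExp K n)) : ∃ (ι : Type) (_ : Fintype ι) (_ : DecidableEq ι)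
    (A0 : Matrix ι ι K) (A : Fin n → Matrix ι ι K),
      Fintype.card ι ≤ 2 * (l.map RExp.size).sum ^ 2 ∧
      ∀ (R : Type u) [Ring R] [Algebra K R] (Y : Fin n → R),
        IsUnit (penG A0 A Y) ↔ ∀ φ ∈ l, φ.Defined Y := by
  induction l with
  | nil =>
    refine ⟨Fin 0, inferInstance, inferInstance, 0, 0, by simp, fun R _ _ Y => ?_⟩
    exact ⟨fun _ φ h => absurd h (List.not_mem_nil), fun _ => isUnit_of_subsingleton _⟩
  | cons φ l ih =>
    obtain ⟨ι, i1, i2, A0, A, hc, hA⟩ := exists_pen φ
    obtain ⟨κ, j1, j2, B0, B, hd, hB⟩ := ih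
    refine ⟨ι ⊕ κ, inferInstance, inferInstance, Matrix.fromBlocks A0 0 0 B0,
      fun i => Matrix.fromBlocks (A i) 0 0 (B i), ?_, fun R _ _ Y => ?_⟩
    · rw [Fintype.card_sum, List.map_cons, List.sum_cons]
      have e1 : 2 * (φ.size + (l.map RExp.size).sum) ^ 2 = 2 * φ.size ^ 2 +
          2 * (l.map RExp.size).sum ^ 2 + 4 * (φ.size * (l.map RExp.size).sum) := by ring
      omega
    · rw [penG_sum, isUnit_fromBlocks, hA, hB, List.forall_mem_cons]

/-- **Linearisation of a matrix of formulas.** -/
theorem lin_mat {I J : Type} [Fintype I] [DecidableEq I] [Fintype J] [DecidableEq J]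
    (Φ : I → J → RExp K n) :
    ∃ (ι : Type) (_ : Fintype ι) (_ : DecidableEq ι) (A0 : Matrix ι ι K)
      (A : Fin n → Matrix ι ι K) (U : Matrix I ι K) (V : Matrix ι J K),
      Fintype.card ι ≤ 2 * ∑ x : I × J, (Φ x.1 x.2).size ∧
      ∀ (R : Type u) [Ring R] [Algebra K R] (Y : Fin n → R), (∀ i j, (Φ i j).Defined Y) →
        ∃ B : Matrix ι ι R, penG A0 A Y * B = 1 ∧ B * penG A0 A Y = 1 ∧
          U.map (algebraMap K R) * B * V.map (algebraMap K R) =
            Matrix.of fun i j => (Φ i j).eval Y := by
  choose κ k1 k2 C0 C u v hc hC using fun x : I × J => linearise (Φ x.1 x.2)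
  refine ⟨Σ x : I × J, κ x, inferInstance, inferInstance, Matrix.blockDiagonal' C0,
    fun i => Matrix.blockDiagonal' fun x => C x i,
    Matrix.of fun i y => if i = y.1.1 then u y.1 y.2 else 0,
    Matrix.of fun y j => if y.1.2 = j then v y.1 y.2 else 0, ?_, ?_⟩
  · rw [Fintype.card_sigma, Finset.mul_sum]
    exact Finset.sum_le_sum fun x _ => hc x
  · intro R _ _ Y hY
    choose B b1 b2 b3 using fun x : I × J => hC x R Y (hY x.1 x.2)
    have hp : penG (Matrix.blockDiagonal' C0) (fun i => Matrix.blockDiagonal' fun x => C x i) Y =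
        Matrix.blockDiagonal' fun x => penG (C0 x) (C x) Y := by
      ext ⟨x, a⟩ ⟨y, b⟩
      by_cases h : x = y
      · subst h
        rw [Matrix.blockDiagonal'_apply_eq, penG, penG, Matrix.of_apply, Matrix.of_apply,
          Matrix.blockDiagonal'_apply_eq]
        congr 1
        refine Finset.sum_congr rfl fun i _ => ?_
        rw [Matrix.blockDiagonal'_apply_eq]
      · rw [Matrix.blockDiagonal'_apply_ne _ _ _ h, penG, Matrix.of_apply,
          Matrix.blockDiagonal'_apply_ne _ _ _ h, map_zero, zero_add]
        refine Finset.sum_eq_zero fun i _ => ?_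
        rw [Matrix.blockDiagonal'_apply_ne _ _ _ h, zero_smul]
    refine ⟨Matrix.blockDiagonal' B, ?_, ?_, ?_⟩
    · rw [hp, ← Matrix.blockDiagonal'_mul]
      have e1 : (fun x => penG (C0 x) (C x) Y * B x) = 1 := funext b1
      rw [e1, Matrix.blockDiagonal'_one]
    · rw [hp, ← Matrix.blockDiagonal'_mul]
      have e1 : (fun x => B x * penG (C0 x) (C x) Y) = 1 := funext b2
      rw [e1, Matrix.blockDiagonal'_one]
    · ext i j
      rw [Matrix.of_apply]
      have h3 : ∑ b, (∑ a, algebraMap K R (u (i, j) a) * B (i, j) a b) *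
          algebraMap K R (v (i, j) b) = (Φ i j).eval Y := by
        have h4 := congrFun (congrFun (b3 (i, j)) ()) ()
        rw [oneM, Matrix.of_apply, Matrix.mul_apply] at h4
        rw [← h4]
        refine Finset.sum_congr rfl fun b _ => ?_
        rw [Matrix.mul_apply]
        rfl
      rw [← h3, Matrix.mul_apply, Fintype.sum_sigma]
      rw [Finset.sum_eq_single (i, j)]
      · refine Finset.sum_congr rfl fun b _ => ?_
        rw [Matrix.map_apply, Matrix.of_apply, if_pos rfl]
        congr 1
        rw [Matrix.mul_apply, Fintype.sum_sigma, Finset.sum_eq_single (i, j)]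
        · refine Finset.sum_congr rfl fun a _ => ?_
          rw [Matrix.map_apply, Matrix.of_apply, if_pos rfl, Matrix.blockDiagonal'_apply_eq]
        · intro x _ hx
          refine Finset.sum_eq_zero fun a _ => ?_
          rw [Matrix.blockDiagonal'_apply_ne _ _ _ hx, mul_zero]
        · intro h
          exact absurd (Finset.mem_univ _) h
      · intro x _ hx
        refine Finset.sum_eq_zero fun b _ => ?_
        by_cases hx2 : x.2 = j
        · have hx1 : ¬ i = x.1 := fun h => hx (Prod.ext h.symm hx2)
          have h5 : ((Matrix.of fun i (y : Σ x : I × J, κ x) =>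
              if i = y.1.1 then u y.1 y.2 else 0).map (algebraMap K R) *
              Matrix.blockDiagonal' B) i ⟨x, b⟩ = 0 := by
            rw [Matrix.mul_apply, Fintype.sum_sigma]
            refine Finset.sum_eq_zero fun y _ => Finset.sum_eq_zero fun a _ => ?_
            by_cases hyx : y = x
            · subst hyx
              rw [Matrix.map_apply, Matrix.of_apply, if_neg hx1, map_zero, zero_mul]
            · rw [Matrix.blockDiagonal'_apply_ne _ _ _ hyx, mul_zero]
          rw [h5, zero_mul]
        · rw [Matrix.map_apply, Matrix.of_apply, if_neg hx2, map_zero, mul_zero]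
      · intro h
        exact absurd (Finset.mem_univ _) h

/-- The rank of a bordered matrix. -/
theorem rank_border {F : Type*} [Field F] {a b c : Type*} [Fintype a] [Fintype b] [Fintype c]
    [DecidableEq a] [DecidableEq b] [DecidableEq c] (P G : Matrix a a F) (h : P * G = 1)
    (V : Matrix a c F) (U : Matrix b a F) :
    (Matrix.fromBlocks P V U 0).rank = Fintype.card a + (U * G * V).rank := by
  have h1 := rank_schur (fun _ : a => (-1 : F)) (fun _ => neg_ne_zero.2 one_ne_zero) U (G * V) 0
  have h2 : -Matrix.diagonal (fun _ : a => (-1 : F)) = 1 := by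
    ext i j
    rw [Matrix.neg_apply, Matrix.diagonal_apply, Matrix.one_apply]
    split_ifs <;> simp
  have h3 : Matrix.diagonal (fun _ : a => (-1 : F)⁻¹) = -1 := by
    ext i j
    rw [Matrix.neg_apply, Matrix.diagonal_apply, Matrix.one_apply]
    split_ifs <;> simp
  rw [h2, h3, zero_add, Matrix.mul_neg, Matrix.mul_one, Matrix.neg_mul, ← Matrix.mul_assoc] at h1
  have h4 : (-(U * G * V)).rank = (U * G * V).rank := by
    have h5 := Matrix.rank_mul_eq_right_of_isUnit_det (-1 : Matrix b b F) (U * G * V) (by
      rw [Matrix.det_neg, Matrix.det_one, mul_one]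
      exact (isUnit_one.neg).pow _)
    rwa [Matrix.neg_mul, Matrix.one_mul] at h5
  rw [h4] at h1
  rw [← h1]
  have h6 : Matrix.fromBlocks P V U (0 : Matrix b c F) =
      Matrix.fromBlocks P 0 0 (1 : Matrix b b F) * Matrix.fromBlocks 1 (G * V) U 0 := by
    rw [Matrix.fromBlocks_multiply, Matrix.mul_one, Matrix.zero_mul, add_zero, Matrix.mul_zero,
      add_zero, Matrix.zero_mul, zero_add, Matrix.zero_mul, zero_add, Matrix.one_mul,
      Matrix.one_mul, ← Matrix.mul_assoc, h, Matrix.one_mul]
  rw [h6, Matrix.rank_mul_eq_right_of_isUnit_det]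
  rw [Matrix.det_fromBlocks_zero₂₁, Matrix.det_one, mul_one]
  exact Matrix.isUnit_det_of_right_inverse h

end Pool.Agent.BNR
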