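import Mathlib
import Pool.Agent.BNR.MatB
import Pool.Agent.BNR.MatC
import Pool.Agent.BNR.MatD

/-!
BNR: matrices of rational formulas of any inversion height: exact ranks at explicit tuples.
-/

set_option autoImplicit false

namespace Pool.Agent.BNR

open Matrix Pool.Agent.NCP Pool.Agent.NCR Pool.Agent.NCS

universe u

variable {K : Type u} [Field K] {n : ℕ}

/-- The value of a matrix of formulas at a tuple of `N × N` matrices over `F`, as one matrix over
`F`. -/
noncomputable def valM {F : Type*} [Field F] [Algebra K F] {p q N : ℕ}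
    (Φ : Fin p → Fin q → RExp K n) (Y : Fin n → Matrix (Fin N) (Fin N) F) :
    Matrix (Fin p × Fin N) (Fin q × Fin N) F :=
  fun x y => (Φ x.1 y.1).eval Y x.2 y.2

theorem rank_corner {F : Type*} [Field F] {a b c d : Type*} [Fintype a] [Fintype b] [Fintype c]
    [Fintype d] [DecidableEq a] [DecidableEq d] (M : Matrix a d F) :
    (Matrix.fromBlocks (0 : Matrix a c F) M 0 (0 : Matrix b d F)).rank = M.rank := by
  refine le_antisymm ?_ ?_
  · have h1 : Matrix.fromBlocks (0 : Matrix a c F) M 0 (0 : Matrix b d F) =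
        Matrix.fromRows (1 : Matrix a a F) (0 : Matrix b a F) * M *
          Matrix.fromCols (0 : Matrix d c F) (1 : Matrix d d F) := by
      ext i j
      rcases i with i | i <;> rcases j with j | j <;>
        simp [Matrix.fromRows_mul, Matrix.mul_fromCols]
    rw [h1]
    exact (Matrix.rank_mul_le_left _ _).trans (Matrix.rank_mul_le_right _ _)
  · exact Matrix.rank_submatrix_le
      (Matrix.fromBlocks (0 : Matrix a c F) M 0 (0 : Matrix b d F)) Sum.inl Sum.inr

section bord

variable {ι : Type} [Fintype ι] [DecidableEq ι] {p q : ℕ}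

/-- The rank of the bordered linear matrix. -/
theorem bord_rank {F : Type*} [Field F] [Algebra K F] {N S : ℕ} (e : Fin S ≃ ι ⊕ (Fin p ⊕ Fin q))
    (A0 : Matrix ι ι K) (A : Fin n → Matrix ι ι K) (U : Matrix (Fin p) ι K)
    (V : Matrix ι (Fin q) K) (Y : Fin n → Matrix (Fin N) (Fin N) F)
    (G : Matrix ι ι (Matrix (Fin N) (Fin N) F)) (h1 : penG A0 A Y * G = 1)
    (W : Matrix (Fin p) (Fin q) (Matrix (Fin N) (Fin N) F))
    (hW : U.map (algebraMap K (Matrix (Fin N) (Fin N) F)) * G *
      V.map (algebraMap K (Matrix (Fin N) (Fin N) F)) = W) :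
    rkAt ((Matrix.fromBlocks A0 (Matrix.fromCols (0 : Matrix ι (Fin p) K) V)
        (Matrix.fromRows U (0 : Matrix (Fin q) ι K)) 0).submatrix e e)
      (fun i => (Matrix.fromBlocks (A i) 0 0 0).submatrix e e) Y =
      Fintype.card ι * N + (Matrix.comp (Fin p) (Fin q) (Fin N) (Fin N) F W).rank := by
  set f := algebraMap K (Matrix (Fin N) (Fin N) F) with hf
  have e1 : penG ((Matrix.fromBlocks A0 (Matrix.fromCols (0 : Matrix ι (Fin p) K) V)
        (Matrix.fromRows U (0 : Matrix (Fin q) ι K)) 0).submatrix e e)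
      (fun i => (Matrix.fromBlocks (A i) 0 0 0).submatrix e e) Y =
      (Matrix.fromBlocks (penG A0 A Y) ((Matrix.fromCols (0 : Matrix ι (Fin p) K) V).map f)
        ((Matrix.fromRows U (0 : Matrix (Fin q) ι K)).map f) 0).submatrix e e := by
    have h2 := penG_blocks A0 A (0 : Matrix (Fin p ⊕ Fin q) (Fin p ⊕ Fin q) K) (fun _ => 0)
      (Matrix.fromCols (0 : Matrix ι (Fin p) K) V) (Matrix.fromRows U (0 : Matrix (Fin q) ι K)) Y
    have h3 : penG (0 : Matrix (Fin p ⊕ Fin q) (Fin p ⊕ Fin q) K) (fun _ => 0) Y = 0 := by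
      ext1 x y
      simp [penG]
    rw [h3] at h2
    rw [← h2]
    rfl
  have e2 : Matrix.comp (Fin S) (Fin S) (Fin N) (Fin N) F
      ((Matrix.fromBlocks (penG A0 A Y) ((Matrix.fromCols (0 : Matrix ι (Fin p) K) V).map f)
        ((Matrix.fromRows U (0 : Matrix (Fin q) ι K)).map f) 0).submatrix e e) =
      (Matrix.fromBlocks (Matrix.comp _ _ _ _ F (penG A0 A Y))
        (Matrix.comp _ _ _ _ F ((Matrix.fromCols (0 : Matrix ι (Fin p) K) V).map f))
        (Matrix.comp _ _ _ _ F ((Matrix.fromRows U (0 : Matrix (Fin q) ι K)).map f))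
        0).submatrix ((e.prodCongr (Equiv.refl (Fin N))).trans (Equiv.sumProdDistrib _ _ _))
        ((e.prodCongr (Equiv.refl (Fin N))).trans (Equiv.sumProdDistrib _ _ _)) := by
    ext ⟨a, x⟩ ⟨b, y⟩
    rw [Matrix.comp_apply, Matrix.submatrix_apply, Matrix.submatrix_apply, Equiv.trans_apply,
      Equiv.trans_apply]
    change _ = Matrix.fromBlocks _ _ _ _ (Equiv.sumProdDistrib _ _ _ (e a, x))
      (Equiv.sumProdDistrib _ _ _ (e b, y))
    change (Matrix.fromBlocks _ _ _ _ (e a) (e b) : Matrix (Fin N) (Fin N) F) x y = _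
    generalize e a = a'
    generalize e b = b'
    rcases a' with a' | a' <;> rcases b' with b' | b' <;> rfl
  have h4 : Matrix.comp _ _ _ _ F (penG A0 A Y) * Matrix.comp _ _ _ _ F G =
      (1 : Matrix (ι × Fin N) (ι × Fin N) F) := by
    rw [← comp_mul_rect, h1]
    exact (Matrix.compRingEquiv ι (Fin N) F).map_one
  rw [rkAt, e1, e2, Matrix.rank_submatrix, rank_border _ _ h4, Fintype.card_prod, Fintype.card_fin,
    ← comp_mul_rect, ← comp_mul_rect]
  congr 1
  have h5 : (Matrix.fromRows U (0 : Matrix (Fin q) ι K)).map f * G *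
      (Matrix.fromCols (0 : Matrix ι (Fin p) K) V).map f =
      Matrix.fromBlocks 0 W 0 0 := by
    have h6 : (Matrix.fromRows U (0 : Matrix (Fin q) ι K)).map f =
        Matrix.fromRows (U.map f) 0 := by
      ext1 x y
      rcases x with x | x
      · rfl
      · exact map_zero f
    have h7 : (Matrix.fromCols (0 : Matrix ι (Fin p) K) V).map f =
        Matrix.fromCols 0 (V.map f) := by
      ext1 x y
      rcases y with y | y
      · exact map_zero f
      · rfl
    rw [h6, h7, Matrix.fromRows_mul, Matrix.fromRows_mul_fromCols, hW]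
    simp
  rw [h5]
  have h8 : Matrix.comp (Fin p ⊕ Fin q) (Fin p ⊕ Fin q) (Fin N) (Fin N) F
      (Matrix.fromBlocks (0 : Matrix (Fin p) (Fin p) (Matrix (Fin N) (Fin N) F)) W 0
        (0 : Matrix (Fin q) (Fin q) (Matrix (Fin N) (Fin N) F))) =
      (Matrix.fromBlocks 0 (Matrix.comp _ _ _ _ F W) 0 0).submatrix
        (Equiv.sumProdDistrib _ _ _) (Equiv.sumProdDistrib _ _ _) := by
    ext ⟨a, x⟩ ⟨b, y⟩
    rcases a with a | a <;> rcases b with b | b <;> rfl
  rw [h8, Matrix.rank_submatrix]
  exact rank_corner _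

end bord

end Pool.Agent.BNR
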