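import Mathlib
import Pool.Agent.BNR.MatE

/-!
BNR: the rank of a matrix of rational formulas of any inversion height at explicit tuples.
-/

set_option autoImplicit false

namespace Pool.Agent.BNR

open Matrix Pool.Agent.NCP Pool.Agent.NCR Pool.Agent.NCS

universe u

variable {K : Type u} [Field K] {n : ℕ}

theorem valM_eq {F : Type*} [Field F] [Algebra K F] {p q N : ℕ}
    (Φ : Fin p → Fin q → RExp K n) (Y : Fin n → Matrix (Fin N) (Fin N) F) :
    Matrix.comp (Fin p) (Fin q) (Fin N) (Fin N) F (Matrix.of fun i j => (Φ i j).eval Y) =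
      valM Φ Y := by
  ext ⟨i, x⟩ ⟨j, y⟩
  rfl

/-- The size of the linear matrix. -/
theorem size_bound (s c k r p q : ℕ) (hc : c ≤ 2 * s) (hk : k ≤ 2 * s ^ 2)
    (hr : r ≤ p) (hpq : p * q ≤ s) (hq : r = 0 ∨ 1 ≤ q) : c + r + k ≤ 2 * (s + 1) ^ 2 := by
  have h1 : r ≤ s := by
    rcases hq with h | h
    · omega
    · calc r ≤ p * 1 := by omega
        _ ≤ p * q := Nat.mul_le_mul_left p h
        _ ≤ s := hpq
  nlinarith

/-- **Matrices of rational formulas.** -/
theorem mat_final [CharZero K] {F L : Type u} [Field F] [Algebra K F] [Field L] [Algebra K L]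
    {N : ℕ} [NeZero N] (ζ : L) (hζ : IsPrimitiveRoot ζ N) {p q s : ℕ}
    (Φ : Fin p → Fin q → RExp K n) (hs : ∑ i, ∑ j, (Φ i j).size ≤ s)
    (hN : 8 * (n + 1) * (s + 1) ^ 4 < N) {d : ℕ} (Y : Fin n → Matrix (Fin d) (Fin d) F)
    (hY : ∀ i j, (Φ i j).Defined Y) (r : ℕ) (hr : r * d < (valM Φ Y).rank + d) :
    ∃ t a b : ℕ, 1 ≤ t ∧ t ≤ 2 * (s + 1) ^ 2 * N * N + 1 ∧ a ≤ 2 * (s + 1) ^ 2 * N * N ∧
      b ≤ 2 * (s + 1) ^ 2 * N * N ∧ (∀ i j, (Φ i j).Defined (XT L N ζ t a b)) ∧
      r * N ≤ (valM Φ (XT L N ζ t a b)).rank := by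
  classical
  have hd : 0 < d := by
    rcases Nat.eq_zero_or_pos d with h | h
    · exfalso
      subst h
      have h1 := Matrix.rank_le_card_width (valM Φ Y)
      rw [Fintype.card_prod, Fintype.card_fin, Fintype.card_fin, Nat.mul_zero] at h1
      omega
    · exact h
  -- the linear matrices
  obtain ⟨ι, i1, i2, A0, A, U, V, hc, hA⟩ := lin_mat Φ
  set l : List (RExp K n) := (Finset.univ : Finset (Fin p × Fin q)).toList.map
    (fun x => Φ x.1 x.2) with hl
  obtain ⟨κ, k1, k2, D0, D, hk, hD⟩ := list_pen l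
  have hmem : ∀ (R : Type u) [Ring R] [Algebra K R] (Z : Fin n → R),
      (∀ φ ∈ l, φ.Defined Z) ↔ ∀ i j, (Φ i j).Defined Z := by
    intro R _ _ Z
    rw [hl]
    constructor
    · intro h i j
      exact h _ (List.mem_map.2 ⟨(i, j), Finset.mem_toList.2 (Finset.mem_univ _), rfl⟩)
    · intro h φ hφ
      obtain ⟨x, -, rfl⟩ := List.mem_map.1 hφ
      exact h _ _
  have hsum : ∑ x : Fin p × Fin q, (Φ x.1 x.2).size ≤ s := by
    rw [Fintype.sum_prod_type]
    exact hs
  have hlsum : (l.map RExp.size).sum ≤ s := by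
    rw [hl, List.map_map]
    have h1 := Finset.sum_map_toList (Finset.univ : Finset (Fin p × Fin q))
      (RExp.size ∘ fun x => Φ x.1 x.2)
    rw [h1]
    exact hsum
  -- at `Y`
  obtain ⟨G, g1, g2, g3⟩ := hA _ Y hY
  let e := (Fintype.equivFin (ι ⊕ (Fin p ⊕ Fin q))).symm
  have h1 := bord_rank e A0 A U V Y G g1 _ g3
  rw [valM_eq] at h1
  obtain ⟨ι', j1, j2, P, Q, S, e', hc', hS, hnc⟩ := ncrk_common (K := K) hd
    ((Matrix.fromBlocks A0 (Matrix.fromCols (0 : Matrix ι (Fin p) K) V)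
        (Matrix.fromRows U (0 : Matrix (Fin q) ι K)) 0).submatrix e e)
    (fun i => (Matrix.fromBlocks (A i) 0 0 0).submatrix e e) D0 D Y (Fintype.card ι + r) (by
      rw [h1, Nat.add_mul]
      omega) ((hD _ Y).2 ((hmem _ Y).2 hY))
  -- bounds
  have hpq : p * q ≤ s := by
    calc p * q = ∑ _x : Fin p × Fin q, 1 := by
          rw [Finset.sum_const, Finset.card_univ, Fintype.card_prod, Fintype.card_fin,
            Fintype.card_fin, smul_eq_mul, mul_one]
      _ ≤ ∑ x : Fin p × Fin q, (Φ x.1 x.2).size := by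
          refine Finset.sum_le_sum fun x _ => ?_
          cases Φ x.1 x.2 <;> simp [RExp.size]
      _ ≤ s := hsum
  have hrp : r ≤ p := by
    have h2 := Matrix.rank_le_card_height (valM Φ Y)
    rw [Fintype.card_prod, Fintype.card_fin, Fintype.card_fin] at h2
    by_contra hcon
    push Not at hcon
    have h3 : (p + 1) * d ≤ r * d := Nat.mul_le_mul_right d hcon
    rw [Nat.succ_mul] at h3
    omega
  have hrq : r = 0 ∨ 1 ≤ q := by
    have h2 := Matrix.rank_le_card_width (valM Φ Y)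
    rw [Fintype.card_prod, Fintype.card_fin, Fintype.card_fin] at h2
    rcases Nat.eq_zero_or_pos r with h3 | h3
    · exact Or.inl h3
    · right
      by_contra hcon
      have h4 : q * d = 0 := by
        have h6 : q = 0 := by omega
        rw [h6, Nat.zero_mul]
      have h5 : 1 * d ≤ r * d := Nat.mul_le_mul_right d h3
      omega
  have hSb : S ≤ 2 * (s + 1) ^ 2 := by
    rw [hS]
    refine size_bound s (Fintype.card ι) (Fintype.card κ) r p q ?_ ?_ hrp hpq hrq
    · exact hc.trans (Nat.mul_le_mul_left 2 hsum)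
    · exact hk.trans (Nat.mul_le_mul_left 2 (Nat.pow_le_pow_left hlsum 2))
  -- explicit tuples
  obtain ⟨t, a, b, t1, t2, ha, hb, hu⟩ := hitL (L := L) (N := N) ζ hζ
    (form_size n s S N hSb hN) _ _ hnc
  have h8 : S * N * N ≤ 2 * (s + 1) ^ 2 * N * N :=
    Nat.mul_le_mul_right N (Nat.mul_le_mul_right N hSb)
  have h3 : ∀ Z : Fin n → Matrix (Fin N) (Fin N) L,
      penG ((Matrix.fromBlocks (P * ((Matrix.fromBlocks A0
        (Matrix.fromCols (0 : Matrix ι (Fin p) K) V)
        (Matrix.fromRows U (0 : Matrix (Fin q) ι K)) 0).submatrix e e) * Q) 0 0 D0).submatrix e' e')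
      (fun i => (Matrix.fromBlocks (P * ((Matrix.fromBlocks (A i) 0 0 0).submatrix e e) * Q) 0 0
        (D i)).submatrix e' e') Z =
      (Matrix.fromBlocks (penG (P * ((Matrix.fromBlocks A0
        (Matrix.fromCols (0 : Matrix ι (Fin p) K) V)
        (Matrix.fromRows U (0 : Matrix (Fin q) ι K)) 0).submatrix e e) * Q)
        (fun i => P * ((Matrix.fromBlocks (A i) 0 0 0).submatrix e e) * Q) Z) 0 0
        (penG D0 D Z)).submatrix e' e' := by
    intro Z
    rw [← penG_sum]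
    ext1 x y
    rfl
  rw [h3, isUnit_submatrix, isUnit_fromBlocks] at hu
  obtain ⟨hu1, hu2⟩ := hu
  have hX : ∀ i j, (Φ i j).Defined (XT L N ζ t a b) := (hmem _ _).1 ((hD _ _).1 hu2)
  refine ⟨t, a, b, t1, t2.trans (Nat.add_le_add_right h8 1), ha.trans h8, hb.trans h8, hX, ?_⟩
  rw [penG_sandwich0] at hu1
  have h4 := rkAt_of_unit _ _ _ _ _ hu1
  obtain ⟨G', g1', g2', g3'⟩ := hA _ (XT L N ζ t a b) hX
  rw [bord_rank e A0 A U V (XT L N ζ t a b) G' g1' _ g3', valM_eq, hc', Nat.add_mul] at h4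
  exact Nat.le_of_add_le_add_left h4

end Pool.Agent.BNR
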