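import Mathlib
import Pool.Agent.NCP.RExp
import Pool.Agent.BNR.FormA

/-!
BNR: noncommutative rational matrix expressions and their linearisation.
-/

set_option autoImplicit false

namespace Pool.Agent.BNR

open Matrix Pool.Agent.NCP

universe u

/-- Noncommutative rational matrix expressions of format `p × q` in `n` variables over `K`: leaves
are affine linear matrices `A + ∑ i, x i • B i` of any format, gates are sums and products of
matrices and inversions of square matrices. -/
inductive MExp (K : Type u) (n : ℕ) : ℕ → ℕ → Type u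
  | lin {p q : ℕ} (A : Matrix (Fin p) (Fin q) K) (B : Fin n → Matrix (Fin p) (Fin q) K) :
      MExp K n p q
  | add {p q : ℕ} (a b : MExp K n p q) : MExp K n p q
  | mul {p q r : ℕ} (a : MExp K n p q) (b : MExp K n q r) : MExp K n p r
  | inv {p : ℕ} (a : MExp K n p p) : MExp K n p p

namespace MExp

variable {K : Type u} {n : ℕ}

/-- The size: every leaf and every gate of format `p × q` counts `p + q + 1`. -/
def size : {p q : ℕ} → MExp K n p q → ℕ
  | p, q, lin _ _ => p + q + 1
  | p, q, add a b => a.size + b.size + (p + q + 1)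
  | p, r, mul a b => a.size + b.size + (p + r + 1)
  | p, _, inv a => a.size + (p + p + 1)

/-- The value at elements `Y` of a `K`-algebra `R` (meaningful if the expression is defined). -/
noncomputable def eval [Field K] {R : Type*} [Ring R] [Algebra K R] (Y : Fin n → R) :
    {p q : ℕ} → MExp K n p q → Matrix (Fin p) (Fin q) R
  | _, _, lin A B => Matrix.of fun x y => algebraMap K R (A x y) + ∑ i, B i x y • Y i
  | _, _, add a b => a.eval Y + b.eval Y
  | _, _, mul a b => a.eval Y * b.eval Y
  | _, _, inv a => Ring.inverse (a.eval Y)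

/-- The expression is defined at `Y`: all inverted matrices are invertible. -/
def Defined [Field K] {R : Type*} [Ring R] [Algebra K R] (Y : Fin n → R) :
    {p q : ℕ} → MExp K n p q → Prop
  | _, _, lin _ _ => True
  | _, _, add a b => a.Defined Y ∧ b.Defined Y
  | _, _, mul a b => a.Defined Y ∧ b.Defined Y
  | _, _, inv a => a.Defined Y ∧ IsUnit (a.eval Y)

end MExp

variable {K : Type u} [Field K] {n : ℕ}

/-- A linear matrix represents a matrix at `Y`. -/
def RepM {ι : Type} [Fintype ι] [DecidableEq ι] {R : Type*} [Ring R] [Algebra K R]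
    (A0 : Matrix ι ι K) (A : Fin n → Matrix ι ι K) {p q : ℕ} (U : Matrix (Fin p) ι K)
    (V : Matrix ι (Fin q) K) (Y : Fin n → R) (X : Matrix (Fin p) (Fin q) R) : Prop :=
  ∃ G : Matrix ι ι R, penG A0 A Y * G = 1 ∧ G * penG A0 A Y = 1 ∧
    U.map (algebraMap K R) * G * V.map (algebraMap K R) = X

section comb

variable {ι κ : Type} [Fintype ι] [DecidableEq ι] [Fintype κ] [DecidableEq κ]
variable {R : Type*} [Ring R] [Algebra K R] {p q r : ℕ}

theorem map_fromCols' {a b c : Type*} (U : Matrix a b K) (V : Matrix a c K) :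
    (Matrix.fromCols U V).map (algebraMap K R) =
      Matrix.fromCols (U.map (algebraMap K R)) (V.map (algebraMap K R)) := by
  ext1 x y
  rcases y with y | y <;> rfl

theorem map_fromRows' {a b c : Type*} (U : Matrix a c K) (V : Matrix b c K) :
    (Matrix.fromRows U V).map (algebraMap K R) =
      Matrix.fromRows (U.map (algebraMap K R)) (V.map (algebraMap K R)) := by
  ext1 x y
  rcases x with x | x <;> rfl

theorem map_zero' {a b : Type*} : (0 : Matrix a b K).map (algebraMap K R) = 0 :=
  Matrix.map_zero _ (map_zero _)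

theorem map_one' {a : Type*} [DecidableEq a] : (1 : Matrix a a K).map (algebraMap K R) = 1 :=
  Matrix.map_one _ (map_zero _) (map_one _)

theorem repM_lin (A : Matrix (Fin p) (Fin q) K) (B : Fin n → Matrix (Fin p) (Fin q) K)
    (Y : Fin n → R) :
    RepM (Matrix.fromBlocks 1 (-A) 0 1) (fun i => Matrix.fromBlocks 0 (-(B i)) 0 0)
      (Matrix.fromCols (1 : Matrix (Fin p) (Fin p) K) (0 : Matrix (Fin p) (Fin q) K))
      (Matrix.fromRows (0 : Matrix (Fin p) (Fin q) K) (1 : Matrix (Fin q) (Fin q) K)) Y
      ((MExp.lin A B).eval Y) := by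
  set X := (MExp.lin A B).eval Y with hX
  have hp : penG (Matrix.fromBlocks 1 (-A) 0 1)
      (fun i => Matrix.fromBlocks 0 (-(B i)) 0 0) Y = Matrix.fromBlocks 1 (-X) 0 1 := by
    ext1 x y
    rcases x with x | x <;> rcases y with y | y
    · simp [penG, Matrix.one_apply, apply_ite (algebraMap K R)]
    · simp [penG, hX, MExp.eval]
      abel
    · simp [penG]
    · simp [penG, Matrix.one_apply, apply_ite (algebraMap K R)]
  refine ⟨Matrix.fromBlocks 1 X 0 1, ?_, ?_, ?_⟩
  · rw [hp, Matrix.fromBlocks_multiply, ← Matrix.fromBlocks_one]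
    simp
  · rw [hp, Matrix.fromBlocks_multiply, ← Matrix.fromBlocks_one]
    simp
  · simp only [map_fromCols', map_fromRows', map_one', map_zero']
    rw [Matrix.fromCols_mul_fromBlocks, Matrix.fromCols_mul_fromRows]
    simp

theorem repM_add (A0 : Matrix ι ι K) (A : Fin n → Matrix ι ι K) (B0 : Matrix κ κ K)
    (B : Fin n → Matrix κ κ K) (U : Matrix (Fin p) ι K) (V : Matrix ι (Fin q) K)
    (U' : Matrix (Fin p) κ K) (V' : Matrix κ (Fin q) K) (Y : Fin n → R)
    (X X' : Matrix (Fin p) (Fin q) R) (h : RepM A0 A U V Y X) (h' : RepM B0 B U' V' Y X') :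
    RepM (Matrix.fromBlocks A0 0 0 B0) (fun i => Matrix.fromBlocks (A i) 0 0 (B i))
      (Matrix.fromCols U U') (Matrix.fromRows V V') Y (X + X') := by
  obtain ⟨P, hP1, hP2, hP3⟩ := h
  obtain ⟨Q, hQ1, hQ2, hQ3⟩ := h'
  refine ⟨Matrix.fromBlocks P 0 0 Q, ?_, ?_, ?_⟩
  · rw [penG_blocks, Matrix.fromBlocks_multiply, map_zero', map_zero']
    simp [hP1, hQ1]
  · rw [penG_blocks, Matrix.fromBlocks_multiply, map_zero', map_zero']
    simp [hP2, hQ2]
  · rw [map_fromCols', map_fromRows', Matrix.fromCols_mul_fromBlocks,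
      Matrix.fromCols_mul_fromRows, ← hP3, ← hQ3]
    simp

theorem repM_mul (A0 : Matrix ι ι K) (A : Fin n → Matrix ι ι K) (B0 : Matrix κ κ K)
    (B : Fin n → Matrix κ κ K) (U : Matrix (Fin p) ι K) (V : Matrix ι (Fin q) K)
    (U' : Matrix (Fin q) κ K) (V' : Matrix κ (Fin r) K) (Y : Fin n → R)
    (X : Matrix (Fin p) (Fin q) R) (X' : Matrix (Fin q) (Fin r) R) (h : RepM A0 A U V Y X)
    (h' : RepM B0 B U' V' Y X') :
    RepM (Matrix.fromBlocks A0 (-(V * U')) 0 B0) (fun i => Matrix.fromBlocks (A i) 0 0 (B i))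
      (Matrix.fromCols U 0) (Matrix.fromRows 0 V') Y (X * X') := by
  obtain ⟨P, hP1, hP2, hP3⟩ := h
  obtain ⟨Q, hQ1, hQ2, hQ3⟩ := h'
  have hE : (-(V * U')).map (algebraMap K R) =
      -(V.map (algebraMap K R) * U'.map (algebraMap K R)) := by
    rw [← Matrix.map_mul]
    ext1 x y
    exact map_neg (algebraMap K R) _
  refine ⟨Matrix.fromBlocks P (P * (V.map (algebraMap K R) * U'.map (algebraMap K R)) * Q) 0 Q,
    ?_, ?_, ?_⟩
  · rw [penG_blocks, Matrix.fromBlocks_multiply, map_zero', hE]
    have e1 : penG A0 A Y * (P * (V.map (algebraMap K R) * U'.map (algebraMap K R)) * Q) +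
        -(V.map (algebraMap K R) * U'.map (algebraMap K R)) * Q = 0 := by
      rw [← Matrix.mul_assoc, ← Matrix.mul_assoc, hP1, Matrix.one_mul, Matrix.neg_mul,
        add_neg_cancel]
    rw [e1]
    simp [hP1, hQ1]
  · rw [penG_blocks, Matrix.fromBlocks_multiply, map_zero', hE]
    have e1 : P * -(V.map (algebraMap K R) * U'.map (algebraMap K R)) +
        P * (V.map (algebraMap K R) * U'.map (algebraMap K R)) * Q * penG B0 B Y = 0 := by
      rw [Matrix.mul_assoc _ Q, hQ2, Matrix.mul_one, Matrix.mul_neg, neg_add_cancel]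
    rw [e1]
    simp [hP2, hQ2]
  · rw [map_fromCols', map_fromRows', map_zero', map_zero', Matrix.fromCols_mul_fromBlocks,
      Matrix.fromCols_mul_fromRows, ← hP3, ← hQ3]
    simp only [Matrix.mul_zero, Matrix.zero_mul, zero_add, add_zero, Matrix.mul_assoc]

theorem repM_inv (A0 : Matrix ι ι K) (A : Fin n → Matrix ι ι K) (U : Matrix (Fin p) ι K)
    (V : Matrix ι (Fin p) K) (Y : Fin n → R) (x y : Matrix (Fin p) (Fin p) R)
    (h : RepM A0 A U V Y x) (hxy : x * y = 1) (hyx : y * x = 1) :
    RepM (Matrix.fromBlocks A0 V U (0 : Matrix (Fin p) (Fin p) K))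
      (fun i => Matrix.fromBlocks (A i) 0 0 0)
      (Matrix.fromCols (0 : Matrix (Fin p) ι K) (-1 : Matrix (Fin p) (Fin p) K))
      (Matrix.fromRows (0 : Matrix ι (Fin p) K) (1 : Matrix (Fin p) (Fin p) K)) Y y := by
  obtain ⟨P, hP1, hP2, hP3⟩ := h
  have h0 : penG (0 : Matrix (Fin p) (Fin p) K) (fun _ => 0) Y = 0 := by
    ext1 a b
    simp [penG]
  have hb : penG (Matrix.fromBlocks A0 V U (0 : Matrix (Fin p) (Fin p) K))
      (fun i => Matrix.fromBlocks (A i) 0 0 0) Y =
      Matrix.fromBlocks (penG A0 A Y) (V.map (algebraMap K R)) (U.map (algebraMap K R)) 0 := by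
    rw [← h0]
    exact penG_blocks A0 A (0 : Matrix (Fin p) (Fin p) K) (fun _ => 0) _ _ Y
  set v := V.map (algebraMap K R) with hv
  set u := U.map (algebraMap K R) with hu
  refine ⟨Matrix.fromBlocks (P - P * v * y * (u * P)) (P * v * y) (y * (u * P)) (-y), ?_, ?_, ?_⟩
  · rw [hb, Matrix.fromBlocks_multiply, ← Matrix.fromBlocks_one]
    have e1 : penG A0 A Y * (P - P * v * y * (u * P)) + v * (y * (u * P)) = 1 := by
      rw [Matrix.mul_sub, hP1]
      have : penG A0 A Y * (P * v * y * (u * P)) =
          (penG A0 A Y * P) * (v * (y * (u * P))) := by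
        simp only [Matrix.mul_assoc]
      rw [this, hP1, Matrix.one_mul, sub_add_cancel]
    have e2 : penG A0 A Y * (P * v * y) + v * -y = 0 := by
      have : penG A0 A Y * (P * v * y) = (penG A0 A Y * P) * (v * y) := by
        simp only [Matrix.mul_assoc]
      rw [this, hP1, Matrix.one_mul, Matrix.mul_neg, add_neg_cancel]
    have e3 : u * (P - P * v * y * (u * P)) + (0 : Matrix (Fin p) (Fin p) R) * (y * (u * P)) =
        0 := by
      rw [Matrix.mul_sub]
      have : u * (P * v * y * (u * P)) = (u * P * v) * y * (u * P) := by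
        simp only [Matrix.mul_assoc]
      rw [this, hP3, hxy, Matrix.one_mul, sub_self, Matrix.zero_mul, add_zero]
    have e4 : u * (P * v * y) + (0 : Matrix (Fin p) (Fin p) R) * -y = 1 := by
      have : u * (P * v * y) = (u * P * v) * y := by
        simp only [Matrix.mul_assoc]
      rw [this, hP3, hxy, Matrix.zero_mul, add_zero]
    rw [e1, e2, e3, e4]
  · rw [hb, Matrix.fromBlocks_multiply, ← Matrix.fromBlocks_one]
    have e1 : (P - P * v * y * (u * P)) * penG A0 A Y + P * v * y * u = 1 := by
      rw [Matrix.sub_mul, hP2]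
      have : P * v * y * (u * P) * penG A0 A Y = P * v * y * (u * (P * penG A0 A Y)) := by
        simp only [Matrix.mul_assoc]
      rw [this, hP2, Matrix.mul_one, sub_add_cancel]
    have e2 : (P - P * v * y * (u * P)) * v + P * v * y * (0 : Matrix (Fin p) (Fin p) R) = 0 := by
      rw [Matrix.sub_mul]
      have : P * v * y * (u * P) * v = P * v * (y * (u * P * v)) := by
        simp only [Matrix.mul_assoc]
      rw [this, hP3, hyx, Matrix.mul_one, sub_self, Matrix.mul_zero, add_zero]
    have e3 : y * (u * P) * penG A0 A Y + -y * u = 0 := by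
      have : y * (u * P) * penG A0 A Y = y * (u * (P * penG A0 A Y)) := by
        simp only [Matrix.mul_assoc]
      rw [this, hP2, Matrix.mul_one, Matrix.neg_mul, add_neg_cancel]
    have e4 : y * (u * P) * v + -y * (0 : Matrix (Fin p) (Fin p) R) = 1 := by
      have : y * (u * P) * v = y * (u * P * v) := by
        simp only [Matrix.mul_assoc]
      rw [this, hP3, hyx, Matrix.mul_zero, add_zero]
    rw [e1, e2, e3, e4]
  · rw [map_fromCols', map_fromRows', map_zero', map_zero', map_one',
      Matrix.fromCols_mul_fromBlocks, Matrix.fromCols_mul_fromRows]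
    have e5 : (-1 : Matrix (Fin p) (Fin p) K).map (algebraMap K R) = -1 := by
      ext1 a b
      rw [Matrix.map_apply, Matrix.neg_apply, Matrix.neg_apply, map_neg, Matrix.one_apply,
        Matrix.one_apply]
      split_ifs
      · rw [map_one]
      · rw [map_zero]
    rw [e5]
    simp

end comb

end Pool.Agent.BNR
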