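import Mathlib
import Pool.Agent.BNR.MxA

/-!
BNR: linear matrices for rational matrix expressions.
-/

set_option autoImplicit false

namespace Pool.Agent.BNR

open Matrix Pool.Agent.NCP

universe u

variable {K : Type u} [Field K] {n : ℕ}

/-- **Linearisation of a matrix expression.** -/
theorem lin_mexp {p q : ℕ} (e : MExp K n p q) :
    ∃ (ι : Type) (_ : Fintype ι) (_ : DecidableEq ι) (A0 : Matrix ι ι K)
      (A : Fin n → Matrix ι ι K) (U : Matrix (Fin p) ι K) (V : Matrix ι (Fin q) K),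
      Fintype.card ι ≤ e.size ∧ ∀ (R : Type u) [Ring R] [Algebra K R] (Y : Fin n → R),
        e.Defined Y → RepM A0 A U V Y (e.eval Y) := by
  induction e with
  | @lin p q A B =>
    refine ⟨Fin p ⊕ Fin q, inferInstance, inferInstance, _, _, _, _, ?_,
      fun R _ _ Y _ => repM_lin A B Y⟩
    rw [Fintype.card_sum, Fintype.card_fin, Fintype.card_fin, MExp.size]
    omega
  | add a b iha ihb =>
    obtain ⟨ι, i1, i2, A0, A, U, V, hc, hA⟩ := iha
    obtain ⟨κ, j1, j2, B0, B, U', V', hd, hB⟩ := ihb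
    refine ⟨ι ⊕ κ, inferInstance, inferInstance, _, _, _, _, ?_, fun R _ _ Y h =>
      repM_add A0 A B0 B U V U' V' Y _ _ (hA R Y h.1) (hB R Y h.2)⟩
    rw [Fintype.card_sum, MExp.size]
    omega
  | mul a b iha ihb =>
    obtain ⟨ι, i1, i2, A0, A, U, V, hc, hA⟩ := iha
    obtain ⟨κ, j1, j2, B0, B, U', V', hd, hB⟩ := ihb
    refine ⟨ι ⊕ κ, inferInstance, inferInstance, _, _, _, _, ?_, fun R _ _ Y h =>
      repM_mul A0 A B0 B U V U' V' Y _ _ (hA R Y h.1) (hB R Y h.2)⟩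
    rw [Fintype.card_sum, MExp.size]
    omega
  | @inv p a iha =>
    obtain ⟨ι, i1, i2, A0, A, U, V, hc, hA⟩ := iha
    refine ⟨ι ⊕ Fin p, inferInstance, inferInstance, _, _, _, _, ?_, fun R _ _ Y h =>
      repM_inv A0 A U V Y _ _ (hA R Y h.1) (Ring.mul_inverse_cancel _ h.2)
        (Ring.inverse_mul_cancel _ h.2)⟩
    rw [Fintype.card_sum, Fintype.card_fin, MExp.size]
    omega

/-- A bordered matrix is invertible if and only if the Schur complement is. -/
theorem isUnit_bord {ι κ R : Type*} [Fintype ι] [DecidableEq ι] [Fintype κ] [DecidableEq κ]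
    [Ring R] (A P : Matrix ι ι R) (B : Matrix ι κ R) (C : Matrix κ ι R) (h1 : A * P = 1)
    (h2 : P * A = 1) : IsUnit (Matrix.fromBlocks A B C 0) ↔ IsUnit (C * P * B) := by
  have hf : Matrix.fromBlocks A B C 0 = Matrix.fromBlocks 1 0 (C * P) 1 *
      Matrix.fromBlocks A 0 0 (-(C * P * B)) * Matrix.fromBlocks 1 (P * B) 0 1 := by
    rw [Matrix.fromBlocks_multiply, Matrix.fromBlocks_multiply]
    have e1 : C * P * A = C := by rw [Matrix.mul_assoc, h2, Matrix.mul_one]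
    have e2 : A * (P * B) = B := by rw [← Matrix.mul_assoc, h1, Matrix.one_mul]
    simp only [Matrix.one_mul, Matrix.zero_mul, Matrix.mul_zero, add_zero, zero_add,
      Matrix.mul_one, e1, e2]
    congr 1
    rw [← Matrix.mul_assoc, add_neg_cancel]
  have u1 : IsUnit (Matrix.fromBlocks (1 : Matrix ι ι R) 0 (C * P) (1 : Matrix κ κ R)) := by
    refine ⟨⟨Matrix.fromBlocks 1 0 (C * P) 1, Matrix.fromBlocks 1 0 (-(C * P)) 1, ?_, ?_⟩, rfl⟩
    · rw [Matrix.fromBlocks_multiply, ← Matrix.fromBlocks_one]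
      simp
    · rw [Matrix.fromBlocks_multiply, ← Matrix.fromBlocks_one]
      simp
  have u2 : IsUnit (Matrix.fromBlocks (1 : Matrix ι ι R) (P * B) 0 (1 : Matrix κ κ R)) := by
    refine ⟨⟨Matrix.fromBlocks 1 (P * B) 0 1, Matrix.fromBlocks 1 (-(P * B)) 0 1, ?_, ?_⟩, rfl⟩
    · rw [Matrix.fromBlocks_multiply, ← Matrix.fromBlocks_one]
      simp
    · rw [Matrix.fromBlocks_multiply, ← Matrix.fromBlocks_one]
      simp
  obtain ⟨w1, hw1⟩ := u1
  obtain ⟨w2, hw2⟩ := u2
  rw [hf, ← hw1, ← hw2, Units.isUnit_mul_units, Units.isUnit_units_mul, isUnit_fromBlocks,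
    IsUnit.neg_iff]
  exact ⟨fun h => h.2, fun h => ⟨⟨⟨A, P, h1, h2⟩, rfl⟩, h⟩⟩

theorem sq_le_sq3 (a b c : ℕ) : a ^ 2 + b ^ 2 ≤ (a + b + c) ^ 2 := by
  calc a ^ 2 + b ^ 2 ≤ (a + b) ^ 2 := by nlinarith [Nat.zero_le (a * b)]
    _ ≤ (a + b + c) ^ 2 := Nat.pow_le_pow_left (Nat.le_add_right _ _) 2

/-- **One linear matrix for all inversion gates**: it is invertible exactly where the expression
is defined. -/
theorem pen_mexp {p q : ℕ} (e : MExp K n p q) :
    ∃ (ι : Type) (_ : Fintype ι) (_ : DecidableEq ι) (A0 : Matrix ι ι K)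
      (A : Fin n → Matrix ι ι K), Fintype.card ι ≤ e.size ^ 2 ∧
      ∀ (R : Type u) [Ring R] [Algebra K R] (Y : Fin n → R),
        IsUnit (penG A0 A Y) ↔ e.Defined Y := by
  induction e with
  | lin A B =>
    refine ⟨Fin 0, inferInstance, inferInstance, 0, 0, by simp, fun R _ _ Y => ?_⟩
    exact ⟨fun _ => trivial, fun _ => isUnit_of_subsingleton _⟩
  | add a b iha ihb =>
    obtain ⟨ι, i1, i2, A0, A, hc, hA⟩ := iha
    obtain ⟨κ, j1, j2, B0, B, hd, hB⟩ := ihb
    refine ⟨ι ⊕ κ, inferInstance, inferInstance, Matrix.fromBlocks A0 0 0 B0,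
      fun i => Matrix.fromBlocks (A i) 0 0 (B i), ?_, fun R _ _ Y => ?_⟩
    · rw [Fintype.card_sum, MExp.size]
      exact (Nat.add_le_add hc hd).trans (sq_le_sq3 _ _ _)
    · rw [penG_sum, isUnit_fromBlocks, hA, hB, MExp.Defined]
  | mul a b iha ihb =>
    obtain ⟨ι, i1, i2, A0, A, hc, hA⟩ := iha
    obtain ⟨κ, j1, j2, B0, B, hd, hB⟩ := ihb
    refine ⟨ι ⊕ κ, inferInstance, inferInstance, Matrix.fromBlocks A0 0 0 B0,
      fun i => Matrix.fromBlocks (A i) 0 0 (B i), ?_, fun R _ _ Y => ?_⟩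
    · rw [Fintype.card_sum, MExp.size]
      exact (Nat.add_le_add hc hd).trans (sq_le_sq3 _ _ _)
    · rw [penG_sum, isUnit_fromBlocks, hA, hB, MExp.Defined]
  | @inv p a iha =>
    obtain ⟨ι, i1, i2, A0, A, hc, hA⟩ := iha
    obtain ⟨κ, j1, j2, B0, B, U, V, hd, hB⟩ := lin_mexp a
    refine ⟨ι ⊕ (κ ⊕ Fin p), inferInstance, inferInstance,
      Matrix.fromBlocks A0 0 0 (Matrix.fromBlocks B0 V U (0 : Matrix (Fin p) (Fin p) K)),
      fun i => Matrix.fromBlocks (A i) 0 0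
        (Matrix.fromBlocks (B i) 0 0 (0 : Matrix (Fin p) (Fin p) K)), ?_, fun R _ _ Y => ?_⟩
    · rw [Fintype.card_sum, Fintype.card_sum, Fintype.card_fin, MExp.size]
      nlinarith [Nat.zero_le (a.size * p)]
    · rw [penG_sum, isUnit_fromBlocks, hA, MExp.Defined]
      have h0 : penG (0 : Matrix (Fin p) (Fin p) K) (fun _ => 0) Y = 0 := by
        ext1 a b
        simp [penG]
      have hb : penG (Matrix.fromBlocks B0 V U (0 : Matrix (Fin p) (Fin p) K))
          (fun i => Matrix.fromBlocks (B i) 0 0 0) Y =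
          Matrix.fromBlocks (penG B0 B Y) (V.map (algebraMap K R)) (U.map (algebraMap K R)) 0 := by
        rw [← h0]
        exact penG_blocks B0 B (0 : Matrix (Fin p) (Fin p) K) (fun _ => 0) _ _ Y
      rw [hb]
      have key : a.Defined Y → (IsUnit (Matrix.fromBlocks (penG B0 B Y) (V.map (algebraMap K R))
          (U.map (algebraMap K R)) 0) ↔ IsUnit (a.eval Y)) := by
        intro h
        obtain ⟨G, g1, g2, g3⟩ := hB R Y h
        rw [isUnit_bord _ G _ _ g1 g2, g3]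
      constructor
      · rintro ⟨h1, h2⟩
        exact ⟨h1, (key h1).1 h2⟩
      · rintro ⟨h1, h2⟩
        exact ⟨h1, (key h1).2 h2⟩

end Pool.Agent.BNR
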