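import Mathlib
import Pool.Agent.BNR.MxB
import Pool.Agent.BNR.MatE

/-!
BNR: the rank of a rational matrix expression of any inversion height at explicit tuples.
-/

set_option autoImplicit false

namespace Pool.Agent.BNR

open Matrix Pool.Agent.NCP Pool.Agent.NCR Pool.Agent.NCS

universe u

variable {K : Type u} [Field K] {n : ℕ}

/-- The value at a tuple of `N × N` matrices over `F`, as one matrix over `F`. -/
noncomputable def MExp.val {F : Type*} [Field F] [Algebra K F] {p q N : ℕ} (e : MExp K n p q)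
    (Y : Fin n → Matrix (Fin N) (Fin N) F) : Matrix (Fin p × Fin N) (Fin q × Fin N) F :=
  fun x y => e.eval Y x.1 y.1 x.2 y.2

theorem val_eq {F : Type*} [Field F] [Algebra K F] {p q N : ℕ} (e : MExp K n p q)
    (Y : Fin n → Matrix (Fin N) (Fin N) F) :
    Matrix.comp (Fin p) (Fin q) (Fin N) (Fin N) F (e.eval Y) = e.val Y := by
  ext ⟨i, x⟩ ⟨j, y⟩
  rfl

omit [Field K] in
theorem le_size {p q : ℕ} (e : MExp K n p q) : p ≤ e.size := by
  cases e <;> rw [MExp.size] <;> omega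

theorem mx_size (n S s N : ℕ) (hS : S ≤ (s + 1) ^ 2) (hN : 2 * (n + 1) * (s + 1) ^ 4 < N) :
    2 * ((n + 1) * S ^ 2) < N := by
  refine lt_of_le_of_lt ?_ hN
  calc 2 * ((n + 1) * S ^ 2) ≤ 2 * ((n + 1) * ((s + 1) ^ 2) ^ 2) :=
        Nat.mul_le_mul_left 2 (Nat.mul_le_mul_left _ (Nat.pow_le_pow_left hS 2))
    _ = 2 * (n + 1) * (s + 1) ^ 4 := by ring

/-- **Rational matrix expressions.** -/
theorem mexp_final [CharZero K] {F L : Type u} [Field F] [Algebra K F] [Field L] [Algebra K L]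
    {N : ℕ} [NeZero N] (ζ : L) (hζ : IsPrimitiveRoot ζ N) {p q s : ℕ} (Φ : MExp K n p q)
    (hs : Φ.size ≤ s) (hN : 2 * (n + 1) * (s + 1) ^ 4 < N) {d : ℕ}
    (Y : Fin n → Matrix (Fin d) (Fin d) F) (hY : Φ.Defined Y) (r : ℕ)
    (hr : r * d < (Φ.val Y).rank + d) :
    ∃ t a b : ℕ, 1 ≤ t ∧ t ≤ (s + 1) ^ 2 * N ^ 2 + 1 ∧ a ≤ (s + 1) ^ 2 * N ^ 2 ∧
      b ≤ (s + 1) ^ 2 * N ^ 2 ∧ Φ.Defined (XT L N ζ t a b) ∧
      r * N ≤ (Φ.val (XT L N ζ t a b)).rank := by
  classical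
  have hd : 0 < d := by
    rcases Nat.eq_zero_or_pos d with h | h
    · exfalso
      subst h
      have h1 := Matrix.rank_le_card_width (Φ.val Y)
      rw [Fintype.card_prod, Fintype.card_fin, Fintype.card_fin, Nat.mul_zero] at h1
      omega
    · exact h
  obtain ⟨ι, i1, i2, A0, A, U, V, hc, hA⟩ := lin_mexp Φ
  obtain ⟨κ, k1, k2, D0, D, hk, hD⟩ := pen_mexp Φ
  obtain ⟨G, g1, g2, g3⟩ := hA _ Y hY
  let e := (Fintype.equivFin (ι ⊕ (Fin p ⊕ Fin q))).symm
  have h1 := bord_rank e A0 A U V Y G g1 _ g3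
  rw [val_eq] at h1
  obtain ⟨ι', j1, j2, P, Q, S, e', hc', hS, hnc⟩ := ncrk_common (K := K) hd
    ((Matrix.fromBlocks A0 (Matrix.fromCols (0 : Matrix ι (Fin p) K) V)
        (Matrix.fromRows U (0 : Matrix (Fin q) ι K)) 0).submatrix e e)
    (fun i => (Matrix.fromBlocks (A i) 0 0 0).submatrix e e) D0 D Y (Fintype.card ι + r) (by
      rw [h1, Nat.add_mul]
      omega) ((hD _ Y).2 hY)
  have hrp : r ≤ p := by
    have h2 := Matrix.rank_le_card_height (Φ.val Y)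
    rw [Fintype.card_prod, Fintype.card_fin, Fintype.card_fin] at h2
    by_contra hcon
    push Not at hcon
    have h3 : (p + 1) * d ≤ r * d := Nat.mul_le_mul_right d hcon
    rw [Nat.succ_mul] at h3
    omega
  have hSb : S ≤ (s + 1) ^ 2 := by
    have h2 := le_size Φ
    have h3 : Φ.size ^ 2 ≤ s ^ 2 := Nat.pow_le_pow_left hs 2
    rw [hS]
    nlinarith
  obtain ⟨t, a, b, t1, t2, ha, hb, hu⟩ := hitL (L := L) (N := N) ζ hζ
    (mx_size n S s N hSb hN) _ _ hnc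
  have h8 : S * N * N ≤ (s + 1) ^ 2 * N ^ 2 := by
    rw [Nat.mul_assoc, ← Nat.pow_two]
    exact Nat.mul_le_mul_right _ hSb
  have h3 : ∀ Z : Fin n → Matrix (Fin N) (Fin N) L,
      penG ((Matrix.fromBlocks (P * ((Matrix.fromBlocks A0
        (Matrix.fromCols (0 : Matrix ι (Fin p) K) V)
        (Matrix.fromRows U (0 : Matrix (Fin q) ι K)) 0).submatrix e e) * Q) 0 0 D0).submatrix e' e')
      (fun i => (Matrix.fromBlocks (P * ((Matrix.fromBlocks (A i) 0 0 0).submatrix e e) * Q) 0 0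
        (D i)).submatrix e' e') Z =
      (Matrix.fromBlocks (penG (P * ((Matrix.fromBlocks A0
        (Matrix.fromCols (0 : Matrix ι (Fin p) K) V)
        (Matrix.fromRows U (0 : Matrix (Fin q) ι K)) 0).submatrix e e) * Q)
        (fun i => P * ((Matrix.fromBlocks (A i) 0 0 0).submatrix e e) * Q) Z) 0 0
        (penG D0 D Z)).submatrix e' e' := by
    intro Z
    rw [← penG_sum]
    ext1 x y
    rfl
  rw [h3, isUnit_submatrix, isUnit_fromBlocks] at hu
  obtain ⟨hu1, hu2⟩ := hu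
  have hX : Φ.Defined (XT L N ζ t a b) := (hD _ _).1 hu2
  refine ⟨t, a, b, t1, t2.trans (Nat.add_le_add_right h8 1), ha.trans h8, hb.trans h8, hX, ?_⟩
  rw [penG_sandwich0] at hu1
  have h4 := rkAt_of_unit _ _ _ _ _ hu1
  obtain ⟨G', g1', g2', g3'⟩ := hA _ (XT L N ζ t a b) hX
  rw [bord_rank e A0 A U V (XT L N ζ t a b) G' g1' _ g3', val_eq, hc', Nat.add_mul] at h4
  exact Nat.le_of_add_le_add_left h4

end Pool.Agent.BNR
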