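import Mathlib

/-!
BNR-PtDefs: the explicit integer points (commutative black box).
-/

set_option autoImplicit false

namespace Pool.Agent.BNR

/-- the coordinate with index `e` of the explicit integer point with parameters `t`, `j`:
`∑ s < N, t ^ s * ∏ k < 2 N - 1, k ≠ j, (2 ^ (e N + s) - k)` -/
def pts (N t j e : ℕ) : ℤ :=
  ∑ s ∈ Finset.range N, (t : ℤ) ^ s *
    ∏ k ∈ (Finset.range (2 * N - 1)).erase j, (2 ^ (e * N + s) - (k : ℤ))

end Pool.Agent.BNR
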