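import Mathlib
import Pool.Agent.BNR.All
import Pool.Agent.BNR.PtDefs

/-!
BNR-Points: explicit integer POINTS on which every linear matrix attains at least half of its
noncommutative rank (commutative black box).  The Hankel matrices `T c t N e` are
`Vᵀ diag Vᵀ` with common nodes `0, 1, ..., 2 N - 2` (Lagrange interpolation).
-/

set_option autoImplicit false

namespace Pool.Agent.BNR

open Module Matrix Polynomial

universe u

variable {K : Type u} [Field K] {n m : ℕ}

private theorem pts_lag [CharZero K] (M : ℕ) (y : K) (d : ℕ) (hd : d < M) :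
    y ^ d = ∑ j ∈ Finset.range M,
      ((∏ k ∈ (Finset.range M).erase j, (y - k)) / ∏ k ∈ (Finset.range M).erase j, ((j : K) - k)) *
        (j : K) ^ d := by
  have hinj : Set.InjOn (fun i : ℕ => (i : K)) (Finset.range M : Set ℕ) :=
    Nat.cast_injective.injOn
  have h1 := Lagrange.eq_interpolate (s := Finset.range M) (v := fun i : ℕ => (i : K))
    (f := (X : K[X]) ^ d) hinj (by
      rw [degree_X_pow, Finset.card_range]
      exact_mod_cast hd)
  have h2 := congrArg (eval y) h1
  rw [eval_pow, eval_X, Lagrange.interpolate_apply, eval_finsetSum] at h2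
  rw [h2]
  refine Finset.sum_congr rfl fun j _ => ?_
  rw [eval_mul, eval_C, eval_pow, eval_X, Lagrange.basis, eval_prod, mul_comm]
  congr 1
  rw [← Finset.prod_div_distrib]
  refine Finset.prod_congr rfl fun k _ => ?_
  simp only [Lagrange.basisDivisor, eval_mul, eval_C, eval_sub, eval_X]
  rw [div_eq_mul_inv, mul_comm]

private theorem pts_T [CharZero K] (t N e : ℕ) (a b : Fin N) :
    T (2 : K) (t : K) N e a b = ∑ j ∈ Finset.range (2 * N - 1),
      ((pts N t j e : ℤ) : K) * ((∏ k ∈ (Finset.range (2 * N - 1)).erase j, ((j : K) - k))⁻¹ *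
        ((j : K) ^ (a : ℕ) * (j : K) ^ (b : ℕ))) := by
  have hab : (a : ℕ) + b < 2 * N - 1 := by
    have := a.2
    have := b.2
    omega
  have h1 : ∀ s : ℕ, (2 : K) ^ ((e * N + s) * ((a : ℕ) + b)) = ∑ j ∈ Finset.range (2 * N - 1),
      (∏ k ∈ (Finset.range (2 * N - 1)).erase j, ((2 : K) ^ (e * N + s) - k)) *
        ((∏ k ∈ (Finset.range (2 * N - 1)).erase j, ((j : K) - k))⁻¹ *
        ((j : K) ^ (a : ℕ) * (j : K) ^ (b : ℕ))) := by
    intro s
    rw [pow_mul, pts_lag (2 * N - 1) ((2 : K) ^ (e * N + s)) _ hab]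
    refine Finset.sum_congr rfl fun j _ => ?_
    rw [pow_add, div_eq_mul_inv]
    ring
  have h0 : ∀ j : ℕ, ((pts N t j e : ℤ) : K) = ∑ s ∈ Finset.range N, (t : K) ^ s *
      ∏ k ∈ (Finset.range (2 * N - 1)).erase j, ((2 : K) ^ (e * N + s) - k) := by
    intro j
    rw [pts]
    push_cast
    rfl
  rw [T]
  simp only [h1, h0, Finset.mul_sum, Finset.sum_mul]
  rw [Finset.sum_comm]
  refine Finset.sum_congr rfl fun j _ => Finset.sum_congr rfl fun s _ => ?_
  ring

private theorem pts_rank_add {a b : Type*} [Fintype a] [Fintype b] (A B : Matrix a b K) :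
    (A + B).rank ≤ A.rank + B.rank := by
  have h1 : LinearMap.range (A + B).mulVecLin ≤
      LinearMap.range A.mulVecLin ⊔ LinearMap.range B.mulVecLin := by
    rintro _ ⟨v, rfl⟩
    rw [mulVecLin_add, LinearMap.add_apply]
    exact Submodule.add_mem_sup ⟨v, rfl⟩ ⟨v, rfl⟩
  unfold Matrix.rank
  exact (Submodule.finrank_mono h1).trans (Submodule.finrank_add_le_finrank_add_finrank _ _)

private theorem pts_rank_sum {a b ι : Type*} [Fintype a] [Fintype b] (s : Finset ι)
    (A : ι → Matrix a b K) : (∑ i ∈ s, A i).rank ≤ ∑ i ∈ s, (A i).rank := by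
  classical
  induction s using Finset.induction_on with
  | empty => simp
  | insert i s hi ih =>
    rw [Finset.sum_insert hi, Finset.sum_insert hi]
    exact (pts_rank_add _ _).trans (Nat.add_le_add_left ih _)

private theorem pts_rank_one (A : Matrix (Fin n) (Fin n) K) {N : ℕ} (w : K) (v : Fin N → K) :
    (Matrix.of fun p q : Fin n × Fin N => A p.1 q.1 * (w * (v p.2 * v q.2))).rank ≤ A.rank := by
  have h : (Matrix.of fun p q : Fin n × Fin N => A p.1 q.1 * (w * (v p.2 * v q.2))) =
      (Matrix.of fun (p : Fin n × Fin N) (i : Fin n) => if p.1 = i then w * v p.2 else 0) * A *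
      (Matrix.of fun (i : Fin n) (q : Fin n × Fin N) => if q.1 = i then v q.2 else 0) := by
    ext p q
    simp only [Matrix.mul_apply, Matrix.of_apply, ite_mul, zero_mul, mul_ite, mul_zero,
      Finset.sum_ite_eq, Finset.mem_univ, if_true]
    ring
  rw [h]
  exact (rank_mul_le_left _ _).trans (rank_mul_le_right _ _)

/-- explicit integer points with at least half of the noncommutative rank -/
theorem points [CharZero K] (N : ℕ) (hN : 2 * (m * n ^ 2) < N)
    (L : Fin m → Matrix (Fin n) (Fin n) K) (r : ℕ) (hL : NcRk L (r + 1)) :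
    ∃ t j : ℕ, t ≤ n * N * N ∧ j < 2 * N - 1 ∧
      r + 1 ≤ 2 * (∑ e : Fin m, ((pts N t j e : ℤ) : K) • L e).rank := by
  obtain ⟨t, ht, h⟩ := all_ranks N L r hL
  by_contra hcon
  have h1 : ∀ j ∈ Finset.range (2 * N - 1),
      2 * (∑ e : Fin m, ((pts N t j e : ℤ) : K) • L e).rank ≤ r := by
    intro j hj
    by_contra h2
    exact hcon ⟨t, j, ht, Finset.mem_range.1 hj, by omega⟩
  have h2 : ev L (fun e => T (2 : K) (t : K) N e) = ∑ j ∈ Finset.range (2 * N - 1),
      Matrix.of fun p q : Fin n × Fin N =>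
        (∑ e : Fin m, ((pts N t j e : ℤ) : K) • L e) p.1 q.1 *
        ((∏ k ∈ (Finset.range (2 * N - 1)).erase j, ((j : K) - k))⁻¹ *
        ((j : K) ^ (p.2 : ℕ) * (j : K) ^ (q.2 : ℕ))) := by
    ext p q
    rw [ev, Matrix.sum_apply, Matrix.sum_apply]
    simp only [kroneckerMap_apply, pts_T, Matrix.of_apply, Matrix.sum_apply, Matrix.smul_apply,
      smul_eq_mul, Finset.sum_mul, Finset.mul_sum]
    rw [Finset.sum_comm]
    refine Finset.sum_congr rfl fun j _ => Finset.sum_congr rfl fun e _ => ?_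
    ring
  have h3 : (ev L (fun e => T (2 : K) (t : K) N e)).rank ≤
      ∑ j ∈ Finset.range (2 * N - 1), (∑ e : Fin m, ((pts N t j e : ℤ) : K) • L e).rank := by
    rw [h2]
    refine (pts_rank_sum _ _).trans (Finset.sum_le_sum fun j _ => ?_)
    exact pts_rank_one (∑ e : Fin m, ((pts N t j e : ℤ) : K) • L e)
      (∏ k ∈ (Finset.range (2 * N - 1)).erase j, ((j : K) - k))⁻¹
      (fun a : Fin N => (j : K) ^ (a : ℕ))
  have h4 : 2 * ∑ j ∈ Finset.range (2 * N - 1),
      (∑ e : Fin m, ((pts N t j e : ℤ) : K) • L e).rank ≤ (2 * N - 1) * r := by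
    rw [Finset.mul_sum]
    refine (Finset.sum_le_card_nsmul _ _ r h1).trans ?_
    rw [Finset.card_range, smul_eq_mul]
  have h5 : (2 * N - 1) * r ≤ 2 * N * r := Nat.mul_le_mul_right _ (Nat.sub_le _ _)
  have h6 : 2 * ((r + 1) * N) = 2 * N * r + 2 * N := by ring
  omega

/-- explicit integer points on which every linear matrix attains at least half of its generic
rank -/
theorem points_comm [CharZero K] (N : ℕ) (hN : 2 * (m * n ^ 2) < N)
    (L : Fin m → Matrix (Fin n) (Fin n) K) (x : Fin m → K) :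
    ∃ t j : ℕ, t ≤ n * N * N ∧ j < 2 * N - 1 ∧
      (∑ e, x e • L e).rank ≤ 2 * (∑ e : Fin m, ((pts N t j e : ℤ) : K) • L e).rank := by
  rcases Nat.eq_zero_or_pos (∑ e, x e • L e).rank with h0 | h0
  · exact ⟨0, 0, Nat.zero_le _, by omega, by rw [h0]; exact Nat.zero_le _⟩
  obtain ⟨r, hr⟩ := Nat.exists_eq_succ_of_ne_zero h0.ne'
  have h1 : NcRk L (r + 1) := by
    refine up L r (ι := Unit) (fun e => Matrix.of fun _ _ => x e) ?_
    have h2 : ev L (fun e => (Matrix.of fun _ _ => x e : Matrix Unit Unit K)) =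
        (∑ e, x e • L e).submatrix (fun p : Fin n × Unit => p.1) (fun p => p.1) := by
      ext p q
      rw [ev, Matrix.sum_apply, Matrix.submatrix_apply, Matrix.sum_apply]
      refine Finset.sum_congr rfl fun e _ => ?_
      rw [kroneckerMap_apply, Matrix.of_apply, Matrix.smul_apply, smul_eq_mul, mul_comm]
    have h3 : (ev L (fun e => (Matrix.of fun _ _ => x e : Matrix Unit Unit K))).rank =
        (∑ e, x e • L e).rank := by
      rw [h2]
      exact Matrix.rank_submatrix _ (Equiv.prodPUnit (Fin n)) (Equiv.prodPUnit (Fin n))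
    rw [h3, hr, Fintype.card_unit]
    omega
  obtain ⟨t, j, ht, hj, h⟩ := points N hN L r h1
  exact ⟨t, j, ht, hj, by omega⟩

end Pool.Agent.BNR
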