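import Mathlib
import Pool.Agent.BNR.Defs
import Pool.Agent.BNR.Up

/-!
BNR-RankOne: pencils with one arbitrary matrix `L e0`, all other matrices of rank at most one: the largest rank
of a combination of the `L e` (over `K` itself) is the noncommutative rank (any field).

Proof: `M = ∑ x_e L_e` with `x_e0 ≠ 0`, `L_e = a_e b_eᵀ`. `St`: `b_e ≠ 0` on `ker M`; `Nx e e'`: `b_e' ≠ 0` somewhere on
`M⁻¹ a_e`; `En`: `a_e` not in the image of `M`. If there is a chain from `St` to `En`, take a shortest one: if it has
length one, `M + L_e` has larger rank; otherwise `M + L_e` (first element) has the same rank and a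
shorter chain. If there is no such chain, `W = span` of the reachable `a_e` and `U = M⁻¹ W` give a zero block.
-/

set_option autoImplicit false

namespace Pool.Agent.BNR

open Module Matrix

variable {K : Type*} [Field K] {n m : ℕ}

private theorem ro_vmv (a b v : Fin n → K) : vecMulVec a b *ᵥ v = (b ⬝ᵥ v) • a := by
  ext i
  simp only [mulVec, vecMulVec_apply, dotProduct, Pi.smul_apply, smul_eq_mul]
  rw [Finset.sum_mul]
  refine Finset.sum_congr rfl fun j _ => ?_
  ring

private theorem ro_add (M : Matrix (Fin n) (Fin n) K) (a b v : Fin n → K) :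
    (M + vecMulVec a b) *ᵥ v = M *ᵥ v + (b ⬝ᵥ v) • a := by
  rw [add_mulVec, ro_vmv]

/-- the functional `b` does not vanish on the kernel -/
private def St (M : Matrix (Fin n) (Fin n) K) (b : Fin n → K) : Prop := ∃ u, M *ᵥ u = 0 ∧ b ⬝ᵥ u ≠ 0

/-- the functional `b` does not vanish on the preimage of `a` -/
private def Nx (M : Matrix (Fin n) (Fin n) K) (a b : Fin n → K) : Prop := ∃ g, M *ᵥ g = a ∧ b ⬝ᵥ g ≠ 0

/-- `a` is not in the image -/
private def En (M : Matrix (Fin n) (Fin n) K) (a : Fin n → K) : Prop := ∀ g, M *ᵥ g ≠ a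

/-- a chain from `e` to an element whose `a` is not in the image -/
private inductive Tl (a b : Fin m → Fin n → K) (e0 : Fin m) (M : Matrix (Fin n) (Fin n) K) : ℕ → Fin m → Prop
  | en (e : Fin m) : e ≠ e0 → En M (a e) → Tl a b e0 M 0 e
  | nx (k : ℕ) (e e' : Fin m) : e ≠ e0 → Nx M (a e) (b e') → Tl a b e0 M k e' → Tl a b e0 M (k + 1) e

private theorem tl_ne {a b : Fin m → Fin n → K} {e0 : Fin m} {M : Matrix (Fin n) (Fin n) K} {k : ℕ}
    {e : Fin m} (h : Tl a b e0 M k e) : e ≠ e0 := by
  cases h with
  | en _ h _ => exact h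
  | nx _ _ _ h _ _ => exact h

/-- the rank increases -/
private theorem ro_inc (M : Matrix (Fin n) (Fin n) K) (a b : Fin n → K) (h1 : St M b) (h2 : En M a) :
    M.rank < (M + vecMulVec a b).rank := by
  obtain ⟨u, hu, hbu⟩ := h1
  have ha : a ∈ LinearMap.range (M + vecMulVec a b).mulVecLin := by
    refine ⟨(b ⬝ᵥ u)⁻¹ • u, ?_⟩
    rw [mulVecLin_apply, ro_add, mulVec_smul, hu, smul_zero, zero_add, dotProduct_smul, smul_eq_mul,
      inv_mul_cancel₀ hbu, one_smul]
  have hle : LinearMap.range M.mulVecLin ≤ LinearMap.range (M + vecMulVec a b).mulVecLin := by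
    rintro _ ⟨v, rfl⟩
    have h3 : (M + vecMulVec a b).mulVecLin v - (b ⬝ᵥ v) • a ∈
        LinearMap.range (M + vecMulVec a b).mulVecLin :=
      Submodule.sub_mem _ ⟨v, rfl⟩ (Submodule.smul_mem _ _ ha)
    rwa [mulVecLin_apply, ro_add, add_sub_cancel_right] at h3
  have hlt : LinearMap.range M.mulVecLin < LinearMap.range (M + vecMulVec a b).mulVecLin := by
    refine lt_of_le_of_ne hle fun h => ?_
    rw [← h] at ha
    obtain ⟨g, hg⟩ := ha
    exact h2 g hg
  exact Submodule.finrank_lt_finrank_of_lt hlt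

/-- the induction -/
private theorem ro_chain (L : Fin m → Matrix (Fin n) (Fin n) K) (e0 : Fin m) (a b : Fin m → Fin n → K)
    (hL : ∀ e, e ≠ e0 → L e = vecMulVec (a e) (b e)) (k : ℕ) :
    ∀ x : Fin m → K, x e0 ≠ 0 → ∀ e, St (∑ f, x f • L f) (b e) → Tl a b e0 (∑ f, x f • L f) k e →
      ∃ x' : Fin m → K, x' e0 ≠ 0 ∧ (∑ f, x f • L f).rank < (∑ f, x' f • L f).rank := by
  induction k using Nat.strong_induction_on with
  | _ k ih =>
    intro x hx e hst htl
    have hne : e ≠ e0 := tl_ne htl
    set M := ∑ f, x f • L f with hM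
    set x1 : Fin m → K := x + Pi.single e 1 with hx1
    have hM1 : (∑ f, x1 f • L f) = M + vecMulVec (a e) (b e) := by
      simp only [hx1, Pi.add_apply, add_smul, Finset.sum_add_distrib]
      rw [← hM]
      congr 1
      rw [Finset.sum_eq_single e]
      · rw [Pi.single_eq_same, one_smul, hL e hne]
      · intro f _ hf
        rw [Pi.single_eq_of_ne hf, zero_smul]
      · intro h
        exact absurd (Finset.mem_univ e) h
    have hx1e : x1 e0 ≠ 0 := by
      rw [hx1, Pi.add_apply, Pi.single_eq_of_ne (Ne.symm hne), add_zero]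
      exact hx
    cases htl with
    | en _ _ hen =>
      refine ⟨x1, hx1e, ?_⟩
      rw [hM1]
      exact ro_inc M (a e) (b e) hst hen
    | nx k' _ e' _ hnx htl' =>
      by_cases hmin : ∃ j, j ≤ k' ∧ ∃ f, Tl a b e0 M j f ∧ St M (b f)
      · obtain ⟨j, hj, f, hf1, hf2⟩ := hmin
        exact ih j (by omega) x hx f hf2 hf1
      · push Not at hmin
        -- `a e` is in the image, choose `g` with `b e ⬝ g = 0`
        obtain ⟨g0, hg0, hbg0⟩ := hnx
        obtain ⟨u, hu, hbu⟩ := hst
        have he'u : ∀ w, M *ᵥ w = 0 → b e' ⬝ᵥ w = 0 := by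
          intro w hw
          by_contra h
          exact hmin k' le_rfl e' htl' ⟨w, hw, h⟩
        set g : Fin n → K := g0 - ((b e ⬝ᵥ g0) / (b e ⬝ᵥ u)) • u with hg
        have hMg : M *ᵥ g = a e := by
          rw [hg, mulVec_sub, mulVec_smul, hu, smul_zero, sub_zero, hg0]
        have hbg : b e ⬝ᵥ g = 0 := by
          rw [hg, dotProduct_sub, dotProduct_smul, smul_eq_mul, div_mul_cancel₀ _ hbu, sub_self]
        have hb'g : b e' ⬝ᵥ g ≠ 0 := by
          rw [hg, dotProduct_sub, dotProduct_smul, he'u u hu, smul_zero, sub_zero]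
          exact hbg0
        have hshort : ∀ j f, j < k' → Tl a b e0 M j f → b f ⬝ᵥ g = 0 := by
          intro j f hj hf
          by_contra h
          exact hmin (j + 1) (by omega) e (Tl.nx j e f hne ⟨g, hMg, h⟩ hf) ⟨u, hu, hbu⟩
        -- the kernel of the new matrix
        have hst1 : St (∑ f, x1 f • L f) (b e') := by
          rw [hM1]
          refine ⟨(b e ⬝ᵥ u)⁻¹ • u - g, ?_, ?_⟩
          · rw [ro_add, mulVec_sub, mulVec_smul, hu, smul_zero, zero_sub, hMg, dotProduct_sub,
              dotProduct_smul, smul_eq_mul, inv_mul_cancel₀ hbu, hbg, sub_zero, one_smul,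
              neg_add_cancel]
          · rw [dotProduct_sub, dotProduct_smul, he'u u hu, smul_zero, zero_sub]
            exact neg_ne_zero.2 hb'g
        have htl1 : ∀ j, j ≤ k' → ∀ f, Tl a b e0 M j f → Tl a b e0 (∑ f, x1 f • L f) j f := by
          intro j
          induction j with
          | zero =>
            intro _ f hf
            cases hf with
            | en _ h1 h2 =>
              refine Tl.en f h1 ?_
              intro v hv
              rw [hM1, ro_add] at hv
              apply h2 (v + (b e ⬝ᵥ v) • g)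
              rw [mulVec_add, mulVec_smul, hMg, hv]
          | succ j ihj =>
            intro hj f hf
            cases hf with
            | nx _ _ f' h1 h2 h3 =>
              refine Tl.nx j f f' h1 ?_ (ihj (by omega) f' h3)
              obtain ⟨v, hv, hbv⟩ := h2
              have h0 := hshort j f' (by omega) h3
              rw [hM1]
              refine ⟨v - (b e ⬝ᵥ v) • g, ?_, ?_⟩
              · rw [ro_add, mulVec_sub, mulVec_smul, hMg, hv, dotProduct_sub, dotProduct_smul, hbg,
                  smul_zero, sub_zero, sub_add_cancel]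
              · rw [dotProduct_sub, dotProduct_smul, h0, smul_zero, sub_zero]
                exact hbv
        obtain ⟨x2, hx2, hr2⟩ := ih k' (by omega) x1 hx1e e' hst1 (htl1 k' le_rfl e' htl')
        refine ⟨x2, hx2, lt_of_le_of_lt ?_ hr2⟩
        -- rank M ≤ rank M1
        have hfac : M = (∑ f, x1 f • L f) * (1 - vecMulVec g (b e)) := by
          apply Matrix.ext_of_mulVec_single
          intro i
          rw [← mulVec_mulVec, sub_mulVec, one_mulVec, ro_vmv, hM1, ro_add, mulVec_sub, mulVec_smul,
            hMg, dotProduct_sub, dotProduct_smul, hbg, smul_zero, sub_zero, sub_add_cancel]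
        rw [hfac]
        exact rank_mul_le_left _ _

/-- one step: the rank is not maximal -/
private theorem ro_step (L : Fin m → Matrix (Fin n) (Fin n) K) (e0 : Fin m) (a b : Fin m → Fin n → K)
    (hL : ∀ e, e ≠ e0 → L e = vecMulVec (a e) (b e)) (r : ℕ) (hr : NcRk L r) (x : Fin m → K)
    (hx : x e0 ≠ 0) (hlt : (∑ f, x f • L f).rank < r) :
    ∃ x' : Fin m → K, x' e0 ≠ 0 ∧ (∑ f, x f • L f).rank < (∑ f, x' f • L f).rank := by
  classical
  by_contra hno
  have hnochain : ∀ k e, Tl a b e0 (∑ f, x f • L f) k e → ¬ St (∑ f, x f • L f) (b e) := by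
    intro k e h1 h2
    exact hno (ro_chain L e0 a b hL k x hx e h2 h1)
  set M := ∑ f, x f • L f with hM
  -- `e` is bad if it has a chain to the end; reachable elements are not bad
  -- reachable elements
  let Rc : Set (Fin m) := {e | e ≠ e0 ∧ ∃ p : ℕ → Fin m, ∃ k, p k = e ∧ St M (b (p 0)) ∧
    (∀ i ≤ k, p i ≠ e0) ∧ ∀ i < k, Nx M (a (p i)) (b (p (i + 1)))}
  have hstart : ∀ e, e ≠ e0 → St M (b e) → e ∈ Rc := by
    intro e h1 h2
    exact ⟨h1, fun _ => e, 0, rfl, h2, fun _ _ => h1, fun i hi => absurd hi (Nat.not_lt_zero i)⟩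
  have hnext : ∀ e e', e ∈ Rc → e' ≠ e0 → Nx M (a e) (b e') → e' ∈ Rc := by
    rintro e e' ⟨h1, p, k, hk, hs, hp, hn⟩ he' hx'
    refine ⟨he', fun i => if i ≤ k then p i else e', k + 1, by simp, ?_, ?_, ?_⟩
    · simpa using hs
    · intro i hi
      by_cases h : i ≤ k
      · simpa [h] using hp i h
      · simpa [h] using he'
    · intro i hi
      by_cases h : i < k
      · have h2 : i + 1 ≤ k := h
        have h3 : i ≤ k := h.le
        simpa [h2, h3] using hn i h
      · have h2 : i = k := by omega
        subst h2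
        simpa [hk] using hx'
  have hbad : ∀ e, e ∈ Rc → ∃ g, M *ᵥ g = a e := by
    rintro e ⟨h1, p, k, hk, hs, hp, hn⟩
    by_contra hg
    push Not at hg
    -- `Tl M (k - i) (p i)`
    have hTl : ∀ i, i ≤ k → Tl a b e0 M i (p (k - i)) := by
      intro i
      induction i with
      | zero =>
        intro _
        rw [Nat.sub_zero, hk]
        exact Tl.en e h1 hg
      | succ i ih =>
        intro hi
        have h2 : k - (i + 1) + 1 = k - i := by omega
        refine Tl.nx i _ (p (k - i)) (hp _ (by omega)) ?_ (ih (by omega))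
        have := hn (k - (i + 1)) (by omega)
        rwa [h2] at this
    have h3 := hTl k le_rfl
    rw [Nat.sub_self] at h3
    exact hnochain k _ h3 hs
  set W : Submodule K (Fin n → K) := Submodule.span K (a '' Rc) with hW
  set U : Submodule K (Fin n → K) := W.comap M.mulVecLin with hU
  have hWr : W ≤ LinearMap.range M.mulVecLin := by
    rw [hW, Submodule.span_le]
    rintro _ ⟨e, he, rfl⟩
    obtain ⟨g, hg⟩ := hbad e he
    exact ⟨g, hg⟩
  -- unreachable functionals vanish on U
  have hvan : ∀ e, e ≠ e0 → e ∉ Rc → ∀ v ∈ U, b e ⬝ᵥ v = 0 := by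
    intro e he heR v hv
    have hker : ∀ w, M *ᵥ w = 0 → b e ⬝ᵥ w = 0 := by
      intro w hw
      by_contra h
      exact heR (hstart e he ⟨w, hw, h⟩)
    have hex : ∀ w ∈ W, ∃ g, M *ᵥ g = w ∧ b e ⬝ᵥ g = 0 := by
      intro w hw
      rw [hW] at hw
      induction hw using Submodule.span_induction with
      | mem w hw =>
        obtain ⟨f, hf, rfl⟩ := hw
        obtain ⟨g, hg⟩ := hbad f hf
        refine ⟨g, hg, ?_⟩
        by_contra h
        exact heR (hnext f e hf he ⟨g, hg, h⟩)
      | zero => exact ⟨0, by simp, by simp⟩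
      | add w w' _ _ h1 h2 =>
        obtain ⟨g, hg1, hg2⟩ := h1
        obtain ⟨g', hg1', hg2'⟩ := h2
        exact ⟨g + g', by rw [mulVec_add, hg1, hg1'], by rw [dotProduct_add, hg2, hg2', add_zero]⟩
      | smul c w _ h1 =>
        obtain ⟨g, hg1, hg2⟩ := h1
        exact ⟨c • g, by rw [mulVec_smul, hg1], by rw [dotProduct_smul, hg2, smul_zero]⟩
    have hv' : M *ᵥ v ∈ W := hv
    obtain ⟨g, hg1, hg2⟩ := hex _ hv'
    have h0 := hker (v - g) (by rw [mulVec_sub, hg1, sub_self])
    rw [dotProduct_sub, hg2, sub_zero] at h0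
    exact h0
  have hLU1 : ∀ e, e ≠ e0 → ∀ v ∈ U, L e *ᵥ v ∈ W := by
    intro e he v hv
    rw [hL e he, ro_vmv]
    by_cases hR : e ∈ Rc
    · exact Submodule.smul_mem _ _ (Submodule.subset_span ⟨e, hR, rfl⟩)
    · rw [hvan e he hR v hv, zero_smul]
      exact W.zero_mem
  have hLU0 : ∀ v ∈ U, L e0 *ᵥ v ∈ W := by
    intro v hv
    have h1 : M *ᵥ v ∈ W := hv
    have h2 : M *ᵥ v = x e0 • (L e0 *ᵥ v) + ∑ f ∈ Finset.univ.erase e0, x f • (L f *ᵥ v) := by
      rw [hM, Matrix.sum_mulVec]
      simp_rw [smul_mulVec]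
      rw [Finset.add_sum_erase _ (fun f => x f • (L f *ᵥ v)) (Finset.mem_univ e0)]
    have h3 : ∑ f ∈ Finset.univ.erase e0, x f • (L f *ᵥ v) ∈ W := by
      refine Submodule.sum_mem _ fun f hf => ?_
      exact Submodule.smul_mem _ _ (hLU1 f (Finset.ne_of_mem_erase hf) v hv)
    have h4 : x e0 • (L e0 *ᵥ v) ∈ W := by
      have := Submodule.sub_mem _ h1 h3
      rwa [h2, add_sub_cancel_right] at this
    have h5 := Submodule.smul_mem W (x e0)⁻¹ h4
    rwa [smul_smul, inv_mul_cancel₀ hx, one_smul] at h5
  -- the zero block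
  let φ : (Fin n → K) →ₗ[K] Module.Dual K W :=
    { toFun := fun h =>
        { toFun := fun w => h ⬝ᵥ (w : Fin n → K)
          map_add' := fun w w' => by rw [Submodule.coe_add, dotProduct_add]
          map_smul' := fun c w => by rw [Submodule.coe_smul, dotProduct_smul]; rfl }
      map_add' := fun h h' => by
        ext w
        exact add_dotProduct h h' (w : Fin n → K)
      map_smul' := fun c h => by
        ext w
        exact smul_dotProduct c h (w : Fin n → K) }
  set A : Submodule K (Fin n → K) := LinearMap.ker φ with hA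
  have hAW : ∀ h ∈ A, ∀ w ∈ W, h ⬝ᵥ w = 0 := by
    intro h hh w hw
    have h1 : φ h = 0 := hh
    exact LinearMap.congr_fun h1 ⟨w, hw⟩
  have hblock := hr A U (by
    intro e h hh v hv
    apply hAW h hh
    by_cases he : e = e0
    · rw [he]
      exact hLU0 v hv
    · exact hLU1 e he v hv)
  have hdA : n ≤ finrank K A + finrank K W := by
    have h1 := LinearMap.finrank_range_add_finrank_ker φ
    have h2 : finrank K (LinearMap.range φ) ≤ finrank K (Module.Dual K W) := Submodule.finrank_le _
    rw [Subspace.dual_finrank_eq] at h2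
    rw [finrank_fin_fun] at h1
    rw [hA]
    omega
  have hdU : finrank K W + n ≤ finrank K U + M.rank := by
    have h1 := LinearMap.finrank_range_add_finrank_ker (M.mulVecLin.domRestrict U)
    have h2 : finrank K (LinearMap.range (M.mulVecLin.domRestrict U)) = finrank K W := by
      rw [LinearMap.range_domRestrict, hU, Submodule.map_comap_eq, inf_eq_right.2 hWr]
    have h3 : LinearMap.ker M.mulVecLin ≤ U := by
      intro v hv
      show M.mulVecLin v ∈ W
      rw [LinearMap.mem_ker.1 hv]
      exact W.zero_mem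
    have h4 : finrank K (LinearMap.ker (M.mulVecLin.domRestrict U)) =
        finrank K (LinearMap.ker M.mulVecLin) := by
      have h5 : LinearMap.ker (M.mulVecLin.domRestrict U) =
          (LinearMap.ker M.mulVecLin).comap U.subtype := rfl
      rw [h5]
      exact (Submodule.comapSubtypeEquivOfLe h3).finrank_eq
    have h6 := LinearMap.finrank_range_add_finrank_ker M.mulVecLin
    rw [finrank_fin_fun] at h6
    have h7 : M.rank = finrank K (LinearMap.range M.mulVecLin) := rfl
    omega
  omega

/-- a matrix of rank at most one is `a bᵀ` -/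
private theorem ro_fac (M : Matrix (Fin n) (Fin n) K) (h : M.rank ≤ 1) :
    ∃ a b : Fin n → K, M = vecMulVec a b := by
  have h1 : finrank K (LinearMap.range M.mulVecLin) ≤ 1 := h
  obtain ⟨a, ha⟩ := finrank_le_one_iff.1 h1
  have h2 : ∀ j, ∃ c : K, c • (a : Fin n → K) = M.mulVecLin (Pi.single j 1) := by
    intro j
    obtain ⟨c, hc⟩ := ha ⟨_, ⟨Pi.single j 1, rfl⟩⟩
    exact ⟨c, congrArg Subtype.val hc⟩
  choose b hb using h2
  refine ⟨a, b, ?_⟩
  ext i j
  have := congrFun (hb j) i
  rw [Pi.smul_apply, smul_eq_mul, mulVecLin_apply, mulVec_single_one] at this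
  rw [vecMulVec_apply, mul_comm, this]
  rfl

/-- PENCILS WITH ONE ARBITRARY MATRIX, ALL OTHERS OF RANK AT MOST ONE: the largest rank of a combination over `K`
is the noncommutative rank (any field). -/
theorem rank_one_plus_one (L : Fin m → Matrix (Fin n) (Fin n) K) (e0 : Fin m)
    (h1 : ∀ e, e ≠ e0 → (L e).rank ≤ 1) (r : ℕ) :
    (∃ x : Fin m → K, r ≤ (∑ e, x e • L e).rank) ↔ NcRk L r := by
  classical
  constructor
  · rintro ⟨x, hx⟩
    cases r with
    | zero =>
      intro A B _
      have hA := Submodule.finrank_le A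
      have hB := Submodule.finrank_le B
      rw [finrank_fin_fun] at hA hB
      omega
    | succ r =>
      apply up L r (ι := Unit) (fun e => fun _ _ => x e)
      have hev : ev L (fun e => (fun _ _ => x e : Matrix Unit Unit K)) =
          (∑ e, x e • L e).submatrix (Equiv.prodPUnit (Fin n)) (Equiv.prodPUnit (Fin n)) := by
        ext i j
        simp only [ev, Matrix.sum_apply, kroneckerMap_apply, submatrix_apply, Matrix.smul_apply, smul_eq_mul,
          Equiv.prodPUnit_apply]
        refine Finset.sum_congr rfl fun e _ => ?_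
        ring
      rw [hev, rank_submatrix]
      simp
      omega
  · intro hr
    have h2 : ∀ e, ∃ a b : Fin n → K, e ≠ e0 → L e = vecMulVec a b := by
      intro e
      by_cases he : e = e0
      · exact ⟨0, 0, fun h => absurd he h⟩
      · obtain ⟨a, b, hab⟩ := ro_fac (L e) (h1 e he)
        exact ⟨a, b, fun _ => hab⟩
    choose a b hab using h2
    have key : ∀ d, d ≤ r → ∃ x : Fin m → K, x e0 ≠ 0 ∧ d ≤ (∑ e, x e • L e).rank := by
      intro d
      induction d with
      | zero => exact fun _ => ⟨fun _ => 1, one_ne_zero, Nat.zero_le _⟩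
      | succ d ih =>
        intro hd
        obtain ⟨x, hx, hx'⟩ := ih (by omega)
        by_cases hlt : d + 1 ≤ (∑ e, x e • L e).rank
        · exact ⟨x, hx, hlt⟩
        · obtain ⟨x', hx1, hx2⟩ := ro_step L e0 a b hab r hr x hx (by omega)
          exact ⟨x', hx1, by omega⟩
    obtain ⟨x, _, hx⟩ := key r le_rfl
    exact ⟨x, hx⟩

end Pool.Agent.BNR
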