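import Mathlib
import Pool.Agent.BNR.Defs
import Pool.Agent.BNR.Grid
import Pool.Agent.BNR.Up
import Pool.Agent.BNR.RankOne

/-!
BNR-RankK: pencils in which all matrices outside a set `S` have rank at most one.
-/

set_option autoImplicit false

namespace Pool.Agent.BNR

open Module Matrix Polynomial

variable {K : Type*} [Field K] {n m : ℕ}

/-- the tuple `∑ y_e L_e`, followed by the `L_e`, `e ∉ S` (and `0` for `e ∈ S`) -/
def join (L : Fin m → Matrix (Fin n) (Fin n) K) (S : Finset (Fin m)) (y : Fin m → ℕ) :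
    Fin (m + 1) → Matrix (Fin n) (Fin n) K :=
  Fin.cons (∑ e ∈ S, (y e : K) • L e) fun e => if e ∈ S then 0 else L e

/-- one variable -/
private theorem rk_one [CharZero K] (A B : Matrix (Fin n) (Fin n) K) (x : K) :
    ∃ y : ℕ, y ≤ n ∧ (A + x • B).rank ≤ (A + (y : K) • B).rank := by
  classical
  set M : Matrix (Fin n) (Fin n) K[X] := fun i j => C (A i j) + X * C (B i j) with hM
  have hev : ∀ s : K, M.map (eval s) = A + s • B := by
    intro s
    ext i j
    simp only [hM, Matrix.map_apply, eval_add, eval_C, eval_mul, eval_X, Matrix.add_apply,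
      Matrix.smul_apply, smul_eq_mul]
  obtain ⟨s, hs, h⟩ := grid M 1 (by
    intro i j
    refine (Polynomial.natDegree_add_le _ _).trans ?_
    rw [Polynomial.natDegree_C, max_le_iff]
    refine ⟨Nat.zero_le _, ?_⟩
    refine (Polynomial.natDegree_mul_C_le _ _).trans ?_
    exact Polynomial.natDegree_X_le) ((Finset.range (n + 1)).image fun k : ℕ => (k : K)) (by
      rw [Finset.card_image_of_injective _ Nat.cast_injective, Finset.card_range, Fintype.card_fin]
      omega) x
  obtain ⟨y, hy, rfl⟩ := Finset.mem_image.1 hs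
  refine ⟨y, by have := Finset.mem_range.1 hy; omega, ?_⟩
  rwa [hev, hev] at h

/-- several variables -/
private theorem rk_many [CharZero K] (L : Fin m → Matrix (Fin n) (Fin n) K) (S : Finset (Fin m))
    (x : Fin m → K) :
    ∃ y : Fin m → ℕ, (∀ e, y e ≤ n) ∧
      (∑ e, x e • L e).rank ≤ (∑ e, (if e ∈ S then (y e : K) else x e) • L e).rank := by
  classical
  induction S using Finset.induction_on with
  | empty => exact ⟨fun _ => 0, fun _ => Nat.zero_le _, by simp⟩
  | insert a S ha ih =>
    obtain ⟨y, hy, h⟩ := ih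
    set A : Matrix (Fin n) (Fin n) K :=
      ∑ e ∈ Finset.univ.erase a, (if e ∈ S then (y e : K) else x e) • L e with hA
    have h1 : (∑ e, (if e ∈ S then (y e : K) else x e) • L e) = A + x a • L a := by
      rw [← Finset.sum_erase_add _ _ (Finset.mem_univ a), if_neg ha]
    obtain ⟨z, hz, h2⟩ := rk_one A (L a) (x a)
    refine ⟨Function.update y a z, ?_, ?_⟩
    · intro e
      by_cases he : e = a
      · subst he; rw [Function.update_self]; exact hz
      · rw [Function.update_of_ne he]; exact hy e
    · have h3 : (∑ e, (if e ∈ insert a S then ((Function.update y a z e : ℕ) : K) else x e) • L e) =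
          A + (z : K) • L a := by
        rw [← Finset.sum_erase_add _ _ (Finset.mem_univ a), if_pos (Finset.mem_insert_self a S),
          Function.update_self]
        congr 1
        refine Finset.sum_congr rfl fun e he => ?_
        have hne : e ≠ a := Finset.ne_of_mem_erase he
        rw [Function.update_of_ne hne]
        simp only [Finset.mem_insert, hne, false_or]
      rw [h3]
      rw [h1] at h
      exact h.trans h2

/-- reduction to pencils with one matrix in place of those with index in `S` -/
theorem rank_join [CharZero K] (L : Fin m → Matrix (Fin n) (Fin n) K) (S : Finset (Fin m)) (r : ℕ)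
    (h1 : ∀ y : Fin m → ℕ,
      ((∃ x : Fin (m + 1) → K, r ≤ (∑ f, x f • join L S y f).rank) ↔ NcRk (join L S y) r)) :
    (∃ x : Fin m → K, r ≤ (∑ e, x e • L e).rank) ↔
      ∃ y : Fin m → ℕ, (∀ e, y e ≤ n) ∧ NcRk (join L S y) r := by
  classical
  constructor
  · rintro ⟨x, hx⟩
    obtain ⟨y, hy, h⟩ := rk_many L S x
    refine ⟨y, hy, (h1 y).1 ⟨Fin.cons 1 x, ?_⟩⟩
    refine (hx.trans h).trans (le_of_eq ?_)
    congr 1
    rw [Fin.sum_univ_succ]
    simp only [join, Fin.cons_zero, Fin.cons_succ, one_smul]
    rw [← Finset.sum_filter_add_sum_filter_not Finset.univ (· ∈ S)]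
    congr 1
    · rw [Finset.filter_mem_eq_inter, Finset.univ_inter]
      refine Finset.sum_congr rfl fun e he => ?_
      rw [if_pos he]
    · rw [Finset.sum_filter]
      refine Finset.sum_congr rfl fun e _ => ?_
      by_cases he : e ∈ S
      · rw [if_neg (not_not.2 he), if_pos he, smul_zero]
      · rw [if_pos he, if_neg he, if_neg he]
  · rintro ⟨y, -, hy⟩
    obtain ⟨x, hx⟩ := (h1 y).2 hy
    refine ⟨fun e => if e ∈ S then x 0 * (y e : K) else x e.succ, hx.trans (le_of_eq ?_)⟩
    congr 1
    rw [Fin.sum_univ_succ]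
    simp only [join, Fin.cons_zero, Fin.cons_succ]
    rw [← Finset.sum_filter_add_sum_filter_not Finset.univ (· ∈ S)
      (fun e => (if e ∈ S then x 0 * (y e : K) else x e.succ) • L e)]
    congr 1
    · rw [Finset.filter_mem_eq_inter, Finset.univ_inter, Finset.smul_sum]
      refine Finset.sum_congr rfl fun e he => ?_
      rw [if_pos he, smul_smul]
    · rw [Finset.sum_filter]
      refine Finset.sum_congr rfl fun e _ => ?_
      by_cases he : e ∈ S
      · rw [if_neg (not_not.2 he), if_pos he, smul_zero]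
      · rw [if_pos he, if_neg he, if_neg he]

theorem join_rank_le (L : Fin m → Matrix (Fin n) (Fin n) K) (S : Finset (Fin m)) (k : ℕ)
    (h1 : ∀ e, e ∉ S → (L e).rank ≤ k) (y : Fin m → ℕ) (f : Fin (m + 1)) (hf : f ≠ 0) :
    (join L S y f).rank ≤ k := by
  obtain ⟨e, rfl⟩ := Fin.exists_succ_eq.2 hf
  rw [join, Fin.cons_succ]
  by_cases he : e ∈ S
  · rw [if_pos he, Matrix.rank_zero]; exact Nat.zero_le _
  · rw [if_neg he]; exact h1 e he

theorem join_symm (L : Fin m → Matrix (Fin n) (Fin n) K) (S : Finset (Fin m))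
    (h1 : ∀ e, (L e).IsSymm) (y : Fin m → ℕ) (f : Fin (m + 1)) : (join L S y f).IsSymm := by
  refine Fin.cases ?_ (fun e => ?_) f
  · rw [join, Fin.cons_zero, Matrix.IsSymm, Matrix.transpose_sum]
    refine Finset.sum_congr rfl fun e _ => ?_
    rw [Matrix.transpose_smul, (h1 e).eq]
  · rw [join, Fin.cons_succ]
    by_cases he : e ∈ S
    · rw [if_pos he]; exact Matrix.isSymm_zero
    · rw [if_neg he]; exact h1 e

/-- all matrices outside `S` have rank at most one -/
theorem rank_one_plus [CharZero K] (L : Fin m → Matrix (Fin n) (Fin n) K) (S : Finset (Fin m))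
    (h1 : ∀ e, e ∉ S → (L e).rank ≤ 1) (r : ℕ) :
    (∃ x : Fin m → K, r ≤ (∑ e, x e • L e).rank) ↔
      ∃ y : Fin m → ℕ, (∀ e, y e ≤ n) ∧ NcRk (join L S y) r :=
  rank_join L S r fun y => rank_one_plus_one (join L S y) 0 (join_rank_le L S 1 h1 y) r

end Pool.Agent.BNR
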