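import Mathlib
import Pool.Agent.BNR.Defs
import Pool.Agent.BNR.Up
import Pool.Agent.BNR.Grid
import Pool.Agent.BNR.RankOne
import Pool.Agent.BNR.All

/-!
BNR-Sym (helper69): pencils of SYMMETRIC matrices, all but one of rank at most two (characteristic zero): the
largest rank of a combination of the `L e` is the noncommutative rank.

Proof: over the algebraic closure `L_e = a_e b_eᵀ + b_e a_eᵀ` for `e ≠ e0`. `A(x) = ∑ x_e L_e`, `ρ` the largest
rank. If `rank A(x) = ρ`, then `zᵀ L_e z = 2 (a_e·z)(b_e·z) = 0` on `ker A(x)`, so `a_e` or `b_e` vanishes on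
`ker A(x)`; both alternatives are closed conditions, so one of them, say the one for `a_e`, holds for
all such `x`. Then `ker A(x)` is contained in the kernel of `x_e0 L_e0 + ∑ (x_e a_e b_eᵀ + y_e b_e a_eᵀ)`,
so the split pencil has rank at most `ρ`, and for it `rank_one_plus_one` applies.
-/

set_option autoImplicit false

namespace Pool.Agent.BNR

open Module Matrix Polynomial

section Lin

variable {K : Type*} [Field K] {n m : ℕ}

private theorem sy_vmv (a b v : Fin n → K) : vecMulVec a b *ᵥ v = (b ⬝ᵥ v) • a := by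
  ext i
  simp only [mulVec, vecMulVec_apply, dotProduct, Pi.smul_apply, smul_eq_mul]
  rw [Finset.sum_mul]
  refine Finset.sum_congr rfl fun j _ => ?_
  ring

/-- the kernel decides the order of the ranks -/
private theorem sy_ker_le {M N : Matrix (Fin n) (Fin n) K} (h : ∀ z, M *ᵥ z = 0 → N *ᵥ z = 0) :
    N.rank ≤ M.rank := by
  have h1 := LinearMap.finrank_range_add_finrank_ker M.mulVecLin
  have h2 := LinearMap.finrank_range_add_finrank_ker N.mulVecLin
  have h3 : LinearMap.ker M.mulVecLin ≤ LinearMap.ker N.mulVecLin := by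
    intro z hz
    rw [LinearMap.mem_ker, mulVecLin_apply] at hz ⊢
    exact h z hz
  have h4 := Submodule.finrank_mono h3
  rw [Matrix.rank, Matrix.rank]
  omega

private theorem sy_ker_lt {M N : Matrix (Fin n) (Fin n) K} (h : ∀ z, M *ᵥ z = 0 → N *ᵥ z = 0)
    (v : Fin n → K) (h1 : N *ᵥ v = 0) (h2 : M *ᵥ v ≠ 0) : N.rank < M.rank := by
  have h3 := LinearMap.finrank_range_add_finrank_ker M.mulVecLin
  have h4 := LinearMap.finrank_range_add_finrank_ker N.mulVecLin
  have h5 : LinearMap.ker M.mulVecLin < LinearMap.ker N.mulVecLin := by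
    refine lt_of_le_of_ne ?_ ?_
    · intro z hz
      rw [LinearMap.mem_ker, mulVecLin_apply] at hz ⊢
      exact h z hz
    · intro he
      apply h2
      have : v ∈ LinearMap.ker N.mulVecLin := by
        rw [LinearMap.mem_ker, mulVecLin_apply]
        exact h1
      rw [← he, LinearMap.mem_ker, mulVecLin_apply] at this
      exact this
  have h6 := Submodule.finrank_lt_finrank_of_lt h5
  rw [Matrix.rank, Matrix.rank]
  omega

/-- the points of a line of small rank are finitely many -/
private theorem sy_fin (M N : Matrix (Fin n) (Fin n) K) (t : K) :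
    {s : K | (M + s • N).rank < (M + t • N).rank}.Finite := by
  by_contra hinf
  obtain ⟨S, hS, hc⟩ := (Set.not_finite.1 hinf).exists_subset_card_eq (n + 1)
  set Q : Matrix (Fin n) (Fin n) K[X] := fun i j => C (M i j) + X * C (N i j) with hQ
  have hdeg : ∀ i j, (Q i j).natDegree ≤ 1 := by
    intro i j
    simp only [hQ]
    compute_degree
  have hev : ∀ u : K, Q.map (eval u) = M + u • N := by
    intro u
    ext i j
    simp only [hQ, map_apply, eval_add, eval_mul, eval_X, eval_C, Matrix.add_apply, Matrix.smul_apply,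
      smul_eq_mul]
  obtain ⟨s, hs, hrk⟩ := grid Q 1 hdeg S (by rw [Fintype.card_fin, hc]; omega) t
  rw [hev, hev] at hrk
  have h1 := hS hs
  rw [Set.mem_ofPred_eq] at h1
  omega

/-- adding a rank one matrix increases the rank -/
private theorem sy_inc (M : Matrix (Fin n) (Fin n) K) (a b : Fin n → K) (z : Fin n → K)
    (hz : M *ᵥ z = 0) (hb : b ⬝ᵥ z ≠ 0) (ha : ∀ g, M *ᵥ g ≠ a) : M.rank < (M + vecMulVec a b).rank := by
  refine sy_ker_lt (N := M) (M := M + vecMulVec a b) ?_ z hz ?_
  · intro w hw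
    rw [add_mulVec, sy_vmv] at hw
    by_cases h0 : b ⬝ᵥ w = 0
    · rw [h0, zero_smul, add_zero] at hw
      exact hw
    · exfalso
      apply ha (-(b ⬝ᵥ w)⁻¹ • w)
      rw [mulVec_smul, eq_neg_of_add_eq_zero_left hw, neg_smul, smul_neg, neg_neg, smul_smul,
        inv_mul_cancel₀ h0, one_smul]
  · rw [add_mulVec, hz, zero_add, sy_vmv]
    intro h
    rw [smul_eq_zero] at h
    rcases h with h | h
    · exact hb h
    · exact ha 0 (by rw [mulVec_zero, h])

/-- symmetric matrices: the kernel is orthogonal to the image -/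
private theorem sy_orth {M : Matrix (Fin n) (Fin n) K} (hM : M.IsSymm) {z : Fin n → K} (hz : M *ᵥ z = 0)
    (g : Fin n → K) : z ⬝ᵥ (M *ᵥ g) = 0 := by
  rw [dotProduct_mulVec, ← mulVec_transpose, hM.eq, hz, zero_dotProduct]

/-- a vector which is not orthogonal to the kernel -/
private theorem sy_rank_succ {M : Matrix (Fin n) (Fin n) K} (hM : M.IsSymm) (a : Fin n → K)
    (h : ∃ z, M *ᵥ z = 0 ∧ a ⬝ᵥ z ≠ 0) : M.rank < (M + vecMulVec a a).rank := by
  obtain ⟨z, hz, haz⟩ := h
  refine sy_inc M a a z hz haz fun g hg => haz ?_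
  rw [dotProduct_comm, ← hg]
  exact sy_orth hM hz g

private theorem sy_rank_le {M : Matrix (Fin n) (Fin n) K} (a : Fin n → K)
    (h : ∀ z, M *ᵥ z = 0 → a ⬝ᵥ z = 0) : (M + vecMulVec a a).rank ≤ M.rank := by
  refine sy_ker_le fun z hz => ?_
  rw [add_mulVec, hz, sy_vmv, h z hz, zero_smul, add_zero]

/-- if `zᵀ L z ≠ 0` for some `z` in the kernel of the symmetric matrix `M`, then some `M + s L` has larger rank -/
private theorem sy_step [Infinite K] (M L : Matrix (Fin n) (Fin n) K) (hM : M.IsSymm) (v : Fin n → K)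
    (hv : M *ᵥ v = 0) (hh : v ⬝ᵥ (L *ᵥ v) ≠ 0) : ∃ s : K, M.rank < (M + s • L).rank := by
  classical
  have hv0 : v ≠ 0 := by
    rintro rfl
    apply hh
    rw [mulVec_zero, dotProduct_zero]
  obtain ⟨j, hj⟩ : ∃ j, v j ≠ 0 := by
    by_contra hcon
    push Not at hcon
    exact hv0 (funext hcon)
  set w : Fin n → K := Pi.single j (v j)⁻¹ with hw
  have hwv : w ⬝ᵥ v = 1 := by
    rw [hw, single_dotProduct, inv_mul_cancel₀ hj]
  set a : Fin n → K := L *ᵥ v with ha
  have h1 : M.rank < (M + vecMulVec a w).rank := by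
    apply sy_inc M a w v hv (by rw [hwv]; exact one_ne_zero)
    intro g hg
    apply hh
    rw [← hg]
    exact sy_orth hM hv g
  set Q : Matrix (Fin n) (Fin n) K[X] := fun i j =>
    C (M i j) + X * C (L i j) + (1 - X) * C (a i * w j) with hQ
  have hdeg : ∀ i j, (Q i j).natDegree ≤ 1 := by
    intro i j
    simp only [hQ]
    compute_degree
  obtain ⟨S0, hS0⟩ := Infinite.exists_subset_card_eq K (n + 2)
  have hcard : Fintype.card (Fin n) * 1 < (S0.erase 0).card := by
    rw [Fintype.card_fin]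
    have := Finset.pred_card_le_card_erase (s := S0) (a := (0 : K))
    omega
  obtain ⟨s, hs, hrk⟩ := grid Q 1 hdeg (S0.erase 0) hcard 0
  have hs0 : s ≠ 0 := Finset.ne_of_mem_erase hs
  have e0 : Q.map (eval 0) = M + vecMulVec a w := by
    ext i j
    simp [hQ, vecMulVec_apply]
  have es : Q.map (eval s) = (M + s • L) * (1 + (s⁻¹ - 1) • vecMulVec v w) := by
    have e2 : (M + s • L) * vecMulVec v w = s • vecMulVec a w := by
      rw [Matrix.mul_vecMulVec, add_mulVec, hv, zero_add, smul_mulVec, ← ha, smul_vecMulVec]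
    rw [mul_add, mul_one, mul_smul_comm, e2, smul_smul]
    ext i j
    simp only [hQ, map_apply, eval_add, eval_mul, eval_sub, eval_one, eval_X, eval_C, Matrix.add_apply, Matrix.smul_apply,
      smul_eq_mul, vecMulVec_apply]
    field_simp
  refine ⟨s, ?_⟩
  rw [e0, es] at hrk
  exact lt_of_lt_of_le h1 (hrk.trans (rank_mul_le_left _ _))

/-- the commutative rank is at most the noncommutative rank -/
private theorem sy_easy (L : Fin m → Matrix (Fin n) (Fin n) K) (r : ℕ)
    (h : ∃ x : Fin m → K, r ≤ (∑ e, x e • L e).rank) : NcRk L r := by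
  obtain ⟨x, hx⟩ := h
  cases r with
  | zero =>
    intro A B _
    have hA := Submodule.finrank_le A
    have hB := Submodule.finrank_le B
    rw [finrank_fin_fun] at hA hB
    omega
  | succ r =>
    apply up L r (ι := Unit) (fun e => fun _ _ => x e)
    have hev : ev L (fun e => (fun _ _ => x e : Matrix Unit Unit K)) =
        (∑ e, x e • L e).submatrix (Equiv.prodPUnit (Fin n)) (Equiv.prodPUnit (Fin n)) := by
      ext i j
      simp only [ev, Matrix.sum_apply, kroneckerMap_apply, submatrix_apply, Matrix.smul_apply, smul_eq_mul,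
        Equiv.prodPUnit_apply]
      refine Finset.sum_congr rfl fun e _ => ?_
      ring
    rw [hev, rank_submatrix]
    simp
    omega

private theorem sy_symm {L : Fin m → Matrix (Fin n) (Fin n) K} (hs : ∀ e, (L e).IsSymm) (x : Fin m → K) :
    (∑ e, x e • L e).IsSymm := by
  unfold Matrix.IsSymm
  rw [transpose_sum]
  refine Finset.sum_congr rfl fun e _ => ?_
  rw [transpose_smul, (hs e).eq]

private theorem sy_lin (L : Fin m → Matrix (Fin n) (Fin n) K) (x y : Fin m → K) (t : K) :
    ∑ e, (x e + t * (y e - x e)) • L e = (∑ e, x e • L e) + t • ((∑ e, y e • L e) - ∑ e, x e • L e) := by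
  rw [← Finset.sum_sub_distrib, Finset.smul_sum, ← Finset.sum_add_distrib]
  refine Finset.sum_congr rfl fun e _ => ?_
  rw [add_smul, mul_smul, sub_smul]

/-- one of the two vectors is orthogonal to all kernels of the largest rank -/
private theorem sy_dich [Infinite K] (h2 : (2 : K) ≠ 0) (L : Fin m → Matrix (Fin n) (Fin n) K)
    (hs : ∀ e, (L e).IsSymm) (ρ : ℕ) (hρ : ∀ x : Fin m → K, (∑ e, x e • L e).rank ≤ ρ) (e : Fin m)
    (a b : Fin n → K) (hab : L e = vecMulVec a b + vecMulVec b a) :
    (∀ x : Fin m → K, (∑ e, x e • L e).rank = ρ → ∀ z, (∑ e, x e • L e) *ᵥ z = 0 → a ⬝ᵥ z = 0) ∨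
    (∀ x : Fin m → K, (∑ e, x e • L e).rank = ρ → ∀ z, (∑ e, x e • L e) *ᵥ z = 0 → b ⬝ᵥ z = 0) := by
  classical
  by_contra hcon
  push Not at hcon
  obtain ⟨⟨x, hx, z, hz, haz⟩, y, hy, z', hz', hbz⟩ := hcon
  set A := ∑ e, x e • L e with hA
  set B := ∑ e, y e • L e with hB
  have f1 := sy_fin A (B - A) 0
  have f2 := sy_fin (A + vecMulVec a a) (B - A) 0
  have f3 := sy_fin (A + vecMulVec b b) (B - A) 1
  obtain ⟨t, ht⟩ := ((f1.union f2).union f3).exists_notMem
  simp only [Set.mem_union, Set.mem_ofPred_eq, not_or, not_lt, zero_smul, add_zero, one_smul] at ht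
  obtain ⟨⟨t1, t2⟩, t3⟩ := ht
  set w : Fin m → K := fun e => x e + t * (y e - x e) with hw
  have hC : ∑ e, w e • L e = A + t • (B - A) := sy_lin L x y t
  set C := ∑ e, w e • L e with hCdef
  have hCs : C.IsSymm := sy_symm hs w
  have hAs : A.IsSymm := sy_symm hs x
  have hBs : B.IsSymm := sy_symm hs y
  have g2 := sy_rank_succ hAs a ⟨z, hz, haz⟩
  have g3 := sy_rank_succ hBs b ⟨z', hz', hbz⟩
  have hrC : C.rank = ρ := le_antisymm (hρ w) (by rw [hC]; omega)
  have e2 : A + vecMulVec a a + t • (B - A) = C + vecMulVec a a := by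
    rw [hC]
    abel
  have e3 : A + vecMulVec b b + t • (B - A) = C + vecMulVec b b := by
    rw [hC]
    abel
  have e3' : A + vecMulVec b b + (B - A) = B + vecMulVec b b := by
    abel
  rw [e2] at t2
  rw [e3, e3'] at t3
  have k2 : ∃ u, C *ᵥ u = 0 ∧ a ⬝ᵥ u ≠ 0 := by
    by_contra h
    push Not at h
    have := sy_rank_le a h
    omega
  have k3 : ∃ u, C *ᵥ u = 0 ∧ b ⬝ᵥ u ≠ 0 := by
    by_contra h
    push Not at h
    have := sy_rank_le b h
    omega
  obtain ⟨u, hu, hau⟩ := k2
  obtain ⟨v, hv, hbv⟩ := k3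
  have k : ∃ z, C *ᵥ z = 0 ∧ a ⬝ᵥ z ≠ 0 ∧ b ⬝ᵥ z ≠ 0 := by
    by_cases h1 : b ⬝ᵥ u = 0
    · by_cases h3 : a ⬝ᵥ v = 0
      · refine ⟨u + v, by rw [mulVec_add, hu, hv, add_zero], ?_, ?_⟩
        · rw [dotProduct_add, h3, add_zero]
          exact hau
        · rw [dotProduct_add, h1, zero_add]
          exact hbv
      · exact ⟨v, hv, h3, hbv⟩
    · exact ⟨u, hu, hau, h1⟩
  obtain ⟨q, hq, haq, hbq⟩ := k
  have hne : q ⬝ᵥ (L e *ᵥ q) ≠ 0 := by
    rw [hab, add_mulVec, sy_vmv, sy_vmv, dotProduct_add, dotProduct_smul, dotProduct_smul, smul_eq_mul,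
      smul_eq_mul, dotProduct_comm q a, dotProduct_comm q b]
    have : (b ⬝ᵥ q) * (a ⬝ᵥ q) + (a ⬝ᵥ q) * (b ⬝ᵥ q) = 2 * ((a ⬝ᵥ q) * (b ⬝ᵥ q)) := by ring
    rw [this]
    exact mul_ne_zero h2 (mul_ne_zero haq hbq)
  obtain ⟨s, hs'⟩ := sy_step C (L e) hCs q hq hne
  have hfin := hρ (fun f => w f + if f = e then s else 0)
  have : ∑ f, (w f + if f = e then s else 0) • L f = C + s • L e := by
    simp only [add_smul, ite_smul, zero_smul, Finset.sum_add_distrib, Finset.sum_ite_eq', Finset.mem_univ,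
      if_true]
    rfl
  rw [this] at hfin
  omega

/-- the split form of the theorem -/
private theorem sy_split [Infinite K] (h2 : (2 : K) ≠ 0) (L : Fin m → Matrix (Fin n) (Fin n) K)
    (hs : ∀ e, (L e).IsSymm) (e0 : Fin m) (a b : Fin m → Fin n → K)
    (hab : ∀ e, e ≠ e0 → L e = vecMulVec (a e) (b e) + vecMulVec (b e) (a e)) (r : ℕ) (hr : NcRk L r) :
    ∃ x : Fin m → K, r ≤ (∑ e, x e • L e).rank := by
  classical
  by_contra hcon
  push Not at hcon
  -- the largest rank
  obtain ⟨x0, hx0⟩ : ∃ x0 : Fin m → K, ∀ x : Fin m → K,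
      (∑ e, x e • L e).rank ≤ (∑ e, x0 e • L e).rank := by
    have hb : BddAbove (Set.range fun x : Fin m → K => (∑ e, x e • L e).rank) :=
      ⟨r, by rintro _ ⟨x, rfl⟩; exact (hcon x).le⟩
    obtain ⟨x0, hx0⟩ := Nat.sSup_mem (Set.range_nonempty _) hb
    refine ⟨x0, fun x => ?_⟩
    have hx0' : (∑ e, x0 e • L e).rank = _ := hx0
    rw [hx0']
    exact le_csSup hb ⟨x, rfl⟩
  set ρ := (∑ e, x0 e • L e).rank with hρ
  have hlt : ρ < r := hcon x0
  have hd := fun e (he : e ≠ e0) => sy_dich h2 L hs ρ hx0 e (a e) (b e) (hab e he)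
  -- swap
  have hsw : ∀ e, ∃ p : (Fin n → K) × (Fin n → K), e ≠ e0 →
      L e = vecMulVec p.1 p.2 + vecMulVec p.2 p.1 ∧
      ∀ x : Fin m → K, (∑ e, x e • L e).rank = ρ → ∀ z, (∑ e, x e • L e) *ᵥ z = 0 → p.1 ⬝ᵥ z = 0 := by
    intro e
    by_cases he : e = e0
    · exact ⟨0, fun h => absurd he h⟩
    · rcases hd e he with h | h
      · exact ⟨(a e, b e), fun _ => ⟨hab e he, h⟩⟩
      · exact ⟨(b e, a e), fun _ => ⟨by rw [hab e he, add_comm], h⟩⟩
  choose p hp using hsw
  set S : Fin (m + m) → Matrix (Fin n) (Fin n) K :=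
    Fin.append (fun e => if e = e0 then L e0 else vecMulVec (p e).1 (p e).2)
      (fun e => if e = e0 then 0 else vecMulVec (p e).2 (p e).1) with hS
  have hSl : ∀ e, S (Fin.castAdd m e) = if e = e0 then L e0 else vecMulVec (p e).1 (p e).2 :=
    fun e => Fin.append_left _ _ _
  have hSr : ∀ e, S (Fin.natAdd m e) = if e = e0 then 0 else vecMulVec (p e).2 (p e).1 :=
    fun e => Fin.append_right _ _ _
  have hsum : ∀ e, L e = S (Fin.castAdd m e) + S (Fin.natAdd m e) := by
    intro e
    rw [hSl, hSr]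
    by_cases he : e = e0
    · rw [if_pos he, if_pos he, add_zero, he]
    · rw [if_neg he, if_neg he]
      exact (hp e he).1
  have hNc : NcRk S r := by
    intro A B h
    refine hr A B fun e x hx v hv => ?_
    rw [hsum e, add_mulVec, dotProduct_add, h _ x hx v hv, h _ x hx v hv, add_zero]
  have hvr : ∀ u v : Fin n → K, (vecMulVec u v).rank ≤ 1 := fun u v => Matrix.rank_vecMulVec_le u v
  obtain ⟨w, hw⟩ := (rank_one_plus_one S (Fin.castAdd m e0) (by
    intro f
    refine Fin.addCases (fun e => ?_) (fun e => ?_) f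
    · intro hne
      rw [hSl]
      have he : e ≠ e0 := fun h => hne (by rw [h])
      rw [if_neg he]
      exact hvr _ _
    · intro _
      rw [hSr]
      split_ifs
      · rw [rank_zero]
        exact Nat.zero_le _
      · exact hvr _ _) r).2 hNc
  -- a point with the largest rank of `A` and large rank of `S`
  set x1 : Fin m → K := fun e => w (Fin.castAdd m e) with hx1
  set y1 : Fin m → K := fun e => w (Fin.natAdd m e) with hy1
  rw [Fin.sum_univ_add] at hw
  set R := ∑ e, y1 e • S (Fin.natAdd m e) with hR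
  set P := ∑ e, x1 e • S (Fin.castAdd m e) with hP
  set P0 := ∑ e, x0 e • S (Fin.castAdd m e) with hP0
  set A0 := ∑ e, x0 e • L e with hA0
  set A1 := ∑ e, x1 e • L e with hA1
  have f1 := sy_fin (P + R) (P0 - P) 0
  have f2 := sy_fin A1 (A0 - A1) 1
  obtain ⟨t, ht⟩ := (f1.union f2).exists_notMem
  simp only [Set.mem_union, Set.mem_ofPred_eq, not_or, not_lt, zero_smul, add_zero, one_smul] at ht
  obtain ⟨t1, t2⟩ := ht
  have e2 : A1 + (A0 - A1) = A0 := by abel
  rw [e2] at t2
  set x : Fin m → K := fun e => x1 e + t * (x0 e - x1 e) with hx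
  have hxA : ∑ e, x e • L e = A1 + t • (A0 - A1) := sy_lin L x1 x0 t
  have hxP : ∑ e, x e • S (Fin.castAdd m e) = P + t • (P0 - P) :=
    sy_lin (fun e => S (Fin.castAdd m e)) x1 x0 t
  have hrk : (∑ e, x e • L e).rank = ρ := le_antisymm (hx0 x) (by rw [hxA]; exact t2)
  have hfin : (P + t • (P0 - P) + R).rank ≤ (∑ e, x e • L e).rank := by
    refine sy_ker_le fun z hz => ?_
    have key : ∀ e, x e • (S (Fin.castAdd m e) *ᵥ z) + y1 e • (S (Fin.natAdd m e) *ᵥ z) =
        x e • (L e *ᵥ z) := by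
      intro e
      have hr0 : S (Fin.natAdd m e) *ᵥ z = 0 := by
        rw [hSr]
        split_ifs with he
        · rw [zero_mulVec]
        · rw [sy_vmv, (hp e he).2 x hrk z hz, zero_smul]
      rw [hsum e, add_mulVec, hr0, smul_zero, add_zero, add_zero]
    rw [← hxP, hR, ← Finset.sum_add_distrib, sum_mulVec]
    rw [sum_mulVec] at hz
    rw [← hz]
    refine Finset.sum_congr rfl fun e _ => ?_
    rw [add_mulVec, smul_mulVec, smul_mulVec, smul_mulVec, key e]
  have e1 : P + R + t • (P0 - P) = P + t • (P0 - P) + R := by abel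
  rw [e1] at t1
  omega

/-- a symmetric matrix of positive rank minus a rank one matrix -/
private theorem sy_drop (h2 : (2 : K) ≠ 0) (M : Matrix (Fin n) (Fin n) K) (hM : M.IsSymm) (h0 : M ≠ 0) :
    ∃ (u : Fin n → K) (c : K), (M - c • vecMulVec u u).IsSymm ∧ (M - c • vecMulVec u u).rank < M.rank := by
  obtain ⟨v, hv⟩ : ∃ v, v ⬝ᵥ (M *ᵥ v) ≠ 0 := by
    by_contra hcon
    push Not at hcon
    apply h0
    have key : ∀ v w, v ⬝ᵥ (M *ᵥ w) = 0 := by
      intro v w
      have e1 := hcon (v + w)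
      rw [mulVec_add, dotProduct_add, add_dotProduct, add_dotProduct, hcon v, hcon w] at e1
      have e2 : w ⬝ᵥ (M *ᵥ v) = v ⬝ᵥ (M *ᵥ w) := by
        rw [dotProduct_mulVec, ← mulVec_transpose, hM.eq, dotProduct_comm]
      rw [e2] at e1
      have e3 : 2 * (v ⬝ᵥ (M *ᵥ w)) = 0 := by
        rw [← e1]
        ring
      exact (mul_eq_zero.1 e3).resolve_left h2
    ext i j
    have := key (Pi.single i 1) (Pi.single j 1)
    rw [mulVec_single_one, single_dotProduct, one_mul] at this
    simpa using this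
  set u := M *ᵥ v with hu
  set c := (v ⬝ᵥ u)⁻¹ with hc
  refine ⟨u, c, ?_, ?_⟩
  · unfold Matrix.IsSymm
    rw [transpose_sub, transpose_smul, hM.eq, transpose_vecMulVec]
  · refine sy_ker_lt (M := M) (N := M - c • vecMulVec u u) ?_ v ?_ ?_
    · intro z hz
      have e1 : u ⬝ᵥ z = 0 := by
        rw [hu, dotProduct_comm]
        exact sy_orth hM hz v
      rw [sub_mulVec, hz, smul_mulVec, sy_vmv, e1, zero_smul, smul_zero, sub_zero]
    · rw [sub_mulVec, smul_mulVec, sy_vmv, dotProduct_comm u v, smul_smul, hc, inv_mul_cancel₀ hv, one_smul,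
        sub_self]
    · intro h
      apply hv
      rw [← hu] at h
      rw [h, dotProduct_zero]

private theorem sy_zero {M : Matrix (Fin n) (Fin n) K} (h : M.rank = 0) : M = 0 := by
  have h1 : LinearMap.range M.mulVecLin = ⊥ := Submodule.finrank_eq_zero.1 h
  have h2 : M.mulVecLin = 0 := LinearMap.range_eq_bot.1 h1
  ext i j
  have h3 := congrFun (DFunLike.congr_fun h2 (Pi.single j 1)) i
  rw [mulVecLin_apply, mulVec_single_one] at h3
  simpa using h3

/-- symmetric matrices of rank at most two over an algebraically closed field -/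
private theorem sy_fac [IsAlgClosed K] (h2 : (2 : K) ≠ 0) (M : Matrix (Fin n) (Fin n) K) (hM : M.IsSymm)
    (hr : M.rank ≤ 2) : ∃ a b : Fin n → K, M = vecMulVec a b + vecMulVec b a := by
  -- a sum of two rank one matrices
  have key : ∃ (u v : Fin n → K) (c d : K), M = c • vecMulVec u u + d • vecMulVec v v := by
    by_cases h0 : M = 0
    · exact ⟨0, 0, 0, 0, by rw [h0]; simp⟩
    obtain ⟨u, c, hs, hlt⟩ := sy_drop h2 M hM h0
    by_cases h1 : M - c • vecMulVec u u = 0
    · exact ⟨u, 0, c, 0, by rw [zero_smul, add_zero]; exact sub_eq_zero.1 h1⟩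
    obtain ⟨v, d, -, hlt'⟩ := sy_drop h2 _ hs h1
    have h3 : (M - c • vecMulVec u u - d • vecMulVec v v).rank = 0 := by omega
    have h4 := sy_zero h3
    exact ⟨u, v, c, d, by rw [sub_sub] at h4; exact sub_eq_zero.1 h4⟩
  obtain ⟨u, v, c, d, hM'⟩ := key
  obtain ⟨α, hα⟩ := IsAlgClosed.exists_pow_nat_eq c (n := 2) (by norm_num)
  obtain ⟨β, hβ⟩ := IsAlgClosed.exists_pow_nat_eq d (n := 2) (by norm_num)
  obtain ⟨ι, hι⟩ := IsAlgClosed.exists_pow_nat_eq (-1 : K) (n := 2) (by norm_num)
  refine ⟨(2 : K)⁻¹ • (α • u + (ι * β) • v), α • u - (ι * β) • v, ?_⟩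
  rw [hM']
  ext i j
  simp only [Matrix.add_apply, Matrix.smul_apply, vecMulVec_apply, Pi.add_apply, Pi.sub_apply, Pi.smul_apply,
    smul_eq_mul]
  rw [← hα, ← hβ]
  have h3 : (2 : K)⁻¹ * 2 = 1 := inv_mul_cancel₀ h2
  have e1 : (2 : K)⁻¹ * (α * u i + ι * β * v i) * (α * u j - ι * β * v j) +
      (α * u i - ι * β * v i) * ((2 : K)⁻¹ * (α * u j + ι * β * v j)) =
      (2 : K)⁻¹ * 2 * (α ^ 2 * (u i * u j) + (-(ι ^ 2)) * (β ^ 2 * (v i * v j))) := by ring
  rw [e1, h3, hι]
  ring

end Lin

section Main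

universe u

variable {K : Type u} [Field K] [CharZero K] {n m : ℕ}

/-- descent of the commutative rank to a subfield -/
private theorem sy_descent {F : Type u} [Field F] [Algebra K F]
    (L : Fin m → Matrix (Fin n) (Fin n) K) (r : ℕ) (y : Fin m → F)
    (hy : r ≤ (∑ e, y e • (L e).map (algebraMap K F)).rank) :
    ∃ x : Fin m → K, r ≤ (∑ e, x e • L e).rank := by
  classical
  have key : ∀ E : Finset (Fin m), ∃ y : Fin m → F, (∀ e ∈ E, y e ∈ Set.range (algebraMap K F)) ∧
      r ≤ (∑ e, y e • (L e).map (algebraMap K F)).rank := by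
    intro E
    induction E using Finset.induction_on with
    | empty => exact ⟨y, by simp, hy⟩
    | insert e E _ ih =>
      obtain ⟨w, hw, hwr⟩ := ih
      set M := ∑ f, w f • (L f).map (algebraMap K F) with hM
      set N := (L e).map (algebraMap K F) with hN
      have hfin := sy_fin (M - w e • N) N (w e)
      have hinf : (Set.range (algebraMap K F)).Infinite :=
        Set.infinite_range_of_injective (algebraMap K F).injective
      obtain ⟨s, hs, hs'⟩ := hinf.exists_notMem_finite hfin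
      rw [Set.mem_ofPred_eq, not_lt] at hs'
      have h1 := hs'
      refine ⟨Function.update w e s, ?_, ?_⟩
      · intro f hf
        by_cases hfe : f = e
        · rw [hfe, Function.update_self]
          exact hs
        · rw [Function.update_of_ne hfe]
          exact hw f (Finset.mem_of_mem_insert_of_ne hf hfe)
      · have e1 : ∑ f, Function.update w e s f • (L f).map (algebraMap K F) = M - w e • N + s • N := by
          rw [hM, ← Finset.add_sum_erase _ _ (Finset.mem_univ e), Function.update_self,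
            ← Finset.add_sum_erase (a := e) Finset.univ (fun f => w f • (L f).map (algebraMap K F))
              (Finset.mem_univ e)]
          have e2 : ∑ f ∈ Finset.univ.erase e, Function.update w e s f • (L f).map (algebraMap K F) =
              ∑ f ∈ Finset.univ.erase e, w f • (L f).map (algebraMap K F) := by
            refine Finset.sum_congr rfl fun f hf => ?_
            rw [Function.update_of_ne (Finset.ne_of_mem_erase hf)]
          rw [e2]
          abel
        have e3 : M - w e • N + w e • N = M := by abel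
        rw [e3] at h1
        rw [e1]
        exact hwr.trans h1
  obtain ⟨w, hw, hwr⟩ := key Finset.univ
  choose x hx using fun e => hw e (Finset.mem_univ e)
  refine ⟨x, ?_⟩
  rw [← rank_map_field (algebraMap K F)]
  have e1 : (∑ e, x e • L e).map (algebraMap K F) = ∑ e, w e • (L e).map (algebraMap K F) := by
    ext i j
    simp only [Matrix.map_apply, Matrix.sum_apply, Matrix.smul_apply, smul_eq_mul, map_sum, map_mul, hx]
  rw [e1]
  exact hwr

/-- SYMMETRIC PENCILS, ALL MATRICES BUT ONE OF RANK AT MOST TWO (characteristic zero): the largest rank of a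
combination is the noncommutative rank. -/
theorem sym_rank_two (L : Fin m → Matrix (Fin n) (Fin n) K) (e0 : Fin m) (hs : ∀ e, (L e).IsSymm)
    (h : ∀ e, e ≠ e0 → (L e).rank ≤ 2) (r : ℕ) :
    (∃ x : Fin m → K, r ≤ (∑ e, x e • L e).rank) ↔ NcRk L r := by
  refine ⟨sy_easy L r, fun hr => ?_⟩
  have hF : CharZero (AlgebraicClosure K) :=
    charZero_of_injective_algebraMap (algebraMap K (AlgebraicClosure K)).injective
  obtain ⟨L', hL'⟩ : ∃ L' : Fin m → Matrix (Fin n) (Fin n) (AlgebraicClosure K),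
      ∀ e, L' e = (L e).map (algebraMap K (AlgebraicClosure K)) := ⟨_, fun _ => rfl⟩
  have hNc : NcRk L' r := by
    cases r with
    | zero => exact sy_easy L' 0 ⟨0, Nat.zero_le _⟩
    | succ r =>
      obtain ⟨t, -, ht⟩ := all_ranks (2 * (m * n ^ 2) + 1) L r hr
      refine up L' r (fun e => T (2 : AlgebraicClosure K) (algebraMap K _ (t : K)) (2 * (m * n ^ 2) + 1) e) ?_
      have e1 : ev L' (fun e => T (2 : AlgebraicClosure K) (algebraMap K _ (t : K))
          (2 * (m * n ^ 2) + 1) e) = (ev L (fun e => T (2 : K) (t : K) (2 * (m * n ^ 2) + 1) e)).map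
          (algebraMap K (AlgebraicClosure K)) := by
        rw [ev_map]
        congr 1
        funext e
        exact hL' e
      rw [e1, rank_map_field, Fintype.card_fin]
      have e2 : (r + 1) * (2 * (m * n ^ 2) + 1) = r * (2 * (m * n ^ 2) + 1) + (2 * (m * n ^ 2) + 1) :=
        Nat.succ_mul _ _
      omega
  have h2 : (2 : AlgebraicClosure K) ≠ 0 := two_ne_zero
  have hs' : ∀ e, (L' e).IsSymm := by
    intro e
    rw [hL' e]
    exact (hs e).map _
  have hfac : ∀ e, ∃ p : (Fin n → AlgebraicClosure K) × (Fin n → AlgebraicClosure K),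
      e ≠ e0 → L' e = vecMulVec p.1 p.2 + vecMulVec p.2 p.1 := by
    intro e
    by_cases he : e = e0
    · exact ⟨0, fun h => absurd he h⟩
    · obtain ⟨a, b, hab⟩ := sy_fac h2 (L' e) (hs' e) (by rw [hL' e, rank_map_field]; exact h e he)
      exact ⟨(a, b), fun _ => hab⟩
  choose p hp using hfac
  obtain ⟨y, hy⟩ := sy_split h2 L' hs' e0 (fun e => (p e).1) (fun e => (p e).2) hp r hNc
  refine sy_descent (F := AlgebraicClosure K) L r y ?_
  have e3 : L' = fun e => (L e).map (algebraMap K (AlgebraicClosure K)) := funext hL'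
  rw [e3] at hy
  exact hy

end Main

end Pool.Agent.BNR
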