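import Mathlib
import Pool.Agent.BNR.RankK
import Pool.Agent.BNR.Sym

/-!
BNR-RankS: pencils in which the matrices outside a set `S` have rank at most one, or in which all matrices are
symmetric and those outside `S` have rank at most two.
-/

set_option autoImplicit false

namespace Pool.Agent.BNR

open Module Matrix

universe u

variable {K : Type u} [Field K] [CharZero K] {n m : ℕ}

theorem rank_plus (L : Fin m → Matrix (Fin n) (Fin n) K) (S : Finset (Fin m))
    (h : (∀ e, e ∉ S → (L e).rank ≤ 1) ∨ (∀ e, (L e).IsSymm) ∧ ∀ e, e ∉ S → (L e).rank ≤ 2)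
    (r : ℕ) :
    (∃ x : Fin m → K, r ≤ (∑ e, x e • L e).rank) ↔
      ∃ y : Fin m → ℕ, (∀ e, y e ≤ n) ∧ NcRk (join L S y) r := by
  rcases h with h | ⟨hs, h⟩
  · exact rank_one_plus L S h r
  · exact rank_join L S r fun y => sym_rank_two (join L S y) 0 (fun f => join_symm L S hs y f)
      (fun f hf => join_rank_le L S 2 h y f hf) r

end Pool.Agent.BNR
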