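import Mathlib
import Pool.Agent.BNR.Fin
import Pool.Agent.BNR.TwB
import Pool.Agent.BNR.FormC

/-!
BNR: exact ranks at explicit tuples, linear matrices without a separate constant term.
-/

set_option autoImplicit false

namespace Pool.Agent.BNR

open Matrix Pool.Agent.NCP Pool.Agent.NCR Pool.Agent.NCS

universe u

variable {K : Type u} [Field K] {m s N : ℕ}

theorem rkAt_zero (L : Fin m → Matrix (Fin s) (Fin s) K) (Y : Fin m → Matrix (Fin N) (Fin N) K) :
    rkAt (0 : Matrix (Fin s) (Fin s) K) L Y = (ev L Y).rank := by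
  have h1 : Matrix.comp (Fin s) (Fin s) (Fin N) (Fin N) K (penG 0 L Y) = ev L Y := by
    ext ⟨a, x⟩ ⟨b, y⟩
    rw [Matrix.comp_apply, penG, ev, Matrix.of_apply, Matrix.add_apply, Matrix.zero_apply, map_zero,
      Matrix.zero_apply, zero_add, Matrix.sum_apply, Matrix.sum_apply]
    rfl
  rw [← h1]
  rfl

/-- The rank of a linear matrix at some twist with small parameters of a given tuple is at least
the next multiple of the size. -/
theorem twist_ev [CharZero K] [NeZero N] (ζ : K) (hζ : IsPrimitiveRoot ζ N)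
    (β : Fin m → Matrix (Fin N) (Fin N) K) (L : Fin m → Matrix (Fin s) (Fin s) K) (r : ℕ)
    (h : r * N < (ev L β).rank) : ∃ a b : ℕ, a ≤ s * N * N ∧ b ≤ s * N * N ∧
      (r + 1) * N ≤ (ev L fun e => tw ζ (a : K) (b : K) (β e)).rank := by
  obtain ⟨a, b, h1, h2, h3⟩ := twist_grid ζ hζ β 0 L r (by
    rw [rkAt_zero]
    exact h)
  rw [rkAt_zero] at h3
  exact ⟨a, b, h1, h2, h3⟩

/-- The twisted explicit tuples. -/
noncomputable def TT (K : Type u) [Field K] {m : ℕ} (N : ℕ) [NeZero N] (ζ : K) (t a b : ℕ)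
    (e : Fin m) : Matrix (Fin N) (Fin N) K :=
  tw ζ (a : K) (b : K) (T (2 : K) (t : K) N e)

/-- **Exact rank.** -/
theorem rank_hit [CharZero K] [NeZero N] (ζ : K) (hζ : IsPrimitiveRoot ζ N)
    (L : Fin m → Matrix (Fin s) (Fin s) K) (r : ℕ) (hN : 8 * s ^ 2 * (m + 2 * s ^ 2) < N)
    (hL : NcRk L r) :
    ∃ t a b : ℕ, t ≤ s * N * N ∧ a ≤ s * N * N ∧ b ≤ s * N * N ∧
      r * N ≤ (ev L (TT K N ζ t a b)).rank := by
  cases r with
  | zero => exact ⟨0, 0, 0, Nat.zero_le _, Nat.zero_le _, Nat.zero_le _, by simp⟩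
  | succ r =>
    obtain ⟨t, h1, h2⟩ := main_zero (K := K) r N hN L hL
    obtain ⟨a, b, h3, h4, h5⟩ := twist_ev ζ hζ _ L r h2
    exact ⟨t, a, b, h1, h3, h4, h5⟩

/-- **Exact rank, converse**: no tuple of matrices has larger rank. -/
theorem rank_le [CharZero K] {ι : Type*} [Fintype ι] [DecidableEq ι] [Nonempty ι]
    (L : Fin m → Matrix (Fin s) (Fin s) K) (r : ℕ) (Y : Fin m → Matrix ι ι K)
    (h : r * Fintype.card ι ≤ (ev L Y).rank) : NcRk L r := by
  cases r with
  | zero =>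
    intro A B _
    have h1 := Submodule.finrank_le A
    have h2 := Submodule.finrank_le B
    rw [Module.finrank_fin_fun] at h1 h2
    omega
  | succ r =>
    refine up L r Y (lt_of_lt_of_le ?_ h)
    exact Nat.mul_lt_mul_of_pos_right (Nat.lt_succ_self r) Fintype.card_pos

/-- **Full linear matrices**: some explicit determinant is not zero. -/
theorem det_hit [CharZero K] [NeZero N] (ζ : K) (hζ : IsPrimitiveRoot ζ N)
    (L : Fin m → Matrix (Fin s) (Fin s) K) (hN : 2 * (m * s ^ 2) < N) (hL : NcRk L s) :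
    ∃ t a b : ℕ, t ≤ s * N * N ∧ a ≤ s * N * N ∧ b ≤ s * N * N ∧
      (ev L (TT K N ζ t a b)).det ≠ 0 := by
  rcases Nat.eq_zero_or_pos s with hs | hs
  · subst hs
    refine ⟨0, 0, 0, Nat.zero_le _, Nat.zero_le _, Nat.zero_le _, ?_⟩
    rw [Matrix.det_isEmpty]
    exact one_ne_zero
  · obtain ⟨x, hx, h1⟩ := one (2 : K) N (pow_two_inj _) L hL
      ((Finset.range (s * N * N + 1)).map ⟨fun i : ℕ => (i : K), Nat.cast_injective⟩) (by
        rw [Finset.card_map, Finset.card_range]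
        exact Nat.lt_succ_self _)
    rw [Finset.mem_map] at hx
    obtain ⟨t, ht, rfl⟩ := hx
    rw [Finset.mem_range] at ht
    have h2 : s * N = (s - 1) * N + N := by
      obtain ⟨k, rfl⟩ : ∃ k, s = k + 1 := ⟨s - 1, by omega⟩
      rw [Nat.add_sub_cancel, Nat.succ_mul]
    change s * N ≤ (ev L fun e => T (2 : K) (t : K) N e).rank + 2 * (m * s ^ 2) at h1
    obtain ⟨a, b, h3, h4, h5⟩ := twist_ev ζ hζ (fun e => T (2 : K) (t : K) N e) L (s - 1) (by omega)
    refine ⟨t, a, b, by omega, h3, h4, ?_⟩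
    have h6 : s - 1 + 1 = s := by omega
    rw [h6] at h5
    have h7 := isUnit_of_rank (ev L (TT K N ζ t a b)) (by
      rw [Fintype.card_prod, Fintype.card_fin, Fintype.card_fin]
      exact h5)
    exact ((Matrix.isUnit_iff_isUnit_det _).1 h7).ne_zero

/-- **Determinants at explicit tuples decide fullness.** -/
theorem det_iff [CharZero K] [NeZero N] (ζ : K) (hζ : IsPrimitiveRoot ζ N)
    (L : Fin m → Matrix (Fin s) (Fin s) K) (hN : 2 * (m * s ^ 2) < N) :
    NcRk L s ↔ ∃ t a b : ℕ, t ≤ s * N * N ∧ a ≤ s * N * N ∧ b ≤ s * N * N ∧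
      (ev L (TT K N ζ t a b)).det ≠ 0 := by
  refine ⟨det_hit ζ hζ L hN, ?_⟩
  rintro ⟨t, a, b, -, -, -, h⟩
  have hN0 : 0 < N := Nat.pos_of_ne_zero (NeZero.ne N)
  have : Nonempty (Fin N) := ⟨⟨0, hN0⟩⟩
  refine rank_le L s (TT K N ζ t a b) ?_
  have h1 := (Matrix.isUnit_iff_isUnit_det _).2 (isUnit_iff_ne_zero.2 h)
  rw [Matrix.rank_of_isUnit _ h1, Fintype.card_prod, Fintype.card_fin, Fintype.card_fin]

end Pool.Agent.BNR
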